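import Mathlib

/-!
# Linkage, licci ideals, perfect ideals with given invariants

All definitions used in the statement of the main theorem.
-/

namespace LicciCodimFour

open IsLocalRing RingTheory.Sequence

universe u

variable {R : Type u} [CommRing R]

/-- Two ideals `I`, `J` are directly linked if there is a regular sequence `rs` contained in
`I ∩ J` with `I = (rs) : J` and `J = (rs) : I`. -/
def DirectlyLinked (I J : Ideal R) : Prop :=
  ∃ rs : List R, IsRegular R rs ∧ Ideal.ofList rs ≤ I ⊓ J ∧
    I = (Ideal.ofList rs).colon (J : Set R) ∧ J = (Ideal.ofList rs).colon (I : Set R)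

/-- An ideal generated by a regular sequence. -/
def IsCompleteIntersection (I : Ideal R) : Prop :=
  ∃ rs : List R, IsRegular R rs ∧ I = Ideal.ofList rs

/-- An ideal is licci if a finite chain of direct links connects it to an ideal generated by a
regular sequence. -/
def IsLicci (I : Ideal R) : Prop :=
  ∃ J : Ideal R, Relation.ReflTransGen DirectlyLinked I J ∧ IsCompleteIntersection J

/-- A minimal free resolution
`⋯ → R ^ b 3 → R ^ b 2 → R ^ b 1 → R → R ⧸ I → 0`
of `R ⧸ I` over a local ring `R`: an exact complex of finite free modules all of whose maps have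
entries in the maximal ideal. -/
structure MinimalFreeResolution [IsLocalRing R] (I : Ideal R) (b : ℕ → ℕ) where
  /-- the map `R ^ b 1 → R` -/
  aug : (Fin (b 1) → R) →ₗ[R] R
  /-- the maps `R ^ b (i + 2) → R ^ b (i + 1)` -/
  d : ∀ i : ℕ, (Fin (b (i + 2)) → R) →ₗ[R] (Fin (b (i + 1)) → R)
  range_aug : LinearMap.range aug = I
  exact_aug : Function.Exact (d 0) aug
  exact_d : ∀ i, Function.Exact (d (i + 1)) (d i)
  minimal_aug : ∀ x, aug x ∈ maximalIdeal R
  minimal_d : ∀ i x j, d i x j ∈ maximalIdeal R

/-- `I` is a perfect ideal of codimension (= grade) `c`, deviation `e` and type `t`: the ideal `I`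
contains a regular sequence of length `c`, and `R ⧸ I` has a minimal free resolution of length `c`,
`0 → R ^ t → ⋯ → R ^ (c + e) → R`. -/
def IsPerfectWith [IsLocalRing R] (I : Ideal R) (c e t : ℕ) : Prop :=
  (∃ rs : List R, rs.length = c ∧ IsRegular R rs ∧ ∀ r ∈ rs, r ∈ I) ∧
    ∃ b : ℕ → ℕ, b 1 = c + e ∧ b c = t ∧ (∀ i, c < i → b i = 0) ∧
      Nonempty (MinimalFreeResolution I b)

end LicciCodimFour
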