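import Mathlib

/-!
Elementary acyclicity lemma (no Ext): a complex `0 → C 0 → C 1 → …` of modules on which
`a₁, …, a_k` is weakly regular, and on which every `a_j` is homotopic to zero, is exact in
degrees `< k`.
-/

namespace Pool.Agent.Licci

open RingTheory.Sequence Pointwise

universe u v

variable {R : Type u} [CommRing R]

theorem acyclic_of_homotopy (rs : List R) : ∀ (C : ℕ → Type v) [∀ i, AddCommGroup (C i)]
    [∀ i, Module R (C i)] (d : ∀ i, C i →ₗ[R] C (i + 1))
    (_dd : ∀ i x, d (i + 1) (d i x) = 0) (_reg : ∀ i, IsWeaklyRegular (C i) rs)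
    (_hom : ∀ r ∈ rs, ∃ s : ∀ i, C (i + 1) →ₗ[R] C i, (∀ x, s 0 (d 0 x) = r • x) ∧
      ∀ i x, d i (s i x) + s (i + 1) (d (i + 1) x) = r • x),
    (0 < rs.length → Function.Injective (d 0)) ∧
      ∀ i, i + 1 < rs.length → ∀ x, d (i + 1) x = 0 → ∃ y, d i y = x := by
  induction rs with
  | nil => intro C _ _ d _ _ _; simp
  | cons a rs ih =>
    intro C _ _ d dd reg hom
    have areg : ∀ i, IsSMulRegular (C i) a := fun i =>
      ((isWeaklyRegular_cons_iff (C i) a rs).1 (reg i)).1
    have qreg : ∀ i, IsWeaklyRegular (QuotSMulTop a (C i)) rs := fun i =>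
      ((isWeaklyRegular_cons_iff (C i) a rs).1 (reg i)).2
    obtain ⟨s, s0, s1⟩ := hom a (by simp)
    have key := ih (fun i => QuotSMulTop a (C i)) (fun i => QuotSMulTop.map a (d i))
      (by
        intro i x
        obtain ⟨x, rfl⟩ := Submodule.Quotient.mk_surjective _ x
        rw [QuotSMulTop.map_apply_mk, QuotSMulTop.map_apply_mk, dd]; rfl)
      qreg
      (by
        intro r hr
        obtain ⟨t, t0, t1⟩ := hom r (List.mem_cons_of_mem _ hr)
        refine ⟨fun i => QuotSMulTop.map a (t i), ?_, ?_⟩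
        · intro x
          obtain ⟨x, rfl⟩ := Submodule.Quotient.mk_surjective _ x
          rw [QuotSMulTop.map_apply_mk, QuotSMulTop.map_apply_mk, t0]; rfl
        · intro i x
          obtain ⟨x, rfl⟩ := Submodule.Quotient.mk_surjective _ x
          rw [QuotSMulTop.map_apply_mk, QuotSMulTop.map_apply_mk, QuotSMulTop.map_apply_mk,
            QuotSMulTop.map_apply_mk, ← Submodule.Quotient.mk_add, t1]; rfl)
    obtain ⟨k0, k1⟩ := key
    have lift0 : ∀ i (z : C i), (Submodule.Quotient.mk z : QuotSMulTop a (C i)) = 0 →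
        ∃ y, z = a • y := by
      intro i z hz
      rw [Submodule.Quotient.mk_eq_zero] at hz
      obtain ⟨y, -, hy⟩ := (Submodule.mem_smul_pointwise_iff_exists _ _ _).1 hz
      exact ⟨y, hy.symm⟩
    refine ⟨fun _ => ?_, ?_⟩
    · rw [← LinearMap.ker_eq_bot, LinearMap.ker_eq_bot']
      intro x hx
      apply areg 0
      simp only [smul_zero]
      rw [← s0, hx, map_zero]
    · intro i hi x hx
      have h1 : a • x = d i (s i x) := by rw [← s1 i x, hx, map_zero, add_zero]
      have h2 : QuotSMulTop.map a (d i) (Submodule.Quotient.mk (s i x)) = 0 := by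
        rw [QuotSMulTop.map_apply_mk, ← h1, Submodule.Quotient.mk_eq_zero]
        exact (Submodule.mem_smul_pointwise_iff_exists _ _ _).2 ⟨x, trivial, rfl⟩
      cases i with
      | zero =>
        have h3 := k0 (by simpa using hi)
        have h4 : (Submodule.Quotient.mk (s 0 x) : QuotSMulTop a (C 0)) = 0 :=
          h3 (by rw [h2, map_zero])
        obtain ⟨y, hy⟩ := lift0 _ _ h4
        refine ⟨y, ?_⟩
        apply areg 1
        show a • d 0 y = a • x
        rw [h1, hy, map_smul]
      | succ i =>
        obtain ⟨w, hw⟩ := k1 i (by simpa using hi) (Submodule.Quotient.mk (s (i + 1) x)) h2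
        obtain ⟨w, rfl⟩ := Submodule.Quotient.mk_surjective _ w
        rw [QuotSMulTop.map_apply_mk] at hw
        have h4 : (Submodule.Quotient.mk (s (i + 1) x - d i w) : QuotSMulTop a (C (i + 1))) = 0 := by
          rw [Submodule.Quotient.mk_sub, hw, sub_self]
        obtain ⟨y, hy⟩ := lift0 _ _ h4
        refine ⟨y, ?_⟩
        apply areg (i + 2)
        show a • d (i + 1) y = a • x
        rw [h1, ← map_smul, ← hy, map_sub, dd, sub_zero]

end Pool.Agent.Licci
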