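import Mathlib

/-!
# An elementary acyclicity lemma

A cochain complex `0 → C¹ → C² → ...` such that a list `rs` is weakly regular on every
`Cⁱ` and such that the cohomology in the first `rs.length` spots is killed by powers of the
elements of `rs` is exact in the first `rs.length` spots.
-/

namespace LicciCodimFour

open RingTheory.Sequence

universe u v

theorem acyclic {R : Type u} [CommRing R] (rs : List R) :
    ∀ (C : ℕ → Type v) [∀ i, AddCommGroup (C i)] [∀ i, Module R (C i)]
      (d : ∀ i, C i →ₗ[R] C (i + 1)), (∀ i x, d (i + 1) (d i x) = 0) →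
      Subsingleton (C 0) → (∀ i, IsWeaklyRegular (C i) rs) →
      (∀ r ∈ rs, ∀ i < rs.length, ∀ z, d (i + 1) z = 0 → ∃ n : ℕ, ∃ y, d i y = r ^ n • z) →
      ∀ i < rs.length, ∀ z, d (i + 1) z = 0 → ∃ y, d i y = z := by
  induction rs with
  | nil => intro C _ _ d _ _ _ _ i hi; simp at hi
  | cons r rs ih =>
    intro C _ _ d hdd h0 hreg hkill
    have hr : ∀ i, IsSMulRegular (C i) r := fun i => by
      have := hreg i
      rw [isWeaklyRegular_cons_iff] at this
      exact this.1
    -- the quotient complex
    let d' : ∀ i, QuotSMulTop r (C i) →ₗ[R] QuotSMulTop r (C (i + 1)) :=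
      fun i => QuotSMulTop.map r (d i)
    have hd' : ∀ i (x : C i), d' i (Submodule.Quotient.mk x) = Submodule.Quotient.mk (d i x) := by
      intro i x
      exact QuotSMulTop.map_apply_mk r (d i) x
    have hmk0 : ∀ i (x : C i), (Submodule.Quotient.mk x : QuotSMulTop r (C i)) = 0 ↔
        ∃ y, x = r • y := by
      intro i x
      rw [Submodule.Quotient.mk_eq_zero, Submodule.mem_smul_pointwise_iff_exists]
      constructor
      · rintro ⟨y, _, hy⟩
        exact ⟨y, hy.symm⟩
      · rintro ⟨y, hy⟩
        exact ⟨y, trivial, hy.symm⟩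
    have key : ∀ i < rs.length, ∀ z, d' (i + 1) z = 0 → ∃ y, d' i y = z := by
      apply ih (fun i => QuotSMulTop r (C i)) d'
      · intro i x
        obtain ⟨x, rfl⟩ := Submodule.Quotient.mk_surjective _ x
        rw [hd', hd', hdd]
        rfl
      · constructor
        intro a b
        obtain ⟨a, rfl⟩ := Submodule.Quotient.mk_surjective _ a
        obtain ⟨b, rfl⟩ := Submodule.Quotient.mk_surjective _ b
        rw [Subsingleton.elim a b]
      · intro i
        have := hreg i
        rw [isWeaklyRegular_cons_iff] at this
        exact this.2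
      · intro s hs i hi z hz
        obtain ⟨z, rfl⟩ := Submodule.Quotient.mk_surjective _ z
        rw [hd', hmk0] at hz
        obtain ⟨w, hw⟩ := hz
        have hdw : d (i + 2) w = 0 := by
          apply (hr (i + 3))
          show r • d (i + 2) w = r • 0
          rw [← map_smul, ← hw, hdd, smul_zero]
        obtain ⟨n, y, hy⟩ := hkill s (List.mem_cons_of_mem _ hs) (i + 1) (by simpa using hi) w hdw
        obtain ⟨m, y', hy'⟩ := hkill s (List.mem_cons_of_mem _ hs) i
          (by simp; omega) (s ^ n • z - r • y) (by
            rw [map_sub, map_smul, map_smul, hw, hy, smul_smul, smul_smul, mul_comm, sub_self])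
        refine ⟨m + n, Submodule.Quotient.mk y', ?_⟩
        rw [hd', hy', smul_sub, Submodule.Quotient.mk_sub, smul_smul, ← pow_add]
        rw [← Submodule.Quotient.mk_smul]
        have : (Submodule.Quotient.mk (s ^ m • r • y) : QuotSMulTop r (C (i + 1))) = 0 := by
          rw [hmk0]
          exact ⟨s ^ m • y, by rw [smul_smul, smul_smul, mul_comm]⟩
        rw [this, sub_zero]
    intro i hi z hz
    obtain ⟨n, y, hy⟩ := hkill r List.mem_cons_self i hi z hz
    have step : ∀ n : ℕ, (∃ y, d i y = r ^ n • z) → ∃ y, d i y = z := by
      intro n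
      induction n with
      | zero =>
        rintro ⟨y, hy⟩
        exact ⟨y, by rw [hy, pow_zero, one_smul]⟩
      | succ n ihn =>
        rintro ⟨y, hy⟩
        apply ihn
        have hy2 : d i y = r • (r ^ n • z) := by rw [hy, smul_smul, pow_succ, mul_comm]
        cases i with
        | zero =>
          refine ⟨0, ?_⟩
          have : y = 0 := Subsingleton.elim _ _
          rw [this, map_zero] at hy2
          rw [map_zero]
          apply hr 1
          show r • (0 : C 1) = r • (r ^ n • z)
          rw [smul_zero, hy2]
        | succ j =>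
          obtain ⟨y2, hy2'⟩ := key j (by simpa using hi) (Submodule.Quotient.mk y) (by
            rw [hd', hmk0]
            exact ⟨_, hy2⟩)
          obtain ⟨y2, rfl⟩ := Submodule.Quotient.mk_surjective _ y2
          rw [hd', ← sub_eq_zero, ← Submodule.Quotient.mk_sub, hmk0] at hy2'
          obtain ⟨y3, hy3⟩ := hy2'
          refine ⟨- y3, ?_⟩
          apply hr (j + 2)
          show r • d (j + 1) (-y3) = r • (r ^ n • z)
          rw [← hy2, map_neg, smul_neg, ← map_smul, ← hy3, map_sub, hdd, zero_sub, neg_neg]
    exact step n ⟨y, hy⟩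

end LicciCodimFour
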