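import Pool.Agent.Work.MP_a98e4e_ag.Acyclic

/-!
# The acyclicity lemma for an explicit complex of five modules
-/

namespace LicciCodimFour

open RingTheory.Sequence

universe u v

variable {R : Type u} [CommRing R]

/-- The modules of a five term complex, extended by zero. -/
def fam5 (R : Type u) [CommRing R] (M1 M2 M3 M4 M5 : ModuleCat.{v} R) : ℕ → ModuleCat.{v} R
  | 1 => M1
  | 2 => M2
  | 3 => M3
  | 4 => M4
  | 5 => M5
  | _ => ModuleCat.of R PUnit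

/-- The differentials of a five term complex, extended by zero. -/
def famd5 (R : Type u) [CommRing R] (M1 M2 M3 M4 M5 : ModuleCat.{v} R)
    (f1 : M1 →ₗ[R] M2) (f2 : M2 →ₗ[R] M3) (f3 : M3 →ₗ[R] M4) (f4 : M4 →ₗ[R] M5) :
    ∀ i, (fam5 R M1 M2 M3 M4 M5 i) →ₗ[R] (fam5 R M1 M2 M3 M4 M5 (i + 1))
  | 0 => 0
  | 1 => f1
  | 2 => f2
  | 3 => f3
  | 4 => f4
  | _ + 5 => 0

/-- Acyclicity lemma for five explicit modules `M1 → M2 → M3 → M4 → M5` and a list of length four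
which is weakly regular on all of them and whose elements kill (up to powers) the cohomology at
`M1, …, M4`. -/
theorem acyclic5 {M1 M2 M3 M4 M5 : Type v} [AddCommGroup M1] [Module R M1] [AddCommGroup M2]
    [Module R M2] [AddCommGroup M3] [Module R M3] [AddCommGroup M4] [Module R M4]
    [AddCommGroup M5] [Module R M5] (f1 : M1 →ₗ[R] M2) (f2 : M2 →ₗ[R] M3) (f3 : M3 →ₗ[R] M4)
    (f4 : M4 →ₗ[R] M5) (h12 : ∀ x, f2 (f1 x) = 0) (h23 : ∀ x, f3 (f2 x) = 0)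
    (h34 : ∀ x, f4 (f3 x) = 0) (rs : List R) (hlen : rs.length = 4)
    (r1 : IsWeaklyRegular M1 rs) (r2 : IsWeaklyRegular M2 rs) (r3 : IsWeaklyRegular M3 rs)
    (r4 : IsWeaklyRegular M4 rs) (r5 : IsWeaklyRegular M5 rs)
    (k1 : ∀ r ∈ rs, ∀ z, f1 z = 0 → ∃ n : ℕ, r ^ n • z = 0)
    (k2 : ∀ r ∈ rs, ∀ z, f2 z = 0 → ∃ n : ℕ, ∃ y, f1 y = r ^ n • z)
    (k3 : ∀ r ∈ rs, ∀ z, f3 z = 0 → ∃ n : ℕ, ∃ y, f2 y = r ^ n • z)
    (k4 : ∀ r ∈ rs, ∀ z, f4 z = 0 → ∃ n : ℕ, ∃ y, f3 y = r ^ n • z) :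
    Function.Injective f1 ∧ Function.Exact f1 f2 ∧ Function.Exact f2 f3 ∧
      Function.Exact f3 f4 := by
  let A1 := ModuleCat.of R M1
  let A2 := ModuleCat.of R M2
  let A3 := ModuleCat.of R M3
  let A4 := ModuleCat.of R M4
  let A5 := ModuleCat.of R M5
  let g1 : A1 →ₗ[R] A2 := f1
  let g2 : A2 →ₗ[R] A3 := f2
  let g3 : A3 →ₗ[R] A4 := f3
  let g4 : A4 →ₗ[R] A5 := f4
  have hpu : IsWeaklyRegular (PUnit.{v + 1}) rs := by
    constructor
    intro i hi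
    intro x y _
    exact Subsingleton.elim _ _
  have key := acyclic rs (fun i => fam5 R A1 A2 A3 A4 A5 i) (famd5 R A1 A2 A3 A4 A5 g1 g2 g3 g4)
    (fun i => match i with
      | 0 => fun x => map_zero g1
      | 1 => fun x => h12 x
      | 2 => fun x => h23 x
      | 3 => fun x => h34 x
      | 4 => fun _ => rfl
      | _ + 5 => fun _ => rfl)
    (by show Subsingleton PUnit; infer_instance)
    (fun i => match i with
      | 0 => hpu
      | 1 => r1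
      | 2 => r2
      | 3 => r3
      | 4 => r4
      | 5 => r5
      | _ + 6 => hpu)
    (fun r hr i hi => match i, hi with
      | 0, _ => fun z hz => by
          obtain ⟨n, hn⟩ := k1 r hr z hz
          exact ⟨n, 0, ((map_zero _).trans hn.symm)⟩
      | 1, _ => fun z hz => k2 r hr z hz
      | 2, _ => fun z hz => k3 r hr z hz
      | 3, _ => fun z hz => k4 r hr z hz
      | _ + 4, h => absurd h (by omega))
  have e0 := key 0 (by omega)
  have e1 := key 1 (by omega)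
  have e2 := key 2 (by omega)
  have e3 := key 3 (by omega)
  refine ⟨?_, ?_, ?_, ?_⟩
  · rw [injective_iff_map_eq_zero]
    intro z hz
    obtain ⟨y, hy⟩ := e0 z hz
    rw [← hy]
    rfl
  · intro z
    exact ⟨fun hz => e1 z hz, by rintro ⟨y, rfl⟩; exact h12 y⟩
  · intro z
    exact ⟨fun hz => e2 z hz, by rintro ⟨y, rfl⟩; exact h23 y⟩
  · intro z
    exact ⟨fun hz => e3 z hz, by rintro ⟨y, rfl⟩; exact h34 y⟩

/-- Four term version: with `M5 = 0`, the last map is onto. -/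
theorem acyclic4_surjective {M1 M2 M3 M4 : Type v} [AddCommGroup M1] [Module R M1]
    [AddCommGroup M2] [Module R M2] [AddCommGroup M3] [Module R M3] [AddCommGroup M4]
    [Module R M4] (f1 : M1 →ₗ[R] M2) (f2 : M2 →ₗ[R] M3) (f3 : M3 →ₗ[R] M4)
    (h12 : ∀ x, f2 (f1 x) = 0) (h23 : ∀ x, f3 (f2 x) = 0)
    (rs : List R) (hlen : rs.length = 4)
    (r1 : IsWeaklyRegular M1 rs) (r2 : IsWeaklyRegular M2 rs) (r3 : IsWeaklyRegular M3 rs)
    (r4 : IsWeaklyRegular M4 rs)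
    (k1 : ∀ r ∈ rs, ∀ z, f1 z = 0 → ∃ n : ℕ, r ^ n • z = 0)
    (k2 : ∀ r ∈ rs, ∀ z, f2 z = 0 → ∃ n : ℕ, ∃ y, f1 y = r ^ n • z)
    (k3 : ∀ r ∈ rs, ∀ z, f3 z = 0 → ∃ n : ℕ, ∃ y, f2 y = r ^ n • z)
    (k4 : ∀ r ∈ rs, ∀ z, ∃ n : ℕ, ∃ y, f3 y = r ^ n • z) :
    Function.Injective f1 ∧ Function.Exact f1 f2 ∧ Function.Exact f2 f3 ∧
      Function.Surjective f3 := by
  have hpu : IsWeaklyRegular (PUnit.{v + 1}) rs := by
    constructor
    intro i hi
    intro x y _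
    exact Subsingleton.elim _ _
  obtain ⟨a, b, c, d⟩ := acyclic5 f1 f2 f3 (0 : M4 →ₗ[R] PUnit.{v + 1}) h12 h23
    (fun x => rfl) rs hlen r1 r2 r3 r4 hpu k1 k2 k3 (fun r hr z _ => k4 r hr z)
  exact ⟨a, b, c, fun z => (d z).1 rfl⟩

end LicciCodimFour
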