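import Pool.Agent.Work.MP_a98e4e_ag.Koszul4

/-!
# From a free resolution of length four to the link identities

Let `0 → F₄ → F₃ → F₂ → F₁ → R` be exact with image `I`, and let `a₀,…,a₃ ∈ I` be a weakly
regular sequence, `α = (a₀,…,a₃)`.  Then `α : I = α + (w_1,…,w_t)`, `t = rank F₄`, and
`α : (α : I) = I`.
-/

namespace LicciCodimFour

open RingTheory.Sequence

universe u v

variable {R : Type u} [CommRing R]

/-- The ideal generated by the four elements. -/
abbrev al (a : Fin 4 → R) : Ideal R := Ideal.span (Set.range a)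

theorem exists_lift {P A B C : Type*} [AddCommGroup P] [Module R P] [AddCommGroup A] [Module R A]
    [AddCommGroup B] [Module R B] [AddCommGroup C] [Module R C] [Module.Projective R P]
    {u : A →ₗ[R] B} {v : B →ₗ[R] C} (h : Function.Exact u v) (f : P →ₗ[R] B)
    (hf : ∀ x, v (f x) = 0) : ∃ g : P →ₗ[R] A, ∀ x, u (g x) = f x := by
  have hmem : ∀ x, f x ∈ LinearMap.range u := fun x => (h (f x)).1 (hf x)
  obtain ⟨g, hg⟩ := Module.projective_lifting_property u.rangeRestrict
    (f.codRestrict (LinearMap.range u) hmem) u.surjective_rangeRestrict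
  refine ⟨g, fun x => ?_⟩
  have := congrArg Subtype.val (LinearMap.congr_fun hg x)
  simpa using this

theorem mem_al_iff (a : Fin 4 → R) (r : R) :
    r ∈ al a ↔ ∃ x : Fin 4 → R, k1 a x = fun _ => r := by
  rw [al, Ideal.mem_span_range_iff_exists_fun]
  constructor
  · rintro ⟨c, hc⟩
    refine ⟨c, ?_⟩
    rw [k1_apply]
    ext i
    fin_cases i
    simp [Fin.sum_univ_succ] at hc ⊢
    rw [← hc]
    ring
  · rintro ⟨x, hx⟩
    refine ⟨x, ?_⟩
    rw [k1_apply] at hx
    have := congrFun hx 0
    simp at this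
    rw [← this]
    simp [Fin.sum_univ_succ]
    ring

theorem map_k4_mem {b : ℕ} (a : Fin 4 → R) (g : (Fin 4 → R) →ₗ[R] (Fin b → R)) (z : Fin 1 → R)
    (i : Fin b) : g (k4 a z) i ∈ al a := by
  have h : k4 a z = (-a 3 * z 0) • Pi.single 0 1 + (a 2 * z 0) • Pi.single 1 1 +
      (-a 1 * z 0) • Pi.single 2 1 + (a 0 * z 0) • Pi.single 3 1 := by
    rw [k4_apply]
    ext j
    fin_cases j <;> simp
  have hm : ∀ j, a j ∈ al a := fun j => Ideal.subset_span ⟨j, rfl⟩
  rw [h]
  simp only [map_add, map_smul, Pi.add_apply, Pi.smul_apply, smul_eq_mul]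
  refine Ideal.add_mem _ (Ideal.add_mem _ (Ideal.add_mem _ ?_ ?_) ?_) ?_
  · exact Ideal.mul_mem_right _ _ (Ideal.mul_mem_right _ _ (neg_mem (hm 3)))
  · exact Ideal.mul_mem_right _ _ (Ideal.mul_mem_right _ _ (hm 2))
  · exact Ideal.mul_mem_right _ _ (Ideal.mul_mem_right _ _ (neg_mem (hm 1)))
  · exact Ideal.mul_mem_right _ _ (Ideal.mul_mem_right _ _ (hm 0))

/-- A functional on `K₃` with prescribed value in `α` on the generator of `K₄`. -/
theorem exists_functional (a : Fin 4 → R) {b : ℕ} (v : Fin b → R) (hv : ∀ i, v i ∈ al a) :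
    ∃ s : (Fin 4 → R) →ₗ[R] (Fin b → R), ∀ z, s (k4 a z) = z 0 • v := by
  choose x hx using fun i => (mem_al_iff a (v i)).1 (hv i)
  refine ⟨LinearMap.pi fun i => Fintype.linearCombination R
    ![-(x i 3), x i 2, -(x i 1), x i 0], ?_⟩
  intro z
  ext i
  have h := congrFun (hx i) 0
  rw [k1_apply] at h
  simp at h
  rw [k4_apply]
  simp [Fintype.linearCombination_apply, Fin.sum_univ_succ]
  rw [← h]
  ring

theorem bridge {b1 b2 b3 b4 : ℕ} (e1 : (Fin b1 → R) →ₗ[R] R)
    (e2 : (Fin b2 → R) →ₗ[R] (Fin b1 → R)) (e3 : (Fin b3 → R) →ₗ[R] (Fin b2 → R))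
    (e4 : (Fin b4 → R) →ₗ[R] (Fin b3 → R)) (h1 : Function.Exact e2 e1)
    (h2 : Function.Exact e3 e2) (h3 : Function.Exact e4 e3) (h4 : Function.Injective e4)
    (I : Ideal R) (hI : LinearMap.range e1 = I) (a : Fin 4 → R)
    (ha : IsWeaklyRegular R (list4 a)) (haI : ∀ i, a i ∈ I) :
    ∃ w : Fin b4 → R, (al a).colon (I : Set R) = al a ⊔ Ideal.span (Set.range w) ∧
      (al a).colon (((al a).colon (I : Set R) : Ideal R) : Set R) = I := by
  have ha4 : ∀ b m, IsWeaklyRegular (Fin m → Fin b → R) (list4 a) :=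
    fun b m => isWeaklyRegular_pi_pi ha m b
  obtain ⟨kinj, kex3, kex2, kex1⟩ := koszul_exact a ha
  -- the comparison map `K → F`
  obtain ⟨p1, hp1⟩ : ∃ p1 : (Fin 4 → R) →ₗ[R] (Fin b1 → R), ∀ x, e1 (p1 x) = k1 a x 0 := by
    have : ∀ i, ∃ y, e1 y = a i := by
      intro i
      have := haI i
      rw [← hI] at this
      exact this
    choose y hy using this
    refine ⟨Fintype.linearCombination R y, ?_⟩
    intro x
    rw [Fintype.linearCombination_apply, map_sum, k1_apply]
    simp [Fin.sum_univ_succ, hy]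
    ring
  obtain ⟨p2, hp2⟩ := exists_lift h1 (p1 ∘ₗ k2 a) (fun x => by
    rw [LinearMap.comp_apply, hp1, k1_k2]; rfl)
  obtain ⟨p3, hp3⟩ := exists_lift h2 (p2 ∘ₗ k3 a) (fun x => by
    rw [LinearMap.comp_apply, hp2, LinearMap.comp_apply, k2_k3, map_zero])
  obtain ⟨p4, hp4⟩ := exists_lift h3 (p3 ∘ₗ k4 a) (fun x => by
    rw [LinearMap.comp_apply, hp3, LinearMap.comp_apply, k3_k4, map_zero])
  simp only [LinearMap.comp_apply] at hp2 hp3 hp4
  set w : Fin b4 → R := p4 (fun _ => 1) with hw
  -- `w_i ∈ α : I`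
  have hwI : ∀ x ∈ I, ∀ i, x * w i ∈ al a := by
    intro x hx i
    rw [← hI] at hx
    obtain ⟨y, hy⟩ := hx
    obtain ⟨g1, hg1⟩ := exists_lift h1 (x • LinearMap.id - e1.smulRight y) (fun z => by
      simp only [LinearMap.sub_apply, LinearMap.smul_apply, LinearMap.id_apply,
        LinearMap.smulRight_apply, map_sub, map_smul, hy, smul_eq_mul]
      ring)
    obtain ⟨g2, hg2⟩ := exists_lift h2 (x • LinearMap.id - g1 ∘ₗ e2) (fun z => by
      simp only [LinearMap.sub_apply, LinearMap.smul_apply, LinearMap.id_apply,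
        LinearMap.comp_apply, map_sub, map_smul, hg1, LinearMap.smulRight_apply]
      rw [h1.apply_apply_eq_zero]
      simp)
    obtain ⟨g3, hg3⟩ := exists_lift h3 (x • LinearMap.id - g2 ∘ₗ e3) (fun z => by
      simp only [LinearMap.sub_apply, LinearMap.smul_apply, LinearMap.id_apply,
        LinearMap.comp_apply, map_sub, map_smul, hg2]
      rw [h2.apply_apply_eq_zero]
      simp)
    simp only [LinearMap.sub_apply, LinearMap.smul_apply, LinearMap.id_apply,
      LinearMap.comp_apply] at hg3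
    have key : ∀ z, x • z = g3 (e4 z) := by
      intro z
      apply h4
      rw [hg3, h3.apply_apply_eq_zero]
      simp
    have : x * w i = g3 (p3 (k4 a (fun _ => 1))) i := by
      have h5 := key w
      rw [hw, hp4] at h5
      have h6 := congrFun h5 i
      rw [← h6]
      rfl
    rw [this]
    exact map_k4_mem a (g3 ∘ₗ p3) _ i
  -- `α : I ⊆ α + (w)`
  have hsub : ∀ r, (∀ x ∈ I, r * x ∈ al a) → r ∈ al a ⊔ Ideal.span (Set.range w) := by
    intro r hr
    obtain ⟨q1, hq1⟩ : ∃ q1 : (Fin b1 → R) →ₗ[R] (Fin 4 → R),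
        ∀ y, k1 a (q1 y) = fun _ => r * e1 y := by
      have : ∀ j : Fin b1, ∃ x : Fin 4 → R, k1 a x = fun _ => r * e1 (Pi.single j 1) := by
        intro j
        rw [← mem_al_iff]
        apply hr
        rw [← hI]
        exact ⟨_, rfl⟩
      choose x hx using this
      refine ⟨Fintype.linearCombination R x, ?_⟩
      intro y
      rw [Fintype.linearCombination_apply, map_sum]
      simp only [map_smul, hx]
      ext i
      rw [Finset.sum_apply]
      simp only [Pi.smul_apply, smul_eq_mul]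
      conv_rhs => rw [LinearMap.pi_apply_eq_sum_univ e1 y]
      rw [Finset.mul_sum]
      refine Finset.sum_congr rfl fun j _ => ?_
      have : (Pi.single j 1 : Fin b1 → R) = fun i => if j = i then 1 else 0 := by
        ext i
        simp [Pi.single_apply, eq_comm]
      rw [this, smul_eq_mul]
      ring
    obtain ⟨q2, hq2⟩ := exists_lift kex1 (q1 ∘ₗ e2) (fun y => by
      rw [LinearMap.comp_apply, hq1, h1.apply_apply_eq_zero, mul_zero]; rfl)
    obtain ⟨q3, hq3⟩ := exists_lift kex2 (q2 ∘ₗ e3) (fun y => by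
      rw [LinearMap.comp_apply, hq2, LinearMap.comp_apply, h2.apply_apply_eq_zero, map_zero])
    obtain ⟨q4, hq4⟩ := exists_lift kex3 (q3 ∘ₗ e4) (fun y => by
      rw [LinearMap.comp_apply, hq3, LinearMap.comp_apply, h3.apply_apply_eq_zero, map_zero])
    simp only [LinearMap.comp_apply] at hq2 hq3 hq4
    obtain ⟨s1, hs1⟩ := exists_lift kex1 (r • LinearMap.id - q1 ∘ₗ p1) (fun x => by
      simp only [LinearMap.sub_apply, LinearMap.smul_apply, LinearMap.id_apply,
        LinearMap.comp_apply, map_sub, map_smul, hq1, hp1]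
      ext i
      fin_cases i
      simp)
    obtain ⟨s2, hs2⟩ := exists_lift kex2 (r • LinearMap.id - q2 ∘ₗ p2 - s1 ∘ₗ k2 a) (fun x => by
      simp only [LinearMap.sub_apply, LinearMap.smul_apply, LinearMap.id_apply,
        LinearMap.comp_apply, map_sub, map_smul, hq2, hp2, hs1]
      abel)
    obtain ⟨s3, hs3⟩ := exists_lift kex3 (r • LinearMap.id - q3 ∘ₗ p3 - s2 ∘ₗ k3 a) (fun x => by
      simp only [LinearMap.sub_apply, LinearMap.smul_apply, LinearMap.id_apply,
        LinearMap.comp_apply, map_sub, map_smul, hq3, hp3, hs2, k2_k3, map_zero]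
      abel)
    have key : ∀ z, r • z = q4 (p4 z) + s3 (k4 a z) := by
      intro z
      apply kinj
      rw [map_add, hq4, hp4, hs3]
      simp only [LinearMap.sub_apply, LinearMap.smul_apply, LinearMap.id_apply,
        LinearMap.comp_apply, k3_k4, map_zero, map_smul]
      abel
    have h5 := congrFun (key (fun _ => 1)) 0
    rw [← hw] at h5
    simp only [Pi.smul_apply, smul_eq_mul, mul_one, Pi.add_apply] at h5
    rw [h5]
    apply Ideal.add_mem
    · apply Ideal.mem_sup_right
      have h6 : q4 w 0 = ∑ j, w j * q4 (fun i => if j = i then 1 else 0) 0 := by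
        conv_lhs => rw [LinearMap.pi_apply_eq_sum_univ q4 w]
        rw [Finset.sum_apply]
        rfl
      rw [h6]
      refine Ideal.sum_mem _ fun j _ => Ideal.mul_mem_right _ _ (Ideal.subset_span ⟨j, rfl⟩)
    · apply Ideal.mem_sup_left
      exact map_k4_mem a s3 _ 0
  -- `α : (α : I) ⊆ I`
  have hdouble : ∀ r, (∀ i, r * w i ∈ al a) → r ∈ I := by
    intro r hr
    obtain ⟨s4, hs4⟩ := exists_functional a (fun i => r * w i) hr
    have hs4' : ∀ z, s4 (k4 a z) = r • p4 z := by
      intro z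
      rw [hs4]
      have hz : z = z 0 • (fun _ => (1 : R)) := by
        ext i
        fin_cases i
        simp
      conv_rhs => rw [hz, map_smul, ← hw]
      ext i
      simp only [Pi.smul_apply, smul_eq_mul]
      ring
    obtain ⟨s3, hs3⟩ := extend_k4 a (ha4 b3) (r • p3 - e4 ∘ₗ s4) (fun x => by
      simp only [LinearMap.sub_apply, LinearMap.smul_apply, LinearMap.comp_apply]
      rw [hs4', map_smul, hp4, sub_self])
    obtain ⟨s2, hs2⟩ := extend_k3 a (ha4 b2) (r • p2 - e3 ∘ₗ s3) (fun x => by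
      simp only [LinearMap.sub_apply, LinearMap.smul_apply, LinearMap.comp_apply]
      rw [hs3]
      simp only [LinearMap.sub_apply, LinearMap.smul_apply, LinearMap.comp_apply, map_sub, map_smul]
      rw [h3.apply_apply_eq_zero, hp3, sub_zero, sub_self])
    obtain ⟨s1, hs1⟩ := extend_k2 a (ha4 b1) (r • p1 - e2 ∘ₗ s2) (fun x => by
      simp only [LinearMap.sub_apply, LinearMap.smul_apply, LinearMap.comp_apply]
      rw [hs2]
      simp only [LinearMap.sub_apply, LinearMap.smul_apply, LinearMap.comp_apply, map_sub, map_smul]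
      rw [h2.apply_apply_eq_zero, hp2, sub_zero, sub_self])
    have h0 : ∀ x, r * k1 a x 0 = e1 (s1 (k1 a x)) := by
      intro x
      rw [hs1]
      simp only [LinearMap.sub_apply, LinearMap.smul_apply, LinearMap.comp_apply, map_sub, map_smul]
      rw [h1.apply_apply_eq_zero, hp1, sub_zero]
      rfl
    have h00 : r = e1 (s1 (fun _ => 1)) := by
      have hreg : IsSMulRegular R (a 0) := by
        have := ha
        rw [list4, isWeaklyRegular_cons_iff] at this
        exact this.1
      apply hreg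
      have h7 := h0 ![1, 0, 0, 0]
      rw [k1_apply] at h7
      have h8 : (![a 0 * ![(1 : R), 0, 0, 0] 0 + a 1 * ![(1 : R), 0, 0, 0] 1 +
          a 2 * ![(1 : R), 0, 0, 0] 2 + a 3 * ![(1 : R), 0, 0, 0] 3] : Fin 1 → R) =
          a 0 • (fun _ => 1) := by
        ext i
        fin_cases i
        simp
      rw [h8, map_smul, map_smul] at h7
      simp only [Pi.smul_apply, smul_eq_mul, mul_one] at h7 ⊢
      rw [← h7]
      ring
    rw [← hI, h00]
    exact ⟨_, rfl⟩
  have hcol : ∀ r, r ∈ (al a).colon (I : Set R) ↔ ∀ x ∈ I, r * x ∈ al a := by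
    intro r
    rw [Submodule.mem_colon]
    rfl
  have hwmem : ∀ i, w i ∈ (al a).colon (I : Set R) := by
    intro i
    rw [hcol]
    intro x hx
    rw [mul_comm]
    exact hwI x hx i
  refine ⟨w, le_antisymm ?_ ?_, le_antisymm ?_ ?_⟩
  · intro r hr
    exact hsub r ((hcol r).1 hr)
  · apply sup_le Ideal.le_colon
    rw [Ideal.span_le]
    rintro _ ⟨i, rfl⟩
    exact hwmem i
  · intro r hr
    rw [Submodule.mem_colon] at hr
    exact hdouble r fun i => hr _ (hwmem i)
  · intro r hr
    rw [Submodule.mem_colon]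
    intro s hs
    have := (hcol s).1 hs r hr
    rw [smul_eq_mul, mul_comm]
    exact this

end LicciCodimFour
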