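import Pool.Agent.Work.MP_a98e4e_ag.Acyclic5
import Pool.Agent.Work.MP_a98e4e_ag.Bridge

/-!
# Null-homotopies of a resolution and exactness of the dual complex
-/

namespace LicciCodimFour

open RingTheory.Sequence

universe u

variable {R : Type u} [CommRing R]

theorem isWeaklyRegular_of_flat {rs : List R} (h : IsWeaklyRegular R rs) (N : Type*)
    [AddCommGroup N] [Module R N] [Module.Flat R N] : IsWeaklyRegular N rs := by
  have h1 := IsWeaklyRegular.isWeaklyRegular_lTensor (M₂ := N) h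
  exact (LinearEquiv.isWeaklyRegular_congr (TensorProduct.rid R N) rs).1 h1

/-- Multiplication by `x = e1 u` is null-homotopic on a resolution `0 → F4 → F3 → F2 → F1 → R`. -/
theorem null_homotopy {F1 F2 F3 F4 : Type*} [AddCommGroup F1] [Module R F1] [AddCommGroup F2]
    [Module R F2] [AddCommGroup F3] [Module R F3] [AddCommGroup F4] [Module R F4]
    [Module.Projective R F1] [Module.Projective R F2] [Module.Projective R F3]
    (e1 : F1 →ₗ[R] R) (e2 : F2 →ₗ[R] F1) (e3 : F3 →ₗ[R] F2) (e4 : F4 →ₗ[R] F3)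
    (h1 : Function.Exact e2 e1) (h2 : Function.Exact e3 e2) (h3 : Function.Exact e4 e3)
    (h4 : Function.Injective e4) (u : F1) :
    ∃ (g1 : F1 →ₗ[R] F2) (g2 : F2 →ₗ[R] F3) (g3 : F3 →ₗ[R] F4),
      (∀ z, e2 (g1 z) = e1 u • z - e1 z • u) ∧ (∀ z, e3 (g2 z) = e1 u • z - g1 (e2 z)) ∧
      (∀ z, e4 (g3 z) = e1 u • z - g2 (e3 z)) ∧ (∀ z, g3 (e4 z) = e1 u • z) := by
  obtain ⟨g1, hg1⟩ := exists_lift h1 (e1 u • LinearMap.id - e1.smulRight u) (fun z => by
    simp only [LinearMap.sub_apply, LinearMap.smul_apply, LinearMap.id_apply,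
      LinearMap.smulRight_apply, map_sub, map_smul, smul_eq_mul]
    ring)
  obtain ⟨g2, hg2⟩ := exists_lift h2 (e1 u • LinearMap.id - g1 ∘ₗ e2) (fun z => by
    simp only [LinearMap.sub_apply, LinearMap.smul_apply, LinearMap.id_apply,
      LinearMap.comp_apply, map_sub, map_smul, hg1, LinearMap.smulRight_apply]
    rw [h1.apply_apply_eq_zero]
    simp)
  obtain ⟨g3, hg3⟩ := exists_lift h3 (e1 u • LinearMap.id - g2 ∘ₗ e3) (fun z => by
    simp only [LinearMap.sub_apply, LinearMap.smul_apply, LinearMap.id_apply,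
      LinearMap.comp_apply, map_sub, map_smul, hg2]
    rw [h2.apply_apply_eq_zero]
    simp)
  simp only [LinearMap.sub_apply, LinearMap.smul_apply, LinearMap.id_apply,
    LinearMap.comp_apply, LinearMap.smulRight_apply] at hg1 hg2 hg3
  refine ⟨g1, g2, g3, hg1, hg2, hg3, fun z => ?_⟩
  apply h4
  rw [hg3, h3.apply_apply_eq_zero, map_smul]
  simp

/-- Exactness of the dual of a resolution `0 → F4 → F3 → F2 → F1 → R` of `R ⧸ I` in degrees
`0, 1, 2, 3`, if `I` has grade at least four. -/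
theorem dual_exact {F1 F2 F3 F4 : Type u} [AddCommGroup F1] [Module R F1] [AddCommGroup F2]
    [Module R F2] [AddCommGroup F3] [Module R F3] [AddCommGroup F4] [Module R F4]
    [Module.Projective R F1] [Module.Projective R F2] [Module.Projective R F3]
    [Module.Projective R F4] [Module.Finite R F1] [Module.Finite R F2] [Module.Finite R F3]
    [Module.Finite R F4]
    (e1 : F1 →ₗ[R] R) (e2 : F2 →ₗ[R] F1) (e3 : F3 →ₗ[R] F2) (e4 : F4 →ₗ[R] F3)
    (h1 : Function.Exact e2 e1) (h2 : Function.Exact e3 e2) (h3 : Function.Exact e4 e3)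
    (h4 : Function.Injective e4) (rs : List R) (hlen : rs.length = 4)
    (hrs : IsWeaklyRegular R rs) (hmem : ∀ r ∈ rs, r ∈ LinearMap.range e1) :
    (∀ c : R, c • e1 = 0 → c = 0) ∧
    (∀ ξ : F1 →ₗ[R] R, (∀ z, ξ (e2 z) = 0) → ∃ c : R, ξ = c • e1) ∧
    (∀ ξ : F2 →ₗ[R] R, (∀ z, ξ (e3 z) = 0) → ∃ η : F1 →ₗ[R] R, ∀ z, ξ z = η (e2 z)) ∧
    (∀ ξ : F3 →ₗ[R] R, (∀ z, ξ (e4 z) = 0) → ∃ η : F2 →ₗ[R] R, ∀ z, ξ z = η (e3 z)) := by
  have key := acyclic5 (M1 := R) (M2 := Module.Dual R F1) (M3 := Module.Dual R F2)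
    (M4 := Module.Dual R F3) (M5 := Module.Dual R F4)
    (LinearMap.toSpanSingleton R (Module.Dual R F1) e1) e2.dualMap e3.dualMap e4.dualMap
    (fun c => by
      ext z
      simp [LinearMap.dualMap_apply, h1.apply_apply_eq_zero])
    (fun ξ => by
      ext z
      simp [LinearMap.dualMap_apply, h2.apply_apply_eq_zero])
    (fun ξ => by
      ext z
      simp [LinearMap.dualMap_apply, h3.apply_apply_eq_zero])
    rs hlen hrs (isWeaklyRegular_of_flat hrs _) (isWeaklyRegular_of_flat hrs _)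
    (isWeaklyRegular_of_flat hrs _) (isWeaklyRegular_of_flat hrs _)
    (fun r hr c hc => by
      obtain ⟨u, rfl⟩ := hmem r hr
      refine ⟨1, ?_⟩
      have := LinearMap.congr_fun hc u
      simp only [LinearMap.toSpanSingleton_apply, LinearMap.smul_apply, smul_eq_mul,
        LinearMap.zero_apply] at this
      rw [pow_one, smul_eq_mul, mul_comm]
      exact this)
    (fun r hr ξ hξ => by
      obtain ⟨u, rfl⟩ := hmem r hr
      obtain ⟨g1, g2, g3, hg1, hg2, hg3, hg4⟩ := null_homotopy e1 e2 e3 e4 h1 h2 h3 h4 u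
      refine ⟨1, ξ u, ?_⟩
      ext z
      have h5 := congrArg ξ (hg1 z)
      have h6 := LinearMap.congr_fun hξ (g1 z)
      simp only [LinearMap.dualMap_apply, LinearMap.zero_apply] at h6
      rw [h6, map_sub, map_smul, map_smul, smul_eq_mul, smul_eq_mul] at h5
      simp only [LinearMap.toSpanSingleton_apply, LinearMap.smul_apply, smul_eq_mul, pow_one]
      linear_combination h5)
    (fun r hr ξ hξ => by
      obtain ⟨u, rfl⟩ := hmem r hr
      obtain ⟨g1, g2, g3, hg1, hg2, hg3, hg4⟩ := null_homotopy e1 e2 e3 e4 h1 h2 h3 h4 u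
      refine ⟨1, ξ ∘ₗ g1, ?_⟩
      ext z
      have h5 := congrArg ξ (hg2 z)
      have h6 := LinearMap.congr_fun hξ (g2 z)
      simp only [LinearMap.dualMap_apply, LinearMap.zero_apply] at h6
      rw [h6, map_sub, map_smul, smul_eq_mul] at h5
      simp only [LinearMap.dualMap_apply, LinearMap.comp_apply, LinearMap.smul_apply,
        smul_eq_mul, pow_one]
      linear_combination h5)
    (fun r hr ξ hξ => by
      obtain ⟨u, rfl⟩ := hmem r hr
      obtain ⟨g1, g2, g3, hg1, hg2, hg3, hg4⟩ := null_homotopy e1 e2 e3 e4 h1 h2 h3 h4 u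
      refine ⟨1, ξ ∘ₗ g2, ?_⟩
      ext z
      have h5 := congrArg ξ (hg3 z)
      have h6 := LinearMap.congr_fun hξ (g3 z)
      simp only [LinearMap.dualMap_apply, LinearMap.zero_apply] at h6
      rw [h6, map_sub, map_smul, smul_eq_mul] at h5
      simp only [LinearMap.dualMap_apply, LinearMap.comp_apply, LinearMap.smul_apply,
        smul_eq_mul, pow_one]
      linear_combination h5)
  obtain ⟨a, b, c, d⟩ := key
  refine ⟨?_, ?_, ?_, ?_⟩
  · intro t ht
    apply a
    rw [map_zero]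
    exact ht
  · intro ξ hξ
    obtain ⟨t, ht⟩ := (b ξ).1 (by ext z; exact hξ z)
    exact ⟨t, ht.symm⟩
  · intro ξ hξ
    obtain ⟨η, hη⟩ := (c ξ).1 (by ext z; exact hξ z)
    exact ⟨η, fun z => (LinearMap.congr_fun hη z).symm⟩
  · intro ξ hξ
    obtain ⟨η, hη⟩ := (d ξ).1 (by ext z; exact hξ z)
    exact ⟨η, fun z => (LinearMap.congr_fun hη z).symm⟩

end LicciCodimFour
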