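import Mathlib

namespace Pool.Agent.Licci

open RingTheory.Sequence Pointwise

universe u v

variable {R : Type u} [CommRing R]

/-- A weakly regular sequence on `M` is weakly regular on `ι → M`. -/
theorem isWeaklyRegular_pi {ι : Type*} [Finite ι] (rs : List R) :
    ∀ (M : Type v) [AddCommGroup M] [Module R M], IsWeaklyRegular M rs →
      IsWeaklyRegular (ι → M) rs := by
  classical
  cases nonempty_fintype ι
  induction rs with
  | nil => intro M _ _ _; simp
  | cons a rs ih =>
    intro M _ _ h
    rw [isWeaklyRegular_cons_iff] at h ⊢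
    obtain ⟨h1, h2⟩ := h
    refine ⟨fun x y hxy => funext fun i => h1 (congrFun hxy i), ?_⟩
    have e1 : (a • (⊤ : Submodule R (ι → M))) =
        Submodule.pi Set.univ (fun _ : ι => a • (⊤ : Submodule R M)) := by
      ext x
      rw [Submodule.mem_smul_pointwise_iff_exists, Submodule.mem_pi]
      constructor
      · rintro ⟨y, -, rfl⟩ i -
        exact (Submodule.mem_smul_pointwise_iff_exists _ _ _).2 ⟨y i, trivial, rfl⟩
      · intro h
        choose y hy using fun i => (Submodule.mem_smul_pointwise_iff_exists _ _ _).1 (h i trivial)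
        exact ⟨y, trivial, funext fun i => (hy i).2⟩
    have e2 : QuotSMulTop a (ι → M) ≃ₗ[R] (ι → QuotSMulTop a M) :=
      (Submodule.quotEquivOfEq _ _ e1).trans
        (Submodule.quotientPi (fun _ : ι => a • (⊤ : Submodule R M)))
    exact (LinearEquiv.isWeaklyRegular_congr e2 rs).2 (ih (QuotSMulTop a M) h2)

/-- A weakly regular sequence on `R` is weakly regular on `ι → R`. -/
theorem isWeaklyRegular_pi_ring {ι : Type*} [Finite ι] {rs : List R}
    (h : IsWeaklyRegular R rs) : IsWeaklyRegular (ι → R) rs :=
  isWeaklyRegular_pi rs R h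

/-- The zero module. -/
theorem isWeaklyRegular_of_subsingleton (rs : List R) (M : Type v) [AddCommGroup M] [Module R M]
    [Subsingleton M] : IsWeaklyRegular M rs := by
  refine ⟨fun i hi x y _ => ?_⟩
  obtain ⟨x, rfl⟩ := Submodule.Quotient.mk_surjective _ x
  obtain ⟨y, rfl⟩ := Submodule.Quotient.mk_surjective _ y
  rw [Subsingleton.elim x y]

/-- finite free modules -/
theorem isWeaklyRegular_free {M : Type v} [AddCommGroup M] [Module R M] [Module.Free R M]
    [Module.Finite R M] {rs : List R} (h : IsWeaklyRegular R rs) : IsWeaklyRegular M rs := by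
  have e := (Module.Free.chooseBasis R M).equivFun
  exact (LinearEquiv.isWeaklyRegular_congr e rs).2 (isWeaklyRegular_pi_ring h)

end Pool.Agent.Licci
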