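import Mathlib

/-!
Exterior multiplication by a linear form `g`, contraction, and the Koszul identities, for
alternating maps with values in a module.
-/

namespace Pool.Agent.Licci

open Fin

variable {R M M' N N' : Type*} [CommRing R] [AddCommGroup M] [Module R M] [AddCommGroup M']
  [Module R M'] [AddCommGroup N] [Module R N] [AddCommGroup N'] [Module R N']

/-- exterior multiplication by the linear form `g` (on the left) -/
def wedge (g : M →ₗ[R] R) (n : ℕ) : (M [⋀^Fin n]→ₗ[R] N) →ₗ[R] (M [⋀^Fin (n + 1)]→ₗ[R] N) where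
  toFun ω := AlternatingMap.alternatizeUncurryFin (g.smulRight ω)
  map_add' ω η := by
    rw [← AlternatingMap.alternatizeUncurryFin_add]
    congr 1
    ext x v
    simp
  map_smul' c ω := by
    rw [RingHom.id_apply, ← AlternatingMap.alternatizeUncurryFin_smul]
    congr 1
    ext x v
    simp [smul_smul, mul_comm]

/-- contraction with the vector `u` -/
def contr (u : M) (n : ℕ) : (M [⋀^Fin (n + 1)]→ₗ[R] N) →ₗ[R] (M [⋀^Fin n]→ₗ[R] N) where
  toFun ω := ω.curryLeft u
  map_add' ω η := by simp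
  map_smul' c ω := by simp

theorem wedge_apply (g : M →ₗ[R] R) (n : ℕ) (ω : M [⋀^Fin n]→ₗ[R] N) (v : Fin (n + 1) → M) :
    wedge g n ω v = ∑ i : Fin (n + 1), (-1 : ℤ) ^ (i : ℕ) • g (v i) • ω (i.removeNth v) := by
  simp [wedge, AlternatingMap.alternatizeUncurryFin_apply]

theorem contr_apply (u : M) (n : ℕ) (ω : M [⋀^Fin (n + 1)]→ₗ[R] N) (v : Fin n → M) :
    contr u n ω v = ω (Fin.cons u v) := by
  simp only [contr, LinearMap.coe_mk, AddHom.coe_mk, AlternatingMap.curryLeft_apply_apply]
  rfl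

theorem wedge_add_left (g h : M →ₗ[R] R) (n : ℕ) (ω : M [⋀^Fin n]→ₗ[R] N) :
    wedge (g + h) n ω = wedge g n ω + wedge h n ω := by
  ext v
  simp only [wedge_apply, AlternatingMap.add_apply, ← Finset.sum_add_distrib,
    LinearMap.add_apply, add_smul, smul_add]

theorem wedge_smul_left (c : R) (g : M →ₗ[R] R) (n : ℕ) (ω : M [⋀^Fin n]→ₗ[R] N) :
    wedge (c • g) n ω = c • wedge g n ω := by
  ext v
  simp only [wedge_apply, AlternatingMap.smul_apply, Finset.smul_sum,
    LinearMap.smul_apply, smul_eq_mul, mul_smul]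
  refine Finset.sum_congr rfl fun i _ => ?_
  rw [smul_comm ((-1 : ℤ) ^ (i : ℕ)) c]

theorem wedge_wedge_self (g : M →ₗ[R] R) (n : ℕ) (ω : M [⋀^Fin n]→ₗ[R] N) :
    wedge g (n + 1) (wedge g n ω) = 0 := by
  have h := AlternatingMap.alternatizeUncurryFin_alternatizeUncurryFinLM_comp_of_symmetric
    (R := R) (M := M) (N := N) (n := n)
    (f := g.smulRight (g.smulRight ω)) (by intro x y; simp [smul_smul, mul_comm])
  rw [← h]
  simp only [wedge, LinearMap.coe_mk, AddHom.coe_mk]
  congr 1
  ext x v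
  simp [AlternatingMap.alternatizeUncurryFin_apply, Finset.smul_sum, smul_comm (g x)]

theorem wedge_wedge_anti (g h : M →ₗ[R] R) (n : ℕ) (ω : M [⋀^Fin n]→ₗ[R] N) :
    wedge g (n + 1) (wedge h n ω) = - wedge h (n + 1) (wedge g n ω) := by
  have := wedge_wedge_self (g + h) n ω
  rw [wedge_add_left g h n, map_add, wedge_add_left, wedge_add_left, wedge_wedge_self,
    wedge_wedge_self, zero_add, add_zero] at this
  exact eq_neg_of_add_eq_zero_right this

theorem contr_wedge (g : M →ₗ[R] R) (u : M) (n : ℕ) (ω : M [⋀^Fin (n + 1)]→ₗ[R] N) :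
    contr u (n + 1) (wedge g (n + 1) ω) = g u • ω - wedge g n (contr u n ω) := by
  ext v
  rw [contr_apply, wedge_apply, Fin.sum_univ_succ, AlternatingMap.sub_apply,
    AlternatingMap.smul_apply, wedge_apply, sub_eq_add_neg, ← Finset.sum_neg_distrib]
  congr 1
  · simp [Fin.removeNth]
  · refine Finset.sum_congr rfl fun i _ => ?_
    rw [contr_apply]
    have h : (i.succ.removeNth (Fin.cons u v : Fin (n + 2) → M)) = Fin.cons u (i.removeNth v) := by
      ext j
      refine Fin.cases ?_ (fun j => ?_) j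
      · simp [Fin.removeNth]
      · simp [Fin.removeNth]
    rw [h, Fin.cons_succ, Fin.val_succ, pow_succ]
    simp

theorem contr_wedge_zero (g : M →ₗ[R] R) (u : M) (ω : M [⋀^Fin 0]→ₗ[R] N) :
    contr u 0 (wedge g 0 ω) = g u • ω := by
  ext v
  rw [contr_apply, wedge_apply]
  simp only [Fin.sum_univ_succ, Finset.univ_eq_empty, Finset.sum_empty, AlternatingMap.smul_apply]
  simp [Subsingleton.elim (removeNth 0 (Fin.cons u v : Fin 1 → M)) v]

theorem wedge_compLinearMap (g : M →ₗ[R] R) (π : M' →ₗ[R] M) (n : ℕ) (ω : M [⋀^Fin n]→ₗ[R] N) :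
    (wedge g n ω).compLinearMap π = wedge (g ∘ₗ π) n (ω.compLinearMap π) := by
  ext v
  simp only [AlternatingMap.compLinearMap_apply, wedge_apply]
  rfl

theorem wedge_compRight (g : M →ₗ[R] R) (q : N →ₗ[R] N') (n : ℕ) (ω : M [⋀^Fin n]→ₗ[R] N) :
    wedge g n (q.compAlternatingMap ω) = q.compAlternatingMap (wedge g n ω) := by
  ext v
  simp only [LinearMap.compAlternatingMap_apply, wedge_apply, map_sum, map_zsmul, map_smul]

theorem contr_compRight (u : M) (q : N →ₗ[R] N') (n : ℕ) (ω : M [⋀^Fin (n + 1)]→ₗ[R] N) :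
    contr u n (q.compAlternatingMap ω) = q.compAlternatingMap (contr u n ω) := by
  ext v
  simp only [LinearMap.compAlternatingMap_apply, contr_apply]

/-- the values of a coboundary lie in the ideal generated by the values of `g` -/
theorem wedge_apply_mem (g : M →ₗ[R] R) (n : ℕ) (ω : M [⋀^Fin n]→ₗ[R] N) (v : Fin (n + 1) → M) :
    wedge g n ω v ∈ (Ideal.span (Set.range fun i => g (v i)) • (⊤ : Submodule R N)) := by
  rw [wedge_apply]
  refine Submodule.sum_mem _ fun i _ => ?_
  refine (Submodule.smul_of_tower_mem _ _ ?_)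
  exact Submodule.smul_mem_smul (Ideal.subset_span ⟨i, rfl⟩) trivial

end Pool.Agent.Licci
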