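import Mathlib
import Pool.Agent.Work.MP_a98e4e_ag.Acyc
import Pool.Agent.Work.MP_a98e4e_ag.RegPi
import Pool.Agent.Work.MP_a98e4e_ag.Wedge

/-!
Koszul cochain complex `Λ^p M^*` (alternating maps on a finite free module `M` with values in `N`)
of a linear form `g`: exact in degrees `< k` if the values of `g` contain an `N`-regular sequence of
length `k`, and in degree `k` the map `ω ↦ ω(u₁, …, u_k)` identifies the cohomology with
`{n ∈ N/(g(u)) N : (im g) n = 0}`.
-/

namespace Pool.Agent.Licci

open RingTheory.Sequence Pointwise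

universe u v w

variable {R : Type u} [CommRing R] {M : Type w} [AddCommGroup M] [Module R M]
  [Module.Free R M] [Module.Finite R M]

/-- alternating maps on a finite free module, as functions on a finite set -/
theorem exists_altEquiv (M : Type w) [AddCommGroup M] [Module R M]
    [Module.Free R M] [Module.Finite R M] (i : ℕ) (N : Type v) [AddCommGroup N] [Module R N] :
    ∃ m : ℕ, Nonempty ((M [⋀^Fin i]→ₗ[R] N) ≃ₗ[R] (Fin m → N)) := by
  let b := Module.Free.chooseBasis R (⋀[R]^i M)
  let e : Module.Free.ChooseBasisIndex R (⋀[R]^i M) ≃ Fin _ := Fintype.equivFin _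
  refine ⟨_, ⟨(exteriorPower.alternatingMapLinearEquiv (R := R) (M := M) (N := N) (n := i)).trans
    (((b.reindex e).constr R).symm)⟩⟩

theorem reg_alt (M : Type w) [AddCommGroup M] [Module R M]
    [Module.Free R M] [Module.Finite R M] {N : Type v} [AddCommGroup N] [Module R N] {rs : List R}
    (h : IsWeaklyRegular N rs) (i : ℕ) : IsWeaklyRegular (M [⋀^Fin i]→ₗ[R] N) rs := by
  obtain ⟨m, ⟨e⟩⟩ := exists_altEquiv (R := R) M i N
  exact (LinearEquiv.isWeaklyRegular_congr e rs).2 (isWeaklyRegular_pi rs N h)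

theorem koszul_exact {N : Type v} [AddCommGroup N] [Module R N] (g : M →ₗ[R] R) (rs : List R)
    (hreg : IsWeaklyRegular N rs) (hmem : ∀ r ∈ rs, ∃ x, g x = r) :
    (0 < rs.length → Function.Injective (wedge (N := N) g 0)) ∧
      ∀ i, i + 1 < rs.length → ∀ ω : M [⋀^Fin (i + 1)]→ₗ[R] N, wedge g (i + 1) ω = 0 →
        ∃ η, wedge g i η = ω := by
  refine acyclic_of_homotopy rs (fun i => M [⋀^Fin i]→ₗ[R] N) (fun i => wedge g i)
    (fun i x => wedge_wedge_self g i x) (fun i => reg_alt M hreg i) ?_
  intro r hr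
  obtain ⟨x, rfl⟩ := hmem r hr
  refine ⟨fun i => contr x i, fun ω => contr_wedge_zero g x ω, fun i ω => ?_⟩
  rw [contr_wedge, add_sub_cancel]

/-- coboundary -/
def IsCob {N : Type v} [AddCommGroup N] [Module R N] (g : M →ₗ[R] R) :
    ∀ k : ℕ, (M [⋀^Fin k]→ₗ[R] N) → Prop
  | 0, ω => ω = 0
  | k + 1, ω => ∃ η, wedge g k η = ω

theorem koszul_exact' {N : Type v} [AddCommGroup N] [Module R N] (g : M →ₗ[R] R) (rs : List R)
    (hreg : IsWeaklyRegular N rs) (hmem : ∀ r ∈ rs, ∃ x, g x = r) (i : ℕ) (hi : i < rs.length)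
    (ω : M [⋀^Fin i]→ₗ[R] N) (hω : wedge g i ω = 0) : IsCob g i ω := by
  obtain ⟨h0, h1⟩ := koszul_exact g rs hreg hmem
  cases i with
  | zero => exact h0 hi (by rw [hω, map_zero])
  | succ i => exact h1 i hi ω hω

omit [Module.Finite R M] in
theorem exists_lift_alt {N N' : Type v} [AddCommGroup N] [Module R N] [AddCommGroup N']
    [Module R N'] (q : N →ₗ[R] N') (hq : Function.Surjective q) (i : ℕ)
    (ω : M [⋀^Fin i]→ₗ[R] N') : ∃ η : M [⋀^Fin i]→ₗ[R] N, q.compAlternatingMap η = ω := by
  obtain ⟨h, hh⟩ := Module.projective_lifting_property q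
    (exteriorPower.alternatingMapLinearEquiv ω) hq
  refine ⟨exteriorPower.alternatingMapLinearEquiv.symm h, ?_⟩
  apply exteriorPower.alternatingMapLinearEquiv.injective
  rw [← hh]
  apply exteriorPower.linearMap_ext
  ext v
  simp

omit [Module.Finite R M] in
theorem exists_div_alt {N : Type v} [AddCommGroup N] [Module R N] (x : R) (i : ℕ)
    (ω : M [⋀^Fin i]→ₗ[R] N)
    (h : (x • (⊤ : Submodule R N)).mkQ.compAlternatingMap ω = 0) :
    ∃ η : M [⋀^Fin i]→ₗ[R] N, x • η = ω := by
  have hv : ∀ v, ω v ∈ LinearMap.range (LinearMap.lsmul R N x) := by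
    intro v
    have h1 : (x • (⊤ : Submodule R N)).mkQ (ω v) = 0 := by
      have := congrArg (fun f => f v) h
      simpa using this
    rw [Submodule.mkQ_apply, Submodule.Quotient.mk_eq_zero] at h1
    obtain ⟨y, -, hy⟩ := (Submodule.mem_smul_pointwise_iff_exists _ _ _).1 h1
    exact ⟨y, by simpa using hy⟩
  obtain ⟨η, hη⟩ := exists_lift_alt (LinearMap.lsmul R N x).rangeRestrict
    (LinearMap.surjective_rangeRestrict _) i (ω.codRestrict _ hv)
  refine ⟨η, ?_⟩
  ext v
  have := congrArg (fun f => ((f v : LinearMap.range (LinearMap.lsmul R N x)) : N)) hη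
  simpa using this

theorem mem_smul_top_iff_quot {N : Type v} [AddCommGroup N] [Module R N] {k : ℕ}
    (a : Fin (k + 1) → R) (n : N) :
    n ∈ (Ideal.span (Set.range a) • (⊤ : Submodule R N)) ↔
      (Submodule.Quotient.mk n : QuotSMulTop (a 0) N) ∈
        (Ideal.span (Set.range fun i : Fin k => a i.succ) • (⊤ : Submodule R (QuotSMulTop (a 0) N))) := by
  have h1 : (Ideal.span (Set.range a) • (⊤ : Submodule R N)) =
      (Ideal.span (Set.range fun i : Fin k => a i.succ) • (⊤ : Submodule R N)) ⊔
        (a 0 • (⊤ : Submodule R N)) := by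
    have : Ideal.span (Set.range a) =
        Ideal.span (Set.range fun i : Fin k => a i.succ) ⊔ Ideal.span {a 0} := by
      rw [← Ideal.span_union]
      congr 1
      ext r
      constructor
      · rintro ⟨i, rfl⟩
        refine Fin.cases ?_ (fun i => ?_) i
        · exact Or.inr rfl
        · exact Or.inl ⟨i, rfl⟩
      · rintro (⟨i, rfl⟩ | h)
        · exact ⟨i.succ, rfl⟩
        · rw [Set.mem_singleton_iff] at h; exact ⟨0, h.symm⟩
    rw [this, Submodule.sup_smul, Submodule.ideal_span_singleton_smul]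
  have h2 : (Ideal.span (Set.range fun i : Fin k => a i.succ) • (⊤ : Submodule R N)).map
      (a 0 • (⊤ : Submodule R N)).mkQ =
      (Ideal.span (Set.range fun i : Fin k => a i.succ) • (⊤ : Submodule R (QuotSMulTop (a 0) N))) := by
    rw [Submodule.map_smul'', Submodule.map_top, Submodule.range_mkQ]
  rw [h1, ← h2, ← Submodule.mkQ_apply, ← Submodule.mem_comap, Submodule.comap_map_eq,
    Submodule.ker_mkQ]

theorem wedge_eq_of_isCob {N : Type v} [AddCommGroup N] [Module R N] (g : M →ₗ[R] R) (x : R)
    (k : ℕ) (ω : M [⋀^Fin k]→ₗ[R] N)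
    (h : IsCob g k ((x • (⊤ : Submodule R N)).mkQ.compAlternatingMap ω)) :
    ∃ τ : M [⋀^Fin k]→ₗ[R] N, wedge g k ω = x • wedge g k τ := by
  cases k with
  | zero =>
    obtain ⟨τ, hτ⟩ := exists_div_alt x 0 ω h
    exact ⟨τ, by rw [← hτ, map_smul]⟩
  | succ k =>
    obtain ⟨η, hη⟩ := h
    obtain ⟨θ, rfl⟩ := exists_lift_alt (x • (⊤ : Submodule R N)).mkQ
      (Submodule.mkQ_surjective _) k η
    obtain ⟨τ, hτ⟩ := exists_div_alt x (k + 1) (ω - wedge g k θ) (by
      rw [wedge_compRight] at hη
      ext v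
      have := congrArg (fun f => f v) hη
      simp only [LinearMap.compAlternatingMap_apply] at this
      simp only [LinearMap.compAlternatingMap_apply, AlternatingMap.sub_apply, map_sub,
        AlternatingMap.zero_apply, ← this, sub_self])
    refine ⟨τ, ?_⟩
    rw [← map_smul, hτ, map_sub, wedge_wedge_self, sub_zero]

omit [Module.Free R M] [Module.Finite R M] in
theorem smul_cancel_alt {N : Type v} [AddCommGroup N] [Module R N] {x : R}
    (hx : IsSMulRegular N x) {k : ℕ} {ω η : M [⋀^Fin k]→ₗ[R] N} (h : x • ω = x • η) : ω = η := by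
  ext v
  apply hx
  have := congrArg (fun f => f v) h
  simpa using this

/-- The top Koszul cohomology. -/
theorem koszul_top (g : M →ₗ[R] R) (k : ℕ) : ∀ (N : Type v) [AddCommGroup N] [Module R N]
    (e : Fin k → M) (_hreg : IsWeaklyRegular N (List.ofFn fun i => g (e i))),
    (∀ n : N, (∀ v, g v • n ∈
        (Ideal.span (Set.range fun i => g (e i)) • (⊤ : Submodule R N))) →
      ∃ ω : M [⋀^Fin k]→ₗ[R] N, wedge g k ω = 0 ∧
        ω e - n ∈ (Ideal.span (Set.range fun i => g (e i)) • (⊤ : Submodule R N))) ∧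
    (∀ ω : M [⋀^Fin k]→ₗ[R] N, wedge g k ω = 0 →
      ω e ∈ (Ideal.span (Set.range fun i => g (e i)) • (⊤ : Submodule R N)) → IsCob g k ω) := by
  induction k with
  | zero =>
    intro N _ _ e _
    have hbot : (Ideal.span (Set.range fun i : Fin 0 => g (e i)) • (⊤ : Submodule R N)) = ⊥ := by
      rw [Set.range_eq_empty, Ideal.span_empty, Submodule.bot_smul]
    rw [hbot]
    constructor
    · intro n hn
      refine ⟨AlternatingMap.constOfIsEmpty R M (Fin 0) n, ?_, ?_⟩
      · ext v
        rw [wedge_apply]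
        simp only [Fin.sum_univ_succ, Finset.univ_eq_empty, Finset.sum_empty]
        have := (Submodule.mem_bot R).1 (hn (v 0))
        simpa using this
      · simp
    · intro ω _ h
      ext v
      rw [Subsingleton.elim v e]
      simpa using h
  | succ k ih =>
    intro N _ _ e hreg
    rw [List.ofFn_succ, isWeaklyRegular_cons_iff] at hreg
    obtain ⟨hx, hreg'⟩ := hreg
    obtain ⟨ihE, ihU⟩ := ih (QuotSMulTop (g (e 0)) N) (fun i => e i.succ) hreg'
    have hcons : (Fin.cons (e 0) (fun i => e i.succ) : Fin (k + 1) → M) = e := by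
      ext i; refine Fin.cases rfl (fun _ => rfl) i
    have hmem : ∀ n : N, n ∈ (Ideal.span (Set.range fun i => g (e i)) • (⊤ : Submodule R N)) ↔
        (Submodule.Quotient.mk n : QuotSMulTop (g (e 0)) N) ∈
        (Ideal.span (Set.range fun i : Fin k => g (e i.succ)) •
          (⊤ : Submodule R (QuotSMulTop (g (e 0)) N))) :=
      fun n => mem_smul_top_iff_quot (fun i => g (e i)) n
    constructor
    · intro n hn
      obtain ⟨ωb, h1, h2⟩ := ihE (Submodule.Quotient.mk n) (by
        intro v
        rw [← Submodule.Quotient.mk_smul]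
        exact (hmem _).1 (hn v))
      obtain ⟨ω, rfl⟩ := exists_lift_alt (g (e 0) • (⊤ : Submodule R N)).mkQ
        (Submodule.mkQ_surjective _) k ωb
      rw [wedge_compRight] at h1
      obtain ⟨ω', hω'⟩ := exists_div_alt (g (e 0)) (k + 1) (wedge g k ω) h1
      have hc : wedge g (k + 1) ω' = 0 := by
        apply smul_cancel_alt hx
        rw [← map_smul, hω', wedge_wedge_self, smul_zero]
      refine ⟨ω', hc, ?_⟩
      rw [hmem, Submodule.Quotient.mk_sub]
      have hval : ω' e = contr (e 0) k ω' (fun i => e i.succ) := by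
        rw [contr_apply, hcons]
      cases k with
      | zero =>
        have h3 : contr (e 0) 0 ω' = ω := by
          apply smul_cancel_alt hx
          rw [← map_smul, hω', contr_wedge_zero]
        rw [hval, h3]
        exact h2
      | succ j =>
        have h3 : wedge g j (contr (e 0) j ω) = g (e 0) • (ω - contr (e 0) (j + 1) ω') := by
          rw [smul_sub, ← map_smul (contr (e 0) (j + 1)), hω', contr_wedge, sub_sub_cancel]
        have h4 : IsCob g j ((g (e 0) • (⊤ : Submodule R N)).mkQ.compAlternatingMap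
            (contr (e 0) j ω)) := by
          refine koszul_exact' g _ hreg' ?_ j ?_ _ ?_
          · intro r hr
            obtain ⟨i, rfl⟩ := (List.mem_ofFn' _ _).1 hr
            exact ⟨_, rfl⟩
          · simp
          · rw [wedge_compRight, h3]
            ext v
            simp only [LinearMap.compAlternatingMap_apply, AlternatingMap.smul_apply,
              AlternatingMap.zero_apply, Submodule.mkQ_apply, Submodule.Quotient.mk_eq_zero]
            exact (Submodule.mem_smul_pointwise_iff_exists _ _ _).2 ⟨_, trivial, rfl⟩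
        obtain ⟨τ, hτ⟩ := wedge_eq_of_isCob g _ j _ h4
        have h5 : contr (e 0) (j + 1) ω' = ω - wedge g j τ := by
          have h6 : ω - contr (e 0) (j + 1) ω' = wedge g j τ := by
            apply smul_cancel_alt hx
            rw [← h3, hτ]
          rw [← h6, sub_sub_cancel]
        rw [hval, h5, AlternatingMap.sub_apply, Submodule.Quotient.mk_sub, sub_right_comm]
        refine Submodule.sub_mem _ h2 ?_
        have h7 := wedge_apply_mem g j
          ((g (e 0) • (⊤ : Submodule R N)).mkQ.compAlternatingMap τ) (fun i => e i.succ)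
        rw [wedge_compRight] at h7
        exact h7
    · intro ω' hω' hv
      have h3 : wedge g k (contr (e 0) k ω') = g (e 0) • ω' := by
        have := contr_wedge g (e 0) k ω'
        rw [hω', map_zero] at this
        exact (sub_eq_zero.1 this.symm).symm
      have h4 := ihU ((g (e 0) • (⊤ : Submodule R N)).mkQ.compAlternatingMap (contr (e 0) k ω'))
        (by
          rw [wedge_compRight, h3]
          ext v
          simp only [LinearMap.compAlternatingMap_apply, AlternatingMap.smul_apply,
            AlternatingMap.zero_apply, Submodule.mkQ_apply, Submodule.Quotient.mk_eq_zero]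
          exact (Submodule.mem_smul_pointwise_iff_exists _ _ _).2 ⟨_, trivial, rfl⟩)
        (by
          rw [LinearMap.compAlternatingMap_apply, contr_apply, hcons]
          exact (hmem _).1 hv)
      obtain ⟨τ, hτ⟩ := wedge_eq_of_isCob g _ k _ h4
      refine ⟨τ, ?_⟩
      apply smul_cancel_alt hx
      rw [← h3, hτ]

/-- Existence of the class of `w` for `N = R`. -/
theorem exists_wedge_class (g : M →ₗ[R] R) (k : ℕ) (e : Fin k → M)
    (hreg : IsWeaklyRegular R (List.ofFn fun i => g (e i))) (w : R)
    (hw : ∀ v, w * g v ∈ Ideal.span (Set.range fun i => g (e i))) :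
    ∃ ω : M [⋀^Fin k]→ₗ[R] R, wedge g k ω = 0 ∧
      ω e - w ∈ Ideal.span (Set.range fun i => g (e i)) := by
  have h := (koszul_top g k R e hreg).1 w (by
    intro v
    rw [smul_eq_mul, Ideal.mul_top, smul_eq_mul, mul_comm]
    exact hw v)
  obtain ⟨ω, h1, h2⟩ := h
  refine ⟨ω, h1, ?_⟩
  rw [smul_eq_mul, Ideal.mul_top] at h2
  exact h2

/-- Uniqueness of the class of `w` for `N = R`. -/
theorem isCob_of_apply_mem (g : M →ₗ[R] R) (k : ℕ) (e : Fin k → M)
    (hreg : IsWeaklyRegular R (List.ofFn fun i => g (e i))) (ω : M [⋀^Fin k]→ₗ[R] R)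
    (hω : wedge g k ω = 0) (hv : ω e ∈ Ideal.span (Set.range fun i => g (e i))) :
    IsCob g k ω := by
  apply (koszul_top g k R e hreg).2 ω hω
  rw [smul_eq_mul, Ideal.mul_top]
  exact hv

/-- Exactness below degree `k` for `N = R`. -/
theorem isCob_of_lt (g : M →ₗ[R] R) (k : ℕ) (e : Fin k → M)
    (hreg : IsWeaklyRegular R (List.ofFn fun i => g (e i))) (i : ℕ) (hi : i < k)
    (ω : M [⋀^Fin i]→ₗ[R] R) (hω : wedge g i ω = 0) : IsCob g i ω := by
  refine koszul_exact' g _ hreg ?_ i (by simpa using hi) ω hω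
  intro r hr
  obtain ⟨i, rfl⟩ := (List.mem_ofFn' _ _).1 hr
  exact ⟨_, rfl⟩

end Pool.Agent.Licci
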