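import Mathlib
import Pool.Agent.Work.MP_a98e4e_ag.KoszulTop

/-!
The module `P'(f, ν) = {(v, w) ∈ M × Λ² M^* : f v = 0, f ∧ w = i_v ν}` of a linear form `f` whose
values contain a regular sequence of length `4` and a four-form `ν` with `f ∧ ν = 0`, and its
perfect symmetric form.
-/

namespace Pool.Agent.Licci

open RingTheory.Sequence Pointwise

universe u v w

section general

variable {R : Type*} {M : Type*} {N : Type*} [CommRing R] [AddCommGroup M] [Module R M]
  [AddCommGroup N] [Module R N]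

theorem contr_add_left (u v : M) (n : ℕ) (ω : M [⋀^Fin (n + 1)]→ₗ[R] N) :
    contr (u + v) n ω = contr u n ω + contr v n ω := by
  simp [contr]

theorem contr_smul_left (c : R) (u : M) (n : ℕ) (ω : M [⋀^Fin (n + 1)]→ₗ[R] N) :
    contr (c • u) n ω = c • contr u n ω := by
  simp [contr]

theorem contr_zero_left (n : ℕ) (ω : M [⋀^Fin (n + 1)]→ₗ[R] N) :
    contr (0 : M) n ω = 0 := by
  simp [contr]

theorem wedge_contr (g : M →ₗ[R] R) (u : M) (n : ℕ) (ω : M [⋀^Fin (n + 1)]→ₗ[R] N) :
    wedge g n (contr u n ω) = g u • ω - contr u (n + 1) (wedge g (n + 1) ω) := by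
  rw [contr_wedge, sub_sub_cancel]

theorem contr_contr_self (u : M) (n : ℕ) (ω : M [⋀^Fin (n + 2)]→ₗ[R] N) :
    contr u n (contr u (n + 1) ω) = 0 := by
  ext v
  rw [contr_apply, contr_apply, AlternatingMap.zero_apply]
  apply ω.map_eq_zero_of_eq _ (i := 0) (j := 1)
  · simp
  · simp

theorem contr_contr_anti (u v : M) (n : ℕ) (ω : M [⋀^Fin (n + 2)]→ₗ[R] N) :
    contr u n (contr v (n + 1) ω) = - contr v n (contr u (n + 1) ω) := by
  have := contr_contr_self (u + v) n ω
  rw [contr_add_left, contr_add_left, map_add, map_add, contr_contr_self, contr_contr_self,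
    zero_add, add_zero] at this
  exact eq_neg_of_add_eq_zero_left this

theorem alt2_add_left (w : M [⋀^Fin 2]→ₗ[R] N) (a b x : M) :
    w ![a + b, x] = w ![a, x] + w ![b, x] := w.map_vecCons_add _ _ _

theorem alt2_smul_left (w : M [⋀^Fin 2]→ₗ[R] N) (c : R) (a x : M) :
    w ![c • a, x] = c • w ![a, x] := w.map_vecCons_smul _ _ _

theorem alt2_swap (w : M [⋀^Fin 2]→ₗ[R] N) (a b : M) : w ![a, b] = - w ![b, a] := by
  rw [← w.map_swap ![b, a] (i := 0) (j := 1) (by simp)]
  congr 1
  ext i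
  fin_cases i <;> simp [Equiv.swap_apply_def]

theorem alt2_zero_left (w : M [⋀^Fin 2]→ₗ[R] N) (x : M) : w ![0, x] = 0 := by
  have := alt2_smul_left w 0 0 x
  rwa [zero_smul, zero_smul] at this

/-- an alternating bilinear map as an alternating map -/
def mkAlt2 (b : M →ₗ[R] M →ₗ[R] N) (hb : ∀ x, b x x = 0) : M [⋀^Fin 2]→ₗ[R] N where
  toFun v := b (v 0) (v 1)
  map_update_add' := by
    intro inst v i x y
    rw [Subsingleton.elim inst (instDecidableEqFin 2)]
    fin_cases i <;> simp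
  map_update_smul' := by
    intro inst v i c x
    rw [Subsingleton.elim inst (instDecidableEqFin 2)]
    fin_cases i <;> simp
  map_eq_zero_of_eq' := by
    intro v i j h hij
    fin_cases i <;> fin_cases j
    · simp at hij
    · simp at h
      simp [h, hb]
    · simp at h
      simp [h, hb]
    · simp at hij

theorem mkAlt2_apply (b : M →ₗ[R] M →ₗ[R] N) (hb : ∀ x, b x x = 0) (x y : M) :
    mkAlt2 b hb ![x, y] = b x y := rfl

theorem wedge_zero_apply (f : M →ₗ[R] R) (ω : M [⋀^Fin 0]→ₗ[R] N) (x : M) :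
    wedge f 0 ω ![x] = f x • ω ![] := by
  rw [wedge_apply]
  simp only [Fin.sum_univ_succ, Finset.univ_eq_empty, Finset.sum_empty]
  simp [Subsingleton.elim (Fin.removeNth 0 ![x]) ![]]

theorem wedge_two_apply (f : M →ₗ[R] R) (w : M [⋀^Fin 2]→ₗ[R] N) (x y z : M) :
    wedge f 2 w ![x, y, z] = f x • w ![y, z] - f y • w ![x, z] + f z • w ![x, y] := by
  have h0 : (Fin.removeNth 0 ![x, y, z] : Fin 2 → M) = ![y, z] := by
    ext i; fin_cases i <;> rfl
  have h1 : (Fin.removeNth 1 ![x, y, z] : Fin 2 → M) = ![x, z] := by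
    ext i; fin_cases i <;> rfl
  have h2 : (Fin.removeNth 2 ![x, y, z] : Fin 2 → M) = ![x, y] := by
    ext i; fin_cases i <;> rfl
  rw [wedge_apply, Fin.sum_univ_three, h0, h1, h2]
  simp [sub_eq_add_neg]

theorem alt3_eq (w : M [⋀^Fin 3]→ₗ[R] N) (x : Fin 3 → M) : w x = w ![x 0, x 1, x 2] := by
  congr 1
  ext i; fin_cases i <;> rfl

theorem alt2_eq (w : M [⋀^Fin 2]→ₗ[R] N) (x : Fin 2 → M) : w x = w ![x 0, x 1] := by
  congr 1
  ext i; fin_cases i <;> rfl

theorem contr_apply_two (v x y : M) (w : M [⋀^Fin 3]→ₗ[R] N) :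
    contr v 2 w ![x, y] = w ![v, x, y] := by
  rw [contr_apply]
  rfl

theorem contr_apply_three (v x y z : M) (w : M [⋀^Fin 4]→ₗ[R] N) :
    contr v 3 w ![x, y, z] = w ![v, x, y, z] := by
  rw [contr_apply]
  rfl

end general

variable {R : Type u} [CommRing R] {M : Type w} [AddCommGroup M] [Module R M]

/-- The module `P'(f, ν)`. -/
def PP (f : M →ₗ[R] R) (ν : M [⋀^Fin 4]→ₗ[R] R) : Submodule R (M × (M [⋀^Fin 2]→ₗ[R] R)) where
  carrier := {p | f p.1 = 0 ∧ wedge f 2 p.2 = contr p.1 3 ν}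
  add_mem' := by
    rintro p q ⟨hp1, hp2⟩ ⟨hq1, hq2⟩
    refine ⟨?_, ?_⟩
    · simp [hp1, hq1]
    · rw [Prod.snd_add, Prod.fst_add, map_add, contr_add_left, hp2, hq2]
  zero_mem' := by
    refine ⟨by simp, ?_⟩
    rw [Prod.snd_zero, Prod.fst_zero, contr_zero_left, map_zero]
  smul_mem' := by
    rintro c p ⟨hp1, hp2⟩
    refine ⟨?_, ?_⟩
    · simp [hp1]
    · rw [Prod.smul_snd, Prod.smul_fst, map_smul, contr_smul_left, hp2]

theorem mem_PP {f : M →ₗ[R] R} {ν : M [⋀^Fin 4]→ₗ[R] R} {p : M × (M [⋀^Fin 2]→ₗ[R] R)} :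
    p ∈ PP f ν ↔ f p.1 = 0 ∧ wedge f 2 p.2 = contr p.1 3 ν := Iff.rfl

/-- The values of `f` contain a weakly regular sequence of length `n`. -/
def HasReg (f : M →ₗ[R] R) (n : ℕ) : Prop :=
  ∃ rs : List R, rs.length = n ∧ IsWeaklyRegular R rs ∧ ∀ r ∈ rs, ∃ x, f x = r

theorem HasReg.isCob [Module.Free R M] [Module.Finite R M] {f : M →ₗ[R] R} {n : ℕ}
    (h : HasReg f n) (i : ℕ) (hi : i < n) (ω : M [⋀^Fin i]→ₗ[R] R) (hω : wedge f i ω = 0) :
    IsCob f i ω := by
  obtain ⟨rs, h1, h2, h3⟩ := h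
  exact koszul_exact' f rs h2 h3 i (h1 ▸ hi) ω hω

theorem HasReg.eq_zero_of_mul {f : M →ₗ[R] R} {n : ℕ} (h : HasReg f n) (hn : 0 < n) {r : R}
    (hr : ∀ x, r * f x = 0) : r = 0 := by
  obtain ⟨rs, h1, h2, h3⟩ := h
  cases rs with
  | nil => simp at h1; omega
  | cons a rs =>
    obtain ⟨x, hx⟩ := h3 a (by simp)
    have ha : IsSMulRegular R a := ((isWeaklyRegular_cons_iff R a rs).1 h2).1
    apply ha
    show a * r = a * 0
    rw [mul_zero, mul_comm, ← hx, hr]

theorem HasReg.eq_zero_of_smul {f : M →ₗ[R] R} {n : ℕ} (h : HasReg f n) (hn : 0 < n)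
    {N : Type*} [AddCommGroup N] [Module R N] (hN : ∀ y : N, (∀ φ : N →ₗ[R] R, φ y = 0) → y = 0)
    {y : N} (hr : ∀ x, f x • y = 0) : y = 0 := by
  apply hN
  intro φ
  apply h.eq_zero_of_mul hn
  intro x
  rw [mul_comm, ← smul_eq_mul, ← map_smul, hr, map_zero]

/-- a linear form as a `1`-form -/
def one (l : M →ₗ[R] R) : M [⋀^Fin 1]→ₗ[R] R := AlternatingMap.ofSubsingleton R M R (0 : Fin 1) l

theorem one_apply (l : M →ₗ[R] R) (x : Fin 1 → M) : one l x = l (x 0) := rfl

theorem exists_eq_one (ω : M [⋀^Fin 1]→ₗ[R] R) : ∃ l, ω = one l :=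
  ⟨(AlternatingMap.ofSubsingleton R M R (0 : Fin 1)).symm ω, by simp [one]⟩

theorem one_add (l l' : M →ₗ[R] R) : one (l + l') = one l + one l' := by
  ext x; simp [one_apply]

theorem one_smul' (c : R) (l : M →ₗ[R] R) : one (c • l) = c • one l := by
  ext x; simp [one_apply]

theorem one_injective : Function.Injective (one : (M →ₗ[R] R) → _) :=
  (AlternatingMap.ofSubsingleton R M R (0 : Fin 1)).injective

theorem wedge_zero_eq (f : M →ₗ[R] R) (ω : M [⋀^Fin 0]→ₗ[R] R) :
    wedge f 0 ω = one (ω ![] • f) := by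
  ext x
  have : x = ![x 0] := by ext i; fin_cases i; rfl
  rw [this, wedge_zero_apply, one_apply]
  simp [mul_comm]

theorem wedge_one_apply (f l : M →ₗ[R] R) (x y : M) :
    wedge f 1 (one l) ![x, y] = f x * l y - f y * l x := by
  rw [wedge_apply]
  simp only [Fin.sum_univ_succ, Finset.univ_eq_empty, Finset.sum_empty, one_apply, smul_eq_mul]
  simp [Fin.removeNth, sub_eq_add_neg]

theorem contr_one (v : M) (l : M →ₗ[R] R) : contr v 0 (one l) = AlternatingMap.constOfIsEmpty R M
    (Fin 0) (l v) := by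
  ext x
  rw [contr_apply, one_apply]
  rfl

theorem contr_apply_one (v x : M) (w : M [⋀^Fin 2]→ₗ[R] R) :
    contr v 1 w ![x] = w ![v, x] := by
  rw [contr_apply]
  rfl

section form

variable [Module.Free R M] [Module.Finite R M] {f : M →ₗ[R] R} {ν : M [⋀^Fin 4]→ₗ[R] R}

theorem exists_B (hf : HasReg f 4) (p q : PP f ν) :
    ∃ b : R, ∀ x, q.1.2 ![p.1.1, x] + p.1.2 ![q.1.1, x] = b * f x := by
  obtain ⟨⟨v, w⟩, hv, hw⟩ := p
  obtain ⟨⟨v', w'⟩, hv', hw'⟩ := q
  simp only at hv hw hv' hw' ⊢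
  have h : wedge f 1 (contr v 1 w' + contr v' 1 w) = 0 := by
    have h1 := contr_wedge f v 1 w'
    have h2 := contr_wedge f v' 1 w
    rw [hv, zero_smul, zero_sub, hw'] at h1
    rw [hv', zero_smul, zero_sub, hw] at h2
    rw [map_add, eq_neg_of_add_eq_zero_left (a := wedge f 1 (contr v 1 w')), neg_add_cancel]
    rw [← neg_eq_zero, neg_add, ← h1, ← h2, contr_contr_anti, neg_add_cancel]
  obtain ⟨η, hη⟩ := hf.isCob 1 (by norm_num) _ h
  refine ⟨η ![], fun x => ?_⟩
  have := congrArg (fun ω => ω ![x]) hη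
  simp only [AlternatingMap.add_apply, contr_apply_one] at this
  rw [← this, wedge_zero_apply, smul_eq_mul, mul_comm]

/-- The symmetric form on `P'`. -/
noncomputable def B (hf : HasReg f 4) : PP f ν →ₗ[R] PP f ν →ₗ[R] R :=
  LinearMap.mk₂ R (fun p q => (exists_B hf p q).choose)
    (by
      intro p p' q
      apply sub_eq_zero.1
      apply hf.eq_zero_of_mul (by norm_num)
      intro x
      have h1 := (exists_B hf (p + p') q).choose_spec x
      have h2 := (exists_B hf p q).choose_spec x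
      have h3 := (exists_B hf p' q).choose_spec x
      rw [sub_mul, add_mul, ← h1, ← h2, ← h3]
      simp only [Submodule.coe_add, Prod.fst_add, Prod.snd_add, alt2_add_left,
        AlternatingMap.add_apply]
      ring)
    (by
      intro c p q
      apply sub_eq_zero.1
      apply hf.eq_zero_of_mul (by norm_num)
      intro x
      have h1 := (exists_B hf (c • p) q).choose_spec x
      have h2 := (exists_B hf p q).choose_spec x
      rw [smul_eq_mul, sub_mul, mul_assoc, ← h1, ← h2]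
      simp only [Submodule.coe_smul, Prod.smul_fst, Prod.smul_snd, alt2_smul_left,
        AlternatingMap.smul_apply, smul_eq_mul]
      ring)
    (by
      intro p q q'
      apply sub_eq_zero.1
      apply hf.eq_zero_of_mul (by norm_num)
      intro x
      have h1 := (exists_B hf p (q + q')).choose_spec x
      have h2 := (exists_B hf p q).choose_spec x
      have h3 := (exists_B hf p q').choose_spec x
      rw [sub_mul, add_mul, ← h1, ← h2, ← h3]
      simp only [Submodule.coe_add, Prod.fst_add, Prod.snd_add, alt2_add_left,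
        AlternatingMap.add_apply]
      ring)
    (by
      intro c p q
      apply sub_eq_zero.1
      apply hf.eq_zero_of_mul (by norm_num)
      intro x
      have h1 := (exists_B hf p (c • q)).choose_spec x
      have h2 := (exists_B hf p q).choose_spec x
      rw [smul_eq_mul, sub_mul, mul_assoc, ← h1, ← h2]
      simp only [Submodule.coe_smul, Prod.smul_fst, Prod.smul_snd, alt2_smul_left,
        AlternatingMap.smul_apply, smul_eq_mul]
      ring)

theorem B_spec (hf : HasReg f 4) (p q : PP f ν) (x : M) :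
    q.1.2 ![p.1.1, x] + p.1.2 ![q.1.1, x] = B hf p q * f x :=
  (exists_B hf p q).choose_spec x

theorem eq_B (hf : HasReg f 4) (p q : PP f ν) (b : R)
    (h : ∀ x, q.1.2 ![p.1.1, x] + p.1.2 ![q.1.1, x] = b * f x) : B hf p q = b := by
  apply sub_eq_zero.1
  apply hf.eq_zero_of_mul (by norm_num)
  intro x
  rw [sub_mul, ← h, ← B_spec, sub_self]

theorem B_comm (hf : HasReg f 4) (p q : PP f ν) : B hf p q = B hf q p := by
  apply eq_B
  intro x
  rw [add_comm, B_spec]

/-- The projection of `P'` onto the kernel of `f` is surjective. -/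
theorem exists_PP (hf : HasReg f 4) (hν : wedge f 4 ν = 0) (v : M) (hv : f v = 0) :
    ∃ w, (v, w) ∈ PP f ν := by
  have h := contr_wedge f v 3 ν
  rw [hν, hv, zero_smul, zero_sub, map_zero] at h
  obtain ⟨w, hw⟩ := hf.isCob 3 (by norm_num) (contr v 3 ν) (neg_eq_zero.1 h.symm)
  exact ⟨w, hv, hw⟩

/-- The elements `(0, f ∧ l)` of `P'`. -/
def inF (f : M →ₗ[R] R) (ν : M [⋀^Fin 4]→ₗ[R] R) (l : M →ₗ[R] R) : PP f ν :=
  ⟨(0, wedge f 1 (one l)), by
    rw [mem_PP, wedge_wedge_self, contr_zero_left]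
    simp⟩

theorem exists_inF (hf : HasReg f 4) (p : PP f ν) (hp : p.1.1 = 0) : ∃ l, p = inF f ν l := by
  obtain ⟨⟨v, w⟩, hv, hw⟩ := p
  simp only at hp hv hw
  subst hp
  rw [contr_zero_left] at hw
  obtain ⟨η, hη⟩ := hf.isCob 2 (by norm_num) w hw
  obtain ⟨l, rfl⟩ := exists_eq_one η
  exact ⟨l, Subtype.ext (Prod.ext rfl hη.symm)⟩

theorem B_inF (hf : HasReg f 4) (l : M →ₗ[R] R) (q : PP f ν) :
    B hf (inF f ν l) q = - l q.1.1 := by
  apply eq_B
  intro x
  have hq := q.2.1
  simp only [inF, alt2_zero_left, wedge_one_apply, hq]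
  ring

theorem eq_smul_of_ker (hf : HasReg f 4) (l : M →ₗ[R] R) (h : ∀ v, f v = 0 → l v = 0) :
    ∃ c : R, l = c • f := by
  have h1 : wedge f 1 (one l) = 0 := by
    ext x
    have : x = ![x 0, x 1] := by ext i; fin_cases i <;> rfl
    rw [this, wedge_one_apply, AlternatingMap.zero_apply]
    have := h (f (x 0) • x 1 - f (x 1) • x 0) (by simp [mul_comm])
    simpa using this
  obtain ⟨η, hη⟩ := hf.isCob 1 (by norm_num) _ h1
  rw [wedge_zero_eq] at hη
  exact ⟨_, one_injective hη.symm⟩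

theorem B_injective (hf : HasReg f 4) (hν : wedge f 4 ν = 0)
    (hM : ∀ v : M, (∀ l : M →ₗ[R] R, l v = 0) → v = 0)
    (p : PP f ν) (hp : B hf p = 0) : p = 0 := by
  have h1 : p.1.1 = 0 := by
    apply hM
    intro l
    have := B_inF hf l p
    rw [B_comm, hp, LinearMap.zero_apply] at this
    exact neg_eq_zero.1 this.symm
  obtain ⟨l, rfl⟩ := exists_inF hf p h1
  obtain ⟨c, rfl⟩ := eq_smul_of_ker hf l (by
    intro v hv
    obtain ⟨w, hw⟩ := exists_PP hf hν v hv
    have := B_inF hf l ⟨(v, w), hw⟩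
    rw [hp, LinearMap.zero_apply] at this
    exact neg_eq_zero.1 this.symm)
  apply Subtype.ext
  refine Prod.ext rfl ?_
  show wedge f 1 (one (c • f)) = 0
  ext x
  have : x = ![x 0, x 1] := by ext i; fin_cases i <;> rfl
  rw [this, wedge_one_apply, AlternatingMap.zero_apply]
  simp only [LinearMap.smul_apply, smul_eq_mul]
  ring

theorem mem_kappa (hν : wedge f 4 ν = 0) (x y : M) :
    (f x • y - f y • x, contr x 2 (contr y 3 ν)) ∈ PP f ν := by
  rw [mem_PP]
  refine ⟨by simp [mul_comm], ?_⟩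
  show wedge f 2 (contr x 2 (contr y 3 ν)) = contr (f x • y - f y • x) 3 ν
  rw [wedge_contr, wedge_contr, hν, map_zero, sub_zero, map_smul]
  rw [sub_eq_add_neg (f x • y), contr_add_left, ← neg_smul, contr_smul_left, contr_smul_left,
    sub_eq_add_neg]
  congr 1
  exact (neg_smul _ _).symm

/-- The Koszul elements of `P'`. -/
noncomputable def kappa (hν : wedge f 4 ν = 0) : M →ₗ[R] M →ₗ[R] PP f ν :=
  LinearMap.mk₂ R (fun x y => ⟨(f x • y - f y • x, contr x 2 (contr y 3 ν)), mem_kappa hν x y⟩)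
    (by
      intro x x' y
      apply Subtype.ext
      refine Prod.ext ?_ ?_
      · simp only [map_add, add_smul, smul_add, Submodule.coe_add, Prod.fst_add]
        abel
      · simp only [contr_add_left, Submodule.coe_add, Prod.snd_add])
    (by
      intro c x y
      apply Subtype.ext
      refine Prod.ext ?_ ?_
      · simp only [map_smul, smul_eq_mul, Submodule.coe_smul, Prod.smul_fst, smul_sub, mul_smul]
        rw [smul_comm (f y)]
      · simp only [contr_smul_left, Submodule.coe_smul, Prod.smul_snd])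
    (by
      intro x y y'
      apply Subtype.ext
      refine Prod.ext ?_ ?_
      · simp only [map_add, add_smul, smul_add, Submodule.coe_add, Prod.fst_add]
        abel
      · simp only [contr_add_left, map_add, Submodule.coe_add, Prod.snd_add])
    (by
      intro c x y
      apply Subtype.ext
      refine Prod.ext ?_ ?_
      · simp only [map_smul, smul_eq_mul, Submodule.coe_smul, Prod.smul_fst, smul_sub, mul_smul]
        rw [smul_comm (f x)]
      · simp only [contr_smul_left, map_smul, Submodule.coe_smul, Prod.smul_snd])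

theorem kappa_fst (hν : wedge f 4 ν = 0) (x y : M) :
    (kappa hν x y).1.1 = f x • y - f y • x := rfl

theorem kappa_snd (hν : wedge f 4 ν = 0) (x y : M) :
    (kappa hν x y).1.2 = contr x 2 (contr y 3 ν) := rfl

theorem kappa_self (hν : wedge f 4 ν = 0) (x : M) : kappa hν x x = 0 := by
  apply Subtype.ext
  refine Prod.ext ?_ ?_
  · rw [kappa_fst, sub_self]; rfl
  · rw [kappa_snd, contr_contr_self]; rfl

theorem PP_three (q : PP f ν) (x y z : M) :
    f x * q.1.2 ![y, z] - f y * q.1.2 ![x, z] + f z * q.1.2 ![x, y] = ν ![q.1.1, x, y, z] := by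
  simp only [← smul_eq_mul]
  rw [← wedge_two_apply, q.2.2]
  exact contr_apply_three _ _ _ _ _

theorem B_kappa (hf : HasReg f 4) (hν : wedge f 4 ν = 0) (x y : M) (q : PP f ν) :
    B hf (kappa hν x y) q = - q.1.2 ![x, y] := by
  apply eq_B
  intro z
  have hq := PP_three q x y z
  rw [kappa_fst, kappa_snd, contr_apply_two, contr_apply_three, sub_eq_add_neg, ← neg_smul,
    alt2_add_left, alt2_smul_left, alt2_smul_left]
  have h1 : ν ![y, x, q.1.1, z] = - ν ![q.1.1, x, y, z] := by
    rw [← ν.map_swap ![q.1.1, x, y, z] (i := 0) (j := 2) (by decide)]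
    congr 1
    ext i
    fin_cases i <;> rfl
  rw [h1]
  simp only [smul_eq_mul]
  linear_combination hq

/-- the inclusion of `M^*`, linear version -/
def inFL (f : M →ₗ[R] R) (ν : M [⋀^Fin 4]→ₗ[R] R) : (M →ₗ[R] R) →ₗ[R] PP f ν where
  toFun l := inF f ν l
  map_add' l l' := by
    apply Subtype.ext
    refine Prod.ext ?_ ?_
    · simp [inF]
    · simp [inF, one_add]
  map_smul' c l := by
    apply Subtype.ext
    refine Prod.ext ?_ ?_
    · simp [inF]
    · simp [inF, one_smul']

theorem inFL_apply (l : M →ₗ[R] R) : inFL f ν l = inF f ν l := rfl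

theorem inF_self : inF f ν f = 0 := by
  apply Subtype.ext
  refine Prod.ext rfl ?_
  show wedge f 1 (one f) = 0
  ext x
  have : x = ![x 0, x 1] := by ext i; fin_cases i <;> rfl
  rw [this, wedge_one_apply, AlternatingMap.zero_apply, mul_comm, sub_self]

theorem B_surjective (hf : HasReg f 4) (hν : wedge f 4 ν = 0) (φ : PP f ν →ₗ[R] R) :
    ∃ p, B hf p = φ := by
  obtain ⟨v0, hv0⟩ : ∃ v0 : M, ∀ l : M →ₗ[R] R, l v0 = φ (inF f ν l) := by
    refine ⟨(Module.evalEquiv R M).symm (φ ∘ₗ inFL f ν), fun l => ?_⟩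
    rw [Module.apply_evalEquiv_symm_apply]
    rfl
  have hfv : f (-v0) = 0 := by rw [map_neg, hv0, inF_self, map_zero, neg_zero]
  obtain ⟨w0, hw0⟩ := exists_PP hf hν (-v0) hfv
  set p0 : PP f ν := ⟨(-v0, w0), hw0⟩ with hp0
  set φ' := φ - B hf p0 with hφ'
  have h0 : ∀ l, φ' (inF f ν l) = 0 := by
    intro l
    rw [hφ', LinearMap.sub_apply, B_comm, B_inF, ← hv0, hp0, map_neg, neg_neg, sub_self]
  have h0' : ∀ q : PP f ν, q.1.1 = 0 → φ' q = 0 := by
    intro q hq
    obtain ⟨l, rfl⟩ := exists_inF hf q hq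
    exact h0 l
  have hw1 : wedge f 2 (mkAlt2 ((kappa hν).compr₂ (-φ')) (fun x => by
      rw [LinearMap.compr₂_apply, kappa_self, map_zero])) = 0 := by
    ext x
    rw [alt3_eq, wedge_two_apply, AlternatingMap.zero_apply]
    simp only [mkAlt2_apply, LinearMap.compr₂_apply]
    have h1 := h0' (f (x 0) • kappa hν (x 1) (x 2) + (-f (x 1)) • kappa hν (x 0) (x 2) +
      f (x 2) • kappa hν (x 0) (x 1)) (by
        simp only [Submodule.coe_add, Prod.fst_add, Submodule.coe_smul, Prod.smul_fst, kappa_fst]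
        module)
    rw [LinearMap.map_add, LinearMap.map_add, LinearMap.map_smul, LinearMap.map_smul,
      LinearMap.map_smul] at h1
    simp only [smul_eq_mul, LinearMap.neg_apply] at h1 ⊢
    linear_combination -h1
  obtain ⟨p1, hp1⟩ : ∃ p1 : PP f ν, p1.1.1 = 0 ∧ ∀ x y, p1.1.2 ![x, y] = - φ' (kappa hν x y) :=
    ⟨⟨(0, _), mem_PP.2 ⟨map_zero _, by rw [hw1, contr_zero_left]⟩⟩, rfl, fun x y => rfl⟩
  refine ⟨p0 + p1, ?_⟩
  set ψ : PP f ν →ₗ[R] R := φ' - B hf p1 with hψ
  have h5 : ∀ q : PP f ν, q.1.1 = 0 → ψ q = 0 := by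
    intro q hq
    rw [hψ, LinearMap.sub_apply, h0' q hq]
    obtain ⟨l, rfl⟩ := exists_inF hf _ hq
    rw [B_comm, B_inF, hp1.1, map_zero, neg_zero, sub_zero]
  have h6 : ∀ x y, ψ (kappa hν x y) = 0 := by
    intro x y
    rw [hψ, LinearMap.sub_apply, B_comm, B_kappa, hp1.2, neg_neg, sub_self]
  have h2 : ∀ q, ψ q = 0 := by
    intro q
    apply hf.eq_zero_of_mul (by norm_num)
    intro x
    have h4 : (f x • q - kappa hν x q.1.1).1.1 = 0 := by
      have := q.2.1
      rw [Submodule.coe_sub, Prod.fst_sub, kappa_fst, this]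
      simp
    have h7 := h5 _ h4
    have h8 : f x • q = kappa hν x q.1.1 + (f x • q - kappa hν x q.1.1) := by abel
    have h9 := congrArg ψ h8
    rw [LinearMap.map_smul, LinearMap.map_add, h7, h6, add_zero, smul_eq_mul] at h9
    rw [mul_comm, h9]
  ext q
  have := h2 q
  rw [hψ, hφ', LinearMap.sub_apply, LinearMap.sub_apply] at this
  rw [map_add, LinearMap.add_apply]
  linear_combination -this

end form

end Pool.Agent.Licci
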