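import Mathlib
import Pool.Agent.Work.MP_a98e4e_ag.PPrime
import Pool.Agent.Work.MP_a98e4e_ag.Null

/-!
From an exact complex `0 → R → F3 → F2 → F1 → R` whose image has grade at least four to a four-form
`ν` on `F1` with `f ∧ ν = 0` and `P'(f, ν)` projective.
-/

namespace Pool.Agent.Licci

open RingTheory.Sequence Pointwise

universe u v

section lift

variable {R : Type u} [CommRing R] {M : Type v} {A B C : Type u} [AddCommGroup M] [Module R M]
  [AddCommGroup A] [Module R A] [AddCommGroup B] [Module R B] [AddCommGroup C] [Module R C]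

theorem exists_lift_alt_exact [Module.Free R M] {u : A →ₗ[R] B} {v : B →ₗ[R] C}
    (h : Function.Exact u v) (i : ℕ) (ω : M [⋀^Fin i]→ₗ[R] B)
    (hω : v.compAlternatingMap ω = 0) : ∃ η : M [⋀^Fin i]→ₗ[R] A, u.compAlternatingMap η = ω := by
  have hv : ∀ x, ω x ∈ LinearMap.range u := by
    intro x
    have h1 : v (ω x) = 0 := by
      have := congrArg (fun f => f x) hω
      simpa using this
    exact (h _).1 h1
  obtain ⟨η, hη⟩ := exists_lift_alt u.rangeRestrict (LinearMap.surjective_rangeRestrict _) i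
    (ω.codRestrict _ hv)
  refine ⟨η, ?_⟩
  ext x
  have := congrArg (fun f => ((f x : LinearMap.range u) : B)) hη
  simpa using this

/-- a linear map as a `1`-form with values -/
def oneN (l : M →ₗ[R] A) : M [⋀^Fin 1]→ₗ[R] A := AlternatingMap.ofSubsingleton R M A (0 : Fin 1) l

theorem oneN_apply (l : M →ₗ[R] A) (x : Fin 1 → M) : oneN l x = l (x 0) := rfl

/-- evaluation of an alternating map with values in a dual module -/
def evalAlt {k : ℕ} (ω : M [⋀^Fin k]→ₗ[R] Module.Dual R A) : A →ₗ[R] (M [⋀^Fin k]→ₗ[R] R) where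
  toFun v := (LinearMap.applyₗ v).compAlternatingMap ω
  map_add' u v := by ext x; simp
  map_smul' c v := by ext x; simp

theorem evalAlt_apply {k : ℕ} (ω : M [⋀^Fin k]→ₗ[R] Module.Dual R A) (v : A) (x : Fin k → M) :
    evalAlt ω v x = ω x v := rfl

theorem wedge_evalAlt {k : ℕ} (f : M →ₗ[R] R) (ω : M [⋀^Fin k]→ₗ[R] Module.Dual R A) (v : A) :
    wedge f k (evalAlt ω v) = evalAlt (wedge f k ω) v :=
  wedge_compRight f _ k ω

/-- contraction, linear in the vector -/
def contrL (n : ℕ) (ω : M [⋀^Fin (n + 1)]→ₗ[R] A) : M →ₗ[R] (M [⋀^Fin n]→ₗ[R] A) where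
  toFun v := contr v n ω
  map_add' u v := contr_add_left u v n ω
  map_smul' c v := contr_smul_left c v n ω

theorem contrL_apply (n : ℕ) (ω : M [⋀^Fin (n + 1)]→ₗ[R] A) (v : M) :
    contrL n ω v = contr v n ω := rfl

theorem HasReg.exact [Module.Free R M] [Module.Finite R M] {f : M →ₗ[R] R} {n : ℕ}
    (h : HasReg f n) (i : ℕ) (hi : i + 1 < n) :
    Function.Exact (wedge (N := R) f i) (wedge (N := R) f (i + 1)) := by
  intro ω
  constructor
  · intro hω
    exact h.isCob (i + 1) hi ω hω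
  · rintro ⟨η, rfl⟩
    exact wedge_wedge_self f i η

end lift

section main

variable {R : Type u} [CommRing R] {F1 F2 F3 : Type u} [AddCommGroup F1] [Module R F1]
  [AddCommGroup F2] [Module R F2] [AddCommGroup F3] [Module R F3]
  [Module.Free R F1] [Module.Free R F2] [Module.Free R F3]
  [Module.Finite R F1] [Module.Finite R F2] [Module.Finite R F3]

/-- the comparison data -/
structure Comparison (f : F1 →ₗ[R] R) (e2 : F2 →ₗ[R] F1) (e3 : F3 →ₗ[R] F2) (e4 : R →ₗ[R] F3) where
  x1 : F1 →ₗ[R] Module.Dual R F3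
  x2 : F1 [⋀^Fin 2]→ₗ[R] Module.Dual R F2
  x3 : F1 [⋀^Fin 3]→ₗ[R] Module.Dual R F1
  x4 : F1 [⋀^Fin 4]→ₗ[R] R
  h1 : ∀ x r, x1 x (e4 r) = f x * r
  h2 : e3.dualMap.compAlternatingMap x2 = wedge f 1 (oneN x1)
  h3 : e2.dualMap.compAlternatingMap x3 = wedge f 2 x2
  h4 : (LinearMap.toSpanSingleton R (Module.Dual R F1) f).compAlternatingMap x4 = wedge f 3 x3
  h5 : wedge f 4 x4 = 0

theorem exists_comparison (f : F1 →ₗ[R] R) (e2 : F2 →ₗ[R] F1) (e3 : F3 →ₗ[R] F2) (e4 : R →ₗ[R] F3)
    (h1 : Function.Exact e2 f) (h2 : Function.Exact e3 e2) (h3 : Function.Exact e4 e3)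
    (h4 : Function.Injective e4) (hf : HasReg f 4) : Nonempty (Comparison f e2 e3 e4) := by
  obtain ⟨rs, hlen, hreg, hmem⟩ := hf
  obtain ⟨d1, d2, d3, d4⟩ := LicciCodimFour.dual_exact f e2 e3 e4 h1 h2 h3 h4 rs hlen hreg hmem
  have E1 : Function.Injective (LinearMap.toSpanSingleton R (Module.Dual R F1) f) := by
    rw [injective_iff_map_eq_zero]
    intro c hc
    exact d1 c hc
  have E2 : Function.Exact (LinearMap.toSpanSingleton R (Module.Dual R F1) f) e2.dualMap := by
    intro ξ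
    constructor
    · intro h
      obtain ⟨c, rfl⟩ := d2 ξ (fun z => LinearMap.congr_fun h z)
      exact ⟨c, rfl⟩
    · rintro ⟨c, rfl⟩
      ext z
      simp [LinearMap.dualMap_apply, h1.apply_apply_eq_zero]
  have E3 : Function.Exact e2.dualMap e3.dualMap := by
    intro ξ
    constructor
    · intro h
      obtain ⟨η, hη⟩ := d3 ξ (fun z => LinearMap.congr_fun h z)
      exact ⟨η, by ext z; exact (hη z).symm⟩
    · rintro ⟨c, rfl⟩
      ext z
      simp [LinearMap.dualMap_apply, h2.apply_apply_eq_zero]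
  have E4 : Function.Exact e3.dualMap e4.dualMap := by
    intro ξ
    constructor
    · intro h
      obtain ⟨η, hη⟩ := d4 ξ (fun z => LinearMap.congr_fun h z)
      exact ⟨η, by ext z; exact (hη z).symm⟩
    · rintro ⟨c, rfl⟩
      ext z
      simp [LinearMap.dualMap_apply, h3.apply_apply_eq_zero]
  -- `x1`
  obtain ⟨x1, hx1⟩ : ∃ x1 : F1 →ₗ[R] Module.Dual R F3, ∀ x r, x1 x (e4 r) = f x * r := by
    have hm : ∀ x, (f.smulRight (LinearMap.id : R →ₗ[R] R)) x ∈ LinearMap.range e4.dualMap := by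
      intro x
      obtain ⟨g1, g2, g3, -, -, -, hg⟩ := LicciCodimFour.null_homotopy f e2 e3 e4 h1 h2 h3 h4 x
      refine ⟨g3, ?_⟩
      ext
      simp [LinearMap.dualMap_apply, hg]
    obtain ⟨x1, hx1⟩ := Module.projective_lifting_property e4.dualMap.rangeRestrict
      ((f.smulRight (LinearMap.id : R →ₗ[R] R)).codRestrict _ hm)
      e4.dualMap.surjective_rangeRestrict
    refine ⟨x1, fun x r => ?_⟩
    have := congrArg Subtype.val (LinearMap.congr_fun hx1 x)
    have := LinearMap.congr_fun this r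
    simpa [LinearMap.dualMap_apply] using this
  have hx1' : e4.dualMap.compAlternatingMap (oneN x1) =
      wedge f 0 (AlternatingMap.constOfIsEmpty R F1 (Fin 0) (LinearMap.id : R →ₗ[R] R)) := by
    ext x r
    rw [wedge_apply]
    simp [LinearMap.dualMap_apply, oneN_apply, hx1]
  obtain ⟨x2, hx2⟩ := exists_lift_alt_exact E4 2 (wedge f 1 (oneN x1)) (by
    rw [← wedge_compRight, hx1', wedge_wedge_self])
  obtain ⟨x3, hx3⟩ := exists_lift_alt_exact E3 3 (wedge f 2 x2) (by
    rw [← wedge_compRight, hx2, wedge_wedge_self])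
  obtain ⟨x4, hx4⟩ := exists_lift_alt_exact E2 4 (wedge f 3 x3) (by
    rw [← wedge_compRight, hx3, wedge_wedge_self])
  refine ⟨⟨x1, x2, x3, x4, hx1, hx2, hx3, hx4, ?_⟩⟩
  have h5 : (LinearMap.toSpanSingleton R (Module.Dual R F1) f).compAlternatingMap (wedge f 4 x4) =
      0 := by
    rw [← wedge_compRight, hx4, wedge_wedge_self]
  ext z
  apply E1
  have := congrArg (fun ω => ω z) h5
  simpa using this

variable {f : F1 →ₗ[R] R} {e2 : F2 →ₗ[R] F1} {e3 : F3 →ₗ[R] F2} {e4 : R →ₗ[R] F3}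

/-- The maps `F2 → Λ² F1^*`. -/
theorem Comparison.exists_w (c : Comparison f e2 e3 e4) (hf : HasReg f 4) :
    ∃ w : F2 →ₗ[R] (F1 [⋀^Fin 2]→ₗ[R] R),
      (∀ g, f (e2 g) = 0 → wedge f 2 (w g) = contr (e2 g) 3 c.x4) ∧
      ∀ h, e2 (e3 h) = 0 → w (e3 h) = wedge f 1 (one (c.x1.flip h)) := by
  obtain ⟨ε, hε⟩ := LicciCodimFour.exists_lift (hf.exact 2 (by norm_num))
    (contrL 3 c.x4 - evalAlt c.x3) (by
      intro v
      rw [LinearMap.sub_apply, map_sub, contrL_apply, wedge_contr, wedge_evalAlt, ← c.h4, c.h5,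
        map_zero, sub_zero]
      ext x
      simp [evalAlt_apply, mul_comm])
  refine ⟨evalAlt c.x2 + ε ∘ₗ e2, fun g _ => ?_, fun h hh => ?_⟩
  · rw [LinearMap.add_apply, LinearMap.comp_apply, map_add, hε, wedge_evalAlt, ← c.h3]
    ext x
    simp [evalAlt_apply, contrL_apply, LinearMap.dualMap_apply]
  · rw [LinearMap.add_apply, LinearMap.comp_apply, hh, map_zero, add_zero]
    have h1 : evalAlt c.x2 (e3 h) = evalAlt (e3.dualMap.compAlternatingMap c.x2) h := by
      ext x
      simp [evalAlt_apply, LinearMap.dualMap_apply]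
    rw [h1, c.h2, ← wedge_evalAlt]
    congr 1

theorem free_of_projective_local {R P : Type*} [CommRing R] [IsLocalRing R] [AddCommMonoid P]
    [Module R P] [Module.Projective R P] [Module.Finite R P] : Module.Free R P := by
  letI : AddCommGroup P := Module.addCommMonoidToAddCommGroup R
  exact Module.free_of_flat_of_isLocalRing

theorem exists_factor {R A P N : Type*} [CommRing R] [AddCommMonoid A] [Module R A]
    [AddCommMonoid P] [Module R P] [AddCommMonoid N] [Module R N] (π : A →ₗ[R] P)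
    (hπ : Function.Surjective π) (φ : A →ₗ[R] N) (h : ∀ a a', π a = π a' → φ a = φ a') :
    ∃ ψ : P →ₗ[R] N, ∀ a, ψ (π a) = φ a := by
  have hs : ∀ p, π (Function.surjInv hπ p) = p := fun p => Function.surjInv_eq hπ p
  refine ⟨⟨⟨fun p => φ (Function.surjInv hπ p), fun p q => ?_⟩, fun c p => ?_⟩, fun a => ?_⟩
  · rw [← map_add]
    apply h
    rw [hs, map_add, hs, hs]
  · rw [RingHom.id_apply, ← map_smul]
    apply h
    rw [map_smul]
    simp only [hs]
  · apply h
    exact hs _

/-- A surjectivity of the dual map gives a retraction. -/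
theorem exists_retraction {A F : Type u} [AddCommGroup A] [Module R A] [AddCommGroup F]
    [Module R F] [Module.Projective R F] [Module.Finite R F] (i : F →ₗ[R] A)
    (hi : Function.Surjective i.dualMap) : ∃ ρ : A →ₗ[R] F, ρ ∘ₗ i = LinearMap.id := by
  obtain ⟨σ, hσ⟩ := Module.projective_lifting_property i.dualMap LinearMap.id hi
  refine ⟨(Module.evalEquiv R F).symm.toLinearMap ∘ₗ σ.dualMap ∘ₗ Module.Dual.eval R A, ?_⟩
  ext z
  apply (Module.evalEquiv R F).injective
  ext ψ
  have h1 := LinearMap.congr_fun (LinearMap.congr_fun hσ ψ) z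
  simp only [LinearMap.comp_apply, LinearMap.dualMap_apply, LinearMap.id_apply] at h1
  simp [LinearMap.dualMap_apply, h1]

theorem Comparison.projective (c : Comparison f e2 e3 e4)
    (h1 : Function.Exact e2 f) (h2 : Function.Exact e3 e2) (h3 : Function.Exact e4 e3)
    (h4 : Function.Injective e4) (hf : HasReg f 4) :
    Module.Projective R (PP f c.x4) ∧ Module.Finite R (PP f c.x4) ∧
      Nonempty ((F3 × PP f c.x4) ≃ₗ[R] (F2 × Module.Dual R F1)) := by
  obtain ⟨rs, hlen, hreg, hmem⟩ := id hf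
  obtain ⟨d1, d2, d3, d4⟩ := LicciCodimFour.dual_exact f e2 e3 e4 h1 h2 h3 h4 rs hlen hreg hmem
  obtain ⟨w, hw1, hw2⟩ := c.exists_w hf
  have hfe : ∀ g, f (e2 g) = 0 := h1.apply_apply_eq_zero
  have hee : ∀ h, e2 (e3 h) = 0 := h2.apply_apply_eq_zero
  -- the map `G → P'`
  let π1 : F2 →ₗ[R] PP f c.x4 := LinearMap.codRestrict (PP f c.x4) (e2.prod w)
    (fun g => mem_PP.2 ⟨hfe g, hw1 g (hfe g)⟩)
  let π : (F2 × Module.Dual R F1) →ₗ[R] PP f c.x4 := π1.coprod (inFL f c.x4)
  let ι : F3 →ₗ[R] (F2 × Module.Dual R F1) := e3.prod (- c.x1.flip)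
  have hπι : ∀ h, π (ι h) = 0 := by
    intro h
    apply Subtype.ext
    refine Prod.ext ?_ ?_
    · show e2 (e3 h) + 0 = 0
      rw [hee, add_zero]
    · show w (e3 h) + wedge f 1 (one (- c.x1.flip h)) = 0
      rw [hw2 h (hee h), ← map_add, ← one_add, add_neg_cancel]
      have : one (0 : F1 →ₗ[R] R) = 0 := by ext; rfl
      rw [this, map_zero]
  have hιinj : Function.Injective ι := by
    rw [injective_iff_map_eq_zero]
    intro h hh
    have a1 : e3 h = 0 := congrArg Prod.fst hh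
    have a2 : - c.x1.flip h = 0 := congrArg Prod.snd hh
    obtain ⟨r, rfl⟩ := (h3 h).1 a1
    have : r = 0 := by
      apply hf.eq_zero_of_mul (by norm_num)
      intro x
      rw [mul_comm, ← c.h1]
      have := LinearMap.congr_fun (neg_eq_zero.1 a2) x
      simpa using this
    rw [this, map_zero]
  have hexact : ∀ a, π a = 0 → ∃ h, ι h = a := by
    rintro ⟨g, l⟩ ha
    have a1 : e2 g + 0 = 0 := congrArg (fun p : PP f c.x4 => p.1.1) ha
    have a2 : w g + wedge f 1 (one l) = 0 := congrArg (fun p : PP f c.x4 => p.1.2) ha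
    rw [add_zero] at a1
    obtain ⟨h, rfl⟩ := (h2 g).1 a1
    rw [hw2 h (hee h), ← map_add, ← one_add] at a2
    obtain ⟨η, hη⟩ := hf.isCob 1 (by norm_num) _ a2
    rw [wedge_zero_eq] at hη
    have hη' := one_injective hη
    refine ⟨h - e4 (η ![]), ?_⟩
    refine Prod.ext ?_ ?_
    · show e3 (h - e4 (η ![])) = e3 h
      rw [map_sub, h3.apply_apply_eq_zero, sub_zero]
    · show - c.x1.flip (h - e4 (η ![])) = l
      ext x
      have a3 := LinearMap.congr_fun hη' x
      simp only [LinearMap.smul_apply, LinearMap.add_apply, LinearMap.flip_apply,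
        smul_eq_mul] at a3
      simp only [LinearMap.neg_apply, LinearMap.flip_apply, map_sub, LinearMap.sub_apply, c.h1]
      linear_combination a3
  have hπsurj : Function.Surjective π := by
    intro p
    obtain ⟨g, hg⟩ := (h1 p.1.1).1 p.2.1
    have hz : (p - π (g, 0)).1.1 = 0 := by
      show p.1.1 - (e2 g + 0) = 0
      rw [hg, add_zero, sub_self]
    obtain ⟨l, hl⟩ := exists_inF hf _ hz
    refine ⟨(g, l), ?_⟩
    have : p = π (g, 0) + (p - π (g, 0)) := by abel
    rw [this, hl]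
    show π1 g + inFL f c.x4 l = (π1 g + inFL f c.x4 0) + inF f c.x4 l
    rw [map_zero, add_zero]
    rfl
  have hπeq : ∀ a a', π a = π a' → π (a - a') = 0 := by
    intro a a' h
    have h0 : π a = π (a - a') + π a' := by
      rw [← map_add, sub_add_cancel]
    rw [h] at h0
    exact right_eq_add.1 h0
  -- the map `A → A^*`
  let β : (F2 × Module.Dual R F1) →ₗ[R] Module.Dual R (F2 × Module.Dual R F1) :=
    π.dualMap ∘ₗ (B hf) ∘ₗ π
  have hβ : ∀ a a', β a a' = B hf (π a) (π a') := fun a a' => rfl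
  have hM : ∀ v : F1, (∀ l : F1 →ₗ[R] R, l v = 0) → v = 0 := by
    intro v hv
    exact (Module.forall_dual_apply_eq_zero_iff R v).1 hv
  have key := LicciCodimFour.acyclic4_surjective ι β ι.dualMap
    (fun h => by
      ext a <;> simp [hβ, hπι])
    (fun a => by
      ext h
      rw [LinearMap.dualMap_apply, hβ, hπι, map_zero, LinearMap.zero_apply])
    rs hlen (LicciCodimFour.isWeaklyRegular_of_flat hreg _)
    (LicciCodimFour.isWeaklyRegular_of_flat hreg _)
    (LicciCodimFour.isWeaklyRegular_of_flat hreg _)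
    (LicciCodimFour.isWeaklyRegular_of_flat hreg _)
    (fun r _ z hz => ⟨0, by
      rw [pow_zero, one_smul]
      apply hιinj
      rw [hz, map_zero]⟩)
    (fun r _ a ha => by
      have h0 : π a = 0 := by
        apply B_injective hf c.h5 hM
        ext p
        obtain ⟨a', rfl⟩ := hπsurj p
        rw [← hβ, ha]
        rfl
      obtain ⟨h, hh⟩ := hexact a h0
      exact ⟨0, h, by rw [pow_zero, one_smul, hh]⟩)
    (fun r _ φ hφ => by
      obtain ⟨φ', hφ'⟩ := exists_factor π hπsurj φ (fun a a' h => by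
        obtain ⟨z, hz⟩ := hexact _ (hπeq a a' h)
        have h0 := LinearMap.congr_fun hφ z
        rw [LinearMap.dualMap_apply, hz, LinearMap.zero_apply, map_sub] at h0
        exact sub_eq_zero.1 h0)
      obtain ⟨p, hp⟩ := B_surjective hf c.h5 φ'
      obtain ⟨a, rfl⟩ := hπsurj p
      refine ⟨0, a, ?_⟩
      rw [pow_zero, one_smul]
      apply LinearMap.ext
      intro a'
      rw [hβ, hp, hφ'])
    (fun r hr ψ => by
      obtain ⟨x, rfl⟩ := hmem r hr
      obtain ⟨g1, g2, g3, hg1, hg2, hg3, hg4⟩ :=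
        LicciCodimFour.null_homotopy f e2 e3 e4 h1 h2 h3 h4 x
      obtain ⟨η, hη⟩ := d4 (g3 - c.x1 x) (fun z => by
        rw [LinearMap.sub_apply, hg4, c.h1, smul_eq_mul, sub_self])
      let s : (F2 × Module.Dual R F1) →ₗ[R] F3 :=
        (g2 + e4 ∘ₗ η).coprod (- (e4 ∘ₗ LinearMap.applyₗ x))
      have hs : ∀ z, s (ι z) = f x • z := by
        intro z
        show (g2 (e3 z) + e4 (η (e3 z))) + - (e4 (- c.x1 x z)) = f x • z
        rw [← hη z, LinearMap.sub_apply, map_sub, hg3, map_neg]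
        abel
      refine ⟨1, ψ ∘ₗ s, ?_⟩
      ext z
      rw [LinearMap.dualMap_apply, LinearMap.comp_apply, hs, map_smul, pow_one]
      rfl)
  obtain ⟨-, -, -, hsurj⟩ := key
  obtain ⟨ρ, hρ⟩ := exists_retraction ι hsurj
  have hρ' : ∀ z, ρ (ι z) = z := fun z => LinearMap.congr_fun hρ z
  obtain ⟨i, hi⟩ := exists_factor π hπsurj (LinearMap.id - ι ∘ₗ ρ) (fun a a' h => by
    obtain ⟨z, hz⟩ := hexact _ (hπeq a a' h)
    have h0 : ((LinearMap.id : (F2 × Module.Dual R F1) →ₗ[R] _) - ι ∘ₗ ρ) (a - a') = 0 := by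
      rw [← hz, LinearMap.sub_apply, LinearMap.comp_apply, hρ', LinearMap.id_apply, sub_self]
    rw [map_sub] at h0
    exact sub_eq_zero.1 h0)
  have hsplit : π ∘ₗ i = LinearMap.id := by
    apply LinearMap.ext
    intro p
    obtain ⟨a, rfl⟩ := hπsurj p
    rw [LinearMap.comp_apply, hi, LinearMap.id_apply, LinearMap.sub_apply, LinearMap.id_apply,
      LinearMap.comp_apply]
    have h0 : a = (a - ι (ρ a)) + ι (ρ a) := by rw [sub_add_cancel]
    conv_rhs => rw [h0, map_add, hπι, add_zero]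
  have hsplit' : ∀ p, π (i p) = p := fun p => LinearMap.congr_fun hsplit p
  refine ⟨Module.Projective.of_split i π hsplit, Module.Finite.of_surjective π hπsurj, ⟨?_⟩⟩
  refine LinearEquiv.ofLinear (ι.coprod i) (ρ.prod π) ?_ ?_
  · apply LinearMap.ext
    intro a
    show ι (ρ a) + i (π a) = a
    rw [hi, LinearMap.sub_apply, LinearMap.id_apply, LinearMap.comp_apply, add_sub_cancel]
  · apply LinearMap.ext
    rintro ⟨z, p⟩
    have h5 : ρ (i p) = 0 := by
      obtain ⟨a, rfl⟩ := hπsurj p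
      rw [hi, LinearMap.sub_apply, LinearMap.id_apply, LinearMap.comp_apply, map_sub, hρ',
        sub_self]
    refine Prod.ext ?_ ?_
    · show ρ (ι z + i p) = z
      rw [map_add, hρ', h5, add_zero]
    · show π (ι z + i p) = p
      rw [map_add, hπι, hsplit', zero_add]

theorem exists_nu (h1 : Function.Exact e2 f) (h2 : Function.Exact e3 e2)
    (h3 : Function.Exact e4 e3) (h4 : Function.Injective e4) (hf : HasReg f 4) :
    ∃ ν : F1 [⋀^Fin 4]→ₗ[R] R, wedge f 4 ν = 0 ∧ Module.Projective R (PP f ν) ∧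
      Module.Finite R (PP f ν) ∧
      Nonempty ((F3 × PP f ν) ≃ₗ[R] (F2 × Module.Dual R F1)) := by
  obtain ⟨c⟩ := exists_comparison f e2 e3 e4 h1 h2 h3 h4 hf
  exact ⟨c.x4, c.h5, c.projective h1 h2 h3 h4 hf⟩

/-- Over a local ring `P'(f, ν)` is free, of rank `rank F2 + rank F1 - rank F3`. -/
theorem exists_nu_free [IsLocalRing R] (h1 : Function.Exact e2 f) (h2 : Function.Exact e3 e2)
    (h3 : Function.Exact e4 e3) (h4 : Function.Injective e4) (hf : HasReg f 4) :
    ∃ ν : F1 [⋀^Fin 4]→ₗ[R] R, wedge f 4 ν = 0 ∧ Module.Free R (PP f ν) ∧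
      Module.Finite R (PP f ν) ∧
      Module.finrank R F3 + Module.finrank R (PP f ν) =
        Module.finrank R F2 + Module.finrank R F1 := by
  obtain ⟨ν, hν, hp, hfin, ⟨e⟩⟩ := exists_nu h1 h2 h3 h4 hf
  have hfree : Module.Free R (PP f ν) := free_of_projective_local
  refine ⟨ν, hν, hfree, hfin, ?_⟩
  have h5 := LinearEquiv.finrank_eq e
  have h6 : Module.finrank R (F3 × PP f ν) =
      Module.finrank R F3 + Module.finrank R (PP f ν) := Module.finrank_prod
  rw [h6, Module.finrank_prod] at h5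
  rw [h5]
  congr 1
  exact ((Module.Free.chooseBasis R F1).toDualEquiv.finrank_eq).symm

end main

end Pool.Agent.Licci
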