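import Mathlib

/-!
MP_a98e4e_ag (licci, codimension 4), module DL (helper43): the double link.

`X` is the ideal of the first three elements of the regular sequence, `f, g : P → R` linear,
`α = X + (f a)`, `w = g a`, `f' = f + c g`, `α' = X + (f' a)`.
-/

set_option autoImplicit false

namespace Pool.Agent.Licci

variable {R : Type*} [CommRing R]

/-- `x` is a nonzerodivisor modulo the ideal `J`. -/
def RegMod (J : Ideal R) (x : R) : Prop := ∀ y, x * y ∈ J → y ∈ J

lemma mem_sup_span_singleton' {X : Ideal R} {u z : R} :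
    z ∈ X ⊔ Ideal.span {u} ↔ ∃ h, z - u * h ∈ X := by
  constructor
  · intro hz
    obtain ⟨x, hx, y, hy, rfl⟩ := Submodule.mem_sup.mp hz
    obtain ⟨h, rfl⟩ := Ideal.mem_span_singleton'.mp hy
    refine ⟨h, ?_⟩
    have : x + h * u - u * h = x := by ring
    rwa [this]
  · rintro ⟨h, hh⟩
    have h1 : z = (z - u * h) + u * h := by ring
    rw [h1]
    exact Ideal.add_mem _ (Ideal.mem_sup_left hh)
      (Ideal.mem_sup_right (Ideal.mul_mem_right _ _ (Ideal.mem_span_singleton_self u)))

variable {P : Type*} [AddCommGroup P] [Module R P]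

/-- The double link, first identity: `α : w = (f)` implies `α' : w = (f')`. -/
theorem double_link_colon {X : Ideal R} (f g : P →ₗ[R] R) (a : P) (c : R)
    (hX' : ∀ x ∈ X, x ∈ LinearMap.range (f + c • g))
    (hrel : ∀ v, f v * g a - f a * g v ∈ X)
    (hreg : RegMod X (f a))
    (hI : ∀ y, y * g a ∈ X ⊔ Ideal.span {f a} → y ∈ LinearMap.range f)
    (y : R) :
    y * g a ∈ X ⊔ Ideal.span {f a + c * g a} ↔ y ∈ LinearMap.range (f + c • g) := by
  constructor
  · intro hy
    obtain ⟨h, hh⟩ := mem_sup_span_singleton'.mp hy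
    -- `b = y - c h` satisfies `b w = f a * h` modulo `X`
    have h1 : (y - c * h) * g a - f a * h ∈ X := by
      have : (y - c * h) * g a - f a * h = y * g a - (f a + c * g a) * h := by ring
      rwa [this]
    obtain ⟨v, hv⟩ := hI _ (mem_sup_span_singleton'.mpr ⟨h, h1⟩)
    have h2 : f a * (g v - h) ∈ X := by
      have e : f a * (g v - h) = ((y - c * h) * g a - f a * h) - (f v * g a - f a * g v) := by
        rw [hv]; ring
      rw [e]; exact X.sub_mem h1 (hrel v)
    have h3 : g v - h ∈ X := hreg _ h2
    have h4 : y - (f + c • g) v ∈ X := by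
      have e : y - (f + c • g) v = -(c * (g v - h)) := by
        simp only [LinearMap.add_apply, LinearMap.smul_apply, smul_eq_mul]
        rw [hv]; ring
      rw [e]; exact X.neg_mem (X.mul_mem_left _ h3)
    have h5 := (LinearMap.range (f + c • g)).add_mem (hX' _ h4) ⟨v, rfl⟩
    simpa using h5
  · rintro ⟨v, rfl⟩
    refine mem_sup_span_singleton'.mpr ⟨g v, ?_⟩
    have e : (f + c • g) v * g a - (f a + c * g a) * g v = f v * g a - f a * g v := by
      simp only [LinearMap.add_apply, LinearMap.smul_apply, smul_eq_mul]; ring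
    rw [e]; exact hrel v

/-- The double link, second identity: `α : (f) = α + (w)` implies `α' : (f') = α' + (w)`. -/
theorem double_link_colon' {X : Ideal R} (f g : P →ₗ[R] R) (a : P) (c : R)
    (hrel : ∀ v, f v * g a - f a * g v ∈ X)
    (hreg' : RegMod X (f a + c * g a))
    (hJ : ∀ y, (∀ v, y * f v ∈ X ⊔ Ideal.span {f a}) → y ∈ X ⊔ Ideal.span {f a, g a})
    (y : R) :
    (∀ v, y * (f + c • g) v ∈ X ⊔ Ideal.span {f a + c * g a}) ↔
      y ∈ X ⊔ Ideal.span {f a + c * g a, g a} := by
  have hspan : X ⊔ Ideal.span {f a + c * g a, g a} = X ⊔ Ideal.span {f a, g a} := by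
    congr 1
    apply le_antisymm
    · rw [Ideal.span_le]
      rintro z (rfl | rfl)
      · exact Ideal.add_mem _ (Ideal.subset_span (by simp))
          (Ideal.mul_mem_left _ _ (Ideal.subset_span (by simp)))
      · exact Ideal.subset_span (by simp)
    · rw [Ideal.span_le]
      rintro z (rfl | rfl)
      · have e : f a = (f a + c * g a) - c * g a := by ring
        have : f a ∈ Ideal.span ({f a + c * g a, g a} : Set R) := by
          rw [e]
          exact Ideal.sub_mem _ (Ideal.subset_span (by simp))
            (Ideal.mul_mem_left _ _ (Ideal.subset_span (by simp)))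
        exact this
      · exact Ideal.subset_span (by simp)
  constructor
  · intro hy
    rw [hspan]
    apply hJ
    intro v
    obtain ⟨h, hh⟩ := mem_sup_span_singleton'.mp (hy v)
    -- `y g v = w h` modulo `X`
    have h1 : (f a + c * g a) * (y * g v - g a * h) ∈ X := by
      have e : (f a + c * g a) * (y * g v - g a * h) =
          g a * (y * (f + c • g) v - (f a + c * g a) * h) - y * (f v * g a - f a * g v) := by
        simp only [LinearMap.add_apply, LinearMap.smul_apply, smul_eq_mul]; ring
      rw [e]; exact X.sub_mem (X.mul_mem_left _ hh) (X.mul_mem_left _ (hrel v))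
    have h2 := hreg' _ h1
    refine mem_sup_span_singleton'.mpr ⟨h, ?_⟩
    have e : y * f v - f a * h =
        (y * (f + c • g) v - (f a + c * g a) * h) - c * (y * g v - g a * h) := by
      simp only [LinearMap.add_apply, LinearMap.smul_apply, smul_eq_mul]; ring
    rw [e]; exact X.sub_mem hh (X.mul_mem_left _ h2)
  · intro hy v
    obtain ⟨x, hx, z, hz, rfl⟩ := Submodule.mem_sup.mp hy
    obtain ⟨p, q, rfl⟩ := Ideal.mem_span_pair.mp hz
    have h1 : g a * (f + c • g) v ∈ X ⊔ Ideal.span {f a + c * g a} := by
      refine mem_sup_span_singleton'.mpr ⟨g v, ?_⟩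
      have e : g a * (f + c • g) v - (f a + c * g a) * g v = f v * g a - f a * g v := by
        simp only [LinearMap.add_apply, LinearMap.smul_apply, smul_eq_mul]; ring
      rw [e]; exact hrel v
    have e : (x + (p * (f a + c * g a) + q * g a)) * (f + c • g) v =
        x * (f + c • g) v + (p * (f + c • g) v * (f a + c * g a) + q * (g a * (f + c • g) v)) := by
      ring
    rw [e]
    exact Ideal.add_mem _ (Ideal.mem_sup_left (X.mul_mem_right _ hx))
      (Ideal.add_mem _ (Ideal.mem_sup_right (Ideal.mul_mem_left _ _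
        (Ideal.mem_span_singleton_self _))) (Ideal.mul_mem_left _ _ h1))

end Pool.Agent.Licci
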