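import Mathlib
import Pool.Agent.Work.MP_a98e4e_ag.DLink

/-!
MP_a98e4e_ag (licci, codimension 4), module GP (helper43): general position over an infinite
residue field.
-/

set_option autoImplicit false

noncomputable section

namespace Pool.Agent.Licci

open IsLocalRing RingTheory.Sequence

section avoid

variable {R : Type*} [CommRing R] [IsLocalRing R]


/-- reduction of a vector modulo the maximal ideal -/
def red {ι : Type*} (a : ι → R) : ι → ResidueField R := fun j => residue R (a j)

lemma red_add {ι : Type*} (a b : ι → R) : red (a + b) = red a + red b := by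
  funext j; simp [red]

lemma red_smul {ι : Type*} (r : R) (a : ι → R) : red (r • a) = residue R r • red a := by
  funext j; simp [red]

lemma red_surjective {ι : Type*} (b : ι → ResidueField R) : ∃ a : ι → R, red a = b := by
  choose a ha using fun j => IsLocalRing.residue_surjective (b j)
  exact ⟨a, funext ha⟩

/-- image in `k^n` of a submodule of `R^n` -/
def redSub {ι : Type*} (N : Submodule R (ι → R)) : Submodule (ResidueField R) (ι → ResidueField R) where
  carrier := {b | ∃ a ∈ N, red a = b}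
  zero_mem' := ⟨0, N.zero_mem, by funext j; simp [red]⟩
  add_mem' := by
    rintro _ _ ⟨a, ha, rfl⟩ ⟨b, hb, rfl⟩
    exact ⟨a + b, N.add_mem ha hb, red_add a b⟩
  smul_mem' := by
    rintro c _ ⟨a, ha, rfl⟩
    obtain ⟨r, rfl⟩ := IsLocalRing.residue_surjective c
    exact ⟨r • a, N.smul_mem r ha, red_smul r a⟩

lemma red_mem_redSub {ι : Type*} {N : Submodule R (ι → R)} {a : ι → R} (ha : a ∈ N) :
    red a ∈ redSub N := ⟨a, ha, rfl⟩

/-- Nakayama: a submodule of `R^n` with image `k^n` is everything. -/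
lemma eq_top_of_redSub_eq_top {ι : Type*} [Finite ι] {N : Submodule R (ι → R)}
    (h : redSub N = ⊤) : N = ⊤ := by
  have h1 : (⊤ : Submodule R (ι → R)) ≤ N ⊔ (maximalIdeal R) • (⊤ : Submodule R (ι → R)) := by
    intro v _
    have hv : red v ∈ redSub N := by rw [h]; trivial
    obtain ⟨a, ha, hav⟩ := hv
    have h2 : v - a ∈ (maximalIdeal R) • (⊤ : Submodule R (ι → R)) := by
      have h3 : ∀ j, v j - a j ∈ maximalIdeal R := by
        intro j
        rw [← IsLocalRing.residue_eq_zero_iff, map_sub, sub_eq_zero]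
        exact (congrFun hav j).symm
      classical
      cases nonempty_fintype ι
      have h4 : v - a = ∑ j, (v j - a j) • (Pi.single j (1 : R) : ι → R) := by
        funext i
        simp [Finset.sum_apply, Pi.single_apply]
      rw [h4]
      exact Submodule.sum_mem _ fun j _ => Submodule.smul_mem_smul (h3 j) trivial
    have h5 : v = a + (v - a) := by abel
    rw [h5]
    exact Submodule.add_mem_sup ha h2
  have hfg : (⊤ : Submodule R (ι → R)).FG := Module.Finite.fg_top
  have := Submodule.le_of_le_smul_of_le_jacobson_bot hfg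
    (IsLocalRing.maximalIdeal_le_jacobson ⊥) h1
  exact top_le_iff.mp this

/-- a vector outside finitely many proper subspaces, lifted to `R` -/
lemma exists_avoid [Infinite (ResidueField R)] {ι : Type*} [Finite ι]
    (S : Finset (Submodule (ResidueField R) (ι → ResidueField R))) (hS : ∀ V ∈ S, V ≠ ⊤) :
    ∃ a : ι → R, ∀ V ∈ S, red a ∉ V := by
  have h1 : (⊤ : Submodule (ResidueField R) (ι → ResidueField R)) ∉ S := fun h => hS _ h rfl
  have h2 := Subspace.biUnion_ne_univ_of_top_notMem h1
  obtain ⟨b, hb⟩ := (Set.ne_univ_iff_exists_notMem _).mp h2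
  obtain ⟨a, rfl⟩ := red_surjective b
  refine ⟨a, fun V hV hmem => hb ?_⟩
  exact Set.mem_biUnion (by simpa using hV) hmem

end avoid

section GP1

variable {R : Type*} [CommRing R] [IsLocalRing R] [IsNoetherianRing R]

/-- (GP1) general combinations of the generators of an ideal containing an `M`-regular element
are `M`-regular. -/
theorem gp1 (M : Type*) [AddCommGroup M] [Module R M] [Module.Finite R M] {ι : Type*} [Fintype ι]
    (f : ι → R) (h : ∃ x ∈ Ideal.span (Set.range f), IsSMulRegular M x) :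
    ∃ S : Finset (Submodule (ResidueField R) (ι → ResidueField R)), (∀ V ∈ S, V ≠ ⊤) ∧
      ∀ a : ι → R, (∀ V ∈ S, red a ∉ V) → IsSMulRegular M (∑ j, a j * f j) := by
  classical
  have hfin : (associatedPrimes R M).Finite := associatedPrimes.finite R M
  let φ : (ι → R) →ₗ[R] R := Fintype.linearCombination R f
  have hφ : ∀ a, φ a = ∑ j, a j * f j := fun a => by
    simp [φ, Fintype.linearCombination_apply]
  let N : Ideal R → Submodule R (ι → R) := fun p => Submodule.comap φ p
  refine ⟨hfin.toFinset.image fun p => redSub (N p), ?_, ?_⟩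
  · intro V hV htop
    obtain ⟨p, hp, rfl⟩ := Finset.mem_image.mp hV
    have hp' : p ∈ associatedPrimes R M := by simpa using hp
    have h1 : N p = ⊤ := eq_top_of_redSub_eq_top htop
    have h2 : Ideal.span (Set.range f) ≤ p := by
      rw [Ideal.span_le]
      rintro _ ⟨j, rfl⟩
      have h3 : (Pi.single j (1 : R) : ι → R) ∈ N p := by rw [h1]; trivial
      have h4 : φ (Pi.single j (1 : R)) ∈ p := h3
      rw [hφ] at h4
      simpa [Pi.single_apply] using h4
    obtain ⟨x, hx, hreg⟩ := h
    have h5 : x ∈ ⋃ p ∈ associatedPrimes R M, (p : Set R) :=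
      Set.mem_biUnion hp' (h2 hx)
    rw [biUnion_associatedPrimes_eq_compl_regular] at h5
    exact h5 hreg
  · intro a ha
    by_contra hcon
    have h5 : (∑ j, a j * f j) ∈ ⋃ p ∈ associatedPrimes R M, (p : Set R) := by
      rw [biUnion_associatedPrimes_eq_compl_regular]; exact hcon
    obtain ⟨p, hp, hmem⟩ := Set.mem_iUnion₂.mp h5
    refine ha (redSub (N p)) (Finset.mem_image.mpr ⟨p, by simpa using hp, rfl⟩) ?_
    refine red_mem_redSub ?_
    change φ a ∈ p
    rw [hφ]; exact hmem

/-- (GP2) `x + c w` is `M`-regular for all `c` outside finitely many residue classes. -/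
theorem gp2 (M : Type*) [AddCommGroup M] [Module R M] [Module.Finite R M]
    (x w : R) (h : IsSMulRegular M x) :
    ∃ T : Finset (ResidueField R), ∀ c : R, residue R c ∉ T → IsSMulRegular M (x + c * w) := by
  classical
  have hfin : (associatedPrimes R M).Finite := associatedPrimes.finite R M
  let B : Ideal R → Set (ResidueField R) := fun p => {t | ∃ c : R, residue R c = t ∧ x + c * w ∈ p}
  have hB : ∀ p ∈ associatedPrimes R M, (B p).Subsingleton := by
    rintro p hp t ⟨c, rfl, hc⟩ t' ⟨c', rfl, hc'⟩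
    by_contra hne
    have h1 : IsUnit (c - c') := by
      rw [← IsLocalRing.notMem_maximalIdeal, ← IsLocalRing.residue_eq_zero_iff, map_sub, sub_eq_zero]
      exact hne
    have h2 : (c - c') * w ∈ p := by
      have e : (c - c') * w = (x + c * w) - (x + c' * w) := by ring
      rw [e]; exact p.sub_mem hc hc'
    have h3 : w ∈ p := by
      obtain ⟨u, hu⟩ := h1
      have : w = (↑u⁻¹ : R) * ((c - c') * w) := by
        rw [← mul_assoc, ← hu, Units.inv_mul, one_mul]
      rw [this]; exact p.mul_mem_left _ h2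
    have h4 : x ∈ p := by
      have e : x = (x + c * w) - c * w := by ring
      rw [e]; exact p.sub_mem hc (p.mul_mem_left _ h3)
    have h5 : x ∈ ⋃ p ∈ associatedPrimes R M, (p : Set R) := Set.mem_biUnion hp h4
    rw [biUnion_associatedPrimes_eq_compl_regular] at h5
    exact h5 h
  have hfin2 : (⋃ p ∈ associatedPrimes R M, B p).Finite :=
    hfin.biUnion fun p hp => (hB p hp).finite
  refine ⟨hfin2.toFinset, fun c hc => ?_⟩
  by_contra hcon
  have h5 : x + c * w ∈ ⋃ p ∈ associatedPrimes R M, (p : Set R) := by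
    rw [biUnion_associatedPrimes_eq_compl_regular]; exact hcon
  obtain ⟨p, hp, hmem⟩ := Set.mem_iUnion₂.mp h5
  apply hc
  simp only [Set.Finite.mem_toFinset]
  exact Set.mem_biUnion hp ⟨c, rfl, hmem⟩

end GP1

section GP3

universe u

variable {R : Type u} [CommRing R] [IsLocalRing R] [IsNoetherianRing R]

open CategoryTheory Abelian Limits Pointwise

omit [IsNoetherianRing R] in
lemma smul_top_lt_of_le_maximal {I : Ideal R} (hI : I ≤ maximalIdeal R) (M : Type u)
    [AddCommGroup M] [Module R M] [Module.Finite R M] [Nontrivial M] :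
    I • (⊤ : Submodule R M) < ⊤ := by
  refine lt_top_iff_ne_top.mpr fun h => ?_
  have h2 : (⊤ : Submodule R M) ≤ ⊥ := by
    refine Submodule.le_of_le_smul_of_le_jacobson_bot (I := I) Module.Finite.fg_top
      (hI.trans (IsLocalRing.maximalIdeal_le_jacobson ⊥)) ?_
    rw [h, bot_sup_eq]
  exact top_ne_bot (le_antisymm h2 bot_le)

lemma grade_step_aux {I : Ideal R} (hI : I ≤ maximalIdeal R) (M : ModuleCat.{u} R)
    [Module.Finite R M] {r : ℕ} {x : R}
    (h : ∃ rs : List R, rs.length = r + 1 ∧ (∀ y ∈ rs, y ∈ I) ∧ IsRegular M rs)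
    (hx : x ∈ I) (hreg : IsSMulRegular M x) :
    ∃ rs : List R, rs.length = r ∧ (∀ y ∈ rs, y ∈ I) ∧ IsRegular (QuotSMulTop x M) rs := by
  have hM : Nontrivial M := by
    obtain ⟨rs, _, _, hrs⟩ := h
    exact hrs.nontrivial
  have hQ : Nontrivial (QuotSMulTop x M) := nontrivial_quotSMulTop_of_mem_maximalIdeal M (hI hx)
  have h_ext : ∀ i < r + 1, Subsingleton
      (Ext (ModuleCat.of R (Shrink.{u} (R ⧸ I))) M i) :=
    ((ModuleCat.exists_isRegular_tfae I (r + 1) M
      (smul_top_lt_of_le_maximal hI M)).out 3 1).mp h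
  refine ((ModuleCat.exists_isRegular_tfae I r (ModuleCat.of R (QuotSMulTop x M))
    (smul_top_lt_of_le_maximal hI (QuotSMulTop x M))).out 1 3).mp ?_
  intro i hi
  have zero1 := AddCommGrpCat.isZero_of_iff_subsingleton.mpr (h_ext i (by omega))
  have zero2 := AddCommGrpCat.isZero_of_iff_subsingleton.mpr (h_ext (i + 1) (by omega))
  exact AddCommGrpCat.subsingleton_of_isZero <| ShortComplex.Exact.isZero_of_both_zeros
    ((Ext.covariant_sequence_exact₃' (ModuleCat.of R (Shrink.{u} (R ⧸ I)))
      hreg.smulShortComplex_shortExact) i (i + 1) rfl)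
    (zero1.eq_zero_of_src _) (zero2.eq_zero_of_tgt _)

/-- one step down: `x` regular in `I`, the grade of `I` on `M / x M` is one less. -/
theorem grade_step {I : Ideal R} (hI : I ≤ maximalIdeal R) (M : Type u)
    [AddCommGroup M] [Module R M] [Module.Finite R M] {r : ℕ} {x : R}
    (h : ∃ rs : List R, rs.length = r + 1 ∧ (∀ y ∈ rs, y ∈ I) ∧ IsRegular M rs)
    (hx : x ∈ I) (hreg : IsSMulRegular M x) :
    ∃ rs : List R, rs.length = r ∧ (∀ y ∈ rs, y ∈ I) ∧ IsRegular (QuotSMulTop x M) rs :=
  grade_step_aux hI (ModuleCat.of R M) h hx hreg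

/-- `I` contains an element regular on `M / (α) M` if `α` is an `M`-regular list in `I`, shorter
than the grade of `I` on `M`. -/
theorem exists_regular_quot {I : Ideal R} (hI : I ≤ maximalIdeal R) (α : List R) :
    ∀ (M : Type u) [AddCommGroup M] [Module R M] [Module.Finite R M] (r : ℕ),
    (∃ rs : List R, rs.length = r ∧ (∀ y ∈ rs, y ∈ I) ∧ IsRegular M rs) →
    α.length < r → (∀ y ∈ α, y ∈ I) → IsWeaklyRegular M α →
    ∃ y ∈ I, IsSMulRegular (M ⧸ (Ideal.ofList α • ⊤ : Submodule R M)) y := by
  induction α with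
  | nil =>
    intro M _ _ _ r h hr _ _
    obtain ⟨rs, hlen, hmem, hrs⟩ := h
    cases rs with
    | nil => simp at hlen; omega
    | cons y rs =>
      refine ⟨y, hmem y (by simp), ?_⟩
      have h1 := (isRegular_cons_iff M y rs).mp hrs
      have e : (Ideal.ofList ([] : List R) • ⊤ : Submodule R M) = ⊥ := by simp
      rw [e]
      exact (LinearEquiv.isSMulRegular_congr (Submodule.quotEquivOfEqBot ⊥ rfl) y).mpr h1.1
  | cons x α ih =>
    intro M _ _ _ r h hr hmem hreg
    obtain ⟨hx, hα⟩ := (isWeaklyRegular_cons_iff M x α).mp hreg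
    obtain ⟨r', rfl⟩ : ∃ r', r = r' + 1 := ⟨r - 1, by simp at hr; omega⟩
    have h1 := grade_step hI M h (hmem x (by simp)) hx
    obtain ⟨y, hy, hy2⟩ := ih (QuotSMulTop x M) r' h1 (by simpa using hr)
      (fun y hy => hmem y (by simp [hy])) hα
    refine ⟨y, hy, ?_⟩
    exact (LinearEquiv.isSMulRegular_congr
      (Submodule.quotOfListConsSMulTopEquivQuotSMulTopInner M x α) y).mpr hy2

end GP3

section ideals

universe u

variable {R : Type u} [CommRing R]

lemma isSMulRegular_quot_iff {J : Ideal R} {y : R} : IsSMulRegular (R ⧸ J) y ↔ RegMod J y := by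
  rw [isSMulRegular_iff_right_eq_zero_of_smul]
  constructor
  · intro h z hz
    have h1 := h (Ideal.Quotient.mk J z) (by
      rw [← Ideal.Quotient.mk_eq_mk, ← Submodule.Quotient.mk_smul, Submodule.Quotient.mk_eq_zero]
      exact hz)
    exact Ideal.Quotient.eq_zero_iff_mem.mp h1
  · intro h x
    obtain ⟨z, rfl⟩ := Ideal.Quotient.mk_surjective x
    intro hz
    rw [← Ideal.Quotient.mk_eq_mk, ← Submodule.Quotient.mk_smul, Submodule.Quotient.mk_eq_zero] at hz
    exact Ideal.Quotient.eq_zero_iff_mem.mpr (h z hz)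

lemma isSMulRegular_quot_ofList_iff {α : List R} {y : R} :
    IsSMulRegular (R ⧸ (Ideal.ofList α • ⊤ : Submodule R R)) y ↔ RegMod (Ideal.ofList α) y := by
  have e : (Ideal.ofList α • ⊤ : Submodule R R) = Ideal.ofList α := by
    rw [smul_eq_mul, Ideal.mul_top]
  rw [e]; exact isSMulRegular_quot_iff

lemma isWeaklyRegular_concat_iff {α : List R} {y : R} :
    IsWeaklyRegular R (α ++ [y]) ↔ IsWeaklyRegular R α ∧ RegMod (Ideal.ofList α) y := by
  rw [isWeaklyRegular_append_iff, isWeaklyRegular_singleton_iff, isSMulRegular_quot_ofList_iff]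

variable [IsLocalRing R] [IsNoetherianRing R]

/-- (GP3) the next element of a regular sequence: a general combination of generators. -/
theorem gp_row {ι : Type*} [Fintype ι] [Infinite (ResidueField R)] (f : ι → R)
    (hI : Ideal.span (Set.range f) ≤ maximalIdeal R) {r : ℕ}
    (hgr : ∃ rs : List R, rs.length = r ∧ (∀ y ∈ rs, y ∈ Ideal.span (Set.range f)) ∧
      IsRegular R rs)
    (α : List R) (hα : α.length < r) (hαI : ∀ y ∈ α, y ∈ Ideal.span (Set.range f))
    (hαreg : IsWeaklyRegular R α)
    (S₀ : Finset (Submodule (ResidueField R) (ι → ResidueField R))) (hS₀ : ∀ V ∈ S₀, V ≠ ⊤) :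
    ∃ a : ι → R, (∀ V ∈ S₀, red a ∉ V) ∧ IsWeaklyRegular R (α ++ [∑ j, a j * f j]) := by
  classical
  obtain ⟨y, hy, hy2⟩ := exists_regular_quot hI α R r hgr hα hαI hαreg
  obtain ⟨S, hS, hS2⟩ := gp1 (R ⧸ (Ideal.ofList α • ⊤ : Submodule R R)) f ⟨y, hy, hy2⟩
  obtain ⟨a, ha⟩ := exists_avoid (R := R) (S₀ ∪ S) (by
    intro V hV
    rcases Finset.mem_union.mp hV with h | h
    · exact hS₀ V h
    · exact hS V h)
  refine ⟨a, fun V hV => ha V (Finset.mem_union_left _ hV), ?_⟩
  rw [isWeaklyRegular_concat_iff]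
  exact ⟨hαreg, isSMulRegular_quot_ofList_iff.mp (hS2 a fun V hV => ha V
    (Finset.mem_union_right _ hV))⟩

/-- (GP2) for lists -/
theorem gp_scalar [Infinite (ResidueField R)] (α : List R) (x w : R)
    (h : IsWeaklyRegular R (α ++ [x])) (T₀ : Finset (ResidueField R)) :
    ∃ c : R, residue R c ∉ T₀ ∧ IsWeaklyRegular R (α ++ [x + c * w]) := by
  classical
  obtain ⟨h1, h2⟩ := isWeaklyRegular_concat_iff.mp h
  obtain ⟨T, hT⟩ := gp2 (R ⧸ (Ideal.ofList α • ⊤ : Submodule R R)) x w
    (isSMulRegular_quot_ofList_iff.mpr h2)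
  obtain ⟨t, ht⟩ := Infinite.exists_notMem_finset (T₀ ∪ T)
  obtain ⟨c, rfl⟩ := IsLocalRing.residue_surjective t
  simp only [Finset.mem_union, not_or] at ht
  exact ⟨c, ht.1, isWeaklyRegular_concat_iff.mpr
    ⟨h1, isSMulRegular_quot_ofList_iff.mp (hT c ht.2)⟩⟩

end ideals

end Pool.Agent.Licci
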