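import Mathlib
import Pool.Agent.Work.MP_a98e4e_ag.GenPos

/-!
MP_a98e4e_ag (licci, codimension 4), module H4a (helper43): the exchange lemma. The two colon
identities for `(f, ω)` (`f ∧ ω = 0`) do not depend on the regular sequence.
-/

set_option autoImplicit false

namespace Pool.Agent.Licci

open IsLocalRing RingTheory.Sequence

section algebra

variable {R : Type*} [CommRing R] {P : Type*} [AddCommGroup P] [Module R P]

/-- exchange, first identity -/
theorem exch_colon {X : Ideal R} (f g : P →ₗ[R] R) (a b : P)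
    (hrel : ∀ v, f v * g a - f a * g v ∈ X)
    (hreg' : RegMod X (f b))
    (hI : ∀ y, y * g a ∈ X ⊔ Ideal.span {f a} → y ∈ LinearMap.range f)
    (y : R) (hy : y * g b ∈ X ⊔ Ideal.span {f b}) : y ∈ LinearMap.range f := by
  obtain ⟨h, hh⟩ := mem_sup_span_singleton'.mp hy
  apply hI
  refine mem_sup_span_singleton'.mpr ⟨h, hreg' _ ?_⟩
  have e : f b * (y * g a - f a * h) = f a * (y * g b - f b * h) + y * (f b * g a - f a * g b) := by
    ring
  rw [e]
  exact X.add_mem (X.mul_mem_left _ hh) (X.mul_mem_left _ (hrel b))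

/-- exchange, second identity -/
theorem exch_colon' {X : Ideal R} (f g : P →ₗ[R] R) (a b : P)
    (hrel : ∀ v, f v * g a - f a * g v ∈ X)
    (hreg : RegMod X (f a)) (hreg' : RegMod X (f b))
    (hJ : ∀ y, (∀ v, y * f v ∈ X ⊔ Ideal.span {f a}) → y ∈ X ⊔ Ideal.span {f a, g a})
    (y : R) (hy : ∀ v, y * f v ∈ X ⊔ Ideal.span {f b}) : y ∈ X ⊔ Ideal.span {f b, g b} := by
  obtain ⟨h, hh⟩ := mem_sup_span_singleton'.mp (hy a)
  -- `y f a = f b h`
  have h1 : h ∈ X ⊔ Ideal.span {f a, g a} := by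
    apply hJ
    intro v
    obtain ⟨hv, hhv⟩ := mem_sup_span_singleton'.mp (hy v)
    refine mem_sup_span_singleton'.mpr ⟨hv, hreg' _ ?_⟩
    have e : f b * (h * f v - f a * hv) = f a * (y * f v - f b * hv) - f v * (y * f a - f b * h) := by
      ring
    rw [e]
    exact X.sub_mem (X.mul_mem_left _ hhv) (X.mul_mem_left _ hh)
  obtain ⟨x, hx, z, hz, rfl⟩ := Submodule.mem_sup.mp h1
  obtain ⟨p, q, rfl⟩ := Ideal.mem_span_pair.mp hz
  have h2 : y - (p * f b + q * g b) ∈ X := by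
    apply hreg
    have e : f a * (y - (p * f b + q * g b)) =
        (y * f a - f b * (x + (p * f a + q * g a))) + f b * x + q * (f b * g a - f a * g b) := by
      ring
    rw [e]
    exact X.add_mem (X.add_mem hh (X.mul_mem_left _ hx)) (X.mul_mem_left _ (hrel b))
  have e : y = (y - (p * f b + q * g b)) + (p * f b + q * g b) := by ring
  rw [e]
  exact Ideal.add_mem _ (Ideal.mem_sup_left h2)
    (Ideal.mem_sup_right (Ideal.mem_span_pair.mpr ⟨p, q, rfl⟩))

end algebra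

section good

variable {R : Type*} [CommRing R] {P : Type*} [AddCommGroup P] [Module R P]

/-- `f ∧ ω = 0` -/
def Cyc (f : P →ₗ[R] R) (ω : P [⋀^Fin 4]→ₗ[R] R) : Prop :=
  ∀ (a : Fin 4 → P) (v : P), ∑ j, f (a j) * ω (Function.update a j v) = f v * ω a

/-- the two colon identities for the regular sequence `f a0, f a1, f a2, f a3` -/
def Good (f : P →ₗ[R] R) (ω : P [⋀^Fin 4]→ₗ[R] R) (a0 a1 a2 a3 : P) : Prop :=
  (∀ y, y * ω ![a0, a1, a2, a3] ∈ Ideal.ofList [f a0, f a1, f a2, f a3] →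
    y ∈ LinearMap.range f) ∧
  (∀ y, (∀ v, y * f v ∈ Ideal.ofList [f a0, f a1, f a2, f a3]) →
    y ∈ Ideal.ofList [f a0, f a1, f a2, f a3] ⊔ Ideal.span {ω ![a0, a1, a2, a3]})

lemma ofList_four (x0 x1 x2 x3 : R) :
    Ideal.ofList [x0, x1, x2, x3] = Ideal.ofList [x0, x1, x2] ⊔ Ideal.span {x3} := by
  rw [show [x0, x1, x2, x3] = [x0, x1, x2] ++ [x3] from rfl, Ideal.ofList_append,
    Ideal.ofList_singleton]

lemma ofList_four_sup (x0 x1 x2 x3 w : R) :
    Ideal.ofList [x0, x1, x2, x3] ⊔ Ideal.span {w} =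
      Ideal.ofList [x0, x1, x2] ⊔ Ideal.span {x3, w} := by
  rw [ofList_four, sup_assoc]
  congr 1
  rw [Ideal.span_insert x3 {w}]

omit [AddCommGroup P] in
lemma update_three (a0 a1 a2 a3 v : P) : Function.update ![a0, a1, a2, a3] 3 v = ![a0, a1, a2, v] := by
  funext i; fin_cases i <;> simp [Function.update]

omit [AddCommGroup P] in
lemma update_two (a0 a1 a2 a3 v : P) : Function.update ![a0, a1, a2, a3] 2 v = ![a0, a1, v, a3] := by
  funext i; fin_cases i <;> simp [Function.update]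

omit [AddCommGroup P] in
lemma update_one (a0 a1 a2 a3 v : P) : Function.update ![a0, a1, a2, a3] 1 v = ![a0, v, a2, a3] := by
  funext i; fin_cases i <;> simp [Function.update]

omit [AddCommGroup P] in
lemma update_zero (a0 a1 a2 a3 v : P) : Function.update ![a0, a1, a2, a3] 0 v = ![v, a1, a2, a3] := by
  funext i; fin_cases i <;> simp [Function.update]

/-- the contraction with three vectors, as a linear form -/
def con3 (ω : P [⋀^Fin 4]→ₗ[R] R) (a0 a1 a2 : P) : P →ₗ[R] R where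
  toFun v := ω ![a0, a1, a2, v]
  map_add' v w := by
    have h := ω.map_update_add ![a0, a1, a2, 0] 3 v w
    rwa [update_three, update_three, update_three] at h
  map_smul' r v := by
    have h := ω.map_update_smul ![a0, a1, a2, 0] 3 r v
    rwa [update_three, update_three] at h

@[simp] lemma con3_apply (ω : P [⋀^Fin 4]→ₗ[R] R) (a0 a1 a2 v : P) :
    con3 ω a0 a1 a2 v = ω ![a0, a1, a2, v] := rfl

/-- rotation of the arguments -/
lemma rot_apply (ω : P [⋀^Fin 4]→ₗ[R] R) (a0 a1 a2 a3 : P) :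
    ω ![a3, a0, a1, a2] = - ω ![a0, a1, a2, a3] := by
  have e1 : ![a3, a0, a1, a2] = ![a0, a3, a1, a2] ∘ Equiv.swap 0 1 := by
    funext i; fin_cases i <;> simp [Equiv.swap_apply_def]
  have e2 : ![a0, a3, a1, a2] = ![a0, a1, a3, a2] ∘ Equiv.swap 1 2 := by
    funext i; fin_cases i <;> simp [Equiv.swap_apply_def]
  have e3 : ![a0, a1, a3, a2] = ![a0, a1, a2, a3] ∘ Equiv.swap 2 3 := by
    funext i; fin_cases i <;> simp [Equiv.swap_apply_def]
  rw [e1, ω.map_swap _ (by decide), e2, ω.map_swap _ (by decide), e3, ω.map_swap _ (by decide)]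
  simp

lemma rel_of_cyc {f : P →ₗ[R] R} {ω : P [⋀^Fin 4]→ₗ[R] R} (hω : Cyc f ω) (a0 a1 a2 a3 v : P) :
    f v * con3 ω a0 a1 a2 a3 - f a3 * con3 ω a0 a1 a2 v ∈ Ideal.ofList [f a0, f a1, f a2] := by
  have h := hω ![a0, a1, a2, a3] v
  rw [Fin.sum_univ_four, update_zero, update_one, update_two, update_three] at h
  simp only [Matrix.cons_val_zero, Matrix.cons_val_one, Matrix.cons_val] at h
  have e : f v * con3 ω a0 a1 a2 a3 - f a3 * con3 ω a0 a1 a2 v =
      ω ![v, a1, a2, a3] * f a0 + ω ![a0, v, a2, a3] * f a1 + ω ![a0, a1, v, a3] * f a2 := by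
    simp only [con3_apply]; linear_combination -h
  rw [e]
  have hm : ∀ x ∈ [f a0, f a1, f a2], x ∈ Ideal.ofList [f a0, f a1, f a2] := fun x hx =>
    Ideal.subset_span hx
  exact Ideal.add_mem _ (Ideal.add_mem _ (Ideal.mul_mem_left _ _ (hm _ (by simp)))
    (Ideal.mul_mem_left _ _ (hm _ (by simp)))) (Ideal.mul_mem_left _ _ (hm _ (by simp)))

lemma Good.exch {f : P →ₗ[R] R} {ω : P [⋀^Fin 4]→ₗ[R] R} (hω : Cyc f ω) {a0 a1 a2 a3 b : P}
    (h1 : IsWeaklyRegular R [f a0, f a1, f a2, f a3])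
    (h2 : IsWeaklyRegular R [f a0, f a1, f a2, f b])
    (h : Good f ω a0 a1 a2 a3) : Good f ω a0 a1 a2 b := by
  have r1 : RegMod (Ideal.ofList [f a0, f a1, f a2]) (f a3) :=
    (isWeaklyRegular_concat_iff (α := [f a0, f a1, f a2]).mp h1).2
  have r2 : RegMod (Ideal.ofList [f a0, f a1, f a2]) (f b) :=
    (isWeaklyRegular_concat_iff (α := [f a0, f a1, f a2]).mp h2).2
  obtain ⟨hA, hB⟩ := h
  rw [ofList_four_sup, ofList_four] at hB
  rw [ofList_four] at hA
  refine ⟨?_, ?_⟩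
  · rw [ofList_four]
    exact exch_colon f (con3 ω a0 a1 a2) a3 b (rel_of_cyc hω a0 a1 a2 a3) r2 hA
  · rw [ofList_four_sup, ofList_four]
    exact exch_colon' f (con3 ω a0 a1 a2) a3 b (rel_of_cyc hω a0 a1 a2 a3) r1 r2 hB

lemma ofList_perm {l l' : List R} (h : l.Perm l') : Ideal.ofList l = Ideal.ofList l' := by
  simp only [Ideal.ofList]
  congr 1
  ext x
  exact h.mem_iff

lemma Good.rot {f : P →ₗ[R] R} {ω : P [⋀^Fin 4]→ₗ[R] R} {a0 a1 a2 a3 : P}
    (h : Good f ω a0 a1 a2 a3) : Good f ω a3 a0 a1 a2 := by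
  have hp : [f a3, f a0, f a1, f a2].Perm [f a0, f a1, f a2, f a3] := by
    simpa using (List.perm_append_comm (l₁ := [f a3]) (l₂ := [f a0, f a1, f a2]))
  obtain ⟨hA, hB⟩ := h
  refine ⟨?_, ?_⟩
  · intro y hy
    rw [rot_apply, ofList_perm hp] at hy
    apply hA
    have : y * ω ![a0, a1, a2, a3] = - (y * -ω ![a0, a1, a2, a3]) := by ring
    rw [this]
    exact Ideal.neg_mem_iff _ |>.mpr hy
  · intro y hy
    rw [rot_apply, Ideal.span_singleton_neg, ofList_perm hp]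
    rw [ofList_perm hp] at hy
    exact hB y hy

lemma Good.unrot {f : P →ₗ[R] R} {ω : P [⋀^Fin 4]→ₗ[R] R} {a0 a1 a2 a3 : P}
    (h : Good f ω a3 a0 a1 a2) : Good f ω a0 a1 a2 a3 := h.rot.rot.rot

end good

section transfer

universe u

variable {R : Type u} [CommRing R]

lemma wr_init {l : List R} {x : R} (hl : IsWeaklyRegular R (l ++ [x])) : IsWeaklyRegular R l :=
  (isWeaklyRegular_concat_iff.mp hl).1

lemma apply_eq_sum {ι : Type*} [Fintype ι] [DecidableEq ι] (f : (ι → R) →ₗ[R] R) (a : ι → R) :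
    f a = ∑ j, a j * f (Pi.single j 1) := by
  conv_lhs => rw [← Finset.univ_sum_single a, map_sum]
  refine Finset.sum_congr rfl fun j _ => ?_
  have : (Pi.single j (a j) : ι → R) = a j • Pi.single j 1 := by
    rw [← Pi.single_smul]; simp
  rw [this, map_smul, smul_eq_mul]

lemma range_eq_span {ι : Type*} [Fintype ι] [DecidableEq ι] (f : (ι → R) →ₗ[R] R) :
    LinearMap.range f = Ideal.span (Set.range fun j => f (Pi.single j 1)) := by
  apply le_antisymm
  · rintro _ ⟨a, rfl⟩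
    rw [apply_eq_sum f a]
    exact Ideal.sum_mem _ fun j _ => Ideal.mul_mem_left _ _ (Ideal.subset_span ⟨j, rfl⟩)
  · refine Ideal.span_le.mpr ?_
    rintro _ ⟨j, rfl⟩
    exact ⟨_, rfl⟩

variable [IsLocalRing R] [IsNoetherianRing R]

lemma wr_perm {l l' : List R} (h : l.Perm l') (hm : ∀ x ∈ l, x ∈ maximalIdeal R)
    (hl : IsWeaklyRegular R l) : IsWeaklyRegular R l' :=
  IsLocalRing.isWeaklyRegular_of_perm_of_subset_maximalIdeal hl h hm

lemma wr_rot {x0 x1 x2 x3 : R} (hm : ∀ x ∈ [x0, x1, x2, x3], x ∈ maximalIdeal R)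
    (hl : IsWeaklyRegular R [x0, x1, x2, x3]) : IsWeaklyRegular R [x3, x0, x1, x2] :=
  wr_perm (by simpa using (List.perm_append_comm (l₁ := [x0, x1, x2]) (l₂ := [x3]))) hm hl

variable {ι : Type*} [Fintype ι]

/-- simultaneous choice of the next element for two lists -/
theorem gp_row_two [Infinite (ResidueField R)] (f : (ι → R) →ₗ[R] R)
    (hI : ∀ v, f v ∈ maximalIdeal R) {r : ℕ}
    (hgr : ∃ rs : List R, rs.length = r ∧ (∀ y ∈ rs, y ∈ LinearMap.range f) ∧ IsRegular R rs)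
    (α β : List R) (hα : α.length < r) (hβ : β.length < r)
    (hαI : ∀ y ∈ α, y ∈ LinearMap.range f) (hβI : ∀ y ∈ β, y ∈ LinearMap.range f)
    (hαreg : IsWeaklyRegular R α) (hβreg : IsWeaklyRegular R β)
    (S₀ : Finset (Submodule (ResidueField R) (ι → ResidueField R))) (hS₀ : ∀ V ∈ S₀, V ≠ ⊤) :
    ∃ a : ι → R, (∀ V ∈ S₀, red a ∉ V) ∧ IsWeaklyRegular R (α ++ [f a]) ∧
      IsWeaklyRegular R (β ++ [f a]) := by
  classical
  have hI' : LinearMap.range f ≤ maximalIdeal R := by rintro _ ⟨v, rfl⟩; exact hI v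
  obtain ⟨y, hy, hy2⟩ := exists_regular_quot hI' α R r hgr hα hαI hαreg
  obtain ⟨z, hz, hz2⟩ := exists_regular_quot hI' β R r hgr hβ hβI hβreg
  rw [range_eq_span] at hy hz
  obtain ⟨S, hS, hS2⟩ := gp1 (R ⧸ (Ideal.ofList α • ⊤ : Submodule R R))
    (fun j => f (Pi.single j 1)) ⟨y, hy, hy2⟩
  obtain ⟨S', hS', hS2'⟩ := gp1 (R ⧸ (Ideal.ofList β • ⊤ : Submodule R R))
    (fun j => f (Pi.single j 1)) ⟨z, hz, hz2⟩
  obtain ⟨a, ha⟩ := exists_avoid (R := R) (S₀ ∪ (S ∪ S')) (by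
    intro V hV
    rcases Finset.mem_union.mp hV with h | h
    · exact hS₀ V h
    · rcases Finset.mem_union.mp h with h | h
      · exact hS V h
      · exact hS' V h)
  refine ⟨a, fun V hV => ha V (Finset.mem_union_left _ hV), ?_, ?_⟩
  · rw [isWeaklyRegular_concat_iff, apply_eq_sum]
    exact ⟨hαreg, isSMulRegular_quot_ofList_iff.mp (hS2 a fun V hV => ha V
      (Finset.mem_union_right _ (Finset.mem_union_left _ hV)))⟩
  · rw [isWeaklyRegular_concat_iff, apply_eq_sum]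
    exact ⟨hβreg, isSMulRegular_quot_ofList_iff.mp (hS2' a fun V hV => ha V
      (Finset.mem_union_right _ (Finset.mem_union_right _ hV)))⟩

/-- (H4a) The colon identities hold for one regular sequence iff they hold for all. -/
theorem Good.transfer [Infinite (ResidueField R)] (f : (ι → R) →ₗ[R] R)
    (hI : ∀ v, f v ∈ maximalIdeal R) {ω : (ι → R) [⋀^Fin 4]→ₗ[R] R} (hω : Cyc f ω)
    {a0 a1 a2 a3 b0 b1 b2 b3 : ι → R}
    (ha : IsWeaklyRegular R [f a0, f a1, f a2, f a3])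
    (hb : IsWeaklyRegular R [f b0, f b1, f b2, f b3])
    (h : Good f ω a0 a1 a2 a3) : Good f ω b0 b1 b2 b3 := by
  have hm : ∀ v0 v1 v2 v3 : ι → R, ∀ x ∈ [f v0, f v1, f v2, f v3], x ∈ maximalIdeal R := by
    intro v0 v1 v2 v3 x hx
    simp only [List.mem_cons, List.not_mem_nil, or_false] at hx
    rcases hx with rfl | rfl | rfl | rfl <;> exact hI _
  have hmem : ∀ v0 v1 v2 : ι → R, ∀ x ∈ [f v0, f v1, f v2], x ∈ LinearMap.range f := by
    intro v0 v1 v2 x hx
    simp only [List.mem_cons, List.not_mem_nil, or_false] at hx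
    rcases hx with rfl | rfl | rfl <;> exact ⟨_, rfl⟩
  have hgr : ∃ rs : List R, rs.length = 4 ∧ (∀ y ∈ rs, y ∈ LinearMap.range f) ∧
      IsRegular R rs := by
    refine ⟨[f a0, f a1, f a2, f a3], rfl, ?_,
      IsRegular.of_isWeaklyRegular_of_mem_maximalIdeal R (hm a0 a1 a2 a3) ha⟩
    intro x hx
    simp only [List.mem_cons, List.not_mem_nil, or_false] at hx
    rcases hx with rfl | rfl | rfl | rfl <;> exact ⟨_, rfl⟩
  -- choose `c3`
  obtain ⟨c3, -, hc3a, hc3b⟩ := gp_row_two f hI hgr [f a0, f a1, f a2] [f b0, f b1, f b2]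
    (by simp) (by simp) (hmem _ _ _) (hmem _ _ _)
    (wr_init (l := [f a0, f a1, f a2]) ha) (wr_init (l := [f b0, f b1, f b2]) hb) ∅ (by simp)
  have ra3 := wr_rot (hm a0 a1 a2 c3) hc3a
  have rb3 := wr_rot (hm b0 b1 b2 c3) hc3b
  -- choose `c2`
  obtain ⟨c2, -, hc2a, hc2b⟩ := gp_row_two f hI hgr [f c3, f a0, f a1] [f c3, f b0, f b1]
    (by simp) (by simp) (hmem _ _ _) (hmem _ _ _)
    (wr_init (l := [f c3, f a0, f a1]) ra3) (wr_init (l := [f c3, f b0, f b1]) rb3) ∅ (by simp)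
  have ra2 := wr_rot (hm c3 a0 a1 c2) hc2a
  have rb2 := wr_rot (hm c3 b0 b1 c2) hc2b
  -- choose `c1`
  obtain ⟨c1, -, hc1a, hc1b⟩ := gp_row_two f hI hgr [f c2, f c3, f a0] [f c2, f c3, f b0]
    (by simp) (by simp) (hmem _ _ _) (hmem _ _ _)
    (wr_init (l := [f c2, f c3, f a0]) ra2) (wr_init (l := [f c2, f c3, f b0]) rb2) ∅ (by simp)
  have ra1 := wr_rot (hm c2 c3 a0 c1) hc1a
  have rb1 := wr_rot (hm c2 c3 b0 c1) hc1b
  -- walk from `a` to `b`
  have s1 : Good f ω c3 a0 a1 a2 := (h.exch hω ha hc3a).rot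
  have s2 : Good f ω c2 c3 a0 a1 := (s1.exch hω ra3 hc2a).rot
  have s3 : Good f ω c1 c2 c3 a0 := (s2.exch hω ra2 hc1a).rot
  have s4 : Good f ω c1 c2 c3 b0 := s3.exch hω ra1 rb1
  have s5 : Good f ω c2 c3 b0 b1 := s4.unrot.exch hω hc1b rb2
  have s6 : Good f ω c3 b0 b1 b2 := s5.unrot.exch hω hc2b rb3
  exact s6.unrot.exch hω hc3b hb

end transfer

end Pool.Agent.Licci
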