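import Pool.Agent.Work.MP_a98e4e_ag.CA1
import Pool.Agent.Work.MP_a98e4e_ag.Exch

/-!
# The four-form of the resolution satisfies the two colon identities
-/

namespace Pool.Agent.Licci

open RingTheory.Sequence Pointwise

universe u v

section aux

variable {R : Type u} [CommRing R] {M : Type v} {A : Type u} [AddCommGroup M] [Module R M]
  [AddCommGroup A] [Module R A]

/-- a linear map into alternating forms, as an alternating map with values in a dual module -/
def flipAlt {k : ℕ} (L : A →ₗ[R] (M [⋀^Fin k]→ₗ[R] R)) : M [⋀^Fin k]→ₗ[R] Module.Dual R A where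
  toFun x :=
    { toFun := fun v => L v x
      map_add' := fun u v => by rw [map_add]; rfl
      map_smul' := fun c v => by rw [map_smul]; rfl }
  map_update_add' x i a b := by
    apply LinearMap.ext
    intro v
    exact (L v).map_update_add' x i a b
  map_update_smul' x i c a := by
    apply LinearMap.ext
    intro v
    exact (L v).map_update_smul' x i c a
  map_eq_zero_of_eq' x i j h hij := by
    apply LinearMap.ext
    intro v
    exact (L v).map_eq_zero_of_eq' x i j h hij

theorem evalAlt_flipAlt {k : ℕ} (L : A →ₗ[R] (M [⋀^Fin k]→ₗ[R] R)) (v : A) :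
    evalAlt (flipAlt L) v = L v := rfl

theorem wedge_sub' {N : Type u} [AddCommGroup N] [Module R N] (g : M →ₗ[R] R) (n : ℕ)
    (ω η : M [⋀^Fin n]→ₗ[R] N) : wedge g n (ω - η) = wedge g n ω - wedge g n η :=
  LinearMap.map_sub (wedge g n) ω η

theorem wedge_smul' {N : Type u} [AddCommGroup N] [Module R N] (g : M →ₗ[R] R) (n : ℕ) (y : R)
    (ω : M [⋀^Fin n]→ₗ[R] N) : wedge g n (y • ω) = y • wedge g n ω :=
  LinearMap.map_smul (wedge g n) y ω

theorem comp_sub {N N' : Type u} [AddCommGroup N] [Module R N] [AddCommGroup N'] [Module R N']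
    (q : N →ₗ[R] N') {n : ℕ} (ω η : M [⋀^Fin n]→ₗ[R] N) :
    q.compAlternatingMap (ω - η) = q.compAlternatingMap ω - q.compAlternatingMap η := by
  ext x
  exact LinearMap.map_sub q _ _

theorem comp_smul {N N' : Type u} [AddCommGroup N] [Module R N] [AddCommGroup N'] [Module R N']
    (q : N →ₗ[R] N') {n : ℕ} (y : R) (ω : M [⋀^Fin n]→ₗ[R] N) :
    q.compAlternatingMap (y • ω) = y • q.compAlternatingMap ω := by
  ext x
  exact LinearMap.map_smul q _ _

theorem alt_sub_self {N : Type u} [AddCommGroup N] [Module R N] {n : ℕ}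
    (ω : M [⋀^Fin n]→ₗ[R] N) : ω - ω = 0 := sub_self ω

theorem alt_sub_zero {N : Type u} [AddCommGroup N] [Module R N] {n : ℕ}
    (ω : M [⋀^Fin n]→ₗ[R] N) : ω - 0 = ω := sub_zero ω

theorem HasReg.koszul [Module.Free R M] [Module.Finite R M] {f : M →ₗ[R] R} {n : ℕ}
    (h : HasReg f n) {N : Type u} [AddCommGroup N] [Module R N] [Module.Flat R N] (i : ℕ)
    (hi : i + 1 < n) (ω : M [⋀^Fin (i + 1)]→ₗ[R] N) (hω : wedge f (i + 1) ω = 0) :
    ∃ η, wedge f i η = ω := by
  obtain ⟨rs, h1, h2, h3⟩ := h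
  exact koszul_exact' f rs (LicciCodimFour.isWeaklyRegular_of_flat h2 N) h3 (i + 1) (h1 ▸ hi) ω hω

end aux

section main

set_option linter.unusedSectionVars false

variable {R : Type u} [CommRing R] {F1 F2 F3 : Type u} [AddCommGroup F1] [Module R F1]
  [AddCommGroup F2] [Module R F2] [AddCommGroup F3] [Module R F3]
  [Module.Free R F1] [Module.Free R F2] [Module.Free R F3]
  [Module.Finite R F1] [Module.Finite R F2] [Module.Finite R F3]
  {f : F1 →ₗ[R] R} {e2 : F2 →ₗ[R] F1} {e3 : F3 →ₗ[R] F2} {e4 : R →ₗ[R] F3}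

theorem dual_seq (h1 : Function.Exact e2 f) (h2 : Function.Exact e3 e2)
    (h3 : Function.Exact e4 e3) (h4 : Function.Injective e4) (hf : HasReg f 4) :
    Function.Injective (LinearMap.toSpanSingleton R (Module.Dual R F1) f) ∧
    Function.Exact (LinearMap.toSpanSingleton R (Module.Dual R F1) f) e2.dualMap ∧
    Function.Exact e2.dualMap e3.dualMap ∧
    Function.Exact e3.dualMap (LinearMap.applyₗ (e4 1) : Module.Dual R F3 →ₗ[R] R) := by
  obtain ⟨rs, hlen, hreg, hmem⟩ := hf
  obtain ⟨d1, d2, d3, d4⟩ := LicciCodimFour.dual_exact f e2 e3 e4 h1 h2 h3 h4 rs hlen hreg hmem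
  refine ⟨?_, ?_, ?_, ?_⟩
  · rw [injective_iff_map_eq_zero]
    intro c hc
    exact d1 c hc
  · intro ξ
    constructor
    · intro h
      obtain ⟨c, rfl⟩ := d2 ξ (fun z => LinearMap.congr_fun h z)
      exact ⟨c, rfl⟩
    · rintro ⟨c, rfl⟩
      ext z
      simp [LinearMap.dualMap_apply, h1.apply_apply_eq_zero]
  · intro ξ
    constructor
    · intro h
      obtain ⟨η, hη⟩ := d3 ξ (fun z => LinearMap.congr_fun h z)
      exact ⟨η, by ext z; exact (hη z).symm⟩
    · rintro ⟨c, rfl⟩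
      ext z
      simp [LinearMap.dualMap_apply, h2.apply_apply_eq_zero]
  · intro ξ
    constructor
    · intro h
      have h' : ξ (e4 1) = 0 := h
      obtain ⟨η, hη⟩ := d4 ξ (fun z => by
        have h5 : e4 z = z • e4 1 := by rw [← map_smul, smul_eq_mul, mul_one]
        rw [h5, map_smul, h', smul_zero])
      exact ⟨η, by ext z; exact (hη z).symm⟩
    · rintro ⟨c, rfl⟩
      simp [LinearMap.dualMap_apply, h3.apply_apply_eq_zero]

/-- the ideal of entries of `e4` lies in the image of `f` -/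
theorem exists_apply_eq (h1 : Function.Exact e2 f) (h2 : Function.Exact e3 e2)
    (h3 : Function.Exact e4 e3) (h4 : Function.Injective e4) (hf : HasReg f 4)
    (c : Module.Dual R F3) : ∃ v : F1, f v = c (e4 1) := by
  obtain ⟨E1, E2, E3, E4⟩ := dual_seq h1 h2 h3 h4 hf
  obtain ⟨g1, g2, g3, -, -, -, hg⟩ := LicciCodimFour.null_homotopy
    (LinearMap.applyₗ (e4 1) : Module.Dual R F3 →ₗ[R] R) e3.dualMap e2.dualMap
    (LinearMap.toSpanSingleton R (Module.Dual R F1) f) E4 E3 E2 E1 c
  refine ⟨(Module.evalEquiv R F1).symm g3, ?_⟩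
  rw [Module.apply_evalEquiv_symm_apply]
  have := hg 1
  rw [LinearMap.toSpanSingleton_apply, one_smul] at this
  rw [this]
  simp

theorem comp_e2_f (h1 : Function.Exact e2 f) {k : ℕ} (η : F1 [⋀^Fin k]→ₗ[R] R) :
    e2.dualMap.compAlternatingMap
      ((LinearMap.toSpanSingleton R (Module.Dual R F1) f).compAlternatingMap η) = 0 := by
  ext x z
  simp [LinearMap.dualMap_apply, h1.apply_apply_eq_zero]

theorem comp_e3_e2 (h2 : Function.Exact e3 e2) {k : ℕ} (η : F1 [⋀^Fin k]→ₗ[R] Module.Dual R F1) :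
    e3.dualMap.compAlternatingMap (e2.dualMap.compAlternatingMap η) = 0 := by
  ext x z
  simp [LinearMap.dualMap_apply, h2.apply_apply_eq_zero]

theorem comp_e4_e3 (h3 : Function.Exact e4 e3) {k : ℕ} (η : F1 [⋀^Fin k]→ₗ[R] Module.Dual R F2) :
    (LinearMap.applyₗ (e4 1) : Module.Dual R F3 →ₗ[R] R).compAlternatingMap
      (e3.dualMap.compAlternatingMap η) = 0 := by
  ext x
  simp [LinearMap.dualMap_apply, h3.apply_apply_eq_zero]

variable (c : Comparison f e2 e3 e4)

theorem Comparison.ev_x1 : (LinearMap.applyₗ (e4 1) : Module.Dual R F3 →ₗ[R] R).compAlternatingMap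
    (oneN c.x1) = one f := by
  ext x
  have := c.h1 (x 0) 1
  simp only [LinearMap.compAlternatingMap_apply, oneN_apply, LinearMap.applyₗ_apply_apply, one_apply]
  rw [this, mul_one]

/-- (B) `y ν` a coboundary implies `y ∈ I`. -/
theorem Comparison.mem_range (h1 : Function.Exact e2 f) (h2 : Function.Exact e3 e2)
    (h3 : Function.Exact e4 e3) (h4 : Function.Injective e4) (hf : HasReg f 4) {y : R}
    {η : F1 [⋀^Fin 3]→ₗ[R] R} (hη : wedge f 3 η = y • c.x4) : y ∈ LinearMap.range f := by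
  obtain ⟨η3, hη3⟩ := hf.koszul 2 (by norm_num)
    (y • c.x3 - (LinearMap.toSpanSingleton R (Module.Dual R F1) f).compAlternatingMap η) (by
      rw [wedge_sub', wedge_smul', wedge_compRight, hη, ← c.h4, comp_smul, alt_sub_self])
  obtain ⟨η2, hη2⟩ := hf.koszul 1 (by norm_num)
    (y • c.x2 - e2.dualMap.compAlternatingMap η3) (by
      rw [wedge_sub', wedge_smul', wedge_compRight, hη3, ← c.h3, comp_sub, comp_smul,
        comp_e2_f h1, alt_sub_zero, alt_sub_self])
  obtain ⟨η1, hη1⟩ := hf.koszul 0 (by norm_num)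
    (y • oneN c.x1 - e3.dualMap.compAlternatingMap η2) (by
      rw [wedge_sub', wedge_smul', wedge_compRight, hη2, ← c.h2, comp_sub, comp_smul,
        comp_e3_e2 h2, alt_sub_zero, alt_sub_self])
  obtain ⟨v, hv⟩ := exists_apply_eq h1 h2 h3 h4 hf (η1 ![])
  refine ⟨v, ?_⟩
  rw [hv]
  symm
  apply sub_eq_zero.1
  apply hf.eq_zero_of_mul (by norm_num)
  intro x
  have h5 : (LinearMap.applyₗ (e4 1) : Module.Dual R F3 →ₗ[R] R).compAlternatingMap
      (wedge f 0 η1) = y • one f := by
    rw [hη1, comp_sub, comp_smul, comp_e4_e3 h3, alt_sub_zero, c.ev_x1]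
  have h6 := congrArg (fun g => g ![x]) h5
  simp only [LinearMap.compAlternatingMap_apply, wedge_zero_apply, AlternatingMap.smul_apply,
    one_apply, LinearMap.applyₗ_apply_apply, LinearMap.smul_apply, smul_eq_mul,
    Matrix.cons_val_zero] at h6
  linear_combination -h6

/-- (C) `ν` generates the top Koszul cohomology. -/
theorem Comparison.exists_class (h1 : Function.Exact e2 f) (h2 : Function.Exact e3 e2)
    (h3 : Function.Exact e4 e3) (h4 : Function.Injective e4) (hf : HasReg f 4)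
    {ω : F1 [⋀^Fin 4]→ₗ[R] R} (hω : wedge f 4 ω = 0) :
    ∃ (z : R) (η : F1 [⋀^Fin 3]→ₗ[R] R), ω = z • c.x4 + wedge f 3 η := by
  obtain ⟨E1, E2, E3, E4⟩ := dual_seq h1 h2 h3 h4 hf
  set S := LinearMap.toSpanSingleton R (Module.Dual R F1) f with hS
  set ev : Module.Dual R F3 →ₗ[R] R := LinearMap.applyₗ (e4 1) with hev
  set ω3 : F1 [⋀^Fin 3]→ₗ[R] Module.Dual R F1 := flipAlt (contrL 3 ω) with hω3
  have k3 : wedge f 3 ω3 = S.compAlternatingMap ω := by
    ext x v
    have h5 := wedge_evalAlt f ω3 v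
    rw [hω3, evalAlt_flipAlt, contrL_apply] at h5
    have h6 := contr_wedge f v 3 ω
    rw [hω, map_zero] at h6
    have h7 := sub_eq_zero.1 h6.symm
    rw [← h7] at h5
    have h8 := congrArg (fun g => g x) h5
    simp only [AlternatingMap.smul_apply, evalAlt_apply, smul_eq_mul] at h8
    rw [hω3, ← h8, hS]
    simp [mul_comm]
  obtain ⟨ω2, k2⟩ := hf.koszul 2 (by norm_num) (e2.dualMap.compAlternatingMap ω3) (by
    rw [wedge_compRight, k3, comp_e2_f h1])
  obtain ⟨ω1, k1⟩ := hf.koszul 1 (by norm_num) (e3.dualMap.compAlternatingMap ω2) (by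
    rw [wedge_compRight, k2, comp_e3_e2 h2])
  obtain ⟨ω0, k0⟩ := hf.koszul 0 (by norm_num) (ev.compAlternatingMap ω1) (by
    rw [wedge_compRight, k1, comp_e4_e3 h3])
  set z : R := ω0 ![] with hz
  have m0 : ev.compAlternatingMap (ω1 - z • oneN c.x1) = 0 := by
    rw [comp_sub, comp_smul, c.ev_x1, ← k0, sub_eq_zero]
    ext x
    have hx : x = ![x 0] := by ext i; fin_cases i; rfl
    rw [hx, wedge_zero_apply]
    simp [one_apply, hz, mul_comm]
  obtain ⟨τ1, t1⟩ := exists_lift_alt_exact E4 1 _ m0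
  obtain ⟨τ2, t2⟩ := exists_lift_alt_exact E3 2 (ω2 - z • c.x2 - wedge f 1 τ1) (by
    rw [comp_sub, comp_sub, comp_smul, c.h2, ← wedge_compRight, t1, ← k1, wedge_sub', wedge_smul',
      alt_sub_self])
  obtain ⟨τ3, t3⟩ := exists_lift_alt_exact E2 3 (ω3 - z • c.x3 - wedge f 2 τ2) (by
    rw [comp_sub, comp_sub, comp_smul, c.h3, ← wedge_compRight, t2, ← k2, wedge_sub', wedge_sub',
      wedge_smul', wedge_wedge_self, alt_sub_zero, alt_sub_self])
  refine ⟨z, τ3, ?_⟩
  have h5 : S.compAlternatingMap (ω - z • c.x4 - wedge f 3 τ3) = 0 := by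
    rw [comp_sub, comp_sub, comp_smul, c.h4, ← wedge_compRight, t3, ← k3, wedge_sub', wedge_sub',
      wedge_smul', wedge_wedge_self, alt_sub_zero, alt_sub_self]
  have h6 : ω - z • c.x4 - wedge f 3 τ3 = 0 := by
    ext x
    apply E1
    rw [AlternatingMap.zero_apply, map_zero]
    exact congrArg (fun g => g x) h5
  rw [sub_sub, sub_eq_zero] at h6
  exact h6

/-- (D) the two colon identities -/
theorem Comparison.good (h1 : Function.Exact e2 f) (h2 : Function.Exact e3 e2)
    (h3 : Function.Exact e4 e3) (h4 : Function.Injective e4) (hf : HasReg f 4)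
    {a0 a1 a2 a3 : F1} (ha : IsWeaklyRegular R [f a0, f a1, f a2, f a3]) :
    Good f c.x4 a0 a1 a2 a3 := by
  have hreg : IsWeaklyRegular R (List.ofFn fun i : Fin 4 => f (![a0, a1, a2, a3] i)) := by
    simpa [List.ofFn_succ] using ha
  have hspan : Ideal.span (Set.range fun i : Fin 4 => f (![a0, a1, a2, a3] i)) =
      Ideal.ofList [f a0, f a1, f a2, f a3] := by
    unfold Ideal.ofList
    congr 1
    ext r
    simp only [Set.mem_range, Fin.exists_fin_succ, List.mem_cons, List.not_mem_nil, or_false,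
      Set.mem_ofPred_eq]
    simp [eq_comm]
  constructor
  · intro y hy
    have h5 : IsCob f 4 (y • c.x4) := by
      apply isCob_of_apply_mem f 4 ![a0, a1, a2, a3] hreg
      · rw [wedge_smul', c.h5, smul_zero]
      · rw [hspan]
        exact hy
    obtain ⟨η, hη⟩ := h5
    exact c.mem_range h1 h2 h3 h4 hf hη
  · intro y hy
    obtain ⟨ω, hω, hω2⟩ := exists_wedge_class f 4 ![a0, a1, a2, a3] hreg y (by
      intro v
      rw [hspan]
      exact hy v)
    obtain ⟨z, η, rfl⟩ := c.exists_class h1 h2 h3 h4 hf hω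
    have h6 := wedge_apply_mem f 3 η ![a0, a1, a2, a3]
    rw [smul_eq_mul, Ideal.mul_top, hspan] at h6
    rw [hspan, AlternatingMap.add_apply, AlternatingMap.smul_apply, smul_eq_mul] at hω2
    have h7 : y = (wedge f 3 η ![a0, a1, a2, a3] -
        (z * c.x4 ![a0, a1, a2, a3] + wedge f 3 η ![a0, a1, a2, a3] - y)) +
        z * c.x4 ![a0, a1, a2, a3] := by ring
    rw [h7]
    exact Ideal.add_mem _ (Ideal.mem_sup_left (Ideal.sub_mem _ h6 hω2))
      (Ideal.mem_sup_right (Ideal.mul_mem_left _ _ (Ideal.subset_span rfl)))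

/-- `exists_nu_free` with the colon identities -/
theorem exists_nu_good [IsLocalRing R] (h1 : Function.Exact e2 f) (h2 : Function.Exact e3 e2)
    (h3 : Function.Exact e4 e3) (h4 : Function.Injective e4) (hf : HasReg f 4) :
    ∃ ν : F1 [⋀^Fin 4]→ₗ[R] R, wedge f 4 ν = 0 ∧ Module.Free R (PP f ν) ∧
      Module.Finite R (PP f ν) ∧
      Module.finrank R F3 + Module.finrank R (PP f ν) =
        Module.finrank R F2 + Module.finrank R F1 ∧
      ∀ a0 a1 a2 a3 : F1, IsWeaklyRegular R [f a0, f a1, f a2, f a3] → Good f ν a0 a1 a2 a3 := by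
  obtain ⟨c⟩ := exists_comparison f e2 e3 e4 h1 h2 h3 h4 hf
  obtain ⟨hp, hfin, ⟨e⟩⟩ := c.projective h1 h2 h3 h4 hf
  have hfree : Module.Free R (PP f c.x4) := free_of_projective_local
  refine ⟨c.x4, c.h5, hfree, hfin, ?_, fun a0 a1 a2 a3 ha => c.good h1 h2 h3 h4 hf ha⟩
  have h5 := LinearEquiv.finrank_eq e
  have h6 : Module.finrank R (F3 × PP f c.x4) =
      Module.finrank R F3 + Module.finrank R (PP f c.x4) := Module.finrank_prod
  rw [h6, Module.finrank_prod] at h5
  rw [h5]
  congr 1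
  exact ((Module.Free.chooseBasis R F1).toDualEquiv.finrank_eq).symm

end main

end Pool.Agent.Licci
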