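import Mathlib

/-!
# Regular local rings: domains, quotients, regular systems of parameters
-/

namespace LicciCodimFour

open IsLocalRing RingTheory.Sequence
open scoped Pointwise

universe u

section quotient

variable {R : Type u} [CommRing R]

theorem nontrivial_quotient_span [IsLocalRing R] {x : R} (hx : x ∈ maximalIdeal R) :
    Nontrivial (R ⧸ Ideal.span {x}) :=
  Ideal.Quotient.nontrivial_iff.2 (ne_of_lt
    (lt_of_le_of_lt ((Ideal.span_singleton_le_iff_mem _).2 hx)
      (lt_top_iff_ne_top.2 (Ideal.IsPrime.ne_top inferInstance))))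

theorem isLocalRing_quotient_span [IsLocalRing R] {x : R} (hx : x ∈ maximalIdeal R) :
    IsLocalRing (R ⧸ Ideal.span {x}) :=
  haveI := nontrivial_quotient_span hx
  IsLocalRing.of_surjective' (Ideal.Quotient.mk _) Ideal.Quotient.mk_surjective

theorem map_mk_maximalIdeal [IsLocalRing R] {x : R} [IsLocalRing (R ⧸ Ideal.span {x})] :
    (maximalIdeal R).map (Ideal.Quotient.mk (Ideal.span {x})) =
      maximalIdeal (R ⧸ Ideal.span {x}) :=
  map_maximalIdeal_of_surjective _ Ideal.Quotient.mk_surjective

theorem exists_ringKrullDim_eq (S : Type u) [CommRing S] [IsLocalRing S] [IsNoetherianRing S] :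
    ∃ k : ℕ, ringKrullDim S = k := by
  have h1 := ringKrullDim_le_spanFinrank_maximalIdeal S
  have h2 : (0 : WithBot ℕ∞) ≤ ringKrullDim S := ringKrullDim_nonneg_of_nontrivial
  obtain ⟨a, ha⟩ := WithBot.ne_bot_iff_exists.1 (ne_bot_of_le_ne_bot (by decide) h2)
  rw [← ha] at h1 ⊢
  have h3 : a ≤ ((maximalIdeal S).spanFinrank : ℕ∞) := WithBot.coe_le_coe.1 h1
  obtain ⟨k, hk⟩ := ENat.ne_top_iff_exists.1 (ne_top_of_le_ne_top (ENat.natCast_ne_top _) h3)
  exact ⟨k, by rw [← hk]; rfl⟩

theorem spanFinrank_quotient_le [IsLocalRing R] [IsNoetherianRing R] {x : R}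
    (hx : x ∈ maximalIdeal R) (hx2 : x ∉ maximalIdeal R ^ 2) :
    ((maximalIdeal R).map (Ideal.Quotient.mk (Ideal.span {x}))).spanFinrank + 1 ≤
      (maximalIdeal R).spanFinrank := by
  classical
  obtain ⟨S, hScard, hS⟩ := Submodule.FG.exists_span_finset_card_eq_spanFinrank
    (IsNoetherian.noetherian (maximalIdeal R))
  have hS' : Ideal.span (S : Set R) = maximalIdeal R := hS
  -- some coefficient of `x` is a unit
  obtain ⟨c, hc⟩ : ∃ c : R → R, ∑ s ∈ S, c s * s = x := by
    have h1 : x ∈ Ideal.span (S : Set R) := by rw [hS']; exact hx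
    obtain ⟨c, hc⟩ := Submodule.mem_span_finset'.1 h1
    refine ⟨fun s => if h : s ∈ S then c ⟨s, h⟩ else 0, ?_⟩
    rw [← hc, ← Finset.sum_attach S]
    refine Finset.sum_congr rfl fun s _ => ?_
    simp
  obtain ⟨s0, hs0, hu⟩ : ∃ s0 ∈ S, IsUnit (c s0) := by
    by_contra hcon
    push Not at hcon
    apply hx2
    rw [← hc]
    refine Ideal.sum_mem _ fun s hs => ?_
    rw [pow_two]
    refine Ideal.mul_mem_mul ((mem_maximalIdeal _).2 (hcon s hs)) ?_
    rw [← hS']
    exact Ideal.subset_span hs
  -- `m = (x, S \ s0)`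
  have hm : maximalIdeal R ≤ Ideal.span ({x} ∪ (S.erase s0 : Set R)) := by
    rw [← hS', Ideal.span_le]
    intro s hs
    by_cases h : s = s0
    · subst h
      obtain ⟨v, hv⟩ := hu
      have h1 : s = (↑v⁻¹ : R) * (x - ∑ t ∈ S.erase s, c t * t) := by
        rw [← hc, ← Finset.add_sum_erase S (fun t => c t * t) hs0, add_sub_cancel_right,
          ← mul_assoc, ← hv, Units.inv_mul, one_mul]
      have h5 : (↑v⁻¹ : R) * (x - ∑ t ∈ S.erase s, c t * t) ∈
          Ideal.span ({x} ∪ (S.erase s : Set R)) := by
        refine Ideal.mul_mem_left _ _ (Ideal.sub_mem _ (Ideal.subset_span (Or.inl rfl)) ?_)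
        refine Ideal.sum_mem _ fun t ht => Ideal.mul_mem_left _ _ (Ideal.subset_span (Or.inr ?_))
        exact ht
      rw [← h1] at h5
      exact h5
    · exact Ideal.subset_span (Or.inr (by
        have : s ∈ S.erase s0 := Finset.mem_erase.2 ⟨h, hs⟩
        exact this))
  have hmap : (maximalIdeal R).map (Ideal.Quotient.mk (Ideal.span {x})) ≤
      Ideal.span ((S.erase s0).image (Ideal.Quotient.mk (Ideal.span {x})) :
        Set (R ⧸ Ideal.span {x})) := by
    refine (Ideal.map_mono hm).trans ?_
    rw [Ideal.map_span, Ideal.span_le]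
    rintro _ ⟨t, ht, rfl⟩
    rcases ht with ht | ht
    · rw [Set.mem_singleton_iff] at ht
      subst ht
      have : Ideal.Quotient.mk (Ideal.span {t}) t = 0 :=
        Ideal.Quotient.eq_zero_iff_mem.2 (Ideal.mem_span_singleton_self t)
      rw [this]
      exact Ideal.zero_mem _
    · refine Ideal.subset_span ?_
      rw [Finset.coe_image]
      exact ⟨t, ht, rfl⟩
  have heq : (maximalIdeal R).map (Ideal.Quotient.mk (Ideal.span {x})) =
      Ideal.span ((S.erase s0).image (Ideal.Quotient.mk (Ideal.span {x})) :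
        Set (R ⧸ Ideal.span {x})) := by
    apply le_antisymm hmap
    rw [Ideal.span_le, Finset.coe_image]
    rintro _ ⟨t, ht, rfl⟩
    apply Ideal.mem_map_of_mem
    rw [← hS']
    exact Ideal.subset_span (Finset.mem_of_mem_erase ht)
  rw [heq]
  have h1 := Submodule.spanFinrank_span_le_ncard_of_finite (R := R ⧸ Ideal.span {x})
    (Finset.finite_toSet ((S.erase s0).image (Ideal.Quotient.mk (Ideal.span {x}))))
  rw [Set.ncard_coe_finset] at h1
  have h2 : ((S.erase s0).image (Ideal.Quotient.mk (Ideal.span {x}))).card ≤ (S.erase s0).card :=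
    Finset.card_image_le
  rw [Finset.card_erase_of_mem hs0] at h2
  have h3 : 0 < S.card := Finset.card_pos.2 ⟨s0, hs0⟩
  have h4 : Submodule.spanFinrank (Ideal.span ((S.erase s0).image
      (Ideal.Quotient.mk (Ideal.span {x})) : Set (R ⧸ Ideal.span {x}))) ≤ S.card - 1 :=
    h1.trans h2
  omega

/-- The quotient of a regular local ring by an element of `m \ m ^ 2` is regular of dimension one
less. -/
theorem isRegularLocalRing_quotient [IsRegularLocalRing R] {x : R}
    (hx : x ∈ maximalIdeal R) (hx2 : x ∉ maximalIdeal R ^ 2) :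
    ∃ _ : IsRegularLocalRing (R ⧸ Ideal.span {x}),
      (maximalIdeal (R ⧸ Ideal.span {x})).spanFinrank + 1 = (maximalIdeal R).spanFinrank := by
  have := nontrivial_quotient_span hx
  have := isLocalRing_quotient_span hx
  have h1 := spanFinrank_quotient_le hx hx2
  rw [map_mk_maximalIdeal] at h1
  have h2 : ringKrullDim R ≤ ringKrullDim (R ⧸ Ideal.span {x}) + 1 := by
    have := ringKrullDim_le_ringKrullDim_quotient_add_encard ({x} : Set R) (by
      simp only [Set.singleton_subset_iff]
      rw [IsLocalRing.ringJacobson_eq_maximalIdeal]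
      exact hx)
    simpa using this
  rw [← IsRegularLocalRing.spanFinrank_maximalIdeal (R := R)] at h2
  obtain ⟨k, hk⟩ := exists_ringKrullDim_eq (R ⧸ Ideal.span {x})
  -- the dimension is a natural number
  have h4 : ((maximalIdeal (R ⧸ Ideal.span {x})).spanFinrank : WithBot ℕ∞) ≤
      ringKrullDim (R ⧸ Ideal.span {x}) := by
    have h5 : (((maximalIdeal (R ⧸ Ideal.span {x})).spanFinrank + 1 : ℕ) : WithBot ℕ∞) ≤
        ringKrullDim (R ⧸ Ideal.span {x}) + 1 :=
      le_trans (by exact_mod_cast h1) h2
    rw [hk] at h5 ⊢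
    have h6 : (maximalIdeal (R ⧸ Ideal.span {x})).spanFinrank + 1 ≤ k + 1 := by
      exact_mod_cast h5
    have h7 : (maximalIdeal (R ⧸ Ideal.span {x})).spanFinrank ≤ k := by omega
    exact_mod_cast h7
  have hreg : IsRegularLocalRing (R ⧸ Ideal.span {x}) :=
    IsRegularLocalRing.of_spanFinrank_maximalIdeal_le _ h4
  refine ⟨hreg, ?_⟩
  have h5 := ringKrullDim_le_spanFinrank_maximalIdeal (R ⧸ Ideal.span {x})
  rw [hk] at h2 h5
  have h6 : (maximalIdeal R).spanFinrank ≤ k + 1 := by exact_mod_cast h2
  have h7 : k ≤ (maximalIdeal (R ⧸ Ideal.span {x})).spanFinrank := by exact_mod_cast h5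
  omega

/-- Choice of a good element. -/
theorem exists_good_element [IsRegularLocalRing R] (h : 0 < (maximalIdeal R).spanFinrank) :
    ∃ x ∈ maximalIdeal R, x ∉ maximalIdeal R ^ 2 ∧ ∀ P ∈ minimalPrimes R, x ∉ P := by
  classical
  by_contra hcon
  push Not at hcon
  have hfin : (minimalPrimes R).Finite := minimalPrimes.finite_of_isNoetherianRing R
  let s : Finset (Ideal R) := insert (maximalIdeal R ^ 2) hfin.toFinset
  have hsub : (maximalIdeal R : Set R) ⊆ ⋃ i ∈ (↑s : Set (Ideal R)), ((id i : Ideal R) : Set R) := by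
    intro x hx
    simp only [Set.mem_iUnion]
    by_cases h2 : x ∈ maximalIdeal R ^ 2
    · exact ⟨maximalIdeal R ^ 2, by simp [s], h2⟩
    · obtain ⟨P, hP, hxP⟩ := hcon x hx h2
      exact ⟨P, by simp [s, hP], hxP⟩
  obtain ⟨i, hi, hle⟩ := (Ideal.subset_union_prime (f := id) (maximalIdeal R ^ 2)
    (maximalIdeal R ^ 2) (fun i hi h1 _ => by
      rw [Finset.mem_insert] at hi
      rcases hi with hi | hi
      · exact absurd hi h1
      · have : i ∈ minimalPrimes R := by simpa using hi
        exact this.1.1)).1 hsub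
  simp only [id] at hle
  rw [Finset.mem_insert] at hi
  rcases hi with hi | hi
  · -- `m ≤ m ^ 2`
    rw [hi] at hle
    have h1 : maximalIdeal R ≤ ⊥ := by
      refine Submodule.le_of_le_smul_of_le_jacobson_bot (I := maximalIdeal R)
        (IsNoetherian.noetherian (maximalIdeal R)) (IsLocalRing.maximalIdeal_le_jacobson ⊥) ?_
      rw [bot_sup_eq, smul_eq_mul, ← pow_two]
      exact hle
    rw [le_bot_iff] at h1
    have h2 := (Submodule.spanFinrank_eq_zero_iff_eq_bot
      (IsNoetherian.noetherian (maximalIdeal R))).2 h1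
    omega
  · -- `m` minimal prime
    have hi' : i ∈ minimalPrimes R := by simpa using hi
    have hiprime : i.IsPrime := hi'.1.1
    have heq : maximalIdeal R = i := le_antisymm hle (le_maximalIdeal hiprime.ne_top)
    have h1 : (maximalIdeal R).height = 0 := by
      rw [Ideal.height_eq_zero_iff, heq]
      exact hi'
    have h2 := IsLocalRing.maximalIdeal_height_eq_ringKrullDim (R := R)
    rw [h1, ← IsRegularLocalRing.spanFinrank_maximalIdeal (R := R)] at h2
    have h3 : (0 : ℕ) = (maximalIdeal R).spanFinrank := by exact_mod_cast h2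
    omega

end quotient

/-- A regular local ring is a domain and its maximal ideal is generated by a regular sequence of
length the dimension. -/
theorem regular_induction (n : ℕ) : ∀ (R : Type u) [CommRing R] [IsRegularLocalRing R],
    (maximalIdeal R).spanFinrank = n → IsDomain R ∧
      ∃ rs : List R, rs.length = n ∧ Ideal.ofList rs = maximalIdeal R ∧ IsRegular R rs := by
  induction n with
  | zero =>
    intro R _ _ h
    have h1 : maximalIdeal R = ⊥ := (Submodule.spanFinrank_eq_zero_iff_eq_bot
      (IsNoetherian.noetherian (maximalIdeal R))).1 h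
    have h2 : IsField R := IsLocalRing.isField_iff_maximalIdeal_eq.2 h1
    refine ⟨h2.isDomain, [], rfl, ?_, IsRegular.nil R R⟩
    rw [h1]
    exact Ideal.ofList_nil
  | succ n ih =>
    intro R _ _ h
    obtain ⟨x, hx, hx2, hxP⟩ := exists_good_element (R := R) (by omega)
    obtain ⟨hreg, hdim⟩ := isRegularLocalRing_quotient hx hx2
    obtain ⟨hdom, rs', hlen, hgen, hrs'⟩ := ih (R ⧸ Ideal.span {x}) (by omega)
    have hprime : (Ideal.span {x}).IsPrime := (Ideal.Quotient.isDomain_iff_prime _).1 hdom
    -- `R` is a domain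
    obtain ⟨P, hP, hPx⟩ := Ideal.exists_minimalPrimes_le (I := (⊥ : Ideal R))
      (J := Ideal.span {x}) bot_le
    have hPprime : P.IsPrime := hP.1.1
    have hxP' : x ∉ P := hxP P hP
    have hPbot : P = ⊥ := by
      rw [← le_bot_iff]
      refine Submodule.le_of_le_smul_of_le_jacobson_bot (I := maximalIdeal R)
        (IsNoetherian.noetherian P) (IsLocalRing.maximalIdeal_le_jacobson ⊥) ?_
      rw [bot_sup_eq, smul_eq_mul]
      intro y hy
      obtain ⟨z, hz⟩ := Ideal.mem_span_singleton'.1 (hPx hy)
      rw [← hz] at hy ⊢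
      rw [mul_comm z x]
      refine Ideal.mul_mem_mul hx ?_
      exact (hPprime.mem_or_mem hy).resolve_right hxP'
    have hdomR : IsDomain R := by
      rw [hPbot] at hPprime
      have hn : NoZeroDivisors R := ⟨fun {a b} hab => by
        have h3 := hPprime.mem_or_mem (x := a) (y := b) (by rw [hab]; exact Ideal.zero_mem _)
        exact h3⟩
      exact NoZeroDivisors.to_isDomain R
    refine ⟨hdomR, ?_⟩
    -- the list
    obtain ⟨rs, hrs⟩ : ∃ rs : List R, rs.map (Ideal.Quotient.mk (Ideal.span {x})) = rs' :=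
      ⟨rs'.map Quotient.out, by
        rw [List.map_map]
        conv_rhs => rw [← List.map_id rs']
        apply List.map_congr_left
        intro y _
        exact Quotient.out_eq y⟩
    have hx0 : x ≠ 0 := by
      rintro rfl
      exact hx2 (Ideal.zero_mem _)
    refine ⟨x :: rs, ?_, ?_, ?_⟩
    · rw [List.length_cons, ← hlen, ← hrs, List.length_map]
    · rw [Ideal.ofList_cons]
      have h1 : (Ideal.ofList rs).map (Ideal.Quotient.mk (Ideal.span {x})) =
          (maximalIdeal R).map (Ideal.Quotient.mk (Ideal.span {x})) := by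
        rw [Ideal.map_ofList, hrs, hgen, map_mk_maximalIdeal]
      have h2 := congrArg (Ideal.comap (Ideal.Quotient.mk (Ideal.span {x}))) h1
      rw [Ideal.comap_map_of_surjective _ Ideal.Quotient.mk_surjective,
        Ideal.comap_map_of_surjective _ Ideal.Quotient.mk_surjective,
        ← RingHom.ker_eq_comap_bot, Ideal.mk_ker] at h2
      rw [sup_comm, h2]
      exact sup_eq_left.2 ((Ideal.span_singleton_le_iff_mem _).2 hx)
    · apply IsRegular.cons'
      · rw [isSMulRegular_iff_right_eq_zero_of_smul]
        intro y hy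
        exact (mul_eq_zero.1 hy).resolve_left hx0
      · rw [hrs]
        have e : (R ⧸ Ideal.span {x}) ≃ₗ[R ⧸ Ideal.span {x}] QuotSMulTop x R := by
          have e0 : Ideal.span {x} = (x • ⊤ : Submodule R R) := by
            ext y
            rw [Ideal.mem_span_singleton', Submodule.mem_smul_pointwise_iff_exists]
            constructor
            · rintro ⟨a, ha⟩
              exact ⟨a, trivial, by rw [smul_eq_mul, mul_comm]; exact ha⟩
            · rintro ⟨a, _, ha⟩
              exact ⟨a, by rw [smul_eq_mul, mul_comm] at ha; exact ha⟩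
          let f := Submodule.quotEquivOfEq _ _ e0
          exact { f with
            map_smul' := by
              intro c y
              obtain ⟨c, rfl⟩ := Ideal.Quotient.mk_surjective c
              exact f.map_smul c y }
        exact (LinearEquiv.isRegular_congr e rs').1 hrs'

/-- A regular local ring is a domain. -/
theorem isDomain_of_isRegularLocalRing (R : Type u) [CommRing R] [IsRegularLocalRing R] :
    IsDomain R :=
  (regular_induction _ R rfl).1

/-- The maximal ideal of a regular local ring is generated by a regular sequence. -/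
theorem exists_regular_generators (R : Type u) [CommRing R] [IsRegularLocalRing R] :
    ∃ rs : List R, (rs.length : WithBot ℕ∞) = ringKrullDim R ∧
      Ideal.ofList rs = maximalIdeal R ∧ IsRegular R rs := by
  obtain ⟨_, rs, h1, h2, h3⟩ := regular_induction _ R rfl
  refine ⟨rs, ?_, h2, h3⟩
  rw [h1]
  exact IsRegularLocalRing.spanFinrank_maximalIdeal

end LicciCodimFour
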