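import Mathlib

/-!
# Cech lemmas for the chart rings `R[1/f]` inside a common over-ring

`T` is an `R`-algebra with `R → T` injective (for instance the fraction field of a domain `R`).
`chart T f` is the subalgebra of all `x : T` with `f ^ N * x ∈ R` for some `N`.
-/

namespace LicciCodimFour

open RingTheory.Sequence

universe u v w

section Reg3

variable {R : Type u} [CommRing R]

/-- The elementary form of: `a, b, c` is a weakly regular sequence on `R`. -/
structure Reg3 (a b c : R) : Prop where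
  one : ∀ x, a * x = 0 → x = 0
  two : ∀ x z, b * x = a * z → ∃ w, x = a * w
  three : ∀ x p q, c * x = a * p + b * q → ∃ p' q', x = a * p' + b * q'

theorem Reg3.of_isWeaklyRegular {a b c : R} (h : IsWeaklyRegular R [a, b, c]) : Reg3 a b c := by
  have hsm : ∀ (I : Ideal R) (x : R), x ∈ I • (⊤ : Submodule R R) ↔ x ∈ I := by
    intro I x
    rw [show I • (⊤ : Submodule R R) = I * ⊤ from rfl, Ideal.mul_top]
  have key : ∀ (I : Ideal R) (r : R), IsSMulRegular (R ⧸ (I • (⊤ : Submodule R R))) r →
      ∀ x, r * x ∈ I → x ∈ I := by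
    intro I r hr x hx
    have h4 := hr (a₁ := Submodule.Quotient.mk x) (a₂ := 0) (by
      simp only [smul_zero]
      rw [← Submodule.Quotient.mk_smul, Submodule.Quotient.mk_eq_zero, hsm]
      exact hx)
    rw [Submodule.Quotient.mk_eq_zero, hsm] at h4
    exact h4
  rw [isWeaklyRegular_iff] at h
  have h0 := key _ _ (h 0 (by simp))
  have h1 := key _ _ (h 1 (by simp))
  have h2 := key _ _ (h 2 (by simp))
  have s0 : Ideal.ofList (List.take 0 [a, b, c]) = ⊥ := by simp
  have s1 : Ideal.ofList (List.take 1 [a, b, c]) = Ideal.span {a} := by simp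
  have s2 : Ideal.ofList (List.take 2 [a, b, c]) = Ideal.span {a, b} := by
    simp [Ideal.ofList_cons, Ideal.span_insert]
  rw [s0] at h0
  rw [s1] at h1
  rw [s2] at h2
  refine ⟨?_, ?_, ?_⟩
  · intro x hx
    have := h0 x (by simpa using hx)
    simpa using this
  · intro x z hx
    have := h1 x (by
      rw [Ideal.mem_span_singleton']
      exact ⟨z, by simp only [List.getElem_cons_succ, List.getElem_cons_zero]; rw [hx, mul_comm]⟩)
    rw [Ideal.mem_span_singleton'] at this
    obtain ⟨w, hw⟩ := this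
    exact ⟨w, by rw [← hw, mul_comm]⟩
  · intro x p q hx
    have := h2 x (by
      rw [Ideal.mem_span_pair]
      exact ⟨p, q, by
        simp only [List.getElem_cons_succ, List.getElem_cons_zero]; rw [hx]; ring⟩)
    rw [Ideal.mem_span_pair] at this
    obtain ⟨p', q', hw⟩ := this
    exact ⟨p', q', by rw [← hw]; ring⟩

theorem Reg3.one_pow {a b c : R} (h : Reg3 a b c) (n : ℕ) (x : R) (hx : a ^ n * x = 0) :
    x = 0 := by
  induction n with
  | zero => simpa using hx
  | succ n ih =>
    apply ih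
    apply h.one
    rw [← mul_assoc, ← pow_succ']
    exact hx

/-- raise the first element to a power -/
theorem Reg3.pow_left {a b c : R} (h : Reg3 a b c) (n : ℕ) : Reg3 (a ^ n) b c := by
  refine ⟨fun x hx => h.one_pow n x hx, ?_, ?_⟩
  · induction n with
    | zero => intro x z _; exact ⟨x, by simp⟩
    | succ n ih =>
      intro x z hx
      obtain ⟨w, rfl⟩ := ih x (a * z) (by rw [hx]; ring)
      have h1 : a ^ n * (b * w - a * z) = 0 := by
        linear_combination hx
      have h2 := h.one_pow n _ h1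
      obtain ⟨w', rfl⟩ := h.two w z (by linear_combination h2)
      exact ⟨w', by ring⟩
  · induction n with
    | zero => intro x p q _; exact ⟨x, 0, by simp⟩
    | succ n ih =>
      intro x p q hx
      obtain ⟨s, t, rfl⟩ := h.three x (a ^ n * p) q (by rw [hx]; ring)
      obtain ⟨e, he⟩ := h.two (q - c * t) (c * s - a ^ n * p) (by linear_combination -hx)
      have h1 : c * s = a ^ n * p + b * e := by
        have : a * (c * s - (a ^ n * p + b * e)) = 0 := by
          linear_combination hx + b * he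
        have := h.one _ this
        linear_combination this
      obtain ⟨p', q', rfl⟩ := ih s p e h1
      exact ⟨p', a * q' + t, by ring⟩

/-- raise the second element to a power -/
theorem Reg3.pow_mid {a b c : R} (h : Reg3 a b c) (m : ℕ) : Reg3 a (b ^ m) c := by
  refine ⟨h.one, ?_, ?_⟩
  · induction m with
    | zero => intro x z hx; exact ⟨z, by simpa using hx⟩
    | succ m ih =>
      intro x z hx
      obtain ⟨w, hw⟩ := h.two (b ^ m * x) z (by rw [← hx]; ring)
      exact ih x w hw
  · induction m with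
    | zero => intro x p q _; exact ⟨0, x, by simp⟩
    | succ m ih =>
      intro x p q hx
      obtain ⟨s, t, rfl⟩ := h.three x p (b ^ m * q) (by rw [hx]; ring)
      obtain ⟨e, he⟩ := h.two (c * t - b ^ m * q) (p - c * s) (by linear_combination hx)
      obtain ⟨p', q', rfl⟩ := ih t e q (by linear_combination he)
      exact ⟨s + b * p', q', by ring⟩

/-- raise the third element to a power -/
theorem Reg3.pow_right {a b c : R} (h : Reg3 a b c) (k : ℕ) : Reg3 a b (c ^ k) := by
  refine ⟨h.one, h.two, ?_⟩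
  induction k with
  | zero => intro x p q hx; exact ⟨p, q, by simpa using hx⟩
  | succ k ih =>
    intro x p q hx
    obtain ⟨p', q', h1⟩ := h.three (c ^ k * x) p q (by rw [← hx]; ring)
    exact ih x p' q' h1

theorem Reg3.pow {a b c : R} (h : Reg3 a b c) (n m k : ℕ) : Reg3 (a ^ n) (b ^ m) (c ^ k) :=
  ((h.pow_left n).pow_mid m).pow_right k

end Reg3

section Chart

variable {R : Type u} [CommRing R] (T : Type v) [CommRing T] [Algebra R T]

/-- the elements of `T` which lie in `R[1/f]` -/
def chart (f : R) : Subalgebra R T where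
  carrier := {x | ∃ (N : ℕ) (r : R), algebraMap R T f ^ N * x = algebraMap R T r}
  mul_mem' := by
    rintro x y ⟨N, r, hx⟩ ⟨M, s, hy⟩
    exact ⟨N + M, r * s, by rw [map_mul, ← hx, ← hy]; ring⟩
  add_mem' := by
    rintro x y ⟨N, r, hx⟩ ⟨M, s, hy⟩
    exact ⟨N + M, f ^ M * r + f ^ N * s, by
      rw [map_add, map_mul, map_mul, ← hx, ← hy, map_pow, map_pow]; ring⟩
  algebraMap_mem' r := ⟨0, r, by simp⟩

variable {T}

theorem mem_chart {f : R} {x : T} :
    x ∈ chart T f ↔ ∃ (N : ℕ) (r : R), algebraMap R T f ^ N * x = algebraMap R T r := Iff.rfl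

theorem mem_chart_of_le {f : R} {x : T} {N : ℕ} {r : R}
    (h : algebraMap R T f ^ N * x = algebraMap R T r) {M : ℕ} (hM : N ≤ M) :
    ∃ s : R, algebraMap R T f ^ M * x = algebraMap R T s := by
  obtain ⟨k, rfl⟩ := Nat.exists_eq_add_of_le hM
  exact ⟨f ^ k * r, by rw [map_mul, ← h, map_pow]; ring⟩

theorem mem_chart_mul_right {f : R} (g : R) {x : T} (h : x ∈ chart T f) : x ∈ chart T (f * g) := by
  obtain ⟨N, r, h⟩ := h
  exact ⟨N, g ^ N * r, by rw [map_mul, map_mul, ← h, map_pow]; ring⟩

theorem mem_chart_mul_left {f : R} (g : R) {x : T} (h : x ∈ chart T f) : x ∈ chart T (g * f) := by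
  rw [mul_comm]
  exact mem_chart_mul_right g h

theorem mem_chart_of_pow_mul {f g : R} {x : T} {N : ℕ}
    (h : algebraMap R T f ^ N * x ∈ chart T g) : x ∈ chart T (f * g) := by
  obtain ⟨M, r, h⟩ := h
  exact ⟨N + M, f ^ M * g ^ N * r, by
    simp only [map_mul, map_pow, ← h]; ring⟩

theorem exists_pow_mul_mem_chart {f g : R} {x : T} (h : x ∈ chart T (f * g)) :
    ∃ N : ℕ, algebraMap R T f ^ N * x ∈ chart T g := by
  obtain ⟨N, r, h⟩ := h
  exact ⟨N, N, r, by rw [← h, map_mul]; ring⟩

theorem inv_mem_chart {f : R} {x : T} (h : algebraMap R T f * x = 1) : x ∈ chart T f :=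
  ⟨1, 1, by simpa using h⟩

theorem mem_chart_one {x : T} : x ∈ chart T (1 : R) ↔ ∃ r : R, x = algebraMap R T r := by
  constructor
  · rintro ⟨N, r, h⟩
    exact ⟨r, by simpa using h⟩
  · rintro ⟨r, rfl⟩
    exact (chart T (1 : R)).algebraMap_mem r

/-- `⋂ R[1/(g f_a)] ⊆ R[1/(g y)]` for `y` in the ideal generated by the `f_a`. -/
theorem mem_chart_of_cover {A : Type w} [Finite A] (f : A → R) (g y : R)
    (hy : y ∈ Ideal.span (Set.range f)) {x : T} (hx : ∀ a, x ∈ chart T (g * f a)) :
    x ∈ chart T (g * y) := by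
  cases nonempty_fintype A
  choose N r hr using hx
  obtain ⟨K, hK⟩ : ∃ K, ∀ a, N a ≤ K := ⟨∑ a, N a, fun a =>
    Finset.single_le_sum (f := N) (fun _ _ => Nat.zero_le _) (Finset.mem_univ a)⟩
  have hs : ∀ a, ∃ s : R, algebraMap R T (g * f a) ^ K * x = algebraMap R T s := fun a =>
    mem_chart_of_le (hr a) (hK a)
  choose s hs using hs
  have hrad : y ∈ (Ideal.span (Set.range fun a => f a ^ K)).radical := by
    have hle : Ideal.span (Set.range f) ≤ (Ideal.span (Set.range fun a => f a ^ K)).radical := by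
      rw [Ideal.span_le]
      rintro _ ⟨a, rfl⟩
      exact ⟨K, Ideal.subset_span ⟨a, rfl⟩⟩
    exact hle hy
  obtain ⟨M, hM⟩ := hrad
  rw [Ideal.mem_span_range_iff_exists_fun] at hM
  obtain ⟨c, hc⟩ := hM
  refine ⟨K + M, y ^ K * g ^ M * ∑ a, c a * s a, ?_⟩
  have h1 : algebraMap R T g ^ K * algebraMap R T y ^ M * x
      = algebraMap R T (∑ a, c a * s a) := by
    rw [← map_pow _ y, ← hc, map_sum, map_sum, Finset.mul_sum, Finset.sum_mul]
    refine Finset.sum_congr rfl fun a _ => ?_
    rw [map_mul, map_mul, ← hs, map_mul, map_pow]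
    ring
  rw [map_mul (algebraMap R T) _ (∑ a, c a * s a), ← h1, map_mul, map_mul, map_pow, map_pow]
  ring

/-- If `y₁, y₂` is a weakly regular sequence then `R[1/(g y₁)] ∩ R[1/(g y₂)] = R[1/g]`. -/
theorem mem_chart_of_inter (hinj : Function.Injective (algebraMap R T)) {a b c : R}
    (h : Reg3 a b c) {g : R} (hg : IsUnit (algebraMap R T g)) (ha : IsUnit (algebraMap R T a))
    {x : T} (h1 : x ∈ chart T (g * a)) (h2 : x ∈ chart T (g * b)) : x ∈ chart T g := by
  obtain ⟨N, r, hr⟩ := h1
  obtain ⟨M, s, hs⟩ := h2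
  obtain ⟨r, hr⟩ := mem_chart_of_le hr (le_max_left N M)
  obtain ⟨s, hs⟩ := mem_chart_of_le hs (le_max_right N M)
  set K := max N M
  have h3 : algebraMap R T (b ^ K * r) = algebraMap R T (a ^ K * s) := by
    apply (hg.pow K).mul_left_cancel
    rw [map_mul, map_mul, ← hr, ← hs]
    simp only [map_mul, map_pow]
    ring
  obtain ⟨w, hw⟩ := (h.pow K K 1).two r s (hinj h3)
  refine ⟨K, w, ?_⟩
  apply (ha.pow K).mul_left_cancel
  rw [← map_pow _ a, ← map_mul _ (a ^ K), ← hw, ← hr, map_mul, map_pow]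
  ring

/-- If `y₁, y₂` is a weakly regular sequence then `R[1/y₁] ∩ R[1/y₂] = R`. -/
theorem exists_eq_algebraMap_of_inter (hinj : Function.Injective (algebraMap R T)) {a b c : R}
    (h : Reg3 a b c) (ha : IsUnit (algebraMap R T a))
    {x : T} (h1 : x ∈ chart T a) (h2 : x ∈ chart T b) : ∃ r : R, x = algebraMap R T r := by
  rw [← mem_chart_one]
  exact mem_chart_of_inter hinj h (g := 1) (by simp) ha (by simpa using h1) (by simpa using h2)

/-- The Cech lemma for three elements. -/
theorem cech_three (hinj : Function.Injective (algebraMap R T)) {a b c : R}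
    (h : Reg3 a b c) (ha : IsUnit (algebraMap R T a)) (hb : IsUnit (algebraMap R T b))
    (hc : IsUnit (algebraMap R T c)) {x12 x23 x13 : T}
    (h12 : x12 ∈ chart T (a * b)) (h23 : x23 ∈ chart T (b * c)) (h13 : x13 ∈ chart T (a * c))
    (hx : x13 = x12 + x23) :
    ∃ x1 ∈ chart T a, ∃ x2 ∈ chart T b, ∃ x3 ∈ chart T c,
      x12 = x2 - x1 ∧ x23 = x3 - x2 ∧ x13 = x3 - x1 := by
  obtain ⟨N1, r1, e1⟩ := h12
  obtain ⟨N2, r2, e2⟩ := h23
  obtain ⟨N3, r3, e3⟩ := h13
  obtain ⟨N, g1, g2, g3⟩ : ∃ N, N1 ≤ N ∧ N2 ≤ N ∧ N3 ≤ N :=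
    ⟨N1 + N2 + N3, by omega, by omega, by omega⟩
  obtain ⟨u, hu⟩ := mem_chart_of_le e1 g1
  obtain ⟨v, hv⟩ := mem_chart_of_le e2 g2
  obtain ⟨w, hw⟩ := mem_chart_of_le e3 g3
  clear e1 e2 e3
  have hN := h.pow N N N
  -- `b ^ N * w = c ^ N * u + a ^ N * v`
  have e : b ^ N * w = c ^ N * u + a ^ N * v := by
    apply hinj
    rw [map_add, map_mul, map_mul, map_mul, ← hu, ← hv, ← hw, hx]
    simp only [map_mul, map_pow]
    ring
  obtain ⟨p, q, hp⟩ := hN.three u (-v) w (by linear_combination -e)
  obtain ⟨s, hs⟩ := hN.two (w - c ^ N * q) (v + c ^ N * p) (by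
    rw [hp] at e
    linear_combination e)
  have hv' : v = b ^ N * s - c ^ N * p := by
    have h1 : a ^ N * (v - (b ^ N * s - c ^ N * p)) = 0 := by
      rw [hp] at e
      linear_combination -e + b ^ N * hs
    have := hN.one _ h1
    linear_combination this
  obtain ⟨ia, hia⟩ := ha.exists_right_inv
  obtain ⟨ib, hib⟩ := hb.exists_right_inv
  obtain ⟨ic, hic⟩ := hc.exists_right_inv
  have hiaN : algebraMap R T a ^ N * ia ^ N = 1 := by rw [← mul_pow, hia, one_pow]
  have hibN : algebraMap R T b ^ N * ib ^ N = 1 := by rw [← mul_pow, hib, one_pow]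
  have hicN : algebraMap R T c ^ N * ic ^ N = 1 := by rw [← mul_pow, hic, one_pow]
  set A := algebraMap R T a ^ N
  set B := algebraMap R T b ^ N
  set C := algebraMap R T c ^ N
  have hu2 : A * B * x12 = A * algebraMap R T p + B * algebraMap R T q := by
    have := hu
    rw [hp] at this
    simp only [map_mul, map_add, map_pow, mul_pow] at this
    exact this
  have hv2 : B * C * x23 = B * algebraMap R T s - C * algebraMap R T p := by
    have := hv
    rw [hv'] at this
    simp only [map_mul, map_sub, map_pow, mul_pow] at this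
    exact this
  refine ⟨-(ia ^ N * algebraMap R T q), ?_, ib ^ N * algebraMap R T p, ?_,
    ic ^ N * algebraMap R T s, ?_, ?_, ?_, ?_⟩
  · exact neg_mem ⟨N, q, by rw [← mul_assoc, hiaN, one_mul]⟩
  · exact ⟨N, p, by rw [← mul_assoc, hibN, one_mul]⟩
  · exact ⟨N, s, by rw [← mul_assoc, hicN, one_mul]⟩
  · linear_combination (ia ^ N * ib ^ N) * hu2 + (- x12 * B * ib ^ N + ib ^ N * algebraMap R T p) * hiaN + (-x12 + ia ^ N * algebraMap R T q) * hibN
  · linear_combination (ib ^ N * ic ^ N) * hv2 + (- x23 * C * ic ^ N + ic ^ N * algebraMap R T s) * hibN + (-x23 - ib ^ N * algebraMap R T p) * hicN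
  · rw [hx]
    linear_combination (ia ^ N * ib ^ N) * hu2 + (- x12 * B * ib ^ N + ib ^ N * algebraMap R T p) * hiaN + (-x12 + ia ^ N * algebraMap R T q) * hibN + (ib ^ N * ic ^ N) * hv2 + (- x23 * C * ic ^ N + ic ^ N * algebraMap R T s) * hibN + (-x23 - ib ^ N * algebraMap R T p) * hicN

/-- The Cech lemma for a finite cover by the charts of the elements `f a`, provided that the
ideal generated by the `f a` contains a weakly regular sequence of length three. -/
theorem cech_cover (hinj : Function.Injective (algebraMap R T)) {A : Type w} [Finite A]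
    (f : A → R) (hf : ∀ a, IsUnit (algebraMap R T (f a))) {y1 y2 y3 : R} (h : Reg3 y1 y2 y3)
    (m1 : y1 ∈ Ideal.span (Set.range f)) (m2 : y2 ∈ Ideal.span (Set.range f))
    (m3 : y3 ∈ Ideal.span (Set.range f)) (u1 : IsUnit (algebraMap R T y1))
    (u2 : IsUnit (algebraMap R T y2)) (u3 : IsUnit (algebraMap R T y3))
    (x : A → A → T) (hx : ∀ a b, x a b ∈ chart T (f a * f b))
    (hc : ∀ a b c, x a b + x b c = x a c) :
    ∃ z : A → T, (∀ a, z a ∈ chart T (f a)) ∧ ∀ a b, x a b = z b - z a := by
  rcases isEmpty_or_nonempty A with hA | ⟨⟨a0⟩⟩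
  · exact ⟨fun a => isEmptyElim a, fun a => isEmptyElim a, fun a => isEmptyElim a⟩
  cases nonempty_fintype A
  -- a common exponent
  obtain ⟨N, s, hs⟩ : ∃ (N : ℕ) (s : A → A → R), ∀ a b,
      algebraMap R T (f a * f b) ^ N * x a b = algebraMap R T (s a b) := by
    choose N r hr using hx
    have hK : ∀ a b, N a b ≤ ∑ a, ∑ b, N a b := fun a b =>
      (Finset.single_le_sum (f := N a) (fun _ _ => Nat.zero_le _) (Finset.mem_univ b)).trans
        (Finset.single_le_sum (f := fun a => ∑ b, N a b) (fun _ _ => Nat.zero_le _)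
          (Finset.mem_univ a))
    choose s hs using fun a b => mem_chart_of_le (hr a b) (hK a b)
    exact ⟨_, s, hs⟩
  -- the local solution on the chart of `y`
  have loc : ∀ y ∈ Ideal.span (Set.range f), IsUnit (algebraMap R T y) →
      ∃ z : A → T, (∀ a, z a ∈ chart T (f a * y)) ∧ ∀ a b, x a b = z b - z a := by
    intro y hy uy
    have hrad : y ∈ (Ideal.span (Set.range fun a => f a ^ N)).radical := by
      have hle : Ideal.span (Set.range f) ≤
          (Ideal.span (Set.range fun a => f a ^ N)).radical := by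
        rw [Ideal.span_le]
        rintro _ ⟨a, rfl⟩
        exact ⟨N, Ideal.subset_span ⟨a, rfl⟩⟩
      exact hle hy
    obtain ⟨M, hM⟩ := hrad
    rw [Ideal.mem_span_range_iff_exists_fun] at hM
    obtain ⟨c, hcM⟩ := hM
    obtain ⟨i, hi⟩ := uy.exists_right_inv
    have hiM : i ^ M * algebraMap R T y ^ M = 1 := by rw [← mul_pow, mul_comm i, hi, one_pow]
    refine ⟨fun a => i ^ M * ∑ b, algebraMap R T (c b) * (algebraMap R T (f b) ^ N * x b a),
      ?_, ?_⟩
    · intro a
      apply mem_chart_of_pow_mul (N := N)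
      refine ⟨M, ∑ b, c b * s b a, ?_⟩
      rw [map_sum]
      have : algebraMap R T y ^ M * (algebraMap R T (f a) ^ N *
          (i ^ M * ∑ b, algebraMap R T (c b) * (algebraMap R T (f b) ^ N * x b a)))
          = (i ^ M * algebraMap R T y ^ M) * (algebraMap R T (f a) ^ N *
          ∑ b, algebraMap R T (c b) * (algebraMap R T (f b) ^ N * x b a)) := by ring
      rw [this, hiM, one_mul, Finset.mul_sum]
      refine Finset.sum_congr rfl fun b _ => ?_
      rw [map_mul, ← hs, map_mul]
      ring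
    · intro a b
      have h1 : ∀ e, x e b = x e a + x a b := fun e => (hc e a b).symm
      have h2 : ∑ e, algebraMap R T (c e) * (algebraMap R T (f e) ^ N * x e b)
          = ∑ e, algebraMap R T (c e) * (algebraMap R T (f e) ^ N * x e a)
            + algebraMap R T y ^ M * x a b := by
        rw [← map_pow, ← hcM, map_sum, Finset.sum_mul, ← Finset.sum_add_distrib]
        refine Finset.sum_congr rfl fun e _ => ?_
        rw [h1 e, map_mul, map_pow]
        ring
      simp only [h2]
      linear_combination (-x a b) * hiM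
  obtain ⟨z1, hz1, e1⟩ := loc y1 m1 u1
  obtain ⟨z2, hz2, e2⟩ := loc y2 m2 u2
  obtain ⟨z3, hz3, e3⟩ := loc y3 m3 u3
  -- the differences do not depend on `a`
  have d12 : ∀ a, z1 a - z2 a = z1 a0 - z2 a0 := fun a => by
    linear_combination (e1 a0 a).symm.trans (e2 a0 a)
  have d23 : ∀ a, z2 a - z3 a = z2 a0 - z3 a0 := fun a => by
    linear_combination (e2 a0 a).symm.trans (e3 a0 a)
  have d13 : ∀ a, z1 a - z3 a = z1 a0 - z3 a0 := fun a => by
    linear_combination (e1 a0 a).symm.trans (e3 a0 a)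
  have c12 : z1 a0 - z2 a0 ∈ chart T (y1 * y2) := by
    have : z1 a0 - z2 a0 ∈ chart T ((y1 * y2) * y1) := by
      apply mem_chart_of_cover f (y1 * y2) y1 m1
      intro a
      rw [← d12 a]
      apply sub_mem
      · have := mem_chart_mul_right y2 (hz1 a)
        rwa [show f a * y1 * y2 = y1 * y2 * f a by ring] at this
      · have := mem_chart_mul_right y1 (hz2 a)
        rwa [show f a * y2 * y1 = y1 * y2 * f a by ring] at this
    obtain ⟨K, r, hr⟩ := this
    refine ⟨K + K, y2 ^ K * r, ?_⟩
    rw [map_mul (algebraMap R T) _ r, ← hr]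
    simp only [map_mul, map_pow]
    ring
  have c23 : z2 a0 - z3 a0 ∈ chart T (y2 * y3) := by
    have : z2 a0 - z3 a0 ∈ chart T ((y2 * y3) * y2) := by
      apply mem_chart_of_cover f (y2 * y3) y2 m2
      intro a
      rw [← d23 a]
      apply sub_mem
      · have := mem_chart_mul_right y3 (hz2 a)
        rwa [show f a * y2 * y3 = y2 * y3 * f a by ring] at this
      · have := mem_chart_mul_right y2 (hz3 a)
        rwa [show f a * y3 * y2 = y2 * y3 * f a by ring] at this
    obtain ⟨K, r, hr⟩ := this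
    refine ⟨K + K, y3 ^ K * r, ?_⟩
    rw [map_mul (algebraMap R T) _ r, ← hr]
    simp only [map_mul, map_pow]
    ring
  have c13 : z1 a0 - z3 a0 ∈ chart T (y1 * y3) := by
    have : z1 a0 - z3 a0 ∈ chart T ((y1 * y3) * y1) := by
      apply mem_chart_of_cover f (y1 * y3) y1 m1
      intro a
      rw [← d13 a]
      apply sub_mem
      · have := mem_chart_mul_right y3 (hz1 a)
        rwa [show f a * y1 * y3 = y1 * y3 * f a by ring] at this
      · have := mem_chart_mul_right y1 (hz3 a)
        rwa [show f a * y3 * y1 = y1 * y3 * f a by ring] at this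
    obtain ⟨K, r, hr⟩ := this
    refine ⟨K + K, y3 ^ K * r, ?_⟩
    rw [map_mul (algebraMap R T) _ r, ← hr]
    simp only [map_mul, map_pow]
    ring
  obtain ⟨v1, hv1, v2, hv2, v3, hv3, f12, f23, f13⟩ :=
    cech_three hinj h u1 u2 u3 c12 c23 c13 (by ring)
  refine ⟨fun a => z1 a + v1, ?_, ?_⟩
  · intro a
    have g1 : z1 a + v1 ∈ chart T (f a * y1) :=
      add_mem (hz1 a) (mem_chart_mul_left (f a) hv1)
    have g2 : z1 a + v1 ∈ chart T (f a * y2) := by
      have : z1 a + v1 = z2 a + v2 := by linear_combination d12 a + f12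
      rw [this]
      exact add_mem (hz2 a) (mem_chart_mul_left (f a) hv2)
    exact mem_chart_of_inter hinj h (hf a) u1 g1 g2
  · intro a b
    rw [e1 a b]
    ring

/-- Coordinatewise version of the Cech lemma. -/
theorem cech_cover_pi (hinj : Function.Injective (algebraMap R T)) {A : Type w} [Finite A]
    (f : A → R) (hf : ∀ a, IsUnit (algebraMap R T (f a))) {y1 y2 y3 : R} (h : Reg3 y1 y2 y3)
    (m1 : y1 ∈ Ideal.span (Set.range f)) (m2 : y2 ∈ Ideal.span (Set.range f))
    (m3 : y3 ∈ Ideal.span (Set.range f)) (u1 : IsUnit (algebraMap R T y1))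
    (u2 : IsUnit (algebraMap R T y2)) (u3 : IsUnit (algebraMap R T y3))
    {ι : Type*} (x : A → A → ι → T) (hx : ∀ a b i, x a b i ∈ chart T (f a * f b))
    (hc : ∀ a b c, x a b + x b c = x a c) :
    ∃ z : A → ι → T, (∀ a i, z a i ∈ chart T (f a)) ∧ ∀ a b, x a b = z b - z a := by
  have key : ∀ i, ∃ z : A → T, (∀ a, z a ∈ chart T (f a)) ∧ ∀ a b, x a b i = z b - z a :=
    fun i => cech_cover hinj f hf h m1 m2 m3 u1 u2 u3 (fun a b => x a b i) (fun a b => hx a b i)
      (fun a b c => congrFun (hc a b c) i)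
  choose z hz hz' using key
  exact ⟨fun a i => z i a, fun a i => hz i a, fun a b => funext fun i => hz' i a b⟩

end Chart

end LicciCodimFour
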