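import Pool.Agent.Work.MP_a98e4e_ag.Exch
import Pool.Agent.Work.MP_a98e4e_ag.Defs

/-!
MP_a98e4e_ag (licci, codimension 4), module LS (helper43): one double link
`f ↦ f' = f + c ω(a0, a1, a2, ·)` as a pair of direct links.
-/

set_option autoImplicit false

namespace Pool.Agent.Licci

open IsLocalRing RingTheory.Sequence LicciCodimFour

section

variable {R : Type*} [CommRing R] {P : Type*} [AddCommGroup P] [Module R P]

lemma mem_colon_iff' {I J : Ideal R} {r : R} :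
    r ∈ I.colon (J : Set R) ↔ ∀ x ∈ J, r * x ∈ I := by
  rw [Submodule.mem_colon]
  rfl

lemma omega_last_self (ω : P [⋀^Fin 4]→ₗ[R] R) (a0 a1 a2 : P) :
    ω ![a0, a1, a2, a0] = 0 ∧ ω ![a0, a1, a2, a1] = 0 ∧ ω ![a0, a1, a2, a2] = 0 :=
  ⟨ω.map_eq_zero_of_eq _ (i := 0) (j := 3) (by simp) (by decide),
    ω.map_eq_zero_of_eq _ (i := 1) (j := 3) (by simp) (by decide),
    ω.map_eq_zero_of_eq _ (i := 2) (j := 3) (by simp) (by decide)⟩

/-- `f (v) w ∈ α` -/
lemma mul_omega_mem {f : P →ₗ[R] R} {ω : P [⋀^Fin 4]→ₗ[R] R} (hω : Cyc f ω) (a0 a1 a2 a3 v : P) :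
    f v * ω ![a0, a1, a2, a3] ∈ Ideal.ofList [f a0, f a1, f a2, f a3] := by
  rw [ofList_four]
  refine mem_sup_span_singleton'.mpr ⟨ω ![a0, a1, a2, v], ?_⟩
  exact rel_of_cyc hω a0 a1 a2 a3 v

/-- the direct link `I ~ J`, `J = α + (w)` -/
theorem Good.link {f : P →ₗ[R] R} {ω : P [⋀^Fin 4]→ₗ[R] R} (hω : Cyc f ω) {a0 a1 a2 a3 : P}
    (hreg : IsRegular R [f a0, f a1, f a2, f a3]) (h : Good f ω a0 a1 a2 a3) :
    DirectlyLinked (LinearMap.range f)
      (Ideal.ofList [f a0, f a1, f a2, f a3] ⊔ Ideal.span {ω ![a0, a1, a2, a3]}) := by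
  set A := Ideal.ofList [f a0, f a1, f a2, f a3] with hA
  set w := ω ![a0, a1, a2, a3] with hw
  have hAI : A ≤ LinearMap.range f := by
    rw [hA, Ideal.ofList, Ideal.span_le]
    intro x hx
    simp only [List.mem_cons, List.not_mem_nil, or_false, Set.mem_ofPred_eq] at hx
    rcases hx with rfl | rfl | rfl | rfl <;> exact ⟨_, rfl⟩
  refine ⟨_, hreg, le_inf hAI le_sup_left, ?_, ?_⟩
  · apply le_antisymm
    · rintro _ ⟨v, rfl⟩
      rw [mem_colon_iff']
      intro x hx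
      obtain ⟨y, hy, z, hz, rfl⟩ := Submodule.mem_sup.mp hx
      obtain ⟨q, rfl⟩ := Ideal.mem_span_singleton'.mp hz
      have e : f v * (y + q * w) = f v * y + q * (f v * w) := by ring
      rw [e]
      exact Ideal.add_mem _ (Ideal.mul_mem_left _ _ hy)
        (Ideal.mul_mem_left _ _ (mul_omega_mem hω a0 a1 a2 a3 v))
    · intro y hy
      rw [mem_colon_iff'] at hy
      exact h.1 y (hy w (Ideal.mem_sup_right (Ideal.mem_span_singleton_self w)))
  · apply le_antisymm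
    · intro x hx
      rw [mem_colon_iff']
      rintro _ ⟨v, rfl⟩
      obtain ⟨y, hy, z, hz, rfl⟩ := Submodule.mem_sup.mp hx
      obtain ⟨q, rfl⟩ := Ideal.mem_span_singleton'.mp hz
      have e : (y + q * w) * f v = f v * y + q * (f v * w) := by ring
      rw [e]
      exact Ideal.add_mem _ (Ideal.mul_mem_left _ _ hy)
        (Ideal.mul_mem_left _ _ (mul_omega_mem hω a0 a1 a2 a3 v))
    · intro y hy
      rw [mem_colon_iff'] at hy
      exact h.2 y fun v => hy (f v) ⟨v, rfl⟩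

/-- the new functional -/
def stepf (f : P →ₗ[R] R) (ω : P [⋀^Fin 4]→ₗ[R] R) (a0 a1 a2 : P) (c : R) : P →ₗ[R] R :=
  f + c • con3 ω a0 a1 a2

lemma stepf_apply (f : P →ₗ[R] R) (ω : P [⋀^Fin 4]→ₗ[R] R) (a0 a1 a2 : P) (c : R) (v : P) :
    stepf f ω a0 a1 a2 c v = f v + c * ω ![a0, a1, a2, v] := by
  simp [stepf]

lemma stepf_self (f : P →ₗ[R] R) (ω : P [⋀^Fin 4]→ₗ[R] R) (a0 a1 a2 : P) (c : R) :
    stepf f ω a0 a1 a2 c a0 = f a0 ∧ stepf f ω a0 a1 a2 c a1 = f a1 ∧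
      stepf f ω a0 a1 a2 c a2 = f a2 := by
  obtain ⟨h0, h1, h2⟩ := omega_last_self ω a0 a1 a2
  simp [stepf_apply, h0, h1, h2]

lemma mem_range_stepf (f : P →ₗ[R] R) (ω : P [⋀^Fin 4]→ₗ[R] R) (a0 a1 a2 : P) (c : R) :
    ∀ x ∈ Ideal.ofList [f a0, f a1, f a2], x ∈ LinearMap.range (stepf f ω a0 a1 a2 c) := by
  obtain ⟨h0, h1, h2⟩ := stepf_self f ω a0 a1 a2 c
  have : Ideal.ofList [f a0, f a1, f a2] ≤ LinearMap.range (stepf f ω a0 a1 a2 c) := by
    rw [Ideal.ofList, Ideal.span_le]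
    intro x hx
    simp only [List.mem_cons, List.not_mem_nil, or_false, Set.mem_ofPred_eq] at hx
    rcases hx with rfl | rfl | rfl
    exacts [⟨_, h0⟩, ⟨_, h1⟩, ⟨_, h2⟩]
  exact this

lemma step_colon {f : P →ₗ[R] R} {ω : P [⋀^Fin 4]→ₗ[R] R} (hω : Cyc f ω) {a0 a1 a2 a3 : P} {c : R}
    (h1 : IsWeaklyRegular R [f a0, f a1, f a2, f a3])
    (h : Good f ω a0 a1 a2 a3) (y : R) :
    y * ω ![a0, a1, a2, a3] ∈ Ideal.ofList [f a0, f a1, f a2, f a3 + c * ω ![a0, a1, a2, a3]] ↔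
      y ∈ LinearMap.range (stepf f ω a0 a1 a2 c) := by
  have r1 : RegMod (Ideal.ofList [f a0, f a1, f a2]) (f a3) :=
    (isWeaklyRegular_concat_iff (α := [f a0, f a1, f a2]).mp h1).2
  obtain ⟨hA, _⟩ := h
  rw [ofList_four] at hA ⊢
  exact double_link_colon f (con3 ω a0 a1 a2) a3 c (mem_range_stepf f ω a0 a1 a2 c)
    (rel_of_cyc hω a0 a1 a2 a3) r1 hA y

/-- the two identities for the new pair -/
theorem Good.step {f : P →ₗ[R] R} {ω ω' : P [⋀^Fin 4]→ₗ[R] R} (hω : Cyc f ω)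
    {a0 a1 a2 a3 : P} {c : R}
    (h1 : IsWeaklyRegular R [f a0, f a1, f a2, f a3])
    (h2 : IsWeaklyRegular R [f a0, f a1, f a2, f a3 + c * ω ![a0, a1, a2, a3]])
    (hw : ω' ![a0, a1, a2, a3] = ω ![a0, a1, a2, a3])
    (h : Good f ω a0 a1 a2 a3) : Good (stepf f ω a0 a1 a2 c) ω' a0 a1 a2 a3 := by
  have r2 : RegMod (Ideal.ofList [f a0, f a1, f a2]) (f a3 + c * ω ![a0, a1, a2, a3]) :=
    (isWeaklyRegular_concat_iff (α := [f a0, f a1, f a2]).mp h2).2
  obtain ⟨e0, e1, e2⟩ := stepf_self f ω a0 a1 a2 c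
  have e3 : stepf f ω a0 a1 a2 c a3 = f a3 + c * ω ![a0, a1, a2, a3] := stepf_apply _ _ _ _ _ _ _
  refine ⟨?_, ?_⟩
  · intro y hy
    rw [e0, e1, e2, e3, hw] at hy
    exact (step_colon hω h1 h y).mp hy
  · intro y hy
    rw [e0, e1, e2, e3] at hy ⊢
    rw [hw]
    obtain ⟨_, hB⟩ := h
    rw [ofList_four_sup, ofList_four] at hB
    rw [ofList_four] at hy
    rw [ofList_four_sup]
    exact (double_link_colon' f (con3 ω a0 a1 a2) a3 c (rel_of_cyc hω a0 a1 a2 a3) r2 hB y).mp hy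

lemma sup_step (f : P →ₗ[R] R) (ω : P [⋀^Fin 4]→ₗ[R] R) (a0 a1 a2 a3 : P) (c : R) :
    Ideal.ofList [f a0, f a1, f a2, f a3 + c * ω ![a0, a1, a2, a3]] ⊔
        Ideal.span {ω ![a0, a1, a2, a3]} =
      Ideal.ofList [f a0, f a1, f a2, f a3] ⊔ Ideal.span {ω ![a0, a1, a2, a3]} := by
  set w := ω ![a0, a1, a2, a3]
  rw [ofList_four_sup, ofList_four_sup]
  congr 1
  apply le_antisymm
  · rw [Ideal.span_le]
    rintro z (rfl | rfl)
    · exact Ideal.add_mem _ (Ideal.subset_span (by simp))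
        (Ideal.mul_mem_left _ _ (Ideal.subset_span (by simp)))
    · exact Ideal.subset_span (by simp)
  · rw [Ideal.span_le]
    rintro z (rfl | rfl)
    · have e : f a3 = (f a3 + c * w) - c * w := by ring
      have : f a3 ∈ Ideal.span ({f a3 + c * w, w} : Set R) := by
        rw [e]
        exact Ideal.sub_mem _ (Ideal.subset_span (by simp))
          (Ideal.mul_mem_left _ _ (Ideal.subset_span (by simp)))
      exact this
    · exact Ideal.subset_span (by simp)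

lemma DirectlyLinked.symm {I J : Ideal R} (h : DirectlyLinked I J) : DirectlyLinked J I := by
  obtain ⟨rs, h1, h2, h3, h4⟩ := h
  exact ⟨rs, h1, by rwa [inf_comm], h4, h3⟩

lemma IsLicci.of_linked {I J : Ideal R} (h : DirectlyLinked I J) (hJ : IsLicci J) : IsLicci I := by
  obtain ⟨K, hK, hK2⟩ := hJ
  exact ⟨K, Relation.ReflTransGen.head h hK, hK2⟩

end

section loc

universe u

variable {R : Type u} [CommRing R] [IsLocalRing R] [IsNoetherianRing R]
variable {P : Type*} [AddCommGroup P] [Module R P]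

lemma isRegular_four {x0 x1 x2 x3 : R} (h0 : x0 ∈ maximalIdeal R) (h1 : x1 ∈ maximalIdeal R)
    (h2 : x2 ∈ maximalIdeal R) (h3 : x3 ∈ maximalIdeal R)
    (h : IsWeaklyRegular R [x0, x1, x2, x3]) : IsRegular R [x0, x1, x2, x3] := by
  refine IsRegular.of_isWeaklyRegular_of_mem_maximalIdeal R ?_ h
  intro x hx
  simp only [List.mem_cons, List.not_mem_nil, or_false] at hx
  rcases hx with rfl | rfl | rfl | rfl <;> assumption

/-- one double link: if the new ideal is licci, so is the old one. -/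
theorem licci_of_step {f : P →ₗ[R] R} {ω ω' : P [⋀^Fin 4]→ₗ[R] R} (hω : Cyc f ω)
    (hI : ∀ v, f v ∈ maximalIdeal R)
    {a0 a1 a2 a3 : P} {c : R}
    (h1 : IsWeaklyRegular R [f a0, f a1, f a2, f a3])
    (h2 : IsWeaklyRegular R [f a0, f a1, f a2, f a3 + c * ω ![a0, a1, a2, a3]])
    (h : Good f ω a0 a1 a2 a3)
    (hI' : ∀ v, stepf f ω a0 a1 a2 c v ∈ maximalIdeal R)
    (hω' : Cyc (stepf f ω a0 a1 a2 c) ω')
    (hw : ω' ![a0, a1, a2, a3] = ω ![a0, a1, a2, a3])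
    (hL : IsLicci (LinearMap.range (stepf f ω a0 a1 a2 c))) : IsLicci (LinearMap.range f) := by
  have hreg := isRegular_four (hI a0) (hI a1) (hI a2) (hI a3) h1
  have e3 : stepf f ω a0 a1 a2 c a3 = f a3 + c * ω ![a0, a1, a2, a3] := stepf_apply _ _ _ _ _ _ _
  have hreg' := isRegular_four (hI a0) (hI a1) (hI a2) (e3 ▸ hI' a3) h2
  have l1 := h.link hω hreg
  have hG := h.step (ω' := ω') hω h1 h2 hw
  obtain ⟨e0, e1, e2⟩ := stepf_self f ω a0 a1 a2 c
  have l2 := hG.link hω' (by rw [e0, e1, e2, e3]; exact hreg')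
  rw [e0, e1, e2, e3, hw, sup_step] at l2
  exact IsLicci.of_linked l1 (IsLicci.of_linked (DirectlyLinked.symm l2) hL)

/-- the last step: if the new functional takes a unit value, the ideal is licci. -/
theorem licci_of_unit {f : P →ₗ[R] R} {ω : P [⋀^Fin 4]→ₗ[R] R} (hω : Cyc f ω)
    (hI : ∀ v, f v ∈ maximalIdeal R)
    {a0 a1 a2 a3 : P} {c : R}
    (h1 : IsWeaklyRegular R [f a0, f a1, f a2, f a3])
    (h2 : IsWeaklyRegular R [f a0, f a1, f a2, f a3 + c * ω ![a0, a1, a2, a3]])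
    (h : Good f ω a0 a1 a2 a3)
    (hu : ∃ v, IsUnit (stepf f ω a0 a1 a2 c v)) : IsLicci (LinearMap.range f) := by
  have hreg := isRegular_four (hI a0) (hI a1) (hI a2) (hI a3) h1
  have l1 := h.link hω hreg
  set w := ω ![a0, a1, a2, a3] with hw
  by_cases hwu : IsUnit w
  · -- then `I = α`
    refine ⟨_, Relation.ReflTransGen.refl, _, hreg, ?_⟩
    apply le_antisymm
    · rintro _ ⟨v, rfl⟩
      have h3 := mul_omega_mem hω a0 a1 a2 a3 v
      rw [← hw] at h3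
      obtain ⟨u, hu⟩ := hwu
      rw [← hu] at h3
      have h4 := Ideal.mul_mem_right ((↑u⁻¹ : R)) _ h3
      rwa [mul_assoc, Units.mul_inv, mul_one] at h4
    · rw [Ideal.ofList, Ideal.span_le]
      intro x hx
      simp only [List.mem_cons, List.not_mem_nil, or_false, Set.mem_ofPred_eq] at hx
      rcases hx with rfl | rfl | rfl | rfl <;> exact ⟨_, rfl⟩
  · -- `w ∈ α'`, so `J = α'`
    have hwm : w ∈ maximalIdeal R := (IsLocalRing.mem_maximalIdeal _).mpr hwu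
    have h3m : f a3 + c * w ∈ maximalIdeal R :=
      Ideal.add_mem _ (hI a3) (Ideal.mul_mem_left _ _ hwm)
    have hreg' := isRegular_four (hI a0) (hI a1) (hI a2) h3m h2
    have hw' : w ∈ Ideal.ofList [f a0, f a1, f a2, f a3 + c * w] := by
      obtain ⟨v, hv⟩ := hu
      have h5 : (1 : R) ∈ LinearMap.range (stepf f ω a0 a1 a2 c) := by
        obtain ⟨u, hu⟩ := hv
        refine ⟨(↑u⁻¹ : R) • v, ?_⟩
        rw [map_smul, ← hu, smul_eq_mul, Units.inv_mul]
      have h6 := (step_colon hω h1 h (c := c) 1).mpr h5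
      rwa [one_mul] at h6
    have hJ : Ideal.ofList [f a0, f a1, f a2, f a3] ⊔ Ideal.span {w} =
        Ideal.ofList [f a0, f a1, f a2, f a3 + c * w] := by
      rw [← sup_step]
      exact sup_eq_left.mpr (by rw [Ideal.span_singleton_le_iff_mem]; exact hw')
    rw [hJ] at l1
    exact IsLicci.of_linked l1 ⟨_, Relation.ReflTransGen.refl, _, hreg', rfl⟩

end loc

end Pool.Agent.Licci
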