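import Pool.Agent.Work.MP_a98e4e_ag.LinkStep

/-!
MP_a98e4e_ag (licci, codimension 4), module (7) (helper43): the abstract descent. States with
moves `f ↦ f + c ν(x, y, z, ·)`, a measure which drops for general `x, y, z, c`.
-/

set_option autoImplicit false

noncomputable section

namespace Pool.Agent.Licci

open IsLocalRing RingTheory.Sequence LicciCodimFour

section gen

universe u

variable {R : Type u} [CommRing R] [IsLocalRing R] {ι : Type*}

/-- `Q a` holds for all `a` whose reduction avoids finitely many proper subspaces. -/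
def Gen1 (Q : (ι → R) → Prop) : Prop :=
  ∃ S : Finset (Submodule (ResidueField R) (ι → ResidueField R)), (∀ V ∈ S, V ≠ ⊤) ∧
    ∀ a : ι → R, (∀ V ∈ S, red a ∉ V) → Q a

/-- `Q c` holds for all `c` outside finitely many residue classes. -/
def GenS (Q : R → Prop) : Prop :=
  ∃ T : Finset (ResidueField R), ∀ c : R, residue R c ∉ T → Q c

lemma Gen1.mono {Q Q' : (ι → R) → Prop} (h : Gen1 Q) (hQ : ∀ a, Q a → Q' a) : Gen1 Q' := by
  obtain ⟨S, hS, h1⟩ := h
  exact ⟨S, hS, fun a ha => hQ a (h1 a ha)⟩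

lemma Gen1.and {Q Q' : (ι → R) → Prop} (h : Gen1 Q) (h' : Gen1 Q') :
    Gen1 fun a => Q a ∧ Q' a := by
  classical
  obtain ⟨S, hS, h1⟩ := h
  obtain ⟨S', hS', h1'⟩ := h'
  refine ⟨S ∪ S', ?_, fun a ha => ⟨h1 a fun V hV => ha V (Finset.mem_union_left _ hV),
    h1' a fun V hV => ha V (Finset.mem_union_right _ hV)⟩⟩
  intro V hV
  rcases Finset.mem_union.mp hV with h | h
  exacts [hS V h, hS' V h]

lemma Gen1.of_forall {Q : (ι → R) → Prop} (h : ∀ a, Q a) : Gen1 Q :=
  ⟨∅, by simp, fun a _ => h a⟩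

lemma GenS.mono {Q Q' : R → Prop} (h : GenS Q) (hQ : ∀ a, Q a → Q' a) : GenS Q' := by
  obtain ⟨S, h1⟩ := h
  exact ⟨S, fun a ha => hQ a (h1 a ha)⟩

lemma GenS.and {Q Q' : R → Prop} (h : GenS Q) (h' : GenS Q') : GenS fun a => Q a ∧ Q' a := by
  classical
  obtain ⟨S, h1⟩ := h
  obtain ⟨S', h1'⟩ := h'
  exact ⟨S ∪ S', fun a ha => ⟨h1 a fun hV => ha (Finset.mem_union_left _ hV),
    h1' a fun hV => ha (Finset.mem_union_right _ hV)⟩⟩

lemma GenS.of_forall {Q : R → Prop} (h : ∀ a, Q a) : GenS Q := ⟨∅, fun a _ => h a⟩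

lemma Gen1.exists [Infinite (ResidueField R)] [Finite ι] {Q : (ι → R) → Prop} (h : Gen1 Q) :
    ∃ a, Q a := by
  obtain ⟨S, hS, h1⟩ := h
  obtain ⟨a, ha⟩ := exists_avoid (R := R) S hS
  exact ⟨a, h1 a ha⟩

lemma GenS.exists [Infinite (ResidueField R)] {Q : R → Prop} (h : GenS Q) : ∃ a, Q a := by
  classical
  obtain ⟨T, h1⟩ := h
  obtain ⟨t, ht⟩ := Infinite.exists_notMem_finset T
  obtain ⟨c, rfl⟩ := IsLocalRing.residue_surjective t
  exact ⟨c, h1 c ht⟩

/-- a vector outside a submodule with proper reduction -/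
lemma Gen1.notMem [Finite ι] {N : Submodule R (ι → R)} (h : N ≠ ⊤) : Gen1 fun a => a ∉ N := by
  classical
  refine ⟨{redSub N}, ?_, ?_⟩
  · intro V hV htop
    rw [Finset.mem_singleton] at hV
    subst hV
    exact h (eq_top_of_redSub_eq_top htop)
  · intro a ha hmem
    exact ha (redSub N) (by simp) (red_mem_redSub hmem)

/-- a linear form with a unit value takes unit values at general vectors -/
lemma Gen1.isUnit [Finite ι] (g : (ι → R) →ₗ[R] R) (h : ∃ a, IsUnit (g a)) :
    Gen1 fun a => IsUnit (g a) := by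
  have h1 : Submodule.comap g (maximalIdeal R) ≠ ⊤ := by
    intro htop
    obtain ⟨a, ha⟩ := h
    have : a ∈ Submodule.comap g (maximalIdeal R) := by rw [htop]; trivial
    exact (IsLocalRing.mem_maximalIdeal _).mp this ha
  refine (Gen1.notMem h1).mono fun a ha => ?_
  by_contra hcon
  exact ha ((IsLocalRing.mem_maximalIdeal _).mpr hcon)

/-- a nonzero linear map on `k ^ ι` does not vanish at general vectors -/
lemma Gen1.of_residue {V : Type*} [AddCommGroup V] [Module (ResidueField R) V]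
    (g : (ι → ResidueField R) →ₗ[ResidueField R] V) (h : g ≠ 0) : Gen1 fun a : ι → R => g (red a) ≠ 0 := by
  classical
  refine ⟨{LinearMap.ker g}, ?_, ?_⟩
  · intro V hV htop
    rw [Finset.mem_singleton] at hV
    subst hV
    exact h (LinearMap.ker_eq_top.mp htop)
  · intro a ha h0
    exact ha (LinearMap.ker g) (by simp) h0

/-- the scalars outside the zero set of a nonzero polynomial over `k` -/
lemma GenS.of_poly (p : Polynomial (ResidueField R)) (h : p ≠ 0) :
    GenS fun c : R => p.eval (residue R c) ≠ 0 := by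
  classical
  refine ⟨p.roots.toFinset, fun c hc h0 => hc ?_⟩
  rw [Multiset.mem_toFinset, Polynomial.mem_roots h]
  exact h0

end gen

section units

variable {R : Type*} [CommRing R] [IsLocalRing R] {ι : Type*} [Finite ι]

/-- a 4-form with a unit value takes unit values at general vectors -/
lemma gen_form_unit (ω : (ι → R) [⋀^Fin 4]→ₗ[R] R) (h : ∃ a, IsUnit (ω a)) :
    Gen1 fun x => Gen1 fun y => Gen1 fun z => Gen1 fun w => IsUnit (ω ![x, y, z, w]) := by
  have key : ∀ (i : Fin 4) (b : Fin 4 → ι → R), (∃ v, IsUnit (ω (Function.update b i v))) →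
      Gen1 fun v => IsUnit (ω (Function.update b i v)) := fun i b hb =>
    Gen1.isUnit (ω.toMultilinearMap.toLinearMap b i) hb
  obtain ⟨a, ha⟩ := h
  -- the submodules of vectors for which all further values are in the maximal ideal
  let N0 : Submodule R (ι → R) :=
    { carrier := {x | ∀ y z w, ω ![x, y, z, w] ∈ maximalIdeal R}
      zero_mem' := fun y z w => by
        rw [ω.map_coord_zero (i := 0) (by simp)]; exact Ideal.zero_mem _
      add_mem' := fun {x x'} hx hx' y z w => by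
        have h := ω.map_update_add ![0, y, z, w] 0 x x'
        rw [update_zero, update_zero, update_zero] at h
        rw [h]; exact Ideal.add_mem _ (hx y z w) (hx' y z w)
      smul_mem' := fun r x hx y z w => by
        have h := ω.map_update_smul ![0, y, z, w] 0 r x
        rw [update_zero, update_zero] at h
        rw [h]; exact Ideal.mul_mem_left _ _ (hx y z w) }
  have hN0 : N0 ≠ ⊤ := by
    intro htop
    have h1 : a 0 ∈ N0 := by rw [htop]; trivial
    have h2 := h1 (a 1) (a 2) (a 3)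
    have h3 : ![a 0, a 1, a 2, a 3] = a := by funext i; fin_cases i <;> rfl
    rw [h3] at h2
    exact (IsLocalRing.mem_maximalIdeal _).mp h2 ha
  refine (Gen1.notMem hN0).mono fun x hx => ?_
  have hx' : ∃ y z w, IsUnit (ω ![x, y, z, w]) := by
    by_contra hcon
    push Not at hcon
    exact hx fun y z w => (IsLocalRing.mem_maximalIdeal _).mpr (hcon y z w)
  obtain ⟨y0, z0, w0, hu⟩ := hx'
  let N1 : Submodule R (ι → R) :=
    { carrier := {y | ∀ z w, ω ![x, y, z, w] ∈ maximalIdeal R}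
      zero_mem' := fun z w => by
        rw [ω.map_coord_zero (i := 1) (by simp)]; exact Ideal.zero_mem _
      add_mem' := fun {y y'} hy hy' z w => by
        have h := ω.map_update_add ![x, 0, z, w] 1 y y'
        rw [update_one, update_one, update_one] at h
        rw [h]; exact Ideal.add_mem _ (hy z w) (hy' z w)
      smul_mem' := fun r y hy z w => by
        have h := ω.map_update_smul ![x, 0, z, w] 1 r y
        rw [update_one, update_one] at h
        rw [h]; exact Ideal.mul_mem_left _ _ (hy z w) }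
  have hN1 : N1 ≠ ⊤ := by
    intro htop
    have h1 : y0 ∈ N1 := by rw [htop]; trivial
    exact (IsLocalRing.mem_maximalIdeal _).mp (h1 z0 w0) hu
  refine (Gen1.notMem hN1).mono fun y hy => ?_
  have hy' : ∃ z w, IsUnit (ω ![x, y, z, w]) := by
    by_contra hcon
    push Not at hcon
    exact hy fun z w => (IsLocalRing.mem_maximalIdeal _).mpr (hcon z w)
  obtain ⟨z1, w1, hu1⟩ := hy'
  let N2 : Submodule R (ι → R) :=
    { carrier := {z | ∀ w, ω ![x, y, z, w] ∈ maximalIdeal R}
      zero_mem' := fun w => by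
        rw [ω.map_coord_zero (i := 2) (by simp)]; exact Ideal.zero_mem _
      add_mem' := fun {z z'} hz hz' w => by
        have h := ω.map_update_add ![x, y, 0, w] 2 z z'
        rw [update_two, update_two, update_two] at h
        rw [h]; exact Ideal.add_mem _ (hz w) (hz' w)
      smul_mem' := fun r z hz w => by
        have h := ω.map_update_smul ![x, y, 0, w] 2 r z
        rw [update_two, update_two] at h
        rw [h]; exact Ideal.mul_mem_left _ _ (hz w) }
  have hN2 : N2 ≠ ⊤ := by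
    intro htop
    have h1 : z1 ∈ N2 := by rw [htop]; trivial
    exact (IsLocalRing.mem_maximalIdeal _).mp (h1 w1) hu1
  refine (Gen1.notMem hN2).mono fun z hz => ?_
  have hz' : ∃ w, IsUnit (ω ![x, y, z, w]) := by
    by_contra hcon
    push Not at hcon
    exact hz fun w => (IsLocalRing.mem_maximalIdeal _).mpr (hcon w)
  obtain ⟨w2, hu2⟩ := hz'
  have h4 := key 3 ![x, y, z, 0] ⟨w2, by rw [update_three]; exact hu2⟩
  exact h4.mono fun w hw => by rwa [update_three] at hw

end units

section descent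

universe u

variable {R : Type u} [CommRing R] [IsLocalRing R] [IsNoetherianRing R]
  [Infinite (ResidueField R)]
variable {ι : Type*} [Fintype ι]

/-- general combinations are regular, in the form `Gen1` -/
lemma gen_regular (f : (ι → R) →ₗ[R] R) (hI : ∀ v, f v ∈ maximalIdeal R) {r : ℕ}
    (hgr : ∃ rs : List R, rs.length = r ∧ (∀ y ∈ rs, y ∈ LinearMap.range f) ∧ IsRegular R rs)
    (α : List R) (hα : α.length < r) (hαI : ∀ y ∈ α, y ∈ LinearMap.range f)
    (hαreg : IsWeaklyRegular R α) :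
    Gen1 fun a : ι → R => IsWeaklyRegular R (α ++ [f a]) := by
  classical
  have hI' : LinearMap.range f ≤ maximalIdeal R := by rintro _ ⟨v, rfl⟩; exact hI v
  obtain ⟨y, hy, hy2⟩ := exists_regular_quot hI' α R r hgr hα hαI hαreg
  rw [range_eq_span] at hy
  obtain ⟨S, hS, hS2⟩ := gp1 (R ⧸ (Ideal.ofList α • ⊤ : Submodule R R))
    (fun j => f (Pi.single j 1)) ⟨y, hy, hy2⟩
  refine ⟨S, hS, fun a ha => ?_⟩
  change IsWeaklyRegular R (α ++ [f a])
  rw [isWeaklyRegular_concat_iff, apply_eq_sum]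
  exact ⟨hαreg, isSMulRegular_quot_ofList_iff.mp (hS2 a ha)⟩

omit [Infinite (ResidueField R)] in
lemma genS_regular (α : List R) (x w : R) (h : IsWeaklyRegular R (α ++ [x])) :
    GenS fun c : R => IsWeaklyRegular R (α ++ [x + c * w]) := by
  obtain ⟨h1, h2⟩ := isWeaklyRegular_concat_iff.mp h
  obtain ⟨T, hT⟩ := gp2 (R ⧸ (Ideal.ofList α • ⊤ : Submodule R R)) x w
    (isSMulRegular_quot_ofList_iff.mpr h2)
  exact ⟨T, fun c hc => isWeaklyRegular_concat_iff.mpr
    ⟨h1, isSMulRegular_quot_ofList_iff.mp (hT c hc)⟩⟩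

/-- the ideal has grade at least four: general quadruples are regular -/
lemma gen_quad (f : (ι → R) →ₗ[R] R) (hI : ∀ v, f v ∈ maximalIdeal R)
    (hgr : ∃ rs : List R, rs.length = 4 ∧ (∀ y ∈ rs, y ∈ LinearMap.range f) ∧ IsRegular R rs) :
    Gen1 fun x => IsWeaklyRegular R [f x] ∧ Gen1 fun y => IsWeaklyRegular R [f x, f y] ∧
      Gen1 fun z => IsWeaklyRegular R [f x, f y, f z] ∧
        Gen1 fun w => IsWeaklyRegular R [f x, f y, f z, f w] := by
  refine (gen_regular f hI hgr [] (by simp) (by simp) (IsWeaklyRegular.nil R R)).mono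
    fun x hx => ⟨hx, ?_⟩
  refine (gen_regular f hI hgr [f x] (by simp) ?_ hx).mono fun y hy => ⟨hy, ?_⟩
  · intro a ha; simp only [List.mem_singleton] at ha; subst ha; exact ⟨x, rfl⟩
  refine (gen_regular f hI hgr [f x, f y] (by simp) ?_ hy).mono fun z hz => ⟨hz, ?_⟩
  · intro a ha
    simp only [List.mem_cons, List.not_mem_nil, or_false] at ha
    rcases ha with rfl | rfl
    exacts [⟨x, rfl⟩, ⟨y, rfl⟩]
  refine (gen_regular f hI hgr [f x, f y, f z] (by simp) ?_ hz).mono fun w hw => hw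
  · intro a ha
    simp only [List.mem_cons, List.not_mem_nil, or_false] at ha
    rcases ha with rfl | rfl | rfl
    exacts [⟨x, rfl⟩, ⟨y, rfl⟩, ⟨z, rfl⟩]

/-- **Abstract descent**, flexible form: the next state is only required to exist. -/
theorem licci_of_descent' {𝒮 : Type*} (f : 𝒮 → (ι → R) →ₗ[R] R)
    (ν : 𝒮 → (ι → R) [⋀^Fin 4]→ₗ[R] R) (hcyc : ∀ s, Cyc (f s) (ν s))
    (μ : 𝒮 → ℕ)
    (hdesc : ∀ s, (∀ v, f s v ∈ maximalIdeal R) → (∃ a, IsUnit (ν s a)) ∨
      Gen1 fun x => Gen1 fun y => Gen1 fun z => GenS fun c => ∃ s',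
        f s' = stepf (f s) (ν s) x y z c ∧ (∀ w, ν s' ![x, y, z, w] = ν s ![x, y, z, w]) ∧
          μ s' < μ s)
    (s : 𝒮) (hI : ∀ v, f s v ∈ maximalIdeal R)
    (hgood : ∃ a0 a1 a2 a3 : ι → R, IsWeaklyRegular R [f s a0, f s a1, f s a2, f s a3] ∧
      Good (f s) (ν s) a0 a1 a2 a3) :
    IsLicci (LinearMap.range (f s)) := by
  induction hn : μ s using Nat.strong_induction_on generalizing s with
  | _ n ih =>
  subst hn
  obtain ⟨a0, a1, a2, a3, ha, hg⟩ := hgood
  have hgr : ∃ rs : List R, rs.length = 4 ∧ (∀ y ∈ rs, y ∈ LinearMap.range (f s)) ∧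
      IsRegular R rs := by
    refine ⟨[f s a0, f s a1, f s a2, f s a3], rfl, ?_,
      isRegular_four (hI a0) (hI a1) (hI a2) (hI a3) ha⟩
    intro x hx
    simp only [List.mem_cons, List.not_mem_nil, or_false] at hx
    rcases hx with rfl | rfl | rfl | rfl <;> exact ⟨_, rfl⟩
  have hq := gen_quad (f s) hI hgr
  rcases hdesc s hI with hu | hd
  · -- a unit value of the form: the ideal is a complete intersection
    obtain ⟨x, ⟨_, hx⟩, hx'⟩ := (hq.and (gen_form_unit (ν s) hu)).exists
    obtain ⟨y, ⟨_, hy⟩, hy'⟩ := (hx.and hx').exists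
    obtain ⟨z, ⟨_, hz⟩, hz'⟩ := (hy.and hy').exists
    obtain ⟨w, hw, hw'⟩ := (hz.and hz').exists
    have hG := hg.transfer (f s) hI (hcyc s) ha hw
    have hreg := isRegular_four (hI x) (hI y) (hI z) (hI w) hw
    refine ⟨_, Relation.ReflTransGen.refl, _, hreg, ?_⟩
    apply le_antisymm
    · rintro _ ⟨v, rfl⟩
      have h3 := mul_omega_mem (hcyc s) x y z w v
      obtain ⟨u, hu⟩ := hw'
      rw [← hu] at h3
      have h4 := Ideal.mul_mem_right ((↑u⁻¹ : R)) _ h3
      rwa [mul_assoc, Units.mul_inv, mul_one] at h4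
    · rw [Ideal.ofList, Ideal.span_le]
      intro x hx
      simp only [List.mem_cons, List.not_mem_nil, or_false, Set.mem_ofPred_eq] at hx
      rcases hx with rfl | rfl | rfl | rfl <;> exact ⟨_, rfl⟩
  · -- a double link
    obtain ⟨x, ⟨_, hx⟩, hx'⟩ := (hq.and hd).exists
    obtain ⟨y, ⟨_, hy⟩, hy'⟩ := (hx.and hx').exists
    obtain ⟨z, ⟨_, hz⟩, hz'⟩ := (hy.and hy').exists
    obtain ⟨w, hw⟩ := hz.exists
    have hG := hg.transfer (f s) hI (hcyc s) ha hw
    obtain ⟨c, hc1, s', hmv, hν, hc2⟩ := ((genS_regular [f s x, f s y, f s z] (f s w)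
      (ν s ![x, y, z, w]) hw).and hz').exists
    by_cases hm : ∀ v, f s' v ∈ maximalIdeal R
    · have hstep := hG.step (c := c) (ω' := ν s') (hcyc s) hw hc1 (hν w)
      rw [← hmv] at hstep
      have hreg' : IsWeaklyRegular R [f s' x, f s' y, f s' z, f s' w] := by
        rw [hmv]
        obtain ⟨e0, e1, e2⟩ := stepf_self (f s) (ν s) x y z c
        rw [e0, e1, e2, stepf_apply]
        exact hc1
      have hL := ih (μ s') hc2 s' hm ⟨x, y, z, w, hreg', hstep⟩ rfl
      rw [hmv] at hL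
      refine licci_of_step (ω' := ν s') (hcyc s) hI hw hc1 hG ?_ ?_ (hν w) hL
      · intro v; rw [← hmv]; exact hm v
      · rw [← hmv]; exact hcyc _
    · push Not at hm
      obtain ⟨v, hv⟩ := hm
      refine licci_of_unit (hcyc s) hI hw hc1 hG ⟨v, ?_⟩
      rw [← hmv]
      by_contra hcon
      exact hv ((IsLocalRing.mem_maximalIdeal _).mpr hcon)

/-- **Abstract descent.** -/
theorem licci_of_descent {𝒮 : Type*} (f : 𝒮 → (ι → R) →ₗ[R] R)
    (ν : 𝒮 → (ι → R) [⋀^Fin 4]→ₗ[R] R) (hcyc : ∀ s, Cyc (f s) (ν s))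
    (mv : 𝒮 → (ι → R) → (ι → R) → (ι → R) → R → 𝒮)
    (hmv : ∀ s x y z c, f (mv s x y z c) = stepf (f s) (ν s) x y z c)
    (hν : ∀ s x y z c w, ν (mv s x y z c) ![x, y, z, w] = ν s ![x, y, z, w])
    (μ : 𝒮 → ℕ)
    (hdesc : ∀ s, (∀ v, f s v ∈ maximalIdeal R) → (∃ a, IsUnit (ν s a)) ∨
      Gen1 fun x => Gen1 fun y => Gen1 fun z => GenS fun c => μ (mv s x y z c) < μ s)
    (s : 𝒮) (hI : ∀ v, f s v ∈ maximalIdeal R)
    (hgood : ∃ a0 a1 a2 a3 : ι → R, IsWeaklyRegular R [f s a0, f s a1, f s a2, f s a3] ∧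
      Good (f s) (ν s) a0 a1 a2 a3) :
    IsLicci (LinearMap.range (f s)) := by
  refine licci_of_descent' f ν hcyc μ (fun s hs => ?_) s hI hgood
  rcases hdesc s hs with h | h
  · exact Or.inl h
  · exact Or.inr (h.mono fun x hx => hx.mono fun y hy => hy.mono fun z hz => hz.mono fun c hc =>
      ⟨mv s x y z c, hmv s x y z c, hν s x y z c, hc⟩)

end descent

end Pool.Agent.Licci
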