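import Pool.Agent.Work.MP_a98e4e_ag.Descent

/-!
MP_a98e4e_ag (licci, codimension 4) (helper43): the abstract descent, final form.
-/

set_option autoImplicit false

noncomputable section

namespace Pool.Agent.Licci

open IsLocalRing RingTheory.Sequence LicciCodimFour

universe u

variable {R : Type u} [CommRing R] [IsLocalRing R] [IsNoetherianRing R]
  [Infinite (ResidueField R)]
variable {ι : Type*} [Fintype ι]

/-- **Abstract descent**; the ideal of a state may be assumed to have grade four. -/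
theorem licci_of_descent2 {𝒮 : Type*} (f : 𝒮 → (ι → R) →ₗ[R] R)
    (ν : 𝒮 → (ι → R) [⋀^Fin 4]→ₗ[R] R) (hcyc : ∀ s, Cyc (f s) (ν s))
    (μ : 𝒮 → ℕ)
    (hdesc : ∀ s, (∀ v, f s v ∈ maximalIdeal R) →
      (∃ rs : List R, rs.length = 4 ∧ (∀ y ∈ rs, y ∈ LinearMap.range (f s)) ∧ IsRegular R rs) →
      Gen1 fun x => Gen1 fun y => Gen1 fun z => GenS fun c => ∃ s',
        f s' = stepf (f s) (ν s) x y z c ∧ (∀ w, ν s' ![x, y, z, w] = ν s ![x, y, z, w]) ∧
          μ s' < μ s)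
    (s : 𝒮) (hI : ∀ v, f s v ∈ maximalIdeal R)
    (hgood : ∃ a0 a1 a2 a3 : ι → R, IsWeaklyRegular R [f s a0, f s a1, f s a2, f s a3] ∧
      Good (f s) (ν s) a0 a1 a2 a3) :
    IsLicci (LinearMap.range (f s)) := by
  induction hn : μ s using Nat.strong_induction_on generalizing s with
  | _ n ih =>
  subst hn
  obtain ⟨a0, a1, a2, a3, ha, hg⟩ := hgood
  have hgr : ∃ rs : List R, rs.length = 4 ∧ (∀ y ∈ rs, y ∈ LinearMap.range (f s)) ∧
      IsRegular R rs := by
    refine ⟨[f s a0, f s a1, f s a2, f s a3], rfl, ?_,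
      isRegular_four (hI a0) (hI a1) (hI a2) (hI a3) ha⟩
    intro x hx
    simp only [List.mem_cons, List.not_mem_nil, or_false] at hx
    rcases hx with rfl | rfl | rfl | rfl <;> exact ⟨_, rfl⟩
  have hq := gen_quad (f s) hI hgr
  have hd := hdesc s hI hgr
  obtain ⟨x, ⟨_, hx⟩, hx'⟩ := (hq.and hd).exists
  obtain ⟨y, ⟨_, hy⟩, hy'⟩ := (hx.and hx').exists
  obtain ⟨z, ⟨_, hz⟩, hz'⟩ := (hy.and hy').exists
  obtain ⟨w, hw⟩ := hz.exists
  have hG := hg.transfer (f s) hI (hcyc s) ha hw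
  obtain ⟨c, hc1, s', hmv, hν, hc2⟩ := ((genS_regular [f s x, f s y, f s z] (f s w)
    (ν s ![x, y, z, w]) hw).and hz').exists
  by_cases hm : ∀ v, f s' v ∈ maximalIdeal R
  · have hstep := hG.step (c := c) (ω' := ν s') (hcyc s) hw hc1 (hν w)
    rw [← hmv] at hstep
    have hreg' : IsWeaklyRegular R [f s' x, f s' y, f s' z, f s' w] := by
      rw [hmv]
      obtain ⟨e0, e1, e2⟩ := stepf_self (f s) (ν s) x y z c
      rw [e0, e1, e2, stepf_apply]
      exact hc1
    have hL := ih (μ s') hc2 s' hm ⟨x, y, z, w, hreg', hstep⟩ rfl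
    rw [hmv] at hL
    refine licci_of_step (ω' := ν s') (hcyc s) hI hw hc1 hG ?_ ?_ (hν w) hL
    · intro v; rw [← hmv]; exact hm v
    · rw [← hmv]; exact hcyc _
  · push Not at hm
    obtain ⟨v, hv⟩ := hm
    refine licci_of_unit (hcyc s) hI hw hc1 hG ⟨v, ?_⟩
    rw [← hmv]
    by_contra hcon
    exact hv ((IsLocalRing.mem_maximalIdeal _).mpr hcon)

end Pool.Agent.Licci
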