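import Pool.Agent.Work.MP_a98e4e_ag.GenPos
import Pool.Agent.Work.MP_a98e4e_ag.Regular

/-!
# Height and grade in a regular local ring
-/

namespace LicciCodimFour

open IsLocalRing RingTheory.Sequence
open scoped Pointwise

universe u v

/-- The length of a regular sequence on `M` is at most the coheight of every associated prime. -/
theorem length_le_coheight {R : Type u} [CommRing R] [IsLocalRing R] [IsNoetherianRing R]
    (rs : List R) : ∀ (M : Type v) [AddCommGroup M] [Module R M] [Module.Finite R M],
    (∀ r ∈ rs, r ∈ maximalIdeal R) → IsWeaklyRegular M rs →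
    ∀ (P : Ideal R) (hP : IsAssociatedPrime P M),
      (rs.length : ℕ∞) ≤ Order.coheight (⟨P, hP.isPrime⟩ : PrimeSpectrum R) := by
  induction rs with
  | nil =>
    intro M _ _ _ _ _ P hP
    simp
  | cons x rs ih =>
    intro M _ _ _ hm hreg P hP
    rw [isWeaklyRegular_cons_iff] at hreg
    obtain ⟨hPprime, m0, hm0⟩ := isAssociatedPrime_iff.1 hP
    have hx : x ∈ maximalIdeal R := hm x (by simp)
    have hm0ne : m0 ≠ 0 := by
      rintro rfl
      apply hPprime.ne_top
      rw [hm0, Ideal.eq_top_iff_one, Submodule.mem_colon_singleton]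
      simp
    -- the submodule killed by `P`
    let N : Submodule R M :=
      { carrier := {n | ∀ p ∈ P, p • n = 0}
        add_mem' := fun {a b} ha hb p hp => by rw [smul_add, ha p hp, hb p hp, add_zero]
        zero_mem' := fun p _ => smul_zero p
        smul_mem' := fun c n hn p hp => by rw [smul_comm, hn p hp, smul_zero] }
    obtain ⟨n, hnN, hnx⟩ : ∃ n ∈ N, (Submodule.Quotient.mk n : QuotSMulTop x M) ≠ 0 := by
      by_contra hcon
      push Not at hcon
      have h1 : N ≤ ⊥ := by
        refine Submodule.le_of_le_smul_of_le_jacobson_bot (I := Ideal.span {x})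
          (IsNoetherian.noetherian N) (((Ideal.span_singleton_le_iff_mem _).2 hx).trans
            (IsLocalRing.maximalIdeal_le_jacobson ⊥)) ?_
        rw [bot_sup_eq]
        intro n hn
        have h2 := hcon n hn
        rw [Submodule.Quotient.mk_eq_zero, Submodule.mem_smul_pointwise_iff_exists] at h2
        obtain ⟨y, _, rfl⟩ := h2
        refine Submodule.smul_mem_smul (Ideal.mem_span_singleton_self x) ?_
        intro p hp
        apply hreg.1
        show x • p • y = x • (0 : M)
        rw [smul_comm, smul_zero]
        exact hn p hp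
      apply hm0ne
      have h3 : m0 ∈ N := by
        intro p hp
        rw [hm0, Submodule.mem_colon_singleton] at hp
        simpa using hp
      simpa using h1 h3
    obtain ⟨Q, hQ, hQle⟩ := exists_le_isAssociatedPrime_of_isNoetherianRing R
      (Submodule.Quotient.mk n : QuotSMulTop x M) hnx
    have hPQ : P ≤ Q := by
      intro p hp
      apply hQle
      rw [Submodule.mem_colon_singleton, ← Submodule.Quotient.mk_smul, hnN p hp]
      simp
    have hxQ : x ∈ Q := by
      apply hQle
      rw [Submodule.mem_colon_singleton, ← Submodule.Quotient.mk_smul, Submodule.mem_bot,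
        Submodule.Quotient.mk_eq_zero, Submodule.mem_smul_pointwise_iff_exists]
      exact ⟨n, trivial, rfl⟩
    have hxP : x ∉ P := by
      intro h
      rw [hm0, Submodule.mem_colon_singleton, Submodule.mem_bot] at h
      apply hm0ne
      apply hreg.1
      show x • m0 = x • (0 : M)
      rw [h, smul_zero]
    have hlt : (⟨P, hP.isPrime⟩ : PrimeSpectrum R) < ⟨Q, hQ.isPrime⟩ := by
      rw [← PrimeSpectrum.asIdeal_lt_asIdeal]
      exact lt_of_le_of_ne hPQ (fun h => hxP (by
        have h' : P = Q := h
        rw [h']; exact hxQ))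
    have h1 := ih (QuotSMulTop x M) (fun r hr => hm r (by simp [hr])) hreg.2 Q hQ
    have h2 := Order.coheight_add_one_le hlt
    rw [List.length_cons]
    push_cast
    exact le_trans (by gcongr) h2

/-- A regular sequence in the maximal ideal of a Noetherian local ring extends up to any length
realised by another one. -/
theorem exists_extension {R : Type u} [CommRing R] [IsLocalRing R] [IsNoetherianRing R] (d : ℕ)
    (hd : ∃ rs : List R, rs.length = d ∧ (∀ y ∈ rs, y ∈ maximalIdeal R) ∧ IsRegular R rs)
    (k : ℕ) : ∀ (α : List R), (∀ y ∈ α, y ∈ maximalIdeal R) → IsWeaklyRegular R α →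
      α.length + k = d → ∃ β : List R, β.length = k ∧ (∀ y ∈ β, y ∈ maximalIdeal R) ∧
        IsWeaklyRegular R (α ++ β) := by
  induction k with
  | zero =>
    intro α _ hα _
    exact ⟨[], rfl, by simp, by simpa using hα⟩
  | succ k ih =>
    intro α hαm hα hlen
    obtain ⟨y, hy, hyreg⟩ := Pool.Agent.Licci.exists_regular_quot (le_refl (maximalIdeal R)) α R
      d hd (by omega) hαm hα
    have h1 : IsWeaklyRegular R (α ++ [y]) := by
      rw [isWeaklyRegular_append_iff, isWeaklyRegular_singleton_iff]
      exact ⟨hα, hyreg⟩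
    obtain ⟨β, hβ1, hβ2, hβ3⟩ := ih (α ++ [y]) (by
      intro z hz
      rw [List.mem_append, List.mem_singleton] at hz
      rcases hz with hz | rfl
      · exact hαm z hz
      · exact hy) h1 (by simp; omega)
    refine ⟨y :: β, by simp [hβ1], ?_, ?_⟩
    · intro z hz
      rw [List.mem_cons] at hz
      rcases hz with rfl | hz
      · exact hy
      · exact hβ2 z hz
    · rwa [List.append_assoc] at hβ3

/-- In a regular local ring an ideal of height at least `c` contains a regular sequence of length
`c`. -/
theorem exists_regular_of_le_height {R : Type u} [CommRing R] [IsRegularLocalRing R]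
    {I : Ideal R} (hI : I ≤ maximalIdeal R) {c : ℕ} (hc : (c : ℕ∞) ≤ I.height) :
    ∃ rs : List R, rs.length = c ∧ IsRegular R rs ∧ ∀ r ∈ rs, r ∈ I := by
  obtain ⟨gs, hglen, hgen, hgreg⟩ := exists_regular_generators R
  have hgm : ∀ y ∈ gs, y ∈ maximalIdeal R := fun y hy => by
    rw [← hgen]; exact Ideal.subset_span hy
  have key : ∀ i ≤ c, ∃ α : List R, α.length = i ∧ (∀ r ∈ α, r ∈ I) ∧ IsWeaklyRegular R α := by
    intro i
    induction i with
    | zero => exact fun _ => ⟨[], rfl, by simp, IsWeaklyRegular.nil R R⟩
    | succ i ih =>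
      intro hi
      obtain ⟨α, hαlen, hαI, hα⟩ := ih (by omega)
      have hαm : ∀ y ∈ α, y ∈ maximalIdeal R := fun y hy => hI (hαI y hy)
      -- the length of `α` is at most the dimension
      by_contra hcon
      have hzd : ∀ y ∈ I, ¬ IsSMulRegular (R ⧸ (Ideal.ofList α • ⊤ : Submodule R R)) y := by
        intro y hy hyreg
        apply hcon
        refine ⟨α ++ [y], by simp [hαlen], ?_, ?_⟩
        · intro r hr
          rw [List.mem_append, List.mem_singleton] at hr
          rcases hr with hr | rfl
          · exact hαI r hr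
          · exact hy
        · rw [isWeaklyRegular_append_iff, isWeaklyRegular_singleton_iff]
          exact ⟨hα, hyreg⟩
      have hfin : (associatedPrimes R (R ⧸ (Ideal.ofList α • ⊤ : Submodule R R))).Finite :=
        associatedPrimes.finite R _
      have hsub : (I : Set R) ⊆ ⋃ i ∈ (↑hfin.toFinset : Set (Ideal R)),
          ((id i : Ideal R) : Set R) := by
        intro y hy
        have h4 : y ∈ ⋃ p ∈ associatedPrimes R (R ⧸ (Ideal.ofList α • ⊤ : Submodule R R)),
            (p : Set R) := by
          rw [biUnion_associatedPrimes_eq_compl_regular]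
          exact hzd y hy
        obtain ⟨p, hp, hyp⟩ := Set.mem_iUnion₂.1 h4
        simp only [Set.mem_iUnion]
        exact ⟨p, Finset.mem_coe.2 (hfin.mem_toFinset.2 hp), hyp⟩
      obtain ⟨P, hP, hIP⟩ := (Ideal.subset_union_prime (f := id) ⊥ ⊥ (fun i hi _ _ => by
        have : i ∈ associatedPrimes R (R ⧸ (Ideal.ofList α • ⊤ : Submodule R R)) :=
          hfin.mem_toFinset.1 hi
        exact this.isPrime)).1 hsub
      simp only [id] at hIP
      have hP' : IsAssociatedPrime P (R ⧸ (Ideal.ofList α • ⊤ : Submodule R R)) :=
        hfin.mem_toFinset.1 hP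
      have hPprime := hP'.isPrime
      -- heights
      have hPheight : (c : ℕ∞) ≤ P.height := hc.trans (Ideal.height_mono hIP)
      have h5 : (Order.height (⟨P, hPprime⟩ : PrimeSpectrum R) +
          Order.coheight (⟨P, hPprime⟩ : PrimeSpectrum R) : WithBot ℕ∞) ≤ ringKrullDim R := by
        rw [ringKrullDim, Order.krullDim_eq_iSup_height_add_coheight_of_nonempty]
        have := le_iSup (fun a : PrimeSpectrum R => Order.height a + Order.coheight a)
          ⟨P, hPprime⟩
        exact_mod_cast this
      rw [← PrimeSpectrum.height_eq_orderHeight] at h5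
      rw [← hglen] at h5
      have h6 : P.height + Order.coheight (⟨P, hPprime⟩ : PrimeSpectrum R) ≤ (gs.length : ℕ∞) := by
        exact_mod_cast h5
      have h7 : (c : ℕ∞) ≤ (gs.length : ℕ∞) :=
        (hPheight.trans (le_self_add)).trans h6
      have h8 : c ≤ gs.length := by exact_mod_cast h7
      obtain ⟨β, hβlen, hβm, hβ⟩ := exists_extension gs.length ⟨gs, rfl, hgm, hgreg⟩
        (gs.length - i) α hαm hα (by omega)
      rw [isWeaklyRegular_append_iff] at hβ
      have h9 := length_le_coheight β (R ⧸ (Ideal.ofList α • ⊤ : Submodule R R)) hβm hβ.2 P hP'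
      have h10 : (c : ℕ∞) + (gs.length - i : ℕ) ≤ (gs.length : ℕ∞) := by
        refine le_trans ?_ h6
        rw [← hβlen]
        exact add_le_add hPheight h9
      have h11 : c + (gs.length - i) ≤ gs.length := by exact_mod_cast h10
      omega
  obtain ⟨α, h1, h2, h3⟩ := key c le_rfl
  exact ⟨α, h1, (IsLocalRing.isRegular_iff_isWeaklyRegular_of_subset_maximalIdeal
    (fun r hr => hI (h2 r hr))).2 h3, h2⟩

end LicciCodimFour
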