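import Pool.Agent.Work.MP_a98e4e_ag.Reduce2
import Pool.Agent.Work.MP_a98e4e_ag.Grade

/-!
# The codimension four Dynkin cases, from `MainStatement2 R 8`
-/

namespace LicciCodimFour

open IsLocalRing RingTheory.Sequence

universe u

variable {R : Type u} [CommRing R]

/-- `T_{p,q,r}` is a Dynkin diagram of finite type if and only if `1/p + 1/q + 1/r > 1`. -/
def IsDynkinT (p q r : ℕ) : Prop := (1 : ℚ) < 1 / p + 1 / q + 1 / r

/-- `I` is a perfect ideal of codimension `c`, deviation `d` and type `t`: it has height `c` and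
`R ⧸ I` has a minimal free resolution `0 → R ^ t → ⋯ → R ^ (c + d) → R` of length `c`. -/
def IsPerfectOfInvariants [IsLocalRing R] (I : Ideal R) (c d t : ℕ) : Prop :=
  I.height = c ∧ ∃ b : ℕ → ℕ, b 1 = c + d ∧ b c = t ∧ (∀ i, c < i → b i = 0) ∧
    Nonempty (MinimalFreeResolution I b)

theorem IsPerfectOfInvariants.isPerfectWith [IsRegularLocalRing R] {I : Ideal R} {c d t : ℕ}
    (h : IsPerfectOfInvariants I c d t) : IsPerfectWith I c d t := by
  obtain ⟨hh, b, h1, h2, h3, ⟨F⟩⟩ := h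
  have hIm : I ≤ maximalIdeal R := by
    intro x hx
    have hx' : x ∈ LinearMap.range F.aug := by rw [F.range_aug]; exact hx
    obtain ⟨y, rfl⟩ := hx'
    exact F.minimal_aug y
  exact ⟨exists_regular_of_le_height hIm hh.ge, b, h1, h2, h3, ⟨F⟩⟩

/-- The Dynkin condition in codimension four. -/
theorem dynkin_four {d t : ℕ} (hd : 1 ≤ d) (ht : 1 ≤ t) (h : IsDynkinT (4 - 1) (d + 1) (t + 1)) :
    (t = 1 ∧ 4 + d ≤ 8) ∨ (d = 1 ∧ 4 + t ≤ 8) := by
  unfold IsDynkinT at h
  have hd0 : (0 : ℚ) < (d : ℚ) + 1 := by positivity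
  have ht0 : (0 : ℚ) < (t : ℚ) + 1 := by positivity
  have hd1 : (1 : ℚ) ≤ d := by exact_mod_cast hd
  have ht1 : (1 : ℚ) ≤ t := by exact_mod_cast ht
  have h2 : (2 : ℚ) * ((d : ℚ) + 1) * ((t : ℚ) + 1) < 3 * ((d : ℚ) + 1 + (t + 1)) := by
    have e : (1 : ℚ) / ((4 - 1 : ℕ) : ℚ) = 1 / 3 := by norm_num
    rw [e] at h
    push_cast at h
    have h3 : (2 : ℚ) / 3 < 1 / ((d : ℚ) + 1) + 1 / ((t : ℚ) + 1) := by linarith
    rw [div_add_div _ _ hd0.ne' ht0.ne', div_lt_div_iff₀ (by norm_num) (by positivity)] at h3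
    linarith
  have h4 : 2 * (d + 1) * (t + 1) < 3 * (d + 1 + (t + 1)) := by exact_mod_cast h2
  by_cases ht2 : t = 1
  · subst ht2
    left
    omega
  · have ht3 : 2 ≤ t := by omega
    right
    have hd3 : d = 1 := by
      by_contra hne
      have hd4 : 2 ≤ d := by omega
      nlinarith
    subst hd3
    omega

/-- All Dynkin cases in codimension four, over regular local rings, from `MainStatement2 R 8`. -/
theorem codim_four [IsRegularLocalRing R] [Infinite (ResidueField R)]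
    (main : MainStatement2 R 8) (I : Ideal R) (d t : ℕ) (hd : 1 ≤ d) (ht : 1 ≤ t)
    (hdyn : IsDynkinT (4 - 1) (d + 1) (t + 1)) (hI : IsPerfectOfInvariants I 4 d t) :
    IsLicci I :=
  reduce2 main I d t hI.isPerfectWith (dynkin_four hd ht hdyn)

end LicciCodimFour
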