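import Pool.Agent.Work.MP_a98e4e_ag.Bridge
import Pool.Agent.Work.MP_a98e4e_ag.Defs

/-!
# Auxiliary lemmas for the reduction of the codimension four Dynkin cases
-/

namespace LicciCodimFour

open IsLocalRing RingTheory.Sequence

universe u

variable {R : Type u} [CommRing R]

/-- General position: a generating system of an ideal of grade at least four may be chosen
such that the first four elements are a regular sequence. -/
def SplitStatement (R : Type u) [CommRing R] [IsLocalRing R] : Prop :=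
  ∀ (e : ℕ) (f : Fin (4 + e) → R), (∀ i, f i ∈ maximalIdeal R) →
    (∃ rs : List R, rs.length = 4 ∧ IsRegular R rs ∧ ∀ r ∈ rs, r ∈ Ideal.span (Set.range f)) →
    ∃ (a : Fin 4 → R) (v : Fin e → R), IsWeaklyRegular R (list4 a) ∧
      Ideal.span (Set.range f) = al a ⊔ Ideal.span (Set.range v)

theorem ofList_list4 (a : Fin 4 → R) : Ideal.ofList (list4 a) = al a := by
  rw [al, Ideal.ofList]
  congr 1
  ext x
  simp only [list4, List.mem_cons, List.not_mem_nil, or_false, Set.mem_ofPred_eq, Set.mem_range]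
  constructor
  · rintro (h | h | h | h)
    exacts [⟨0, h.symm⟩, ⟨1, h.symm⟩, ⟨2, h.symm⟩, ⟨3, h.symm⟩]
  · rintro ⟨i, rfl⟩
    fin_cases i <;> simp

theorem mem_colon_iff {I J : Ideal R} {r : R} :
    r ∈ I.colon (J : Set R) ↔ ∀ x ∈ J, r * x ∈ I := by
  rw [Submodule.mem_colon]
  rfl

/-- `α : (α + (w)) = α : (w)`. -/
theorem colon_sup_self (A J : Ideal R) :
    A.colon ((A ⊔ J : Ideal R) : Set R) = A.colon (J : Set R) := by
  ext r
  rw [mem_colon_iff, mem_colon_iff]
  constructor
  · intro h x hx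
    exact h x (Ideal.mem_sup_right hx)
  · intro h x hx
    obtain ⟨y, hy, z, hz, rfl⟩ := Submodule.mem_sup.1 hx
    rw [mul_add]
    exact A.add_mem (A.mul_mem_left _ hy) (h z hz)

/-- Extending a family of generators by zeros. -/
theorem exists_fin_four {e : ℕ} (he : e ≤ 4) (v : Fin e → R) :
    ∃ v' : Fin 4 → R, Ideal.span (Set.range v') = Ideal.span (Set.range v) := by
  refine ⟨fun i => if h : (i : ℕ) < e then v ⟨i, h⟩ else 0, le_antisymm ?_ ?_⟩
  · rw [Ideal.span_le]
    rintro _ ⟨i, rfl⟩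
    dsimp only
    split_ifs with h
    · exact Ideal.subset_span ⟨_, rfl⟩
    · exact Ideal.zero_mem _
  · rw [Ideal.span_le]
    rintro _ ⟨i, rfl⟩
    have : v i = (fun i : Fin 4 => if h : (i : ℕ) < e then v ⟨i, h⟩ else 0)
        ⟨i, lt_of_lt_of_le i.2 he⟩ := by
      simp
    rw [this]
    exact Ideal.subset_span ⟨_, rfl⟩

theorem range_pi {b : ℕ} (f : (Fin b → R) →ₗ[R] R) :
    LinearMap.range f = Ideal.span (Set.range fun i => f (Pi.single i 1)) := by
  apply le_antisymm
  · rintro _ ⟨x, rfl⟩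
    have : x = ∑ i, x i • (Pi.single i 1 : Fin b → R) := by
      ext j
      simp [Finset.sum_apply, Pi.single_apply]
    rw [this, map_sum]
    refine Submodule.sum_mem _ fun i _ => ?_
    rw [map_smul]
    exact Submodule.smul_mem _ _ (Ideal.subset_span ⟨i, rfl⟩)
  · rw [Ideal.span_le]
    rintro _ ⟨i, rfl⟩
    exact ⟨_, rfl⟩

theorem IsLicci.of_link {I J : Ideal R} (h : DirectlyLinked I J) (hJ : IsLicci J) : IsLicci I := by
  obtain ⟨K, hK, hc⟩ := hJ
  exact ⟨K, Relation.ReflTransGen.head h hK, hc⟩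

end LicciCodimFour
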