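import Pool.Agent.Work.MP_a98e4e_ag.GenPos
import Pool.Agent.Work.MP_a98e4e_ag.Reduce

/-!
# General position: `SplitStatement` holds over an infinite residue field
-/

namespace LicciCodimFour

open IsLocalRing RingTheory.Sequence

universe u

variable {R : Type u} [CommRing R]

theorem span_update {n : ℕ} (F : Fin n → R) (i : Fin n) (a : Fin n → R) (ha : IsUnit (a i)) :
    Ideal.span (Set.range (Function.update F i (∑ j, a j * F j))) =
      Ideal.span (Set.range F) := by
  have hy : (∑ j, a j * F j) ∈ Ideal.span (Set.range F) :=
    Ideal.sum_mem _ fun j _ => Ideal.mul_mem_left _ _ (Ideal.subset_span ⟨j, rfl⟩)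
  apply le_antisymm
  · rw [Ideal.span_le]
    rintro _ ⟨j, rfl⟩
    by_cases hj : j = i
    · subst hj
      rw [Function.update_self]
      exact hy
    · rw [Function.update_of_ne hj]
      exact Ideal.subset_span ⟨j, rfl⟩
  · set G := Function.update F i (∑ j, a j * F j) with hG
    have hGj : ∀ j, j ≠ i → F j ∈ Ideal.span (Set.range G) := by
      intro j hj
      have : F j = G j := by rw [hG, Function.update_of_ne hj]
      rw [this]
      exact Ideal.subset_span ⟨j, rfl⟩
    have hGi : F i ∈ Ideal.span (Set.range G) := by
      obtain ⟨u, hu⟩ := ha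
      have h1 : (∑ j, a j * F j) ∈ Ideal.span (Set.range G) := by
        have : (∑ j, a j * F j) = G i := by rw [hG, Function.update_self]
        rw [this]
        exact Ideal.subset_span ⟨i, rfl⟩
      have h2 : (∑ j ∈ Finset.univ.erase i, a j * F j) ∈ Ideal.span (Set.range G) :=
        Ideal.sum_mem _ fun j hj => Ideal.mul_mem_left _ _ (hGj j (Finset.ne_of_mem_erase hj))
      have h3 : a i * F i = (∑ j, a j * F j) - ∑ j ∈ Finset.univ.erase i, a j * F j := by
        rw [← Finset.add_sum_erase _ _ (Finset.mem_univ i)]
        ring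
      have h4 : F i = (↑u⁻¹ : R) * (a i * F i) := by
        rw [← mul_assoc, ← hu, Units.inv_mul, one_mul]
      rw [h4, h3]
      exact Ideal.mul_mem_left _ _ (Ideal.sub_mem _ h1 h2)
    rw [Ideal.span_le]
    rintro _ ⟨j, rfl⟩
    by_cases hj : j = i
    · rw [hj]
      exact hGi
    · exact hGj j hj

theorem take_ofFn_update {n : ℕ} (F : Fin n → R) (i : ℕ) (hi : i < n) (y : R) :
    (List.ofFn (Function.update F ⟨i, hi⟩ y)).take (i + 1) = (List.ofFn F).take i ++ [y] := by
  rw [List.take_add_one]
  congr 1
  · apply List.ext_getElem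
    · simp
    · intro j h1 h2
      simp only [List.getElem_take, List.getElem_ofFn]
      rw [Function.update_of_ne]
      intro h
      have := congrArg Fin.val h
      simp at this
      simp at h1
      omega
  · rw [List.getElem?_eq_getElem (by simpa using hi)]
    simp

theorem splitStatement [IsLocalRing R] [IsNoetherianRing R] [Infinite (ResidueField R)] :
    SplitStatement R := by
  intro e f hf hreg
  have hI : Ideal.span (Set.range f) ≤ maximalIdeal R := by
    rw [Ideal.span_le]
    rintro _ ⟨i, rfl⟩
    exact hf i
  have hgr : ∃ rs : List R, rs.length = 4 ∧ (∀ y ∈ rs, y ∈ Ideal.span (Set.range f)) ∧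
      IsRegular R rs := by
    obtain ⟨rs, h1, h2, h3⟩ := hreg
    exact ⟨rs, h1, h3, h2⟩
  have key : ∀ i ≤ 4, ∃ F : Fin (4 + e) → R,
      Ideal.span (Set.range F) = Ideal.span (Set.range f) ∧
      IsWeaklyRegular R ((List.ofFn F).take i) := by
    intro i
    induction i with
    | zero =>
      intro _
      exact ⟨f, rfl, by simp⟩
    | succ i ih =>
      intro hi
      obtain ⟨F, hF, hFr⟩ := ih (by omega)
      have hi' : i < 4 + e := by omega
      -- the subspace of vectors with vanishing `i`-th coordinate
      let V : Submodule (ResidueField R) (Fin (4 + e) → ResidueField R) :=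
        LinearMap.ker (LinearMap.proj (⟨i, hi'⟩ : Fin (4 + e)))
      have hV : V ≠ ⊤ := by
        intro h
        have h1 : (fun _ => 1 : Fin (4 + e) → ResidueField R) ∈ V := by rw [h]; trivial
        have h2 : (1 : ResidueField R) = 0 := by simpa [V] using h1
        exact one_ne_zero h2
      obtain ⟨a, ha1, ha2⟩ := Pool.Agent.Licci.gp_row F (by rw [hF]; exact hI)
        (by rw [hF]; exact hgr) ((List.ofFn F).take i) (by simp; omega) (by
          intro y hy
          have := List.mem_of_mem_take hy
          rw [List.mem_ofFn] at this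
          exact Ideal.subset_span this) hFr {V} (by
          intro W hW
          rw [Finset.mem_singleton] at hW
          rw [hW]
          exact hV)
      have hunit : IsUnit (a ⟨i, hi'⟩) := by
        rw [← IsLocalRing.notMem_maximalIdeal, ← IsLocalRing.residue_eq_zero_iff]
        intro h
        apply ha1 V (Finset.mem_singleton_self V)
        simp only [V, LinearMap.mem_ker, LinearMap.proj_apply]
        exact h
      refine ⟨Function.update F ⟨i, hi'⟩ (∑ j, a j * F j), ?_, ?_⟩
      · rw [span_update F _ a hunit, hF]
      · rw [take_ofFn_update]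
        exact ha2
  obtain ⟨F, hF, hFr⟩ := key 4 le_rfl
  refine ⟨fun i => F (Fin.castAdd e i), fun j => F (Fin.natAdd 4 j), ?_, ?_⟩
  · have : list4 (fun i => F (Fin.castAdd e i)) = (List.ofFn F).take 4 := by
      apply List.ext_getElem
      · simp [list4]
      · intro j h1 h2
        simp only [List.getElem_take, List.getElem_ofFn]
        have hj : j < 4 := by simpa [list4] using h1
        interval_cases j <;> rfl
    rw [this]
    exact hFr
  · rw [← hF]
    apply le_antisymm
    · rw [Ideal.span_le]
      rintro _ ⟨i, rfl⟩
      refine Fin.addCases (fun j => ?_) (fun j => ?_) i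
      · exact Ideal.mem_sup_left (Ideal.subset_span ⟨j, rfl⟩)
      · exact Ideal.mem_sup_right (Ideal.subset_span ⟨j, rfl⟩)
    · apply sup_le
      · rw [al, Ideal.span_le]
        rintro _ ⟨i, rfl⟩
        exact Ideal.subset_span ⟨_, rfl⟩
      · rw [Ideal.span_le]
        rintro _ ⟨i, rfl⟩
        exact Ideal.subset_span ⟨_, rfl⟩

end LicciCodimFour
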