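import Pool.Agent.Work.MP_a98e4e_ag.Term

/-!
MP_a98e4e_ag (licci, codimension 4), module (4b'') (helper43): the termination step of `Term.lean`
for the full exponential `∑_(n < 7) c ^ n / n! E ^ n`.
-/

set_option autoImplicit false

noncomputable section

namespace Pool.Agent.Licci

open Module

section poly

variable {k : Type*} [Field k] {S W : Type*} [AddCommGroup S] [Module k S] [FiniteDimensional k S]
  [AddCommGroup W] [Module k W]

/-- `∑_(n < N) c ^ n D_n` -/
def pf (N : ℕ) (D : ℕ → S →ₗ[k] W) (c : k) : S →ₗ[k] W := ∑ n ∈ Finset.range N, c ^ n • D n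

omit [FiniteDimensional k S] in
lemma pf_apply (N : ℕ) (D : ℕ → S →ₗ[k] W) (c : k) (x : S) :
    pf N D c x = ∑ n ∈ Finset.range N, c ^ n • D n x := by
  simp [pf, LinearMap.sum_apply]

/-- a polynomial family of linear maps which is injective at `0` is injective for general `c` -/
theorem gen_injective' (N : ℕ) (D : ℕ → S →ₗ[k] W) (h : Function.Injective (D 0)) :
    GenC fun c : k => Function.Injective (pf (N + 1) D c) := by
  classical
  obtain ⟨L, hL⟩ := (D 0).exists_leftInverse_of_injective (LinearMap.ker_eq_bot.mpr h)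
  let b := Module.finBasis k S
  let M : ℕ → Matrix _ _ k := fun n => LinearMap.toMatrix b b (L ∘ₗ D n)
  let p : Polynomial k := Matrix.det (∑ n ∈ Finset.range (N + 1),
    (Polynomial.X ^ n : Polynomial k) • (M n).map Polynomial.C)
  have hp : ∀ c, p.eval c = Matrix.det (∑ n ∈ Finset.range (N + 1), c ^ n • M n) := by
    intro c
    change (Polynomial.evalRingHom c) p = _
    rw [RingHom.map_det]
    congr 1
    ext i j
    simp only [RingHom.mapMatrix_apply, Matrix.map_apply, Matrix.sum_apply, Matrix.smul_apply,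
      smul_eq_mul, map_sum, Polynomial.coe_evalRingHom, Polynomial.eval_mul, Polynomial.eval_pow,
      Polynomial.eval_X, Polynomial.eval_C]
  have hM0 : M 0 = 1 := by
    change LinearMap.toMatrix b b (L ∘ₗ D 0) = 1
    rw [hL, LinearMap.toMatrix_id]
  have hp0 : p ≠ 0 := by
    intro h0
    have := hp 0
    rw [h0, Finset.sum_range_succ'] at this
    simp [hM0] at this
  refine (GenC.of_poly p hp0).mono fun c hc => ?_
  rw [hp] at hc
  have hcomp : LinearMap.toMatrix b b (L ∘ₗ pf (N + 1) D c) =
      ∑ n ∈ Finset.range (N + 1), c ^ n • M n := by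
    have e : L ∘ₗ pf (N + 1) D c =
        ∑ n ∈ Finset.range (N + 1), c ^ n • (L ∘ₗ D n) := by
      ext x
      simp [pf, map_sum, LinearMap.sum_apply]
    rw [e, map_sum]
    refine Finset.sum_congr rfl fun n _ => ?_
    rw [map_smul]
  have hunit : IsUnit (L ∘ₗ pf (N + 1) D c) := by
    rw [LinearMap.isUnit_iff_isUnit_det, ← LinearMap.det_toMatrix b, hcomp]
    exact hc.isUnit
  have hinj : Function.Injective (L ∘ₗ pf (N + 1) D c) :=
    ((Module.End.isUnit_iff _).mp hunit).1
  exact Function.Injective.of_comp (f := L) hinj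

theorem gen_finrank_ker_le' (N : ℕ) (D : ℕ → S →ₗ[k] W) :
    GenC fun c : k => finrank k (LinearMap.ker (pf (N + 1) D c)) ≤
      finrank k (LinearMap.ker (D 0)) := by
  obtain ⟨C, hC⟩ := Submodule.exists_isCompl (LinearMap.ker (D 0))
  have h0 : Function.Injective ((D 0).domRestrict C) := by
    rw [← LinearMap.ker_eq_bot, LinearMap.ker_eq_bot']
    intro x hx
    have h1 : (x : S) ∈ LinearMap.ker (D 0) ⊓ C := ⟨hx, x.2⟩
    rw [hC.inf_eq_bot, Submodule.mem_bot] at h1
    exact Subtype.ext h1
  refine (gen_injective' N (fun n => (D n).domRestrict C) h0).mono fun c hc => ?_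
  set K := LinearMap.ker (pf (N + 1) D c) with hK
  have hdisj : K ⊓ C = ⊥ := by
    rw [eq_bot_iff]
    rintro x ⟨hx1, hx2⟩
    have h3 : pf (N + 1) (fun n => (D n).domRestrict C) c ⟨x, hx2⟩ = 0 := by
      have h3' : pf (N + 1) D c x = 0 := hx1
      rw [pf_apply] at h3' ⊢
      exact h3'
    have h4 := hc (h3.trans (map_zero _).symm)
    exact (Submodule.mem_bot k).mpr (congrArg Subtype.val h4)
  have h5 := Submodule.finrank_sup_add_finrank_inf_eq K C
  rw [hdisj, finrank_bot, add_zero] at h5
  have h6 := Submodule.finrank_le (K ⊔ C)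
  have h7 := Submodule.finrank_add_eq_of_isCompl hC
  omega

theorem gen_finrank_ker_lt' (N : ℕ) (D : ℕ → S →ₗ[k] W) (g : S) (hg : D 0 g = 0)
    (hg1 : D 1 g ∉ LinearMap.range (D 0)) :
    GenC fun c : k => finrank k (LinearMap.ker (pf (N + 2) D c)) <
      finrank k (LinearMap.ker (D 0)) := by
  classical
  obtain ⟨C, hC⟩ := Submodule.exists_isCompl (LinearMap.ker (D 0))
  -- the modified family on `C × k`
  let i : (C × k) →ₗ[k] S := C.subtype.coprod (LinearMap.toSpanSingleton k S g)
  let F : ℕ → (C × k) →ₗ[k] W := fun n => ((D n).domRestrict C).coprod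
    (LinearMap.toSpanSingleton k W (if n < N + 1 then D (n + 1) g else 0))
  have h0 : Function.Injective (F 0) := by
    rw [← LinearMap.ker_eq_bot, LinearMap.ker_eq_bot']
    rintro ⟨x, a⟩ hx
    have hx' : D 0 x + a • D 1 g = 0 := by
      have : D 0 x + a • (if 0 < N + 1 then D (0 + 1) g else 0) = 0 := hx
      rwa [if_pos (Nat.succ_pos N), zero_add] at this
    have ha : a = 0 := by
      by_contra ha
      apply hg1
      refine ⟨-(a⁻¹ • (x : S)), ?_⟩
      rw [map_neg, map_smul, eq_neg_of_add_eq_zero_left hx', smul_neg, neg_neg, smul_smul,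
        inv_mul_cancel₀ ha, one_smul]
    subst ha
    have h1 : (x : S) ∈ LinearMap.ker (D 0) ⊓ C := ⟨by simpa using hx', x.2⟩
    rw [hC.inf_eq_bot, Submodule.mem_bot] at h1
    exact Prod.ext (Subtype.ext h1) rfl
  have hX : GenC fun c : k => c ≠ 0 := ⟨{0}, fun c hc => by simpa using hc⟩
  refine ((gen_injective' (N + 1) F h0).and hX).mono fun c hc => ?_
  obtain ⟨hc, hc0⟩ := hc
  set K := LinearMap.ker (pf (N + 2) D c) with hK
  -- `C + k g` meets `K` trivially
  have hval : ∀ (x : C) (a : k), pf (N + 2) D c ((x : S) + a • g) =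
      pf (N + 1 + 1) F c (x, c * a) := by
    intro x a
    rw [pf_apply, pf_apply]
    simp only [map_add (D _), map_smul (D _)]
    have e1 : ∑ n ∈ Finset.range (N + 2), c ^ n • (D n (x : S) + a • D n g) =
        ∑ n ∈ Finset.range (N + 2), c ^ n • D n (x : S) +
          ∑ n ∈ Finset.range (N + 2), (c ^ n * a) • D n g := by
      rw [← Finset.sum_add_distrib]
      refine Finset.sum_congr rfl fun n _ => ?_
      rw [smul_add, smul_smul]
    have e2 : ∑ n ∈ Finset.range (N + 1 + 1), c ^ n • F n (x, c * a) =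
        ∑ n ∈ Finset.range (N + 2), c ^ n • D n (x : S) +
          ∑ n ∈ Finset.range (N + 1 + 1),
            (c ^ n * (c * a)) • (if n < N + 1 then D (n + 1) g else 0) := by
      rw [← Finset.sum_add_distrib]
      refine Finset.sum_congr rfl fun n _ => ?_
      change c ^ n • (D n (x : S) + (c * a) • (if n < N + 1 then D (n + 1) g else 0)) = _
      rw [smul_add, smul_smul]
    rw [e1, e2]
    congr 1
    rw [Finset.sum_range_succ' _ (N + 1), hg, smul_zero, add_zero,
      Finset.sum_range_succ _ (N + 1), if_neg (lt_irrefl _), smul_zero, add_zero]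
    refine Finset.sum_congr rfl fun n hn => ?_
    rw [if_pos (Finset.mem_range.mp hn)]
    congr 1
    ring
  have hdisj : K ⊓ (C ⊔ Submodule.span k {g}) = ⊥ := by
    rw [eq_bot_iff]
    rintro s ⟨hx1, hx2⟩
    obtain ⟨x, hx, y, hy, rfl⟩ := Submodule.mem_sup.mp hx2
    obtain ⟨a, rfl⟩ := Submodule.mem_span_singleton.mp hy
    have h3 : pf (N + 2) D c (x + a • g) = 0 := hx1
    rw [hval ⟨x, hx⟩ a] at h3
    have h4 := hc (h3.trans (map_zero _).symm)
    have h5 := congrArg Prod.fst h4
    have h6 : x = 0 := congrArg Subtype.val h5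
    have h7 : c * a = 0 := congrArg Prod.snd h4
    have h8 : a = 0 := by
      rcases mul_eq_zero.mp h7 with h | h
      · exact absurd h hc0
      · exact h
    rw [h6, h8]; simp
  have hCg : finrank k (C ⊔ Submodule.span k {g} : Submodule k S) = finrank k C + 1 := by
    have hg0 : g ≠ 0 := by
      rintro rfl
      exact hg1 ⟨0, by simp⟩
    have hd : C ⊓ Submodule.span k {g} = ⊥ := by
      rw [eq_bot_iff]
      rintro s ⟨h1, h2⟩
      obtain ⟨a, rfl⟩ := Submodule.mem_span_singleton.mp h2
      have h3 : a • g ∈ LinearMap.ker (D 0) ⊓ C := ⟨by simp [hg], h1⟩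
      rw [hC.inf_eq_bot] at h3
      exact h3
    have h := Submodule.finrank_sup_add_finrank_inf_eq C (Submodule.span k {g})
    rw [hd, finrank_bot, add_zero, finrank_span_singleton hg0] at h
    exact h
  have h5 := Submodule.finrank_sup_add_finrank_inf_eq K (C ⊔ Submodule.span k {g})
  rw [hdisj, finrank_bot, add_zero, hCg] at h5
  have h6 := Submodule.finrank_le (K ⊔ (C ⊔ Submodule.span k {g}))
  have h7 := Submodule.finrank_add_eq_of_isCompl hC
  omega

end poly

section term

variable {k : Type*} [Field k] [CharZero k] {κ : Type*} {T : Type*} [AddCommGroup T] [Module k T]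
variable {P : Type*} [AddCommGroup P] [Module k P]

/-- the move `∑_(n < 7) c ^ n / n! E ^ n` -/
def Mvx (E : P →ₗ[k] P →ₗ[k] P →ₗ[k] Module.End k (κ → k)) (x y z : P) (c : k) :
    Module.End k (κ → k) :=
  ∑ n ∈ Finset.range 7, c ^ n • (((n.factorial : k)⁻¹) • (E x y z) ^ n)

variable [FiniteDimensional k T]

/-- **Termination step**, for the full exponential -/
theorem gen_meas_lt' (deg : κ → ℕ) (hdeg : ∀ a, deg a ≤ 6)
    (E : P →ₗ[k] P →ₗ[k] P →ₗ[k] Module.End k (κ → k)) (hE : Hom1 deg E)
    (H1 : ∀ j, j ≤ 4 → ∀ u : κ → k, (∀ a, deg a ≠ j → u a = 0) → u ≠ 0 →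
      ∃ x y z, E x y z u ≠ 0)
    (H2 : ∀ u : κ → k, (∀ a, deg a ≠ 5 → u a = 0) → u ≠ 0 → ∀ A : Submodule k (κ → k),
      finrank k A ≤ 4 → ∃ x y z, E x y z u ∉ A)
    (H3 : ∀ x y z (u : κ → k), (∀ a, deg a ≠ 4 → u a = 0) → E x y z (E x y z u) = 0)
    (i : T →ₗ[k] (κ → k)) (hi : Function.Injective i)
    (hT : 4 < finrank k T)
    (hr : finrank k (LinearMap.range (prj k (fun a => 5 < deg a) ∘ₗ i)) ≤ 4) :
    GenK (k := k) fun x => GenK (k := k) fun y => GenK (k := k) fun z => GenC fun c =>
      meas deg (Mvx E x y z c ∘ₗ i) < meas deg i := by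
  classical
  set D0 := prj k (fun a => 5 < deg a) ∘ₗ i with hD0
  -- the coefficients of the degree 6 part of the moved map
  let D : P → P → P → ℕ → (T →ₗ[k] (κ → k)) := fun x y z n =>
    ((n.factorial : k)⁻¹) • (prj k (fun a => 5 < deg a) ∘ₗ ((E x y z) ^ n) ∘ₗ i)
  have hDz : ∀ x y z, D x y z 0 = D0 := by
    intro x y z
    ext g a
    simp [D, hD0]
  have hD : ∀ x y z c, prj k (fun a => 5 < deg a) ∘ₗ (Mvx E x y z c ∘ₗ i) =
      pf 7 (D x y z) c := by
    intro x y z c
    apply LinearMap.ext
    intro g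
    rw [pf_apply]
    simp only [D, Mvx, LinearMap.comp_apply, LinearMap.sum_apply, LinearMap.smul_apply, map_sum,
      map_smul]
  have hker : finrank k (LinearMap.range D0) + finrank k (LinearMap.ker D0) = finrank k T :=
    LinearMap.finrank_range_add_finrank_ker D0
  -- `E ^ 2` has no component of top degree
  have hEE : ∀ x y z (v : κ → k) (e : κ), deg e = 6 → E x y z (E x y z v) e = 0 := by
    intro x y z v e he6
    let u4 : κ → k := prj k (fun b => deg b = 4) v
    have h3 : E x y z (E x y z u4) = 0 := H3 x y z u4 fun b' hb' => by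
      change prj k (fun b => deg b = 4) v b' = 0
      rw [prj_apply, if_neg hb']
    have h4 : E x y z (E x y z (v - u4)) e = 0 := hE x y z _ e fun b' hb' =>
      hE x y z _ b' fun b'' hb'' => by
        rw [Pi.sub_apply]
        change v b'' - prj k (fun b => deg b = 4) v b'' = 0
        rw [prj_apply, if_pos (by omega), sub_self]
    rw [map_sub, map_sub, Pi.sub_apply, h3] at h4
    simpa using h4
  by_cases hJ : Kf deg i 4 = Kf deg i 5
  · -- raise the top degree
    obtain ⟨J, hJmin⟩ : ∃ J, J ≤ 4 ∧ Kf deg i J = Kf deg i 5 ∧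
        ∀ j, j < J → Kf deg i j ≠ Kf deg i 5 := by
      have hex : ∃ j, Kf deg i j = Kf deg i 5 := ⟨4, hJ⟩
      exact ⟨Nat.find hex, Nat.find_min' hex hJ, Nat.find_spec hex, fun j hj => Nat.find_min hex hj⟩
    obtain ⟨hJ4, hJeq, hJlt⟩ := hJmin
    have hne : Kf deg i 5 ≠ ⊥ := by
      intro h0
      have : finrank k (LinearMap.ker D0) = 0 := by
        rw [← Kf_five_eq_ker, h0, finrank_bot]
      omega
    -- a vector with a component of degree exactly `J`
    obtain ⟨g, hg5, a, ha, hga⟩ : ∃ g ∈ Kf deg i 5, ∃ a, deg a = J ∧ i g a ≠ 0 := by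
      rcases Nat.eq_zero_or_pos J with h0 | hpos
      · obtain ⟨g, hg, hg0⟩ := Submodule.exists_mem_ne_zero_of_ne_bot hne
        have h1 : i g ≠ 0 := fun h => hg0 (hi (h.trans (map_zero i).symm))
        obtain ⟨a, ha⟩ := Function.ne_iff.mp h1
        refine ⟨g, hg, a, ?_, ha⟩
        by_contra hne'
        rw [← hJeq] at hg
        exact ha (hg a (by omega))
      · have h1 := hJlt (J - 1) (by omega)
        have h2 : Kf deg i (J - 1) ≤ Kf deg i 5 := Kf_mono (by omega)
        obtain ⟨g, hg, hg'⟩ := SetLike.exists_of_lt (lt_of_le_of_ne h2 h1)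
        have h3 : ¬ ∀ a, J - 1 < deg a → i g a = 0 := hg'
        push Not at h3
        obtain ⟨a, ha, hga⟩ := h3
        refine ⟨g, hg, a, ?_, hga⟩
        by_contra hne'
        rw [← hJeq] at hg
        exact hga (hg a (by omega))
    have hgJ : ∀ b, J < deg b → i g b = 0 := by
      rw [← hJeq] at hg5; exact hg5
    let uJ : κ → k := prj k (fun b => deg b = J) (i g)
    have huJ : ∀ b, deg b ≠ J → uJ b = 0 := fun b hb => by
      change prj k (fun b => deg b = J) (i g) b = 0
      rw [prj_apply, if_neg hb]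
    have huJ' : ∀ b, deg b = J → uJ b = i g b := fun b hb => by
      change prj k (fun b => deg b = J) (i g) b = _
      rw [prj_apply, if_pos hb]
    have huJ0 : uJ ≠ 0 := fun h => hga (by rw [← huJ' a ha, h]; rfl)
    let ψ : P →ₗ[k] P →ₗ[k] P →ₗ[k] (κ → k) :=
      E.compr₂ (LinearMap.compRight k (LinearMap.applyₗ uJ))
    have hψ : ∀ x y z, ψ x y z = E x y z uJ := fun x y z => rfl
    obtain ⟨x0, y0, z0, h0⟩ := H1 J hJ4 uJ huJ huJ0
    refine (gen_trilinear ψ ⟨x0, y0, z0, h0⟩).mono fun x hx => hx.mono fun y hy =>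
      hy.mono fun z hz => ?_
    rw [hψ] at hz
    obtain ⟨b, hb⟩ := Function.ne_iff.mp hz
    have hbJ : deg b = J + 1 := by
      by_contra hne'
      exact hb (hE x y z uJ b fun b' hb' => huJ b' (by omega))
    -- the component `b` of the moved vector
    have hEb : E x y z (i g) b = E x y z uJ b := by
      have h1 : E x y z (i g - uJ) b = 0 := hE x y z _ b fun b' hb' => by
        rw [Pi.sub_apply, huJ' b' (by omega), sub_self]
      rw [map_sub, Pi.sub_apply, sub_eq_zero] at h1
      exact h1
    have hgenb : GenC fun c : k => Mvx E x y z c (i g) b ≠ 0 := by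
      let p : Polynomial k := ∑ n ∈ Finset.range 7,
        Polynomial.C ((n.factorial : k)⁻¹ * ((E x y z) ^ n) (i g) b) * Polynomial.X ^ n
      have hp : p ≠ 0 := by
        intro h
        have := congrArg (fun q => Polynomial.coeff q 1) h
        simp only [p, Polynomial.finsetSum_coeff, Polynomial.coeff_C_mul,
          Polynomial.coeff_X_pow, Polynomial.coeff_zero, mul_ite, mul_one, mul_zero] at this
        rw [Finset.sum_ite_eq] at this
        simp at this
        exact hb (by rw [← hEb]; exact this)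
      refine (GenC.of_poly p hp).mono fun c hc => ?_
      intro h
      apply hc
      rw [← h]
      simp only [p, Polynomial.eval_finsetSum, Polynomial.eval_mul, Polynomial.eval_C,
        Polynomial.eval_pow, Polynomial.eval_X, Mvx, LinearMap.sum_apply, LinearMap.smul_apply,
        Finset.sum_apply, Pi.smul_apply, smul_eq_mul]
      refine Finset.sum_congr rfl fun n _ => ?_
      ring
    have hgenr := gen_finrank_ker_le' 6 (D x y z)
    refine (hgenb.and hgenr).mono fun c hc => ?_
    obtain ⟨hc1, hc2⟩ := hc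
    set i' := Mvx E x y z c ∘ₗ i with hi'
    have hfin : finrank k (Kf deg i' 5) ≤ finrank k (Kf deg i 5) := by
      rw [Kf_five_eq_ker, Kf_five_eq_ker, hi', hD, ← hD0, ← hDz x y z]; exact hc2
    -- `g` is in `K'_5`
    have hg5' : g ∈ Kf deg i' 5 := by
      intro e he
      have he6 : deg e = 6 := by have := hdeg e; omega
      change Mvx E x y z c (i g) e = 0
      rw [Mvx, LinearMap.sum_apply, Finset.sum_apply]
      refine Finset.sum_eq_zero fun n _ => ?_
      simp only [LinearMap.smul_apply, Pi.smul_apply]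
      have hz0 : ((E x y z) ^ n) (i g) e = 0 := by
        match n with
        | 0 => simpa using hg5 e he
        | 1 =>
          rw [pow_one]
          exact hE x y z _ e fun b' hb' => hgJ b' (by omega)
        | n + 2 =>
          rw [show n + 2 = (n + 1) + 1 from rfl, pow_succ', pow_succ']
          exact hEE x y z _ e he6
      rw [hz0, smul_zero, smul_zero]
    have hgJ' : g ∉ Kf deg i' J := fun h => hc1 (h b (by omega))
    have hh : hgt deg i' < hgt deg i := by
      have e1 : hgt deg i' ≤ ((Finset.range 5).filter fun j => J < j).card := by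
        apply Finset.card_le_card
        intro j hj
        rw [Finset.mem_filter] at hj ⊢
        refine ⟨hj.1, ?_⟩
        by_contra hle
        apply hgJ'
        have h1 : g ∈ Kf deg i' j := by rw [hj.2]; exact hg5'
        exact Kf_mono (by omega) h1
      have e2 : ((Finset.range 5).filter fun j => J ≤ j).card ≤ hgt deg i := by
        apply Finset.card_le_card
        intro j hj
        rw [Finset.mem_filter, Finset.mem_range] at hj
        rw [Finset.mem_filter, Finset.mem_range]
        refine ⟨hj.1, le_antisymm (Kf_mono (by omega)) ?_⟩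
        rw [← hJeq]
        exact Kf_mono hj.2
      have e3 : ((Finset.range 5).filter fun j => J < j).card <
          ((Finset.range 5).filter fun j => J ≤ j).card := by
        apply Finset.card_lt_card
        refine ⟨fun j hj => ?_, fun hsub => ?_⟩
        · rw [Finset.mem_filter] at hj ⊢; exact ⟨hj.1, hj.2.le⟩
        · have h1 : J ∈ (Finset.range 5).filter fun j => J ≤ j := by
            rw [Finset.mem_filter, Finset.mem_range]; exact ⟨by omega, le_rfl⟩
          have h2 := hsub h1
          rw [Finset.mem_filter] at h2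
          exact lt_irrefl _ h2.2
      omega
    unfold meas
    omega
  · -- raise the rank
    have h2 : Kf deg i 4 ≤ Kf deg i 5 := Kf_mono (by omega)
    obtain ⟨g, hg5, hg4⟩ := SetLike.exists_of_lt (lt_of_le_of_ne h2 hJ)
    have h3 : ¬ ∀ a, 4 < deg a → i g a = 0 := hg4
    push Not at h3
    obtain ⟨a, ha, hga⟩ := h3
    have ha5 : deg a = 5 := by
      by_contra hne'
      exact hga (hg5 a (by omega))
    let u5 : κ → k := prj k (fun b => deg b = 5) (i g)
    have hu5 : ∀ b, deg b ≠ 5 → u5 b = 0 := fun b hb => by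
      change prj k (fun b => deg b = 5) (i g) b = 0
      rw [prj_apply, if_neg hb]
    have hu5' : ∀ b, deg b = 5 → u5 b = i g b := fun b hb => by
      change prj k (fun b => deg b = 5) (i g) b = _
      rw [prj_apply, if_pos hb]
    have hu50 : u5 ≠ 0 := fun h => hga (by rw [← hu5' a ha5, h]; rfl)
    let A := LinearMap.range D0
    obtain ⟨x0, y0, z0, h0⟩ := H2 u5 hu5 hu50 A hr
    let ψ : P →ₗ[k] P →ₗ[k] P →ₗ[k] ((κ → k) ⧸ A) :=
      E.compr₂ (LinearMap.compRight k (A.mkQ ∘ₗ LinearMap.applyₗ u5))
    have hψ : ∀ x y z, ψ x y z = A.mkQ (E x y z u5) := fun x y z => rfl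
    refine (gen_trilinear ψ ⟨x0, y0, z0, ?_⟩).mono fun x hx => hx.mono fun y hy =>
      hy.mono fun z hz => ?_
    · rw [hψ]; intro h; exact h0 ((Submodule.Quotient.mk_eq_zero A).mp h)
    have hz' : E x y z u5 ∉ A := by
      intro h; apply hz; rw [hψ]; exact (Submodule.Quotient.mk_eq_zero A).mpr h
    have hE5 : D x y z 1 g = E x y z u5 := by
      funext e
      simp only [D, Nat.factorial_one, Nat.cast_one, inv_one, one_smul, pow_one,
        LinearMap.comp_apply, prj_apply]
      split_ifs with he
      · have h1 : E x y z (i g - u5) e = 0 := hE x y z _ e fun b' hb' => by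
          have := hdeg e
          rw [Pi.sub_apply, hu5' b' (by omega), sub_self]
        rw [map_sub, Pi.sub_apply, sub_eq_zero] at h1
        exact h1
      · exact (hE x y z _ e fun b' hb' => hu5 b' (by omega)).symm
    have hgD : D x y z 0 g = 0 := by
      have : g ∈ LinearMap.ker D0 := by rw [← Kf_five_eq_ker]; exact hg5
      rw [hDz]
      exact this
    have hgenr := gen_finrank_ker_lt' 5 (D x y z) g hgD
      (by rw [hE5, hDz]; exact hz')
    refine hgenr.mono fun c hc => ?_
    have hfin : finrank k (Kf deg (Mvx E x y z c ∘ₗ i) 5) < finrank k (Kf deg i 5) := by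
      rw [Kf_five_eq_ker, Kf_five_eq_ker, hD, ← hD0, ← hDz x y z]; exact hc
    have hh : hgt deg (Mvx E x y z c ∘ₗ i) ≤ 5 := by
      unfold hgt
      exact (Finset.card_filter_le _ _).trans (by simp)
    unfold meas
    omega

end term

end Pool.Agent.Licci
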