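import Mathlib

/-!
MP_a98e4e_ag (licci, codimension 4), module (4b) (helper43): termination, linear algebra over the
infinite field `k`.
-/

set_option autoImplicit false

noncomputable section

namespace Pool.Agent.Licci

open Module

section genk

variable {k : Type*} [Field k] {P : Type*} [AddCommGroup P] [Module k P]

/-- `Q x` holds for all `x` outside finitely many proper subspaces. -/
def GenK (Q : P → Prop) : Prop :=
  ∃ S : Finset (Submodule k P), (∀ V ∈ S, V ≠ ⊤) ∧ ∀ x : P, (∀ V ∈ S, x ∉ V) → Q x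

/-- `Q c` holds for all `c` outside a finite set -/
def GenC (Q : k → Prop) : Prop := ∃ Z : Finset k, ∀ c, c ∉ Z → Q c

lemma GenK.mono {Q Q' : P → Prop} (h : GenK (k := k) Q) (hQ : ∀ a, Q a → Q' a) :
    GenK (k := k) Q' := by
  obtain ⟨S, hS, h1⟩ := h
  exact ⟨S, hS, fun a ha => hQ a (h1 a ha)⟩

lemma GenK.of_forall {Q : P → Prop} (h : ∀ a, Q a) : GenK (k := k) Q :=
  ⟨∅, by simp, fun a _ => h a⟩

lemma GenK.of_linear {V : Type*} [AddCommGroup V] [Module k V] (g : P →ₗ[k] V) (h : g ≠ 0) :
    GenK (k := k) fun a : P => g a ≠ 0 := by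
  classical
  refine ⟨{LinearMap.ker g}, ?_, ?_⟩
  · intro V hV htop
    rw [Finset.mem_singleton] at hV
    subst hV
    exact h (LinearMap.ker_eq_top.mp htop)
  · intro a ha h0
    exact ha (LinearMap.ker g) (by simp) h0

lemma GenC.mono {Q Q' : k → Prop} (h : GenC Q) (hQ : ∀ a, Q a → Q' a) : GenC Q' := by
  obtain ⟨S, h1⟩ := h
  exact ⟨S, fun a ha => hQ a (h1 a ha)⟩

lemma GenC.and {Q Q' : k → Prop} (h : GenC Q) (h' : GenC Q') : GenC fun a => Q a ∧ Q' a := by
  classical
  obtain ⟨S, h1⟩ := h
  obtain ⟨S', h1'⟩ := h'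
  exact ⟨S ∪ S', fun a ha => ⟨h1 a fun hV => ha (Finset.mem_union_left _ hV),
    h1' a fun hV => ha (Finset.mem_union_right _ hV)⟩⟩

lemma GenC.of_poly (p : Polynomial k) (h : p ≠ 0) : GenC fun c : k => p.eval c ≠ 0 := by
  classical
  refine ⟨p.roots.toFinset, fun c hc h0 => hc ?_⟩
  rw [Multiset.mem_toFinset, Polynomial.mem_roots h]
  exact h0

/-- a nonzero trilinear map does not vanish at general triples -/
lemma gen_trilinear {V : Type*} [AddCommGroup V] [Module k V]
    (ψ : P →ₗ[k] P →ₗ[k] P →ₗ[k] V) (h : ∃ x y z, ψ x y z ≠ 0) :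
    GenK (k := k) fun x => GenK (k := k) fun y => GenK (k := k) fun z => ψ x y z ≠ 0 := by
  obtain ⟨x0, y0, z0, h0⟩ := h
  have h1 : ψ ≠ 0 := by rintro rfl; simp at h0
  refine (GenK.of_linear ψ h1).mono fun x hx => ?_
  refine (GenK.of_linear (ψ x) hx).mono fun y hy => ?_
  exact GenK.of_linear (ψ x y) hy

end genk

section poly

variable {k : Type*} [Field k] {S W : Type*} [AddCommGroup S] [Module k S] [FiniteDimensional k S]
  [AddCommGroup W] [Module k W]

/-- a polynomial family of linear maps which is injective at `0` is injective for general `c` -/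
theorem gen_injective (D0 D1 D2 : S →ₗ[k] W) (h : Function.Injective D0) :
    GenC fun c : k => Function.Injective (D0 + c • D1 + c ^ 2 • D2) := by
  classical
  obtain ⟨L, hL⟩ := D0.exists_leftInverse_of_injective (LinearMap.ker_eq_bot.mpr h)
  let b := Module.finBasis k S
  let M1 := LinearMap.toMatrix b b (L ∘ₗ D1)
  let M2 := LinearMap.toMatrix b b (L ∘ₗ D2)
  let p : Polynomial k := Matrix.det ((1 : Matrix _ _ (Polynomial k)) +
    (Polynomial.X : Polynomial k) • M1.map Polynomial.C +
    (Polynomial.X ^ 2 : Polynomial k) • M2.map Polynomial.C)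
  have hp : ∀ c, p.eval c = Matrix.det (1 + c • M1 + c ^ 2 • M2) := by
    intro c
    change (Polynomial.evalRingHom c) p = _
    rw [RingHom.map_det]
    congr 1
    ext i j
    simp only [RingHom.mapMatrix_apply, Matrix.map_apply, Matrix.add_apply, Matrix.smul_apply,
      smul_eq_mul, map_add, Polynomial.coe_evalRingHom, Polynomial.eval_mul,
      Polynomial.eval_X, Polynomial.eval_C, Polynomial.eval_pow]
    congr 2
    by_cases hij : i = j
    · subst hij; simp
    · simp [Matrix.one_apply_ne hij]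
  have hp0 : p ≠ 0 := by
    intro h0
    have := hp 0
    rw [h0] at this
    simp at this
  refine (GenC.of_poly p hp0).mono fun c hc => ?_
  rw [hp] at hc
  have hcomp : LinearMap.toMatrix b b (L ∘ₗ (D0 + c • D1 + c ^ 2 • D2)) =
      1 + c • M1 + c ^ 2 • M2 := by
    rw [LinearMap.comp_add, LinearMap.comp_add, LinearMap.comp_smul, LinearMap.comp_smul, hL]
    simp [M1, M2]
  have hunit : IsUnit (L ∘ₗ (D0 + c • D1 + c ^ 2 • D2)) := by
    rw [LinearMap.isUnit_iff_isUnit_det, ← LinearMap.det_toMatrix b, hcomp]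
    exact hc.isUnit
  have hinj : Function.Injective (L ∘ₗ (D0 + c • D1 + c ^ 2 • D2)) :=
    ((Module.End.isUnit_iff _).mp hunit).1
  exact Function.Injective.of_comp (f := L) hinj

/-- if moreover `D0 g = 0` and `D1 g` is not in the range of `D0`, the kernel gets smaller -/
theorem gen_finrank_ker_le (D0 D1 D2 : S →ₗ[k] W) :
    GenC fun c : k => finrank k (LinearMap.ker (D0 + c • D1 + c ^ 2 • D2)) ≤
      finrank k (LinearMap.ker D0) := by
  obtain ⟨C, hC⟩ := Submodule.exists_isCompl (LinearMap.ker D0)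
  have h0 : Function.Injective (D0.domRestrict C) := by
    rw [← LinearMap.ker_eq_bot, LinearMap.ker_eq_bot']
    intro x hx
    have h1 : (x : S) ∈ LinearMap.ker D0 ⊓ C := ⟨hx, x.2⟩
    rw [hC.inf_eq_bot, Submodule.mem_bot] at h1
    exact Subtype.ext h1
  refine (gen_injective (D0.domRestrict C) (D1.domRestrict C) (D2.domRestrict C) h0).mono
    fun c hc => ?_
  set K := LinearMap.ker (D0 + c • D1 + c ^ 2 • D2) with hK
  have hdisj : K ⊓ C = ⊥ := by
    rw [eq_bot_iff]
    rintro x ⟨hx1, hx2⟩
    have h3 : (D0.domRestrict C + c • D1.domRestrict C + c ^ 2 • D2.domRestrict C) ⟨x, hx2⟩ = 0 := hx1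
    have h4 := hc (h3.trans (map_zero _).symm)
    exact (Submodule.mem_bot k).mpr (congrArg Subtype.val h4)
  have h5 := Submodule.finrank_sup_add_finrank_inf_eq K C
  rw [hdisj, finrank_bot, add_zero] at h5
  have h6 := Submodule.finrank_le (K ⊔ C)
  have h7 := Submodule.finrank_add_eq_of_isCompl hC
  omega

theorem gen_finrank_ker_lt (D0 D1 D2 : S →ₗ[k] W) (g : S) (hg : D0 g = 0)
    (hg1 : D1 g ∉ LinearMap.range D0) :
    GenC fun c : k => finrank k (LinearMap.ker (D0 + c • D1 + c ^ 2 • D2)) <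
      finrank k (LinearMap.ker D0) := by
  classical
  obtain ⟨C, hC⟩ := Submodule.exists_isCompl (LinearMap.ker D0)
  -- the modified family on `C × k`
  let i : (C × k) →ₗ[k] S := C.subtype.coprod (LinearMap.toSpanSingleton k S g)
  let F0 : (C × k) →ₗ[k] W := (D0.domRestrict C).coprod (LinearMap.toSpanSingleton k W (D1 g))
  let F1 : (C × k) →ₗ[k] W := (D1.domRestrict C).coprod (LinearMap.toSpanSingleton k W (D2 g))
  let F2 : (C × k) →ₗ[k] W := (D2.domRestrict C).coprod (LinearMap.toSpanSingleton k W 0)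
  have h0 : Function.Injective F0 := by
    rw [← LinearMap.ker_eq_bot, LinearMap.ker_eq_bot']
    rintro ⟨x, a⟩ hx
    have hx' : D0 x + a • D1 g = 0 := hx
    have ha : a = 0 := by
      by_contra ha
      apply hg1
      refine ⟨-(a⁻¹ • (x : S)), ?_⟩
      rw [map_neg, map_smul, eq_neg_of_add_eq_zero_left hx', smul_neg, neg_neg, smul_smul,
        inv_mul_cancel₀ ha, one_smul]
    subst ha
    have h1 : (x : S) ∈ LinearMap.ker D0 ⊓ C := ⟨by simpa using hx', x.2⟩
    rw [hC.inf_eq_bot, Submodule.mem_bot] at h1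
    exact Prod.ext (Subtype.ext h1) rfl
  have hX : GenC fun c : k => c ≠ 0 := ⟨{0}, fun c hc => by simpa using hc⟩
  refine ((gen_injective F0 F1 F2 h0).and hX).mono fun c hc => ?_
  obtain ⟨hc, hc0⟩ := hc
  set K := LinearMap.ker (D0 + c • D1 + c ^ 2 • D2) with hK
  -- `C + k g` meets `K` trivially
  have hval : ∀ (x : C) (a : k), (D0 + c • D1 + c ^ 2 • D2) ((x : S) + a • g) =
      (F0 + c • F1 + c ^ 2 • F2) (x, c * a) := by
    intro x a
    simp only [F0, F1, F2, LinearMap.add_apply, LinearMap.smul_apply, LinearMap.coprod_apply,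
      LinearMap.toSpanSingleton_apply, LinearMap.domRestrict_apply, map_add, map_smul, hg,
      smul_zero, add_zero]
    module
  have hdisj : K ⊓ (C ⊔ Submodule.span k {g}) = ⊥ := by
    rw [eq_bot_iff]
    rintro s ⟨hx1, hx2⟩
    obtain ⟨x, hx, y, hy, rfl⟩ := Submodule.mem_sup.mp hx2
    obtain ⟨a, rfl⟩ := Submodule.mem_span_singleton.mp hy
    have h3 : (D0 + c • D1 + c ^ 2 • D2) (x + a • g) = 0 := hx1
    rw [hval ⟨x, hx⟩ a] at h3
    have h4 := hc (h3.trans (map_zero _).symm)
    have h5 := congrArg Prod.fst h4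
    have h6 : x = 0 := congrArg Subtype.val h5
    have h7 : c * a = 0 := congrArg Prod.snd h4
    have h8 : a = 0 := by
      rcases mul_eq_zero.mp h7 with h | h
      · exact absurd h hc0
      · exact h
    rw [h6, h8]; simp
  have hCg : finrank k (C ⊔ Submodule.span k {g} : Submodule k S) = finrank k C + 1 := by
    have hg0 : g ≠ 0 := by
      rintro rfl
      exact hg1 ⟨0, by simp⟩
    have hd : C ⊓ Submodule.span k {g} = ⊥ := by
      rw [eq_bot_iff]
      rintro s ⟨h1, h2⟩
      obtain ⟨a, rfl⟩ := Submodule.mem_span_singleton.mp h2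
      have h3 : a • g ∈ LinearMap.ker D0 ⊓ C := ⟨by simp [hg], h1⟩
      rw [hC.inf_eq_bot] at h3
      exact h3
    have h := Submodule.finrank_sup_add_finrank_inf_eq C (Submodule.span k {g})
    rw [hd, finrank_bot, add_zero, finrank_span_singleton hg0] at h
    exact h
  have h5 := Submodule.finrank_sup_add_finrank_inf_eq K (C ⊔ Submodule.span k {g})
  rw [hdisj, finrank_bot, add_zero, hCg] at h5
  have h6 := Submodule.finrank_le (K ⊔ (C ⊔ Submodule.span k {g}))
  have h7 := Submodule.finrank_add_eq_of_isCompl hC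
  omega

end poly

section term

variable {k : Type*} [Field k] {κ : Type*} {T : Type*} [AddCommGroup T] [Module k T]

/-- the vectors without components of degree `> j` -/
def Fil (k : Type*) [Field k] {κ : Type*} (deg : κ → ℕ) (j : ℕ) : Submodule k (κ → k) where
  carrier := {u | ∀ a, j < deg a → u a = 0}
  zero_mem' := fun _ _ => rfl
  add_mem' := fun {u v} hu hv a ha => by
    rw [Pi.add_apply, hu a ha, hv a ha, add_zero]
  smul_mem' := fun c u hu a ha => by
    rw [Pi.smul_apply, hu a ha, smul_zero]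

lemma mem_Fil {deg : κ → ℕ} {j : ℕ} {u : κ → k} : u ∈ Fil k deg j ↔ ∀ a, j < deg a → u a = 0 :=
  Iff.rfl

/-- the vectors whose image has no component of degree `> j` -/
def Kf (deg : κ → ℕ) (i : T →ₗ[k] (κ → k)) (j : ℕ) : Submodule k T := (Fil k deg j).comap i

lemma mem_Kf {deg : κ → ℕ} {i : T →ₗ[k] (κ → k)} {j : ℕ} {g : T} :
    g ∈ Kf deg i j ↔ ∀ a, j < deg a → i g a = 0 := Iff.rfl

lemma Kf_mono {deg : κ → ℕ} {i : T →ₗ[k] (κ → k)} {j j' : ℕ} (h : j ≤ j') :
    Kf deg i j ≤ Kf deg i j' := fun _ hg a ha => hg a (lt_of_le_of_lt h ha)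

open Classical in
/-- number of `j < 5` with `K_j = K_5` -/
def hgt (deg : κ → ℕ) (i : T →ₗ[k] (κ → k)) : ℕ :=
  ((Finset.range 5).filter fun j => Kf deg i j = Kf deg i 5).card

/-- the measure -/
def meas (deg : κ → ℕ) (i : T →ₗ[k] (κ → k)) : ℕ :=
  6 * finrank k (Kf deg i 5) + hgt deg i

/-- restriction to the components with `p` -/
def prj (k : Type*) [Field k] {κ : Type*} (p : κ → Prop) [DecidablePred p] :
    (κ → k) →ₗ[k] (κ → k) where
  toFun u := fun a => if p a then u a else 0
  map_add' u v := by funext a; by_cases h : p a <;> simp [h]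
  map_smul' c u := by funext a; by_cases h : p a <;> simp [h]

lemma prj_apply (p : κ → Prop) [DecidablePred p] (u : κ → k) (a : κ) :
    prj k p u a = if p a then u a else 0 := rfl

lemma Kf_five_eq_ker (deg : κ → ℕ) (i : T →ₗ[k] (κ → k)) :
    Kf deg i 5 = LinearMap.ker (prj k (fun a => 5 < deg a) ∘ₗ i) := by
  ext g
  rw [mem_Kf, LinearMap.mem_ker]
  constructor
  · intro h
    funext a
    rw [LinearMap.comp_apply, prj_apply]
    split_ifs with ha
    · exact h a ha
    · rfl
  · intro h a ha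
    have := congrFun h a
    rw [LinearMap.comp_apply, prj_apply, if_pos ha] at this
    exact this

variable {P : Type*} [AddCommGroup P] [Module k P]

/-- the move `1 + c E + (c²/2) E²` -/
def Mv (E : P →ₗ[k] P →ₗ[k] P →ₗ[k] Module.End k (κ → k)) (x y z : P) (c : k) :
    Module.End k (κ → k) :=
  1 + c • E x y z + (c ^ 2 / 2) • (E x y z * E x y z)

lemma Mv_apply (E : P →ₗ[k] P →ₗ[k] P →ₗ[k] Module.End k (κ → k)) (x y z : P) (c : k)
    (u : κ → k) (a : κ) :
    Mv E x y z c u a = u a + c * E x y z u a + c ^ 2 / 2 * E x y z (E x y z u) a := by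
  simp [Mv, smul_eq_mul]

/-- homogeneous of degree one -/
def Hom1 (deg : κ → ℕ) (E : P →ₗ[k] P →ₗ[k] P →ₗ[k] Module.End k (κ → k)) : Prop :=
  ∀ x y z (u : κ → k) (a : κ), (∀ b, deg b + 1 = deg a → u b = 0) → E x y z u a = 0

variable [FiniteDimensional k T]

/-- **Termination step** -/
theorem gen_meas_lt (deg : κ → ℕ) (hdeg : ∀ a, deg a ≤ 6)
    (E : P →ₗ[k] P →ₗ[k] P →ₗ[k] Module.End k (κ → k)) (hE : Hom1 deg E)
    (H1 : ∀ j, j ≤ 4 → ∀ u : κ → k, (∀ a, deg a ≠ j → u a = 0) → u ≠ 0 →
      ∃ x y z, E x y z u ≠ 0)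
    (H2 : ∀ u : κ → k, (∀ a, deg a ≠ 5 → u a = 0) → u ≠ 0 → ∀ A : Submodule k (κ → k),
      finrank k A ≤ 4 → ∃ x y z, E x y z u ∉ A)
    (H3 : ∀ x y z (u : κ → k), (∀ a, deg a ≠ 4 → u a = 0) → E x y z (E x y z u) = 0)
    (i : T →ₗ[k] (κ → k)) (hi : Function.Injective i)
    (hT : 4 < finrank k T)
    (hr : finrank k (LinearMap.range (prj k (fun a => 5 < deg a) ∘ₗ i)) ≤ 4) :
    GenK (k := k) fun x => GenK (k := k) fun y => GenK (k := k) fun z => GenC fun c =>
      meas deg (Mv E x y z c ∘ₗ i) < meas deg i := by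
  classical
  set D0 := prj k (fun a => 5 < deg a) ∘ₗ i with hD0
  -- the degree 6 part of the moved map
  have hD : ∀ x y z c, prj k (fun a => 5 < deg a) ∘ₗ (Mv E x y z c ∘ₗ i) =
      D0 + c • (prj k (fun a => 5 < deg a) ∘ₗ E x y z ∘ₗ i) +
        c ^ 2 • ((2 : k)⁻¹ • (prj k (fun a => 5 < deg a) ∘ₗ E x y z ∘ₗ E x y z ∘ₗ i)) := by
    intro x y z c
    ext g a
    simp only [hD0, LinearMap.comp_apply, LinearMap.add_apply, LinearMap.smul_apply, Pi.add_apply,
      Pi.smul_apply, prj_apply, smul_eq_mul, Mv_apply]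
    split_ifs with h
    · ring
    · simp
  have hker : finrank k (LinearMap.range D0) + finrank k (LinearMap.ker D0) = finrank k T :=
    LinearMap.finrank_range_add_finrank_ker D0
  by_cases hJ : Kf deg i 4 = Kf deg i 5
  · -- raise the top degree
    obtain ⟨J, hJmin⟩ : ∃ J, J ≤ 4 ∧ Kf deg i J = Kf deg i 5 ∧
        ∀ j, j < J → Kf deg i j ≠ Kf deg i 5 := by
      have hex : ∃ j, Kf deg i j = Kf deg i 5 := ⟨4, hJ⟩
      exact ⟨Nat.find hex, Nat.find_min' hex hJ, Nat.find_spec hex, fun j hj => Nat.find_min hex hj⟩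
    obtain ⟨hJ4, hJeq, hJlt⟩ := hJmin
    have hne : Kf deg i 5 ≠ ⊥ := by
      intro h0
      have : finrank k (LinearMap.ker D0) = 0 := by
        rw [← Kf_five_eq_ker, h0, finrank_bot]
      omega
    -- a vector with a component of degree exactly `J`
    obtain ⟨g, hg5, a, ha, hga⟩ : ∃ g ∈ Kf deg i 5, ∃ a, deg a = J ∧ i g a ≠ 0 := by
      rcases Nat.eq_zero_or_pos J with h0 | hpos
      · obtain ⟨g, hg, hg0⟩ := Submodule.exists_mem_ne_zero_of_ne_bot hne
        have h1 : i g ≠ 0 := fun h => hg0 (hi (h.trans (map_zero i).symm))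
        obtain ⟨a, ha⟩ := Function.ne_iff.mp h1
        refine ⟨g, hg, a, ?_, ha⟩
        by_contra hne'
        rw [← hJeq] at hg
        exact ha (hg a (by omega))
      · have h1 := hJlt (J - 1) (by omega)
        have h2 : Kf deg i (J - 1) ≤ Kf deg i 5 := Kf_mono (by omega)
        obtain ⟨g, hg, hg'⟩ := SetLike.exists_of_lt (lt_of_le_of_ne h2 h1)
        have h3 : ¬ ∀ a, J - 1 < deg a → i g a = 0 := hg'
        push Not at h3
        obtain ⟨a, ha, hga⟩ := h3
        refine ⟨g, hg, a, ?_, hga⟩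
        by_contra hne'
        rw [← hJeq] at hg
        exact hga (hg a (by omega))
    have hgJ : ∀ b, J < deg b → i g b = 0 := by
      rw [← hJeq] at hg5; exact hg5
    let uJ : κ → k := prj k (fun b => deg b = J) (i g)
    have huJ : ∀ b, deg b ≠ J → uJ b = 0 := fun b hb => by
      change prj k (fun b => deg b = J) (i g) b = 0
      rw [prj_apply, if_neg hb]
    have huJ' : ∀ b, deg b = J → uJ b = i g b := fun b hb => by
      change prj k (fun b => deg b = J) (i g) b = _
      rw [prj_apply, if_pos hb]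
    have huJ0 : uJ ≠ 0 := fun h => hga (by rw [← huJ' a ha, h]; rfl)
    let ψ : P →ₗ[k] P →ₗ[k] P →ₗ[k] (κ → k) :=
      E.compr₂ (LinearMap.compRight k (LinearMap.applyₗ uJ))
    have hψ : ∀ x y z, ψ x y z = E x y z uJ := fun x y z => rfl
    obtain ⟨x0, y0, z0, h0⟩ := H1 J hJ4 uJ huJ huJ0
    refine (gen_trilinear ψ ⟨x0, y0, z0, h0⟩).mono fun x hx => hx.mono fun y hy =>
      hy.mono fun z hz => ?_
    rw [hψ] at hz
    obtain ⟨b, hb⟩ := Function.ne_iff.mp hz
    have hbJ : deg b = J + 1 := by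
      by_contra hne'
      exact hb (hE x y z uJ b fun b' hb' => huJ b' (by omega))
    -- the component `b` of the moved vector
    have hEb : E x y z (i g) b = E x y z uJ b := by
      have h1 : E x y z (i g - uJ) b = 0 := hE x y z _ b fun b' hb' => by
        rw [Pi.sub_apply, huJ' b' (by omega), sub_self]
      rw [map_sub, Pi.sub_apply, sub_eq_zero] at h1
      exact h1
    have hgenb : GenC fun c : k => Mv E x y z c (i g) b ≠ 0 := by
      let p : Polynomial k := Polynomial.C (E x y z (i g) b) * Polynomial.X +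
        Polynomial.C (E x y z (E x y z (i g)) b / 2) * Polynomial.X ^ 2
      have hp : p ≠ 0 := by
        intro h
        have := congrArg (fun q => Polynomial.coeff q 1) h
        simp only [p, Polynomial.coeff_add, Polynomial.coeff_C_mul, Polynomial.coeff_X_one,
          Polynomial.coeff_X_pow, Polynomial.coeff_zero] at this
        norm_num at this
        exact hb (by rw [← hEb]; exact this)
      refine (GenC.of_poly p hp).mono fun c hc => ?_
      rw [Mv_apply, hgJ b (by omega)]
      simp only [p, Polynomial.eval_add, Polynomial.eval_mul, Polynomial.eval_C,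
        Polynomial.eval_X, Polynomial.eval_pow] at hc
      intro h
      apply hc
      rw [← h]; ring
    have hgenr := gen_finrank_ker_le D0 (prj k (fun a => 5 < deg a) ∘ₗ E x y z ∘ₗ i)
      ((2 : k)⁻¹ • (prj k (fun a => 5 < deg a) ∘ₗ E x y z ∘ₗ E x y z ∘ₗ i))
    refine (hgenb.and hgenr).mono fun c hc => ?_
    obtain ⟨hc1, hc2⟩ := hc
    set i' := Mv E x y z c ∘ₗ i with hi'
    have hfin : finrank k (Kf deg i' 5) ≤ finrank k (Kf deg i 5) := by
      rw [Kf_five_eq_ker, Kf_five_eq_ker, hi', hD]; exact hc2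
    -- `g` is in `K'_5`
    have hg5' : g ∈ Kf deg i' 5 := by
      intro e he
      have he6 : deg e = 6 := by have := hdeg e; omega
      change Mv E x y z c (i g) e = 0
      rw [Mv_apply, hg5 e he]
      have h1 : E x y z (i g) e = 0 := hE x y z _ e fun b' hb' => hgJ b' (by omega)
      have h2 : E x y z (E x y z (i g)) e = 0 := by
        let u4 : κ → k := prj k (fun b => deg b = 4) (i g)
        have h3 : E x y z (E x y z u4) = 0 := H3 x y z u4 fun b' hb' => by
          change prj k (fun b => deg b = 4) (i g) b' = 0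
          rw [prj_apply, if_neg hb']
        have h4 : E x y z (E x y z (i g - u4)) e = 0 := hE x y z _ e fun b' hb' =>
          hE x y z _ b' fun b'' hb'' => by
            rw [Pi.sub_apply]
            change i g b'' - prj k (fun b => deg b = 4) (i g) b'' = 0
            rw [prj_apply, if_pos (by omega), sub_self]
        rw [map_sub, map_sub, Pi.sub_apply, h3] at h4
        simpa using h4
      rw [h1, h2]; ring
    have hgJ' : g ∉ Kf deg i' J := fun h => hc1 (h b (by omega))
    have hh : hgt deg i' < hgt deg i := by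
      have e1 : hgt deg i' ≤ ((Finset.range 5).filter fun j => J < j).card := by
        apply Finset.card_le_card
        intro j hj
        rw [Finset.mem_filter] at hj ⊢
        refine ⟨hj.1, ?_⟩
        by_contra hle
        apply hgJ'
        have h1 : g ∈ Kf deg i' j := by rw [hj.2]; exact hg5'
        exact Kf_mono (by omega) h1
      have e2 : ((Finset.range 5).filter fun j => J ≤ j).card ≤ hgt deg i := by
        apply Finset.card_le_card
        intro j hj
        rw [Finset.mem_filter, Finset.mem_range] at hj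
        rw [Finset.mem_filter, Finset.mem_range]
        refine ⟨hj.1, le_antisymm (Kf_mono (by omega)) ?_⟩
        rw [← hJeq]
        exact Kf_mono hj.2
      have e3 : ((Finset.range 5).filter fun j => J < j).card <
          ((Finset.range 5).filter fun j => J ≤ j).card := by
        apply Finset.card_lt_card
        refine ⟨fun j hj => ?_, fun hsub => ?_⟩
        · rw [Finset.mem_filter] at hj ⊢; exact ⟨hj.1, hj.2.le⟩
        · have h1 : J ∈ (Finset.range 5).filter fun j => J ≤ j := by
            rw [Finset.mem_filter, Finset.mem_range]; exact ⟨by omega, le_rfl⟩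
          have h2 := hsub h1
          rw [Finset.mem_filter] at h2
          exact lt_irrefl _ h2.2
      omega
    unfold meas
    omega
  · -- raise the rank
    have h2 : Kf deg i 4 ≤ Kf deg i 5 := Kf_mono (by omega)
    obtain ⟨g, hg5, hg4⟩ := SetLike.exists_of_lt (lt_of_le_of_ne h2 hJ)
    have h3 : ¬ ∀ a, 4 < deg a → i g a = 0 := hg4
    push Not at h3
    obtain ⟨a, ha, hga⟩ := h3
    have ha5 : deg a = 5 := by
      by_contra hne'
      exact hga (hg5 a (by omega))
    let u5 : κ → k := prj k (fun b => deg b = 5) (i g)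
    have hu5 : ∀ b, deg b ≠ 5 → u5 b = 0 := fun b hb => by
      change prj k (fun b => deg b = 5) (i g) b = 0
      rw [prj_apply, if_neg hb]
    have hu5' : ∀ b, deg b = 5 → u5 b = i g b := fun b hb => by
      change prj k (fun b => deg b = 5) (i g) b = _
      rw [prj_apply, if_pos hb]
    have hu50 : u5 ≠ 0 := fun h => hga (by rw [← hu5' a ha5, h]; rfl)
    let A := LinearMap.range D0
    obtain ⟨x0, y0, z0, h0⟩ := H2 u5 hu5 hu50 A hr
    let ψ : P →ₗ[k] P →ₗ[k] P →ₗ[k] ((κ → k) ⧸ A) :=
      E.compr₂ (LinearMap.compRight k (A.mkQ ∘ₗ LinearMap.applyₗ u5))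
    have hψ : ∀ x y z, ψ x y z = A.mkQ (E x y z u5) := fun x y z => rfl
    refine (gen_trilinear ψ ⟨x0, y0, z0, ?_⟩).mono fun x hx => hx.mono fun y hy =>
      hy.mono fun z hz => ?_
    · rw [hψ]; intro h; exact h0 ((Submodule.Quotient.mk_eq_zero A).mp h)
    have hz' : E x y z u5 ∉ A := by
      intro h; apply hz; rw [hψ]; exact (Submodule.Quotient.mk_eq_zero A).mpr h
    have hE5 : (prj k (fun a => 5 < deg a) ∘ₗ E x y z ∘ₗ i) g = E x y z u5 := by
      funext e
      simp only [LinearMap.comp_apply, prj_apply]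
      split_ifs with he
      · have h1 : E x y z (i g - u5) e = 0 := hE x y z _ e fun b' hb' => by
          have := hdeg e
          rw [Pi.sub_apply, hu5' b' (by omega), sub_self]
        rw [map_sub, Pi.sub_apply, sub_eq_zero] at h1
        exact h1
      · exact (hE x y z _ e fun b' hb' => hu5 b' (by omega)).symm
    have hgD : D0 g = 0 := by
      have : g ∈ LinearMap.ker D0 := by rw [← Kf_five_eq_ker]; exact hg5
      exact this
    have hgenr := gen_finrank_ker_lt D0 (prj k (fun a => 5 < deg a) ∘ₗ E x y z ∘ₗ i)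
      ((2 : k)⁻¹ • (prj k (fun a => 5 < deg a) ∘ₗ E x y z ∘ₗ E x y z ∘ₗ i)) g hgD
      (by rw [hE5]; exact hz')
    refine hgenr.mono fun c hc => ?_
    have hfin : finrank k (Kf deg (Mv E x y z c ∘ₗ i) 5) < finrank k (Kf deg i 5) := by
      rw [Kf_five_eq_ker, Kf_five_eq_ker, hD]; exact hc
    have hh : hgt deg (Mv E x y z c ∘ₗ i) ≤ 5 := by
      unfold hgt
      exact (Finset.card_filter_le _ _).trans (by simp)
    unfold meas
    omega

end term

end Pool.Agent.Licci
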