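import Pool.Agent.Work.MP_a98e4e_ag.Descent
import Pool.Agent.Work.MP_a98e4e_ag.Term

/-!
MP_a98e4e_ag (licci, codimension 4), module (4b') (helper43): reduction modulo the maximal ideal of
the data of a state; the rank of `d(m)` is at most 4 if the ideal has grade 4; the hypothesis
`hdesc` of `licci_of_descent` from `gen_meas_lt`.
-/

set_option autoImplicit false

noncomputable section

namespace Pool.Agent.Licci

open IsLocalRing RingTheory.Sequence LicciCodimFour Module

section red

universe u

variable {R : Type u} [CommRing R] [IsLocalRing R]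

lemma redSub_mono {ι : Type*} {N N' : Submodule R (ι → R)} (h : N ≤ N') :
    redSub N ≤ redSub N' := by
  rintro _ ⟨a, ha, rfl⟩
  exact ⟨a, h ha, rfl⟩

/-- reduction of a linear map between finite free modules -/
def redMap {τ κ : Type*} [Fintype τ] [DecidableEq τ] (g : (τ → R) →ₗ[R] (κ → R)) :
    (τ → ResidueField R) →ₗ[ResidueField R] (κ → ResidueField R) :=
  Fintype.linearCombination (ResidueField R) (fun j => red (g (Pi.single j 1)))

lemma redMap_red {τ κ : Type*} [Fintype τ] [DecidableEq τ] (g : (τ → R) →ₗ[R] (κ → R))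
    (v : τ → R) : redMap g (red v) = red (g v) := by
  have h1 : g v = ∑ j, v j • g (Pi.single j 1) := by
    conv_lhs => rw [← Finset.univ_sum_single v, map_sum]
    refine Finset.sum_congr rfl fun j _ => ?_
    have : (Pi.single j (v j) : τ → R) = v j • Pi.single j 1 := by
      rw [← Pi.single_smul]; simp
    rw [this, map_smul]
  rw [h1, redMap, Fintype.linearCombination_apply]
  funext a
  simp [red, Finset.sum_apply, map_sum]

lemma redMap_unique {τ κ : Type*} [Fintype τ] [DecidableEq τ] (g : (τ → R) →ₗ[R] (κ → R))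
    (h : (τ → ResidueField R) →ₗ[ResidueField R] (κ → ResidueField R))
    (hh : ∀ v, h (red v) = red (g v)) : redMap g = h := by
  apply LinearMap.ext
  intro w
  obtain ⟨v, rfl⟩ := red_surjective w
  rw [redMap_red, hh]

lemma redSub_range {τ κ : Type*} [Fintype τ] [DecidableEq τ] (g : (τ → R) →ₗ[R] (κ → R)) :
    redSub (LinearMap.range g) = LinearMap.range (redMap g) := by
  ext w
  constructor
  · rintro ⟨_, ⟨v, rfl⟩, rfl⟩
    exact ⟨red v, redMap_red g v⟩
  · rintro ⟨w', rfl⟩
    obtain ⟨v, rfl⟩ := red_surjective w'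
    exact ⟨g v, ⟨v, rfl⟩, (redMap_red g v).symm⟩

lemma GenK.gen1 {ι : Type*} {Q : (ι → ResidueField R) → Prop}
    (h : GenK (k := ResidueField R) Q) : Gen1 fun a : ι → R => Q (red a) := by
  obtain ⟨S, hS, h1⟩ := h
  exact ⟨S, hS, fun a ha => h1 (red a) ha⟩

lemma GenC.genS {Q : ResidueField R → Prop} (h : GenC Q) : GenS fun c : R => Q (residue R c) := by
  obtain ⟨S, h1⟩ := h
  exact ⟨S, fun c hc => h1 _ hc⟩

end red

section rank

universe u

variable {R : Type u} [CommRing R] [IsLocalRing R] [IsNoetherianRing R]
  [Infinite (ResidueField R)]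

/-- an ideal with three generators does not contain a regular sequence of length four. -/
theorem three_gen (f : (Fin 3 → R) →ₗ[R] R) (hI : ∀ v, f v ∈ maximalIdeal R)
    (hgr : ∃ rs : List R, rs.length = 4 ∧ (∀ y ∈ rs, y ∈ LinearMap.range f) ∧ IsRegular R rs) :
    False := by
  classical
  have hq := gen_quad f hI hgr
  -- `x ≠ 0`, `y ∉ k x`, `z ∉ k x + k y`
  have hx0 : Gen1 fun x : Fin 3 → R => red x ∉ (⊥ : Submodule (ResidueField R) _) := by
    refine ⟨{⊥}, ?_, fun a ha => ha ⊥ (by simp)⟩
    intro V hV
    rw [Finset.mem_singleton] at hV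
    subst hV
    exact bot_ne_top
  obtain ⟨x, ⟨_, hx⟩, hxb⟩ := (hq.and hx0).exists
  have hy0 : Gen1 fun y : Fin 3 → R => red y ∉ Submodule.span (ResidueField R) {red x} := by
    refine ⟨{Submodule.span (ResidueField R) {red x}}, ?_, fun a ha => ha _ (by simp)⟩
    intro V hV
    rw [Finset.mem_singleton] at hV
    subst hV
    intro htop
    have h1 := finrank_span_le_card (R := ResidueField R) ({red x} : Set (Fin 3 → ResidueField R))
    rw [htop, finrank_top] at h1
    simp at h1
  obtain ⟨y, ⟨_, hy⟩, hyb⟩ := (hx.and hy0).exists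
  have hz0 : Gen1 fun z : Fin 3 → R => red z ∉ Submodule.span (ResidueField R) {red x, red y} := by
    refine ⟨{Submodule.span (ResidueField R) {red x, red y}}, ?_, fun a ha => ha _ (by simp)⟩
    intro V hV
    rw [Finset.mem_singleton] at hV
    subst hV
    intro htop
    have h1 := finrank_span_finset_le_card (R := ResidueField R)
      ({red x, red y} : Finset (Fin 3 → ResidueField R))
    have h2 : ((({red x, red y} : Finset (Fin 3 → ResidueField R)) :
      Set (Fin 3 → ResidueField R))) = {red x, red y} := by simp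
    have h4 := Finset.card_le_two (a := red x) (b := red y)
    rw [Set.finrank, h2, htop, finrank_top] at h1
    simp at h1
    omega
  obtain ⟨z, ⟨_, hz⟩, hzb⟩ := (hy.and hz0).exists
  obtain ⟨w, hw⟩ := hz.exists
  -- `x, y, z` generate `R ^ 3`
  have htop : Submodule.span R {x, y, z} = ⊤ := by
    apply eq_top_of_redSub_eq_top
    let V1 := Submodule.span (ResidueField R) {red x}
    let V2 := Submodule.span (ResidueField R) {red x, red y}
    let V3 := redSub (Submodule.span R {x, y, z})
    have l01 : (⊥ : Submodule (ResidueField R) (Fin 3 → ResidueField R)) < V1 :=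
      lt_of_le_of_ne bot_le fun h => hxb (by
        rw [h]; exact Submodule.mem_span_singleton_self _)
    have l12 : V1 < V2 := by
      refine lt_of_le_of_ne (Submodule.span_mono (by intro t ht; simp_all)) fun h => hyb ?_
      change red y ∈ V1
      rw [h]
      exact Submodule.subset_span (by simp)
    have hxV : red x ∈ V3 := red_mem_redSub (Submodule.subset_span (by simp))
    have hyV : red y ∈ V3 := red_mem_redSub (Submodule.subset_span (by simp))
    have hzV : red z ∈ V3 := red_mem_redSub (Submodule.subset_span (by simp))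
    have l23 : V2 < V3 := by
      refine lt_of_le_of_ne ?_ fun h => hzb ?_
      · rw [Submodule.span_le]
        rintro t (rfl | rfl)
        exacts [hxV, hyV]
      · change red z ∈ V2
        rw [h]; exact hzV
    have f1 := Submodule.finrank_lt_finrank_of_lt l01
    have f2 := Submodule.finrank_lt_finrank_of_lt l12
    have f3 := Submodule.finrank_lt_finrank_of_lt l23
    apply Submodule.eq_top_of_finrank_eq
    have f4 := Submodule.finrank_le V3
    have f5 : finrank (ResidueField R) (Fin 3 → ResidueField R) = 3 := by simp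
    change finrank (ResidueField R) V3 = finrank (ResidueField R) (Fin 3 → ResidueField R)
    omega
  have h3 := (isWeaklyRegular_concat_iff (α := [f x, f y, f z]).mp hw).2
  have h4 : f w ∈ Ideal.ofList [f x, f y, f z] := by
    have h5 : w ∈ Submodule.span R {x, y, z} := by rw [htop]; trivial
    obtain ⟨a, b, c, habc⟩ := Submodule.mem_span_triple.mp h5
    rw [← habc, map_add, map_add, map_smul, map_smul, map_smul]
    have hm : ∀ t ∈ [f x, f y, f z], t ∈ Ideal.ofList [f x, f y, f z] := fun t ht =>
      Ideal.subset_span ht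
    exact Ideal.add_mem _ (Ideal.add_mem _ (Ideal.mul_mem_left _ _ (hm _ (by simp)))
      (Ideal.mul_mem_left _ _ (hm _ (by simp)))) (Ideal.mul_mem_left _ _ (hm _ (by simp)))
  have h6 : (1 : R) ∈ Ideal.ofList [f x, f y, f z] := h3 1 (by rwa [mul_one])
  have h7 : Ideal.ofList [f x, f y, f z] ≤ maximalIdeal R := by
    rw [Ideal.ofList, Ideal.span_le]
    intro t ht
    simp only [List.mem_cons, List.not_mem_nil, or_false, Set.mem_ofPred_eq] at ht
    rcases ht with rfl | rfl | rfl <;> exact hI _
  exact (IsLocalRing.mem_maximalIdeal _).mp (h7 h6) isUnit_one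

/-- the rank of the relations modulo the maximal ideal -/
theorem finrank_redSub_le {n : ℕ} (f : (Fin n → R) →ₗ[R] R) (hI : ∀ v, f v ∈ maximalIdeal R)
    (hgr : ∃ rs : List R, rs.length = 4 ∧ (∀ y ∈ rs, y ∈ LinearMap.range f) ∧ IsRegular R rs)
    (D : Submodule R (Fin n → R)) (hD : D ≤ LinearMap.ker f) :
    finrank (ResidueField R) (redSub D) + 4 ≤ n := by
  classical
  by_contra hcon
  obtain ⟨C, hC⟩ := Submodule.exists_isCompl (redSub D)
  have h1 := Submodule.finrank_add_eq_of_isCompl hC
  have h2 : finrank (ResidueField R) (Fin n → ResidueField R) = n := by simp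
  have h3 : finrank (ResidueField R) C ≤ 3 := by omega
  -- three vectors spanning `C`
  obtain ⟨c, hc⟩ : ∃ c : Fin 3 → (Fin n → ResidueField R), C ≤ Submodule.span (ResidueField R) (Set.range c) := by
    let b := Module.finBasis (ResidueField R) C
    refine ⟨fun i => if h : (i : ℕ) < finrank (ResidueField R) C then ((b ⟨i, h⟩ : C) : Fin n → ResidueField R) else 0, ?_⟩
    intro t ht
    have h4 := b.sum_repr ⟨t, ht⟩
    have h5 : t = ∑ i, (b.repr ⟨t, ht⟩ i) • ((b i : C) : Fin n → ResidueField R) := by
      have := congrArg C.subtype h4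
      rw [map_sum] at this
      simpa only [map_smul, Submodule.subtype_apply] using this.symm
    rw [h5]
    refine Submodule.sum_mem _ fun i _ => Submodule.smul_mem _ _ (Submodule.subset_span ?_)
    refine ⟨⟨i, lt_of_lt_of_le i.2 h3⟩, ?_⟩
    simp
  choose c' hc' using fun i => red_surjective (R := R) (c i)
  let g : (Fin 3 → R) →ₗ[R] (Fin n → R) := Fintype.linearCombination R c'
  have hg : ∀ i, g (Pi.single i 1) = c' i := fun i => by
    simp [g, Fintype.linearCombination_apply, Pi.single_apply]
  have htop : D ⊔ LinearMap.range g = ⊤ := by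
    apply eq_top_of_redSub_eq_top
    rw [eq_top_iff, ← hC.sup_eq_top]
    refine sup_le (redSub_mono le_sup_left) (hc.trans ?_)
    rw [Submodule.span_le]
    rintro _ ⟨i, rfl⟩
    rw [← hc' i]
    exact red_mem_redSub (Submodule.mem_sup_right ⟨_, hg i⟩)
  -- the range of `f` is generated by three elements
  refine three_gen (f ∘ₗ g) (fun v => hI _) ?_
  have hrange : LinearMap.range (f ∘ₗ g) = LinearMap.range f := by
    apply le_antisymm
    · rintro _ ⟨v, rfl⟩; exact ⟨g v, rfl⟩
    · rintro _ ⟨v, rfl⟩
      have hv : v ∈ D ⊔ LinearMap.range g := by rw [htop]; trivial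
      obtain ⟨p, hp, q, ⟨w, rfl⟩, rfl⟩ := Submodule.mem_sup.mp hv
      refine ⟨w, ?_⟩
      have h6 : f p = 0 := hD hp
      rw [map_add, h6, zero_add]; rfl
  rw [hrange]
  exact hgr

end rank

end Pool.Agent.Licci
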