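import Pool.Agent.Work.MP_a98e4e_ag.MapCone
import Pool.Agent.Work.MP_a98e4e_ag.Split

/-!
# Reduction of the codimension four Dynkin cases to self-dual-format complexes

`MainStatement2 R n`: every exact complex `0 → R → F3 → G → R ^ n → R` of finite free modules whose
image ideal lies in the maximal ideal and has grade at least four has a licci image ideal.
No minimality is required.
-/

namespace LicciCodimFour

open IsLocalRing RingTheory.Sequence

universe u

variable {R : Type u} [CommRing R]

/-- The main statement: Gorenstein ideals of grade four with at most `n` generators, given by an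
exact (not necessarily minimal) complex `0 → R → F3 → G → R ^ n → R`, are licci. -/
def MainStatement2 (R : Type u) [CommRing R] [IsLocalRing R] (n : ℕ) : Prop :=
  ∀ (F3 G : Type u) [AddCommGroup F3] [Module R F3] [AddCommGroup G] [Module R G]
    [Module.Free R F3] [Module.Finite R F3] [Module.Free R G] [Module.Finite R G]
    (d4 : R →ₗ[R] F3) (d3 : F3 →ₗ[R] G) (d2 : G →ₗ[R] (Fin n → R)) (f : (Fin n → R) →ₗ[R] R),
    Function.Injective d4 → Function.Exact d4 d3 → Function.Exact d3 d2 → Function.Exact d2 f →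
    (∀ x, f x ∈ maximalIdeal R) →
    (∃ rs : List R, rs.length = 4 ∧ IsRegular R rs ∧ ∀ r ∈ rs, r ∈ LinearMap.range f) →
    IsLicci (LinearMap.range f)

/-- The padded version, with an arbitrary free module of rank at most `n` in the first spot. -/
theorem MainStatement2.padded [IsLocalRing R] {n : ℕ} (main : MainStatement2 R n)
    {F3 G M : Type u} [AddCommGroup F3] [Module R F3] [AddCommGroup G] [Module R G]
    [AddCommGroup M] [Module R M] [Module.Free R F3] [Module.Finite R F3] [Module.Free R G]
    [Module.Finite R G] [Module.Free R M] [Module.Finite R M]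
    (d4 : R →ₗ[R] F3) (d3 : F3 →ₗ[R] G) (d2 : G →ₗ[R] M) (f : M →ₗ[R] R)
    (hn : Module.finrank R M ≤ n) (h4 : Function.Injective d4) (h3 : Function.Exact d4 d3)
    (h2 : Function.Exact d3 d2) (h1 : Function.Exact d2 f) (hf : ∀ x, f x ∈ maximalIdeal R)
    (hgr : ∃ rs : List R, rs.length = 4 ∧ IsRegular R rs ∧ ∀ r ∈ rs, r ∈ LinearMap.range f) :
    IsLicci (LinearMap.range f) := by
  obtain ⟨m, hm⟩ := Nat.exists_eq_add_of_le hn
  have hrank : Module.finrank R (M × (Fin m → R)) = Module.finrank R (Fin n → R) := by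
    rw [Module.finrank_prod, Module.finrank_fin_fun, Module.finrank_fin_fun, hm]
  let E : (M × (Fin m → R)) ≃ₗ[R] (Fin n → R) := LinearEquiv.ofFinrankEq _ _ hrank
  let D3 : F3 →ₗ[R] (G × (Fin m → R)) := LinearMap.inl R G (Fin m → R) ∘ₗ d3
  let D2 : (G × (Fin m → R)) →ₗ[R] (Fin n → R) := E.toLinearMap ∘ₗ LinearMap.prodMap d2 LinearMap.id
  let F : (Fin n → R) →ₗ[R] R := f ∘ₗ LinearMap.fst R M (Fin m → R) ∘ₗ E.symm.toLinearMap
  have hD3 : ∀ x, D3 x = (d3 x, 0) := fun x => rfl
  have hD2 : ∀ y, D2 y = E (d2 y.1, y.2) := fun y => rfl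
  have hF : ∀ z, F (E z) = f z.1 := by
    intro z
    simp [F]
  have hrange : LinearMap.range F = LinearMap.range f := by
    apply le_antisymm
    · rintro _ ⟨z, rfl⟩
      obtain ⟨z, rfl⟩ := E.surjective z
      rw [hF]
      exact ⟨_, rfl⟩
    · rintro _ ⟨z, rfl⟩
      exact ⟨E (z, 0), hF _⟩
  rw [← hrange] at hgr ⊢
  refine main F3 (G × (Fin m → R)) d4 D3 D2 F h4 ?_ ?_ ?_ ?_ hgr
  · intro x
    rw [hD3, Prod.mk_eq_zero]
    constructor
    · rintro ⟨hx, _⟩
      exact (h3 x).1 hx
    · intro hx
      exact ⟨(h3 x).2 hx, rfl⟩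
  · rintro ⟨y, s⟩
    constructor
    · intro hy
      rw [hD2] at hy
      have hy' := E.map_eq_zero_iff.1 hy
      rw [Prod.mk_eq_zero] at hy'
      obtain ⟨z, hz⟩ := (h2 y).1 hy'.1
      refine ⟨z, ?_⟩
      rw [hD3, hz]
      exact Prod.ext rfl hy'.2.symm
    · rintro ⟨z, hz⟩
      rw [hD3] at hz
      rw [← hz, hD2]
      simp only [h2.apply_apply_eq_zero]
      exact E.map_zero
  · intro z
    obtain ⟨⟨z, s⟩, rfl⟩ := E.surjective z
    rw [hF]
    constructor
    · intro hz
      obtain ⟨y, hy⟩ := (h1 z).1 hz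
      exact ⟨(y, s), by rw [hD2, hy]⟩
    · rintro ⟨⟨y, t⟩, hy⟩
      rw [hD2] at hy
      have hy' := E.injective hy
      have h5 := congrArg Prod.fst hy'
      simp only at h5
      rw [← h5]
      exact h1.apply_apply_eq_zero y
  · intro z
    obtain ⟨z, rfl⟩ := E.surjective z
    rw [hF]
    exact hf _

/-- Nakayama: lifts of generators of a minimal resolution are a basis. -/
theorem exists_equiv_of_minimal [IsLocalRing R] [IsNoetherianRing R] {n : ℕ} (hn : n = 5)
    {F2 : Type*} [AddCommGroup F2] [Module R F2] (e1 : (Fin n → R) →ₗ[R] R)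
    (e2 : F2 →ₗ[R] (Fin n → R)) (h1 : Function.Exact e2 e1)
    (hmin : ∀ x j, e2 x j ∈ maximalIdeal R) (a : Fin 4 → R) (w : R)
    (hI : LinearMap.range e1 = al a ⊔ Ideal.span {w}) (p1 : (Fin 4 → R) →ₗ[R] (Fin n → R))
    (hp1 : ∀ x, e1 (p1 x) = k1 a x 0) :
    ∃ E : ((Fin 4 → R) × R) ≃ₗ[R] (Fin n → R), ∀ x, E (x, 0) = p1 x := by
  subst hn
  obtain ⟨u, hu⟩ : ∃ u, e1 u = w := by
    have : w ∈ LinearMap.range e1 := by
      rw [hI]
      exact Ideal.mem_sup_right (Ideal.mem_span_singleton_self w)
    exact this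
  let Ψ : ((Fin 4 → R) × R) →ₗ[R] (Fin 5 → R) :=
    p1.coprod (LinearMap.toSpanSingleton R (Fin 5 → R) u)
  have hΨ : ∀ y, Ψ y = p1 y.1 + y.2 • u := fun y => rfl
  have hsurj : Function.Surjective Ψ := by
    rw [← LinearMap.range_eq_top, ← top_le_iff]
    refine Submodule.le_of_le_smul_of_le_jacobson_bot (I := maximalIdeal R)
      Module.Finite.fg_top (IsLocalRing.maximalIdeal_le_jacobson ⊥) ?_
    intro y _
    have h5 : e1 y ∈ al a ⊔ Ideal.span {w} := by
      rw [← hI]
      exact ⟨y, rfl⟩
    obtain ⟨s, hs, t, ht, hst⟩ := Submodule.mem_sup.1 h5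
    obtain ⟨x, hx⟩ := (mem_al_iff a s).1 hs
    obtain ⟨c, hc⟩ := Ideal.mem_span_singleton'.1 ht
    have h6 : e1 (y - Ψ (x, c)) = 0 := by
      rw [map_sub, hΨ, map_add, map_smul, hp1, hx, hu, smul_eq_mul, hc, hst, sub_self]
    obtain ⟨z, hz⟩ := (h1 _).1 h6
    have h7 : y = Ψ (x, c) + e2 z := by rw [hz]; abel
    rw [h7]
    refine Submodule.add_mem_sup ⟨_, rfl⟩ ?_
    have h8 : e2 z = ∑ j, e2 z j • (Pi.single j 1 : Fin 5 → R) := by
      funext l
      simp [Finset.sum_apply, Pi.single_apply]
    rw [h8]
    exact Submodule.sum_mem _ fun j _ => Submodule.smul_mem_smul (hmin z j) trivial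
  have hrank : Module.finrank R (Fin 5 → R) = Module.finrank R ((Fin 4 → R) × R) := by
    rw [Module.finrank_prod, Module.finrank_fin_fun, Module.finrank_fin_fun,
      Module.finrank_self]
  let e0 : (Fin 5 → R) ≃ₗ[R] ((Fin 4 → R) × R) := LinearEquiv.ofFinrankEq _ _ hrank
  have hinj : Function.Injective Ψ := by
    have h5 : Function.Injective (e0.toLinearMap ∘ₗ Ψ) :=
      OrzechProperty.injective_of_surjective_endomorphism _ (by
        rw [LinearMap.coe_comp]
        exact e0.surjective.comp hsurj)
    intro x y hxy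
    apply h5
    simp only [LinearMap.comp_apply, hxy]
  refine ⟨LinearEquiv.ofBijective Ψ ⟨hinj, hsurj⟩, fun x => ?_⟩
  have h5 : Ψ (x, 0) = p1 x := by
    rw [hΨ]
    simp
  exact h5

/-- The complex reduced to explicit modules. -/
theorem reduce2 [IsLocalRing R] [IsNoetherianRing R] [Infinite (ResidueField R)] {n : ℕ}
    (main : MainStatement2 R n) (I : Ideal R) (e t : ℕ) (h : IsPerfectWith I 4 e t)
    (hc : (t = 1 ∧ 4 + e ≤ n) ∨ (e = 1 ∧ 4 + t ≤ n)) : IsLicci I := by
  obtain ⟨hreg, b, hb1, hb4, hb, ⟨F⟩⟩ := h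
  -- the resolution
  have hinj : Function.Injective (F.d 2) := by
    rw [injective_iff_map_eq_zero]
    intro x hx
    obtain ⟨y, hy⟩ := (F.exact_d 2 x).1 hx
    have : b (3 + 2) = 0 := hb 5 (by norm_num)
    have hs : Subsingleton (Fin (b (3 + 2)) → R) := by
      rw [this]
      infer_instance
    rw [← hy, Subsingleton.elim y 0, map_zero]
  rcases hc with ⟨rfl, he⟩ | ⟨rfl, ht⟩
  · -- Gorenstein case: pad
    have hb4' : b (2 + 2) = 1 := hb4
    let E : R ≃ₗ[R] (Fin (b (2 + 2)) → R) :=
      (LinearEquiv.funUnique (Fin 1) R R).symm.trans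
        (LinearEquiv.funCongrLeft R R (finCongr hb4'))
    have := main.padded (F.d 2 ∘ₗ E.toLinearMap) (F.d 1) (F.d 0) F.aug (by
        rw [Module.finrank_fin_fun, hb1]
        exact he) (by
        rw [LinearMap.coe_comp]
        exact hinj.comp E.injective) (by
        intro x
        constructor
        · intro hx
          obtain ⟨y, hy⟩ := (F.exact_d 1 x).1 hx
          obtain ⟨z, rfl⟩ := E.surjective y
          exact ⟨z, hy⟩
        · rintro ⟨z, hz⟩
          rw [← hz]
          exact (F.exact_d 1).apply_apply_eq_zero _) (F.exact_d 0) F.exact_aug F.minimal_aug (by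
        rw [F.range_aug]
        exact hreg)
    rw [F.range_aug] at this
    exact this
  · -- almost complete intersection
    obtain ⟨f, hf, hfI⟩ : ∃ f : Fin (4 + 1) → R, (∀ i, f i ∈ maximalIdeal R) ∧
        Ideal.span (Set.range f) = I := by
      refine ⟨fun i => F.aug (Pi.single (Fin.cast hb1.symm i) 1), fun i => F.minimal_aug _, ?_⟩
      refine Eq.trans ?_ F.range_aug
      rw [range_pi]
      congr 1
      ext x
      constructor
      · rintro ⟨i, rfl⟩
        exact ⟨Fin.cast hb1.symm i, rfl⟩
      · rintro ⟨i, rfl⟩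
        exact ⟨Fin.cast hb1 i, rfl⟩
    obtain ⟨a, v, ha, hav⟩ := splitStatement 1 f hf (by rwa [hfI])
    have hv0 : Ideal.span (Set.range v) = Ideal.span {v 0} := by
      congr 1
      ext x
      constructor
      · rintro ⟨i, rfl⟩
        rw [Subsingleton.elim i 0]
        rfl
      · rintro rfl
        exact ⟨0, rfl⟩
    have hI : I = al a ⊔ Ideal.span {v 0} := by rw [← hfI, hav, hv0]
    have haI : ∀ i, a i ∈ I := by
      intro i
      rw [hI]
      exact Ideal.mem_sup_left (Ideal.subset_span ⟨i, rfl⟩)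
    have hIm : I ≤ maximalIdeal R := by
      rw [← hfI, Ideal.span_le]
      rintro _ ⟨i, rfl⟩
      exact hf i
    have ham : ∀ i, a i ∈ maximalIdeal R := fun i => hIm (haI i)
    have hreg4 : IsRegular R (list4 a) := by
      refine (IsLocalRing.isRegular_iff_isWeaklyRegular_of_subset_maximalIdeal ?_).2 ha
      intro r hr
      simp only [list4, List.mem_cons, List.not_mem_nil, or_false] at hr
      rcases hr with rfl | rfl | rfl | rfl <;> exact ham _
    have hne : al a ≤ I := by
      rw [al, Ideal.span_le]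
      rintro _ ⟨i, rfl⟩
      exact haI i
    have haI' : ∀ i, a i ∈ LinearMap.range F.aug := by
      rw [F.range_aug]
      exact haI
    obtain ⟨w', hw1', hw2⟩ := bridge F.aug (F.d 0) (F.d 1) (F.d 2) F.exact_aug (F.exact_d 0)
      (F.exact_d 1) hinj I F.range_aug a ha haI
    -- the link is licci
    have hlic : IsLicci ((al a).colon (I : Set R)) := by
      by_cases htop : (al a).colon (I : Set R) = ⊤
      · -- then `I` is a complete intersection and so is ... the link of the link
        rw [htop]
        rw [htop] at hw2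
        have hIa : I = al a := by
          apply le_antisymm _ hne
          intro x hx
          have h5 : (1 : R) ∈ (al a).colon (I : Set R) := by rw [htop]; trivial
          rw [mem_colon_iff] at h5
          simpa using h5 x hx
        refine IsLicci.of_link (J := I) ?_ ⟨I, Relation.ReflTransGen.refl, list4 a, hreg4, ?_⟩
        · refine ⟨list4 a, hreg4, ?_, ?_, ?_⟩
          · rw [ofList_list4]
            exact le_inf le_top hne
          · rw [ofList_list4, htop]
          · rw [ofList_list4, hw2]
        · rw [ofList_list4]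
          exact hIa
      · obtain ⟨p1, p2, p3, p4, hp1, hp2, hp3, hp4⟩ := exists_comparison F.aug (F.d 0) (F.d 1)
          (F.d 2) F.exact_aug (F.exact_d 0) (F.exact_d 1) a haI'
        obtain ⟨E, hE⟩ := exists_equiv_of_minimal hb1 F.aug (F.d 0) F.exact_aug (F.minimal_d 0)
          a (v 0) (by rw [F.range_aug, hI]) p1 hp1
        obtain ⟨δ4, δ3, δ2, δ1, i4, i3, i2, i1, hδ1⟩ := map_cone F.aug (F.d 0) (F.d 1) (F.d 2)
          F.exact_aug (F.exact_d 0) (F.exact_d 1) hinj a ha haI' p1 p2 p3 p4 hp1 hp2 hp3 hp4 E hE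
        -- the image of `δ1` is the link
        have hrange : LinearMap.range δ1 = (al a).colon (I : Set R) := by
          apply le_antisymm
          · rintro _ ⟨y, rfl⟩
            rw [mem_colon_iff]
            intro x hx
            rw [hδ1, sub_mul]
            apply Ideal.sub_mem
            · rw [← F.range_aug] at hx
              obtain ⟨u, rfl⟩ := hx
              obtain ⟨g1, g2, g3, hg1, hg2, hg3, hg4⟩ := null_homotopy F.aug (F.d 0) (F.d 1)
                (F.d 2) F.exact_aug (F.exact_d 0) (F.exact_d 1) hinj u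
              have h5 : F.aug u • p4 (fun _ => 1) = g3 (p3 (k4 a (fun _ => 1))) := by
                rw [← hp4, hg4]
              have h6 : y.1 (p4 (fun _ => 1)) * F.aug u =
                  y.1 (g3 (p3 (k4 a (fun _ => 1)))) := by
                rw [← h5, map_smul, smul_eq_mul, mul_comm]
              rw [h6]
              have h7 := map_k4_mem (b := 1) a
                (LinearMap.pi fun _ => y.1 ∘ₗ g3 ∘ₗ p3) (fun _ => 1) 0
              exact h7
            · apply Ideal.mul_mem_right
              have h7 := mem_al_iff a (t4 a y.2 0)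
              rw [h7]
              refine ⟨![y.2 3, -y.2 2, y.2 1, -y.2 0], ?_⟩
              rw [k1_apply, t4_apply]
              ext i
              fin_cases i
              simp
              ring
          · intro r hr
            rw [mem_colon_iff] at hr
            -- use the lift `F → K`
            obtain ⟨s, hs⟩ := exists_coker_lift F.aug (F.d 0) (F.d 1) (F.d 2) F.exact_aug
              (F.exact_d 0) (F.exact_d 1) a ha p1 p2 p3 p4 hp1 hp2 hp3 hp4 r (fun y => by
                apply hr
                exact F.range_aug.le ⟨y, rfl⟩)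
            obtain ⟨z, hz⟩ := hs
            exact ⟨(s, z), by rw [hδ1, hz]⟩
        rw [← hrange]
        have hJm : (al a).colon (I : Set R) ≤ maximalIdeal R := le_maximalIdeal htop
        refine main.padded δ4 δ3 δ2 δ1 ?_ i4 i3 i2 i1 ?_ ⟨list4 a, rfl, hreg4, ?_⟩
        · have h5 : Module.finrank R (Module.Dual R (Fin (b (2 + 2)) → R)) = b 4 := by
            rw [Module.finrank_linearMap_self, Module.finrank_fin_fun]
          rw [Module.finrank_prod, h5, Module.finrank_fin_fun, hb4]
          omega
        · intro x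
          apply hJm
          rw [← hrange]
          exact ⟨x, rfl⟩
        · intro r hr
          rw [hrange]
          apply Ideal.le_colon
          rw [← ofList_list4]
          exact Ideal.subset_span hr
    apply IsLicci.of_link _ hlic
    refine ⟨list4 a, hreg4, ?_, ?_, ?_⟩
    · rw [ofList_list4]
      exact le_inf hne Ideal.le_colon
    · rw [ofList_list4, hw2]
    · rw [ofList_list4]

end LicciCodimFour
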