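import Mathlib

/-!
# Free modules over local rings whose maximal ideal is generated by a regular sequence
-/

namespace LicciCodimFour

open IsLocalRing RingTheory.Sequence
open scoped Pointwise

universe u v v1 v2 v3

theorem mk_eq_zero_iff_quotSMulTop {R : Type*} [CommRing R] {M : Type*} [AddCommGroup M]
    [Module R M] (r : R) (x : M) :
    (Submodule.Quotient.mk x : QuotSMulTop r M) = 0 ↔ ∃ y, x = r • y := by
  rw [Submodule.Quotient.mk_eq_zero, Submodule.mem_smul_pointwise_iff_exists]
  constructor
  · rintro ⟨y, _, hy⟩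
    exact ⟨y, hy.symm⟩
  · rintro ⟨y, hy⟩
    exact ⟨y, trivial, hy.symm⟩

/-- If `x` is `M`-regular and `M / x M` is free over `R / x` then `M` is free. -/
theorem free_of_quotient_free {R : Type u} [CommRing R] [IsLocalRing R] [IsNoetherianRing R]
    {M : Type v} [AddCommGroup M] [Module R M] [Module.Finite R M] {x : R}
    (hx : x ∈ maximalIdeal R) (hreg : IsSMulRegular M x)
    (hfree : Module.Free (R ⧸ Ideal.span {x}) (QuotSMulTop x M)) : Module.Free R M := by
  classical
  have hfin : Module.Finite (R ⧸ Ideal.span {x}) (QuotSMulTop x M) :=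
    Module.Finite.of_restrictScalars_finite R _ _
  let b := Module.Free.chooseBasis (R ⧸ Ideal.span {x}) (QuotSMulTop x M)
  let ι := Module.Free.ChooseBasisIndex (R ⧸ Ideal.span {x}) (QuotSMulTop x M)
  have : Fintype ι := Module.Free.ChooseBasisIndex.fintype _ _
  choose m hm using fun i : ι => Submodule.Quotient.mk_surjective _ (b i)
  let φ : (ι → R) →ₗ[R] M := Fintype.linearCombination R m
  have hφ : ∀ a, φ a = ∑ i, a i • m i := fun a => Fintype.linearCombination_apply R m a
  have hφmk : ∀ a : ι → R, (Submodule.Quotient.mk (φ a) : QuotSMulTop x M) =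
      ∑ i, (Ideal.Quotient.mk (Ideal.span {x}) (a i)) • b i := by
    intro a
    rw [hφ, ← Submodule.mkQ_apply, map_sum]
    refine Finset.sum_congr rfl fun i _ => ?_
    rw [map_smul, Submodule.mkQ_apply, hm]
    rfl
  have hsurj : Function.Surjective φ := by
    rw [← LinearMap.range_eq_top, ← top_le_iff]
    refine Submodule.le_of_le_smul_of_le_jacobson_bot (I := Ideal.span {x}) Module.Finite.fg_top
      (((Ideal.span_singleton_le_iff_mem _).2 hx).trans
        (IsLocalRing.maximalIdeal_le_jacobson ⊥)) ?_
    intro y _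
    obtain ⟨c, hc⟩ : ∃ c : ι → R ⧸ Ideal.span {x},
        ∑ i, c i • b i = (Submodule.Quotient.mk y : QuotSMulTop x M) :=
      ⟨fun i => b.repr (Submodule.Quotient.mk y) i, b.sum_repr _⟩
    choose a ha using fun i => Ideal.Quotient.mk_surjective (c i)
    have h1 : (Submodule.Quotient.mk (y - φ a) : QuotSMulTop x M) = 0 := by
      rw [Submodule.Quotient.mk_sub, hφmk, ← hc]
      simp only [ha, sub_self]
    rw [mk_eq_zero_iff_quotSMulTop] at h1
    obtain ⟨z, hz⟩ := h1
    have h2 : y = φ a + x • z := by rw [← hz]; abel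
    rw [h2]
    refine Submodule.add_mem_sup ⟨a, rfl⟩ ?_
    exact Submodule.smul_mem_smul (Ideal.mem_span_singleton_self x) trivial
  have hinj : Function.Injective φ := by
    rw [← LinearMap.ker_eq_bot, ← le_bot_iff]
    refine Submodule.le_of_le_smul_of_le_jacobson_bot (I := Ideal.span {x})
      (IsNoetherian.noetherian _) (((Ideal.span_singleton_le_iff_mem _).2 hx).trans
        (IsLocalRing.maximalIdeal_le_jacobson ⊥)) ?_
    intro a ha
    rw [LinearMap.mem_ker] at ha
    have h1 : ∑ i, (Ideal.Quotient.mk (Ideal.span {x}) (a i)) • b i = 0 := by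
      rw [← hφmk, ha]
      rfl
    have h2 := Fintype.linearIndependent_iff.1 b.linearIndependent _ h1
    have h3 : ∀ i, ∃ c, a i = x * c := by
      intro i
      have := Ideal.Quotient.eq_zero_iff_mem.1 (h2 i)
      rw [Ideal.mem_span_singleton] at this
      exact this
    choose c hc using h3
    have h4 : a = x • c := by
      funext i
      exact hc i
    have h5 : c ∈ LinearMap.ker φ := by
      rw [LinearMap.mem_ker]
      apply hreg
      show x • φ c = x • (0 : M)
      rw [← map_smul, ← h4, ha, smul_zero]
    rw [bot_sup_eq, h4]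
    exact Submodule.smul_mem_smul (Ideal.mem_span_singleton_self x) h5
  exact Module.Free.of_equiv (LinearEquiv.ofBijective φ ⟨hinj, hsurj⟩)

/-- If the maximal ideal is generated by a list which is weakly regular on the finite module `M`
then `M` is free. -/
theorem free_of_isWeaklyRegular (n : ℕ) : ∀ (R : Type u) [CommRing R] [IsLocalRing R]
    [IsNoetherianRing R] (M : Type v) [AddCommGroup M] [Module R M] [Module.Finite R M]
    (rs : List R), rs.length = n → Ideal.ofList rs = maximalIdeal R → IsWeaklyRegular M rs →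
    Module.Free R M := by
  induction n with
  | zero =>
    intro R _ _ _ M _ _ _ rs hlen hgen _
    rw [List.length_eq_zero_iff] at hlen
    rw [hlen, Ideal.ofList_nil] at hgen
    have hf : IsField R := IsLocalRing.isField_iff_maximalIdeal_eq.2 hgen.symm
    let := hf.toField
    exact Module.Free.of_divisionRing R M
  | succ n ih =>
    intro R _ _ _ M _ _ _ rs hlen hgen hreg
    cases rs with
    | nil => simp at hlen
    | cons x rs =>
      have hx : x ∈ maximalIdeal R := by
        rw [← hgen, Ideal.ofList_cons]
        exact Ideal.mem_sup_left (Ideal.mem_span_singleton_self x)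
      rw [isWeaklyRegular_cons_iff'] at hreg
      have hnt : Nontrivial (R ⧸ Ideal.span {x}) := Ideal.Quotient.nontrivial_iff.2 (ne_of_lt
        (lt_of_le_of_lt ((Ideal.span_singleton_le_iff_mem _).2 hx)
          (lt_top_iff_ne_top.2 (Ideal.IsPrime.ne_top inferInstance))))
      have hloc : IsLocalRing (R ⧸ Ideal.span {x}) :=
        IsLocalRing.of_surjective' (Ideal.Quotient.mk _) Ideal.Quotient.mk_surjective
      have hfin : Module.Finite (R ⧸ Ideal.span {x}) (QuotSMulTop x M) :=
        Module.Finite.of_restrictScalars_finite R _ _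
      refine free_of_quotient_free hx hreg.1 (ih (R ⧸ Ideal.span {x}) (QuotSMulTop x M)
        (rs.map (Ideal.Quotient.mk (Ideal.span {x}))) (by simpa using hlen) ?_ hreg.2)
      rw [← Ideal.map_ofList]
      have h1 := map_maximalIdeal_of_surjective (Ideal.Quotient.mk (Ideal.span {x}))
        Ideal.Quotient.mk_surjective
      rw [← h1, ← hgen, Ideal.ofList_cons, Ideal.map_sup]
      have h2 : (Ideal.span {x}).map (Ideal.Quotient.mk (Ideal.span {x})) = ⊥ := by
        rw [Ideal.map_quotient_self]
      rw [h2, bot_sup_eq]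

/-- Depth of a kernel: `0 → K → F → M → 0`, `rs` weakly regular on `M` and `rs ++ [x]` weakly
regular on `F`; then `rs ++ [x]` is weakly regular on `K`. -/
theorem isWeaklyRegular_kernel {R : Type u} [CommRing R] (rs : List R) (x : R) :
    ∀ (K : Type v1) (F : Type v2) (M : Type v3) [AddCommGroup K] [Module R K] [AddCommGroup F]
      [Module R F] [AddCommGroup M] [Module R M] (i : K →ₗ[R] F) (p : F →ₗ[R] M), Function.Injective i →
      Function.Exact i p → Function.Surjective p → IsWeaklyRegular M rs →
      IsWeaklyRegular F (rs ++ [x]) → IsWeaklyRegular K (rs ++ [x]) := by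
  induction rs with
  | nil =>
    intro K F M _ _ _ _ _ _ i p hi _ _ _ hF
    rw [List.nil_append, isWeaklyRegular_singleton_iff] at hF ⊢
    intro a b hab
    apply hi
    apply hF
    show x • i a = x • i b
    rw [← map_smul, ← map_smul]
    exact congrArg i hab
  | cons r rs ih =>
    intro K F M _ _ _ _ _ _ i p hi hex hp hM hF
    rw [List.cons_append, isWeaklyRegular_cons_iff] at hF ⊢
    rw [isWeaklyRegular_cons_iff] at hM
    refine ⟨?_, ?_⟩
    · intro a b hab
      apply hi
      apply hF.1
      show r • i a = r • i b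
      rw [← map_smul, ← map_smul]
      exact congrArg i hab
    · refine ih (QuotSMulTop r K) (QuotSMulTop r F) (QuotSMulTop r M) (QuotSMulTop.map r i)
        (QuotSMulTop.map r p) ?_ ?_ ?_ hM.2 hF.2
      · rw [injective_iff_map_eq_zero]
        intro a ha
        obtain ⟨a, rfl⟩ := Submodule.Quotient.mk_surjective _ a
        rw [QuotSMulTop.map_apply_mk, mk_eq_zero_iff_quotSMulTop] at ha
        obtain ⟨b, hb⟩ := ha
        have h1 : p b = 0 := by
          apply hM.1
          show r • p b = r • (0 : M)
          rw [← map_smul, ← hb, hex.apply_apply_eq_zero, smul_zero]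
        obtain ⟨c, rfl⟩ := (hex b).1 h1
        rw [← map_smul] at hb
        rw [mk_eq_zero_iff_quotSMulTop]
        exact ⟨c, hi hb⟩
      · intro b
        obtain ⟨b, rfl⟩ := Submodule.Quotient.mk_surjective _ b
        constructor
        · intro hb
          rw [QuotSMulTop.map_apply_mk, mk_eq_zero_iff_quotSMulTop] at hb
          obtain ⟨c, hc⟩ := hb
          obtain ⟨d, rfl⟩ := hp c
          have h1 : p (b - r • d) = 0 := by rw [map_sub, map_smul, hc, sub_self]
          obtain ⟨a, ha⟩ := (hex _).1 h1
          refine ⟨Submodule.Quotient.mk a, ?_⟩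
          rw [QuotSMulTop.map_apply_mk, ha, ← sub_eq_zero, ← Submodule.Quotient.mk_sub,
            mk_eq_zero_iff_quotSMulTop]
          exact ⟨-d, by rw [smul_neg]; abel⟩
        · rintro ⟨a, ha⟩
          obtain ⟨a, rfl⟩ := Submodule.Quotient.mk_surjective _ a
          rw [← ha, QuotSMulTop.map_apply_mk, QuotSMulTop.map_apply_mk,
            hex.apply_apply_eq_zero]
          rfl
      · intro c
        obtain ⟨c, rfl⟩ := Submodule.Quotient.mk_surjective _ c
        obtain ⟨b, rfl⟩ := hp c
        exact ⟨Submodule.Quotient.mk b, QuotSMulTop.map_apply_mk r p b⟩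

/-- In a local ring whose maximal ideal is generated by a regular sequence `rs ++ [x]`, the kernel
of a surjection `R ^ n → M` is free as soon as `rs` is weakly regular on `M`. -/
theorem free_kernel {R : Type u} [CommRing R] [IsLocalRing R] [IsNoetherianRing R]
    (rs : List R) (x : R) (hgen : Ideal.ofList (rs ++ [x]) = maximalIdeal R)
    (hR : IsWeaklyRegular R (rs ++ [x])) {M : Type v} [AddCommGroup M] [Module R M]
    (hM : IsWeaklyRegular M rs) {n : ℕ} (p : (Fin n → R) →ₗ[R] M) (hp : Function.Surjective p) :
    Module.Free R (LinearMap.ker p) := by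
  have hF : IsWeaklyRegular (Fin n → R) (rs ++ [x]) := by
    have h1 := IsWeaklyRegular.isWeaklyRegular_lTensor (M₂ := (Fin n → R)) hR
    exact (LinearEquiv.isWeaklyRegular_congr (TensorProduct.rid R (Fin n → R)) _).1 h1
  have hK := isWeaklyRegular_kernel rs x (LinearMap.ker p) (Fin n → R) M
    (LinearMap.ker p).subtype p Subtype.val_injective
    (fun y => ⟨fun hy => ⟨⟨y, hy⟩, rfl⟩, by rintro ⟨⟨z, hz⟩, rfl⟩; exact hz⟩) hp hM hF
  exact free_of_isWeaklyRegular _ R (LinearMap.ker p) (rs ++ [x]) rfl hgen hK

/-- Minimal covers. -/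
theorem exists_minimal_cover {R : Type u} [CommRing R] [IsLocalRing R]
    (M : Type v) [AddCommGroup M] [Module R M] [Module.Finite R M] :
    ∃ (n : ℕ) (p : (Fin n → R) →ₗ[R] M), Function.Surjective p ∧
      (∀ k, p k = 0 → ∀ i, k i ∈ maximalIdeal R) ∧ (Subsingleton M → n = 0) := by
  classical
  have hex : ∃ n, ∃ p : (Fin n → R) →ₗ[R] M, Function.Surjective p := Module.Finite.exists_fin' R M
  let n := Nat.find hex
  obtain ⟨p, hp⟩ := Nat.find_spec hex
  have hmin : ∀ m < n, ¬ ∃ p : (Fin m → R) →ₗ[R] M, Function.Surjective p :=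
    fun m hm => Nat.find_min hex hm
  refine ⟨n, p, hp, ?_, ?_⟩
  · intro k hk i
    by_contra hu
    rw [notMem_maximalIdeal] at hu
    obtain ⟨v, hv⟩ := hu
    -- remove the generator `i`
    have hn : n ≠ 0 := by
      have := i.2
      omega
    obtain ⟨m, hm⟩ := Nat.exists_eq_succ_of_ne_zero hn
    have hcard : Fintype.card {j : Fin n // j ≠ i} = m := by
      simp [Fintype.card_subtype_compl, hm]
    let e : Fin m ≃ {j : Fin n // j ≠ i} := (Fintype.equivFinOfCardEq hcard).symm
    let q : (Fin m → R) →ₗ[R] M :=
      Fintype.linearCombination R fun j => p (Pi.single (e j : Fin n) 1)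
    apply hmin m (by omega)
    refine ⟨q, ?_⟩
    intro y
    obtain ⟨b, rfl⟩ := hp y
    let c : Fin n → R := b - (b i * (↑v⁻¹ : R)) • k
    have hc : c i = 0 := by
      simp only [c, Pi.sub_apply, Pi.smul_apply, smul_eq_mul]
      rw [← hv, mul_assoc, Units.inv_mul, mul_one, sub_self]
    have hpc : p c = p b := by
      simp only [c, map_sub, map_smul, hk, smul_zero, sub_zero]
    refine ⟨fun j => c (e j), ?_⟩
    rw [← hpc]
    have h1 : c = ∑ j, c j • (Pi.single j 1 : Fin n → R) := by
      funext l
      simp [Finset.sum_apply, Pi.single_apply]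
    conv_rhs => rw [h1, map_sum]
    simp only [map_smul]
    rw [Fintype.linearCombination_apply]
    rw [Equiv.sum_comp e (fun j : {j : Fin n // j ≠ i} => c j • p (Pi.single (j : Fin n) 1))]
    rw [← Finset.sum_subtype (Finset.univ.erase i) (fun j => by simp)
      (fun j => c j • p (Pi.single j 1))]
    rw [← Finset.add_sum_erase _ _ (Finset.mem_univ i), hc, zero_smul, zero_add]
  · intro hsub
    by_contra hn
    exact hmin 0 (Nat.pos_of_ne_zero hn) ⟨0, fun y => ⟨0, Subsingleton.elim _ _⟩⟩

/-- The abstract freeness argument: if the kernels of covers of `M` are free and all maps from them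
to `M` extend, then `M` is free. -/
theorem free_of_extends {R : Type u} [CommRing R] [IsLocalRing R] [IsNoetherianRing R]
    (M : Type v) [AddCommGroup M] [Module R M] [Module.Finite R M]
    (hK : ∀ (n : ℕ) (p : (Fin n → R) →ₗ[R] M), Function.Surjective p →
      Module.Free R (LinearMap.ker p))
    (hext : ∀ (n : ℕ) (p : (Fin n → R) →ₗ[R] M), Function.Surjective p →
      ∀ g : LinearMap.ker p →ₗ[R] M, ∃ g' : (Fin n → R) →ₗ[R] M, ∀ k : LinearMap.ker p,
        g' k = g k) : Module.Free R M := by
  classical
  obtain ⟨n, p, hp, hmin, hsub⟩ := exists_minimal_cover (R := R) M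
  have hfree := hK n p hp
  let b := Module.Free.chooseBasis R (LinearMap.ker p)
  by_cases hne : Nonempty (Module.Free.ChooseBasisIndex R (LinearMap.ker p))
  · -- then `M = m M`
    obtain ⟨i0⟩ := hne
    have h1 : (⊤ : Submodule R M) ≤ maximalIdeal R • (⊤ : Submodule R M) := by
      intro y _
      obtain ⟨g', hg'⟩ := hext n p hp (b.constr R (Pi.single i0 y))
      have h2 : g' (b i0 : Fin n → R) = y := by
        rw [hg', Module.Basis.constr_basis, Pi.single_eq_same]
      have h3 : (b i0 : Fin n → R) = ∑ j, (b i0 : Fin n → R) j • (Pi.single j 1 : Fin n → R) := by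
        funext l
        simp [Finset.sum_apply, Pi.single_apply]
      rw [← h2, h3, map_sum]
      refine Submodule.sum_mem _ fun j _ => ?_
      rw [map_smul]
      exact Submodule.smul_mem_smul (hmin _ (b i0).2 j) trivial
    have h2 : (⊤ : Submodule R M) ≤ ⊥ := by
      refine Submodule.le_of_le_smul_of_le_jacobson_bot (I := maximalIdeal R)
        Module.Finite.fg_top (IsLocalRing.maximalIdeal_le_jacobson ⊥) ?_
      rw [bot_sup_eq]
      exact h1
    have h3 : Subsingleton M := ⟨fun x y => by
      have hx : x = 0 := by simpa using h2 (show x ∈ (⊤ : Submodule R M) from trivial)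
      have hy : y = 0 := by simpa using h2 (show y ∈ (⊤ : Submodule R M) from trivial)
      rw [hx, hy]⟩
    exact Module.Free.of_subsingleton R M
  · rw [not_nonempty_iff] at hne
    have h1 : LinearMap.ker p = ⊥ := by
      rw [Submodule.eq_bot_iff]
      intro x hx
      have h2 : (⟨x, hx⟩ : LinearMap.ker p) = 0 := by
        rw [← b.repr.map_eq_zero_iff]
        exact Finsupp.ext fun i => (hne.false i).elim
      exact congrArg Subtype.val h2
    exact Module.Free.of_equiv (LinearEquiv.ofBijective p ⟨LinearMap.ker_eq_bot.1 h1, hp⟩)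

/-- Version for dimension three: `m = (y₁, y₂, y₃)` generated by a regular sequence, `y₁, y₂`
weakly regular on `M`, all maps from kernels of covers extend; then `M` is free. -/
theorem free_of_extends_dim_three {R : Type u} [CommRing R] [IsLocalRing R] [IsNoetherianRing R]
    (y1 y2 y3 : R) (hgen : Ideal.ofList [y1, y2, y3] = maximalIdeal R)
    (hR : IsWeaklyRegular R [y1, y2, y3])
    (M : Type v) [AddCommGroup M] [Module R M] [Module.Finite R M]
    (hM : IsWeaklyRegular M [y1, y2])
    (hext : ∀ (n : ℕ) (p : (Fin n → R) →ₗ[R] M), Function.Surjective p →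
      ∀ g : LinearMap.ker p →ₗ[R] M, ∃ g' : (Fin n → R) →ₗ[R] M, ∀ k : LinearMap.ker p,
        g' k = g k) : Module.Free R M :=
  free_of_extends M (fun _ p hp => free_kernel [y1, y2] y3 hgen hR hM p hp) hext

end LicciCodimFour
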