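import Pool.Agent.Work.MP_a98e4e_ag.GenPos
import Pool.Agent.Work.MP_a98e4e_ag.MFree
import Pool.Agent.Work.MP_a98e4e_ag.Regular

/-!
# Slicing a regular local ring down to dimension three
-/

namespace LicciCodimFour

open IsLocalRing RingTheory.Sequence
open scoped Pointwise

universe u v

/-- In a regular local ring of dimension three: two elements `y1, y2` such that every finite module
on which they are weakly regular has free kernels of covers. -/
theorem hfree_dim_three (R : Type u) [CommRing R] [IsRegularLocalRing R]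
    (hdim : ringKrullDim R = 3) :
    ∃ y1 y2 : R, y1 ∈ maximalIdeal R ∧ y2 ∈ maximalIdeal R ∧ IsWeaklyRegular R [y1, y2] ∧
      ∀ (M : Type v) [AddCommGroup M] [Module R M] [Module.Finite R M],
        IsWeaklyRegular M [y1, y2] → ∀ (b : ℕ) (π : (Fin b → R) →ₗ[R] M), Function.Surjective π →
          Module.Free R (LinearMap.ker π) := by
  obtain ⟨rs, hlen, hgen, hreg⟩ := exists_regular_generators R
  have h3 : rs.length = 3 := by
    rw [hdim] at hlen
    exact_mod_cast hlen
  obtain ⟨y1, y2, y3, rfl⟩ := List.length_eq_three.1 h3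
  have hm : ∀ y ∈ [y1, y2, y3], y ∈ maximalIdeal R := by
    intro y hy
    rw [← hgen]
    exact Ideal.subset_span hy
  have hw : IsWeaklyRegular R ([y1, y2] ++ [y3]) := hreg.toIsWeaklyRegular
  refine ⟨y1, y2, hm _ (by simp), hm _ (by simp), ?_, ?_⟩
  · rw [isWeaklyRegular_append_iff] at hw
    exact hw.1
  · intro M _ _ _ hM b π hπ
    exact free_kernel [y1, y2] y3 hgen hw hM π hπ

/-- One slice. -/
theorem exists_slice {R : Type u} [CommRing R] [IsRegularLocalRing R] (fs : List R)
    (hfs : ∀ f ∈ fs, f ∈ maximalIdeal R) (hreg : IsWeaklyRegular R fs)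
    (hlen : (fs.length : WithBot ℕ∞) < ringKrullDim R) :
    ∃ x ∈ maximalIdeal R, x ∉ maximalIdeal R ^ 2 ∧
      IsWeaklyRegular (R ⧸ Ideal.span {x}) (fs.map (Ideal.Quotient.mk (Ideal.span {x}))) := by
  classical
  obtain ⟨rs, hrlen, hgen, hrreg⟩ := exists_regular_generators R
  have hlt : fs.length < rs.length := by
    rw [← hrlen] at hlen
    exact_mod_cast hlen
  -- a regular element modulo `fs`
  obtain ⟨y, hy, hyreg⟩ := Pool.Agent.Licci.exists_regular_quot (le_refl (maximalIdeal R)) fs R
    rs.length ⟨rs, rfl, fun z hz => by rw [← hgen]; exact Ideal.subset_span hz, hrreg⟩ hlt hfs hreg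
  -- avoidance
  obtain ⟨x, hx, hx2, hxreg⟩ : ∃ x ∈ maximalIdeal R, x ∉ maximalIdeal R ^ 2 ∧
      IsSMulRegular (R ⧸ (Ideal.ofList fs • ⊤ : Submodule R R)) x := by
    by_contra hcon
    push Not at hcon
    have hfin : (associatedPrimes R (R ⧸ (Ideal.ofList fs • ⊤ : Submodule R R))).Finite :=
      associatedPrimes.finite R _
    let s : Finset (Ideal R) := insert (maximalIdeal R ^ 2) hfin.toFinset
    have hsub : (maximalIdeal R : Set R) ⊆
        ⋃ i ∈ (↑s : Set (Ideal R)), ((id i : Ideal R) : Set R) := by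
      intro x hx
      simp only [Set.mem_iUnion]
      by_cases h2 : x ∈ maximalIdeal R ^ 2
      · exact ⟨maximalIdeal R ^ 2, by simp [s], h2⟩
      · have h3 := hcon x hx h2
        have h4 : x ∈ ⋃ p ∈ associatedPrimes R (R ⧸ (Ideal.ofList fs • ⊤ : Submodule R R)),
            (p : Set R) := by
          rw [biUnion_associatedPrimes_eq_compl_regular]
          exact h3
        obtain ⟨p, hp, hxp⟩ := Set.mem_iUnion₂.1 h4
        exact ⟨p, Finset.mem_coe.2 (Finset.mem_insert_of_mem (hfin.mem_toFinset.2 hp)), hxp⟩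
    obtain ⟨i, hi, hle⟩ := (Ideal.subset_union_prime (f := id) (maximalIdeal R ^ 2)
      (maximalIdeal R ^ 2) (fun i hi h1 _ => by
        rw [Finset.mem_insert] at hi
        rcases hi with hi | hi
        · exact absurd hi h1
        · have : i ∈ associatedPrimes R (R ⧸ (Ideal.ofList fs • ⊤ : Submodule R R)) :=
            hfin.mem_toFinset.1 hi
          exact this.isPrime)).1 hsub
    simp only [id] at hle
    rw [Finset.mem_insert] at hi
    rcases hi with hi | hi
    · rw [hi] at hle
      have h1 : maximalIdeal R ≤ ⊥ := by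
        refine Submodule.le_of_le_smul_of_le_jacobson_bot (I := maximalIdeal R)
          (IsNoetherian.noetherian (maximalIdeal R)) (IsLocalRing.maximalIdeal_le_jacobson ⊥) ?_
        rw [bot_sup_eq, smul_eq_mul, ← pow_two]
        exact hle
      rw [le_bot_iff] at h1
      have h2 := (Submodule.spanFinrank_eq_zero_iff_eq_bot
        (IsNoetherian.noetherian (maximalIdeal R))).2 h1
      have h3 := IsRegularLocalRing.spanFinrank_maximalIdeal (R := R)
      rw [h2, ← hrlen] at h3
      have h4 : 0 = rs.length := by exact_mod_cast h3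
      omega
    · have hi' : i ∈ associatedPrimes R (R ⧸ (Ideal.ofList fs • ⊤ : Submodule R R)) :=
        hfin.mem_toFinset.1 hi
      have h5 : y ∈ ⋃ p ∈ associatedPrimes R (R ⧸ (Ideal.ofList fs • ⊤ : Submodule R R)),
          (p : Set R) := Set.mem_biUnion hi' (hle hy)
      rw [biUnion_associatedPrimes_eq_compl_regular] at h5
      exact h5 hyreg
  refine ⟨x, hx, hx2, ?_⟩
  have h1 : IsWeaklyRegular R (fs ++ [x]) := by
    rw [isWeaklyRegular_append_iff, isWeaklyRegular_singleton_iff]
    exact ⟨hreg, hxreg⟩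
  have h2 : IsWeaklyRegular R (x :: fs) := by
    refine IsLocalRing.isWeaklyRegular_of_perm_of_subset_maximalIdeal h1
      (List.perm_append_singleton x fs) ?_
    intro z hz
    rw [List.mem_append, List.mem_singleton] at hz
    rcases hz with hz | rfl
    · exact hfs z hz
    · exact hx
  rw [isWeaklyRegular_cons_iff'] at h2
  have e : QuotSMulTop x R ≃ₗ[R ⧸ Ideal.span {x}] (R ⧸ Ideal.span {x}) := by
    have e0 : (x • ⊤ : Submodule R R) = Ideal.span {x} := by
      ext y
      rw [Ideal.mem_span_singleton', Submodule.mem_smul_pointwise_iff_exists]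
      constructor
      · rintro ⟨a, _, ha⟩
        exact ⟨a, by rw [smul_eq_mul, mul_comm] at ha; exact ha⟩
      · rintro ⟨a, ha⟩
        exact ⟨a, trivial, by rw [smul_eq_mul, mul_comm]; exact ha⟩
    let f := Submodule.quotEquivOfEq _ _ e0
    exact { f with
      map_smul' := by
        intro c y
        obtain ⟨c, rfl⟩ := Ideal.Quotient.mk_surjective c
        exact f.map_smul c y }
  exact (LinearEquiv.isWeaklyRegular_congr e _).1 h2.2

/-- Slicing down to dimension three. -/
theorem exists_slice_dim_three (n : ℕ) : ∀ (R : Type u) [CommRing R] [IsRegularLocalRing R]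
    (fs : List R), ringKrullDim R = (n + 3 : ℕ) → fs.length = 3 →
    (∀ f ∈ fs, f ∈ maximalIdeal R) → IsWeaklyRegular R fs →
    ∃ (R' : Type u) (_ : CommRing R') (_ : IsRegularLocalRing R') (φ : R →+* R'),
      Function.Surjective φ ∧ ringKrullDim R' = 3 ∧ IsWeaklyRegular R' (fs.map φ) := by
  induction n with
  | zero =>
    intro R _ _ fs hdim _ _ hreg
    refine ⟨R, inferInstance, inferInstance, RingHom.id R, Function.surjective_id, ?_, ?_⟩
    · rw [hdim]
      rfl
    · simpa using hreg
  | succ n ih =>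
    intro R _ _ fs hdim hlen hfs hreg
    obtain ⟨x, hx, hx2, hxreg⟩ := exists_slice fs hfs hreg (by
      rw [hlen, hdim]
      exact_mod_cast (by omega : 3 < n + 1 + 3))
    obtain ⟨hR', hd⟩ := isRegularLocalRing_quotient hx hx2
    have hdim' : ringKrullDim (R ⧸ Ideal.span {x}) = (n + 3 : ℕ) := by
      rw [← IsRegularLocalRing.spanFinrank_maximalIdeal (R := R ⧸ Ideal.span {x})]
      have h1 := IsRegularLocalRing.spanFinrank_maximalIdeal (R := R)
      rw [hdim] at h1
      have h2 : (maximalIdeal R).spanFinrank = n + 1 + 3 := by exact_mod_cast h1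
      have h3 : (maximalIdeal (R ⧸ Ideal.span {x})).spanFinrank = n + 3 := by omega
      rw [h3]
    obtain ⟨R', i1, i2, φ, hφ, hdimR', hregR'⟩ := ih (R ⧸ Ideal.span {x})
      (fs.map (Ideal.Quotient.mk (Ideal.span {x}))) hdim' (by simpa using hlen) (by
        intro f hf
        rw [List.mem_map] at hf
        obtain ⟨g, hg, rfl⟩ := hf
        rw [← map_mk_maximalIdeal]
        exact Ideal.mem_map_of_mem _ (hfs g hg)) hxreg
    refine ⟨R', i1, i2, φ.comp (Ideal.Quotient.mk (Ideal.span {x})),
      hφ.comp Ideal.Quotient.mk_surjective, hdimR', ?_⟩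
    rw [List.map_map] at hregR'
    exact hregR'

end LicciCodimFour
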