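import Pool.Agent.Work.MP_a98e4e_ag.Null

/-!
# The resolution of the link of an almost complete intersection (dual mapping cone)
-/

namespace LicciCodimFour

open RingTheory.Sequence

universe u

variable {R : Type u} [CommRing R]

/-! ### Transposes of the Koszul maps -/

section transpose

variable {N : Type*} [AddCommGroup N] [Module R N]

theorem lin6 (ξ : (Fin 6 → R) →ₗ[R] N) (x : Fin 6 → R) :
    ξ x = x 0 • ξ (Pi.single 0 1) + x 1 • ξ (Pi.single 1 1) +
        x 2 • ξ (Pi.single 2 1) + x 3 • ξ (Pi.single 3 1) + x 4 • ξ (Pi.single 4 1) +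
        x 5 • ξ (Pi.single 5 1) := by
  simp only [← map_smul, ← map_add]
  congr 1
  ext i
  fin_cases i <;> simp

theorem lin4 (ξ : (Fin 4 → R) →ₗ[R] N) (x : Fin 4 → R) :
    ξ x = x 0 • ξ (Pi.single 0 1) + x 1 • ξ (Pi.single 1 1) +
        x 2 • ξ (Pi.single 2 1) + x 3 • ξ (Pi.single 3 1) := by
  simp only [← map_smul, ← map_add]
  congr 1
  ext i
  fin_cases i <;> simp

theorem t3_of (a : Fin 4 → R) (ξ : (Fin 6 → R) →ₗ[R] N) :
    t3 a (fun j => ξ (Pi.single j 1)) = fun j => ξ (k3 a (Pi.single j 1)) := by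
  rw [t3_apply]
  ext i
  rw [lin6 ξ (k3 a (Pi.single i 1)), k3_apply]
  fin_cases i <;> simp <;> module

theorem t2_of (a : Fin 4 → R) (ξ : (Fin 4 → R) →ₗ[R] N) :
    t2 a (fun j => ξ (Pi.single j 1)) = fun j => ξ (k2 a (Pi.single j 1)) := by
  rw [t2_apply]
  ext i
  rw [lin4 ξ (k2 a (Pi.single i 1)), k2_apply]
  fin_cases i <;> simp <;> module

theorem t4_of (a : Fin 4 → R) (ξ : (Fin 4 → R) →ₗ[R] N) :
    t4 a (fun j => ξ (Pi.single j 1)) = fun _ => ξ (k4 a (fun _ => 1)) := by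
  rw [t4_apply]
  ext i
  rw [lin4 ξ (k4 a (fun _ => 1)), k4_apply]
  fin_cases i
  simp
  module

end transpose

/-- The comparison map from the Koszul complex to a resolution. -/
theorem exists_comparison {F1 F2 F3 F4 : Type*} [AddCommGroup F1] [Module R F1] [AddCommGroup F2]
    [Module R F2] [AddCommGroup F3] [Module R F3] [AddCommGroup F4] [Module R F4]
    (e1 : F1 →ₗ[R] R) (e2 : F2 →ₗ[R] F1) (e3 : F3 →ₗ[R] F2) (e4 : F4 →ₗ[R] F3)
    (h1 : Function.Exact e2 e1) (h2 : Function.Exact e3 e2) (h3 : Function.Exact e4 e3)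
    (a : Fin 4 → R) (haI : ∀ i, a i ∈ LinearMap.range e1) :
    ∃ (p1 : (Fin 4 → R) →ₗ[R] F1) (p2 : (Fin 6 → R) →ₗ[R] F2) (p3 : (Fin 4 → R) →ₗ[R] F3)
      (p4 : (Fin 1 → R) →ₗ[R] F4), (∀ x, e1 (p1 x) = k1 a x 0) ∧ (∀ x, e2 (p2 x) = p1 (k2 a x)) ∧
      (∀ x, e3 (p3 x) = p2 (k3 a x)) ∧ (∀ x, e4 (p4 x) = p3 (k4 a x)) := by
  obtain ⟨p1, hp1⟩ : ∃ p1 : (Fin 4 → R) →ₗ[R] F1, ∀ x, e1 (p1 x) = k1 a x 0 := by
    choose y hy using haI
    refine ⟨Fintype.linearCombination R y, ?_⟩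
    intro x
    rw [Fintype.linearCombination_apply, map_sum, k1_apply]
    simp [Fin.sum_univ_succ, hy]
    ring
  obtain ⟨p2, hp2⟩ := exists_lift h1 (p1 ∘ₗ k2 a) (fun x => by
    rw [LinearMap.comp_apply, hp1, k1_k2]; rfl)
  obtain ⟨p3, hp3⟩ := exists_lift h2 (p2 ∘ₗ k3 a) (fun x => by
    rw [LinearMap.comp_apply, hp2, LinearMap.comp_apply, k2_k3, map_zero])
  obtain ⟨p4, hp4⟩ := exists_lift h3 (p3 ∘ₗ k4 a) (fun x => by
    rw [LinearMap.comp_apply, hp3, LinearMap.comp_apply, k3_k4, map_zero])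
  exact ⟨p1, p2, p3, p4, hp1, hp2, hp3, hp4⟩

/-- values of a functional on the standard basis -/
def coeffs {n : ℕ} {F : Type*} [AddCommGroup F] [Module R F] (p : (Fin n → R) →ₗ[R] F) :
    Module.Dual R F →ₗ[R] (Fin n → R) where
  toFun η := fun j => η (p (Pi.single j 1))
  map_add' _ _ := rfl
  map_smul' _ _ := rfl

theorem coeffs_apply {n : ℕ} {F : Type*} [AddCommGroup F] [Module R F]
    (p : (Fin n → R) →ₗ[R] F) (η : Module.Dual R F) (j : Fin n) :
    coeffs p η j = η (p (Pi.single j 1)) := rfl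

/-- The dual mapping cone: from a resolution `F` of an ideal `I = (a₀, …, a₃, w)` (the first module
being free on lifts of `a₀, …, a₃, w`) to a resolution of the link `(a) : I`. -/
theorem map_cone {F1 F2 F3 F4 : Type u} [AddCommGroup F1] [Module R F1] [AddCommGroup F2]
    [Module R F2] [AddCommGroup F3] [Module R F3] [AddCommGroup F4] [Module R F4]
    [Module.Projective R F1] [Module.Projective R F2] [Module.Projective R F3]
    [Module.Projective R F4] [Module.Finite R F1] [Module.Finite R F2] [Module.Finite R F3]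
    [Module.Finite R F4]
    (e1 : F1 →ₗ[R] R) (e2 : F2 →ₗ[R] F1) (e3 : F3 →ₗ[R] F2) (e4 : F4 →ₗ[R] F3)
    (h1 : Function.Exact e2 e1) (h2 : Function.Exact e3 e2) (h3 : Function.Exact e4 e3)
    (h4 : Function.Injective e4) (a : Fin 4 → R) (ha : IsWeaklyRegular R (list4 a))
    (haI : ∀ i, a i ∈ LinearMap.range e1)
    (p1 : (Fin 4 → R) →ₗ[R] F1) (p2 : (Fin 6 → R) →ₗ[R] F2) (p3 : (Fin 4 → R) →ₗ[R] F3)
    (p4 : (Fin 1 → R) →ₗ[R] F4) (hp1 : ∀ x, e1 (p1 x) = k1 a x 0)
    (hp2 : ∀ x, e2 (p2 x) = p1 (k2 a x)) (hp3 : ∀ x, e3 (p3 x) = p2 (k3 a x))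
    (hp4 : ∀ x, e4 (p4 x) = p3 (k4 a x)) (E : ((Fin 4 → R) × R) ≃ₗ[R] F1)
    (hE : ∀ x, E (x, 0) = p1 x) :
    ∃ (δ4 : R →ₗ[R] Module.Dual R F2)
      (δ3 : Module.Dual R F2 →ₗ[R] (Module.Dual R F3 × (Fin 6 → R)))
      (δ2 : (Module.Dual R F3 × (Fin 6 → R)) →ₗ[R] (Module.Dual R F4 × (Fin 4 → R)))
      (δ1 : (Module.Dual R F4 × (Fin 4 → R)) →ₗ[R] R),
      Function.Injective δ4 ∧ Function.Exact δ4 δ3 ∧ Function.Exact δ3 δ2 ∧
      Function.Exact δ2 δ1 ∧ ∀ y, δ1 y = y.1 (p4 (fun _ => 1)) - t4 a y.2 0 := by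
  have ha1 : ∀ m, IsWeaklyRegular (Fin m → R) (list4 a) := fun m => isWeaklyRegular_pi ha m
  obtain ⟨tinj, tex1, tex2, tex3⟩ := koszul_dual_exact (N := R) a ha1
  have hmem : ∀ r ∈ list4 a, r ∈ LinearMap.range e1 := by
    intro r hr
    simp only [list4, List.mem_cons, List.not_mem_nil, or_false] at hr
    rcases hr with rfl | rfl | rfl | rfl <;> exact haI _
  obtain ⟨de0, de1, de2, de3⟩ := dual_exact e1 e2 e3 e4 h1 h2 h3 h4 (list4 a) rfl ha hmem
  have hreg0 : IsSMulRegular R (a 0) := by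
    have := ha
    rw [list4, isWeaklyRegular_cons_iff] at this
    exact this.1
  -- the functional `ε`
  let ε : F1 →ₗ[R] R := LinearMap.snd R (Fin 4 → R) R ∘ₗ E.symm.toLinearMap
  have hεE : ∀ y, ε (E y) = y.2 := by
    intro y
    simp [ε]
  have hεp : ∀ x, ε (p1 x) = 0 := by
    intro x
    rw [← hE, hεE]
  let δ4 : R →ₗ[R] Module.Dual R F2 := LinearMap.toSpanSingleton R (Module.Dual R F2) (ε ∘ₗ e2)
  let δ3 : Module.Dual R F2 →ₗ[R] (Module.Dual R F3 × (Fin 6 → R)) :=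
    LinearMap.prod e3.dualMap (coeffs p2)
  let δ2 : (Module.Dual R F3 × (Fin 6 → R)) →ₗ[R] (Module.Dual R F4 × (Fin 4 → R)) :=
    LinearMap.prod (e4.dualMap ∘ₗ LinearMap.fst R _ _)
      (coeffs p3 ∘ₗ LinearMap.fst R _ _ - t3 a ∘ₗ LinearMap.snd R _ _)
  let δ1 : (Module.Dual R F4 × (Fin 4 → R)) →ₗ[R] R :=
    (Module.Dual.eval R F4 (p4 (fun _ => 1))) ∘ₗ LinearMap.fst R _ _ -
      (LinearMap.proj 0 ∘ₗ t4 a) ∘ₗ LinearMap.snd R _ _
  have hδ4 : ∀ r z, δ4 r z = r * ε (e2 z) := fun r z => rfl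
  have hδ3a : ∀ η z, (δ3 η).1 z = η (e3 z) := fun η z => rfl
  have hδ3b : ∀ η, (δ3 η).2 = fun j => η (p2 (Pi.single j 1)) := fun η => rfl
  have hδ2a : ∀ y z, (δ2 y).1 z = y.1 (e4 z) := fun η z => rfl
  have hδ2b : ∀ y, (δ2 y).2 = (fun j => y.1 (p3 (Pi.single j 1))) - t3 a y.2 := fun y => rfl
  have hδ1 : ∀ y, δ1 y = y.1 (p4 (fun _ => 1)) - t4 a y.2 0 := fun y => rfl
  -- compositions
  have c43 : ∀ r, δ3 (δ4 r) = 0 := by
    intro r
    apply Prod.ext
    · ext z
      rw [hδ3a, hδ4, h2.apply_apply_eq_zero, map_zero, mul_zero]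
      rfl
    · rw [hδ3b]
      ext j
      rw [hδ4, hp2, hεp, mul_zero]
      rfl
  have c32 : ∀ η, δ2 (δ3 η) = 0 := by
    intro η
    apply Prod.ext
    · ext z
      rw [hδ2a, hδ3a, h3.apply_apply_eq_zero, map_zero]
      rfl
    · rw [hδ2b, hδ3b]
      have h5 := t3_of a (η ∘ₗ p2)
      simp only [LinearMap.comp_apply] at h5
      rw [h5]
      ext j
      simp only [Pi.sub_apply, hδ3a, hp3, sub_self]
      rfl
  have c21 : ∀ y, δ1 (δ2 y) = 0 := by
    intro y
    rw [hδ1, hδ2a, hδ2b, map_sub, t4_t3, sub_zero]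
    have h5 := t4_of a (y.1 ∘ₗ p3)
    simp only [LinearMap.comp_apply] at h5
    rw [h5, hp4, sub_self]
  -- (i)
  have i4 : Function.Injective δ4 := by
    rw [injective_iff_map_eq_zero]
    intro r hr
    obtain ⟨c, hc⟩ := de1 (r • ε) (fun z => by
      have := LinearMap.congr_fun hr z
      rw [hδ4] at this
      simpa using this)
    have h5 := LinearMap.congr_fun hc (p1 ![1, 0, 0, 0])
    rw [LinearMap.smul_apply, hεp, smul_zero, LinearMap.smul_apply, hp1, k1_apply] at h5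
    have h6 : c = 0 := by
      apply hreg0
      simp at h5
      show a 0 • c = a 0 • (0 : R)
      rw [smul_eq_mul, smul_zero, mul_comm]
      exact h5.symm
    rw [h6, zero_smul] at hc
    have h7 := LinearMap.congr_fun hc (E (0, 1))
    rw [LinearMap.smul_apply, hεE] at h7
    simpa using h7
  -- functionals on `F1` with given values
  have hF1 : ∀ (ξ ξ' : F1 →ₗ[R] R), (∀ x, ξ (p1 x) = ξ' (p1 x)) →
      ξ (E (0, 1)) = ξ' (E (0, 1)) → ξ = ξ' := by
    intro ξ ξ' h5 h6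
    ext z
    obtain ⟨⟨x, s⟩, rfl⟩ := E.surjective z
    have h7 : ((x, s) : (Fin 4 → R) × R) = (x, 0) + s • (0, 1) := by
      apply Prod.ext <;> simp
    rw [h7, map_add, map_smul, hE, map_add, map_add, map_smul, map_smul, h5, h6]
  -- (ii)
  have i3 : Function.Exact δ4 δ3 := by
    intro η
    constructor
    · intro hη
      have h5 : ∀ z, η (e3 z) = 0 := fun z => by
        rw [← hδ3a, hη]
        rfl
      have h6 : ∀ x, η (p2 x) = 0 := by
        intro x
        have h7 : η ∘ₗ p2 = 0 := by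
          apply LinearMap.pi_ext'
          intro j
          apply LinearMap.ext_ring
          have h8 := congrFun (congrArg Prod.snd hη) j
          rw [hδ3b] at h8
          exact h8
        exact LinearMap.congr_fun h7 x
      obtain ⟨ξ, hξ⟩ := de2 η h5
      obtain ⟨s, hs⟩ := extend_k2 a ha1 (ξ ∘ₗ p1) (fun x => by
        rw [LinearMap.comp_apply, ← hp2, ← hξ, h6])
      let c : R := s (fun _ => 1)
      have hc : ∀ x, ξ (p1 x) = c * e1 (p1 x) := by
        intro x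
        rw [hp1]
        have h7 : k1 a x = (k1 a x 0) • (fun _ => (1 : R)) := by
          ext i
          fin_cases i
          simp
        have h8 := hs x
        rw [h7, map_smul, LinearMap.comp_apply, smul_eq_mul] at h8
        rw [← h8, mul_comm]
      refine ⟨(ξ - c • e1) (E (0, 1)), ?_⟩
      have h9 : ξ - c • e1 = ((ξ - c • e1) (E (0, 1))) • ε := by
        apply hF1
        · intro x
          rw [LinearMap.sub_apply, LinearMap.smul_apply, hc, LinearMap.smul_apply, hεp]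
          simp
        · rw [LinearMap.smul_apply, hεE]
          simp
      ext z
      rw [hδ4, ← smul_eq_mul, ← LinearMap.smul_apply, ← h9, LinearMap.sub_apply,
        LinearMap.smul_apply, h1.apply_apply_eq_zero, smul_zero, sub_zero, ← hξ]
    · rintro ⟨r, rfl⟩
      exact c43 r
  -- (iii)
  have i2 : Function.Exact δ3 δ2 := by
    rintro ⟨η, z⟩
    constructor
    · intro hη
      have h5 : ∀ y, η (e4 y) = 0 := fun y => by
        have := LinearMap.congr_fun (congrArg Prod.fst hη) y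
        rw [hδ2a] at this
        exact this
      have h6 : (fun j => η (p3 (Pi.single j 1))) - t3 a z = 0 := by
        have := congrArg Prod.snd hη
        rw [hδ2b] at this
        exact this
      obtain ⟨η', hη'⟩ := de3 η h5
      have h7 := t3_of a (η' ∘ₗ p2)
      simp only [LinearMap.comp_apply] at h7
      have h8 : t3 a (z - fun j => η' (p2 (Pi.single j 1))) = 0 := by
        rw [map_sub, h7, ← sub_eq_zero.1 h6, sub_eq_zero]
        ext j
        rw [hη', hp3]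
      obtain ⟨y, hy⟩ := (tex2 _).1 h8
      let ξ : F1 →ₗ[R] R :=
        (Fintype.linearCombination R y ∘ₗ LinearMap.fst R _ R) ∘ₗ E.symm.toLinearMap
      have hξ : ∀ x, ξ (p1 x) = Fintype.linearCombination R y x := by
        intro x
        rw [← hE]
        simp [ξ]
      refine ⟨η' + ξ ∘ₗ e2, ?_⟩
      apply Prod.ext
      · ext x
        rw [hδ3a, LinearMap.add_apply, LinearMap.comp_apply, h2.apply_apply_eq_zero, map_zero,
          add_zero, ← hη']
      · rw [hδ3b]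
        have h9 := t2_of a (ξ ∘ₗ p1)
        simp only [LinearMap.comp_apply, hξ] at h9
        have h10 : (fun j => Fintype.linearCombination R y (Pi.single j 1 : Fin 4 → R)) = y := by
          ext j
          simp
        rw [h10, hy] at h9
        ext j
        have h11 := congrFun h9 j
        simp only [Pi.sub_apply] at h11
        rw [LinearMap.add_apply, LinearMap.comp_apply, hp2, hξ, ← h11]
        abel
    · rintro ⟨r, hr⟩
      rw [← hr]
      exact c32 r
  -- (iv)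
  have key := acyclic5 δ4 δ3 δ2 δ1 c43 c32 c21 (list4 a) rfl ha
    (isWeaklyRegular_of_flat ha _) (isWeaklyRegular_of_flat ha _) (isWeaklyRegular_of_flat ha _)
    ha
    (fun r _ z hz => ⟨0, by rw [i4 (hz.trans (map_zero δ4).symm), smul_zero]⟩)
    (fun r _ z hz => by
      obtain ⟨y, hy⟩ := (i3 z).1 hz
      exact ⟨0, y, by rw [hy, pow_zero, one_smul]⟩)
    (fun r _ z hz => by
      obtain ⟨y, hy⟩ := (i2 z).1 hz
      exact ⟨0, y, by rw [hy, pow_zero, one_smul]⟩)
    (fun r hr y hy => by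
      obtain ⟨u, rfl⟩ := hmem r hr
      obtain ⟨g1, g2, g3, hg1, hg2, hg3, hg4⟩ := null_homotopy e1 e2 e3 e4 h1 h2 h3 h4 u
      rw [hδ1] at hy
      have h5 := t4_of a (y.1 ∘ₗ g3 ∘ₗ p3)
      simp only [LinearMap.comp_apply] at h5
      have h6 : t4 a (e1 u • y.2 - fun j => y.1 (g3 (p3 (Pi.single j 1)))) = 0 := by
        rw [map_sub, map_smul, h5, ← hp4, hg4]
        ext i
        fin_cases i
        simp only [map_smul, Pi.sub_apply, Pi.smul_apply, smul_eq_mul, Pi.zero_apply]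
        show e1 u * t4 a y.2 0 - e1 u * y.1 (p4 (fun _ => 1)) = 0
        linear_combination (-(e1 u)) * hy
      obtain ⟨z, hz⟩ := (tex3 _).1 h6
      refine ⟨1, (y.1 ∘ₗ g3, -z), ?_⟩
      rw [pow_one]
      apply Prod.ext
      · ext x
        rw [hδ2a]
        simp only [LinearMap.comp_apply, hg4, map_smul]
        rfl
      · rw [hδ2b]
        simp only [map_neg, hz, LinearMap.comp_apply]
        show _ = e1 u • y.2
        abel)
  exact ⟨δ4, δ3, δ2, δ1, i4, i3, i2, key.2.2.2, hδ1⟩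

/-- Elements of `(a) : I` come from functionals on `F4` and the Koszul complex. -/
theorem exists_coker_lift {F1 F2 F3 F4 : Type*} [AddCommGroup F1] [Module R F1] [AddCommGroup F2]
    [Module R F2] [AddCommGroup F3] [Module R F3] [AddCommGroup F4] [Module R F4]
    [Module.Free R F1] [Module.Projective R F2] [Module.Projective R F3]
    [Module.Projective R F4]
    (e1 : F1 →ₗ[R] R) (e2 : F2 →ₗ[R] F1) (e3 : F3 →ₗ[R] F2) (e4 : F4 →ₗ[R] F3)
    (h1 : Function.Exact e2 e1) (h2 : Function.Exact e3 e2) (h3 : Function.Exact e4 e3)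
    (a : Fin 4 → R) (ha : IsWeaklyRegular R (list4 a))
    (p1 : (Fin 4 → R) →ₗ[R] F1) (p2 : (Fin 6 → R) →ₗ[R] F2) (p3 : (Fin 4 → R) →ₗ[R] F3)
    (p4 : (Fin 1 → R) →ₗ[R] F4) (hp1 : ∀ x, e1 (p1 x) = k1 a x 0)
    (hp2 : ∀ x, e2 (p2 x) = p1 (k2 a x)) (hp3 : ∀ x, e3 (p3 x) = p2 (k3 a x))
    (hp4 : ∀ x, e4 (p4 x) = p3 (k4 a x)) (r : R) (hr : ∀ y, r * e1 y ∈ al a) :
    ∃ (s : Module.Dual R F4) (z : Fin 4 → R), s (p4 (fun _ => 1)) - t4 a z 0 = r := by
  obtain ⟨kinj, kex3, kex2, kex1⟩ := koszul_exact a ha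
  obtain ⟨q1, hq1⟩ : ∃ q1 : F1 →ₗ[R] (Fin 4 → R), ∀ y, k1 a (q1 y) = fun _ => r * e1 y := by
    let b := Module.Free.chooseBasis R F1
    choose x hx using fun j => (mem_al_iff a (r * e1 (b j))).1 (hr (b j))
    refine ⟨b.constr R x, ?_⟩
    have h5 : k1 a ∘ₗ b.constr R x = LinearMap.pi fun _ => r • e1 := by
      apply b.ext
      intro j
      rw [LinearMap.comp_apply, Module.Basis.constr_basis, hx]
      rfl
    intro y
    exact LinearMap.congr_fun h5 y
  obtain ⟨q2, hq2⟩ := exists_lift kex1 (q1 ∘ₗ e2) (fun y => by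
    rw [LinearMap.comp_apply, hq1, h1.apply_apply_eq_zero, mul_zero]; rfl)
  obtain ⟨q3, hq3⟩ := exists_lift kex2 (q2 ∘ₗ e3) (fun y => by
    rw [LinearMap.comp_apply, hq2, LinearMap.comp_apply, h2.apply_apply_eq_zero, map_zero])
  obtain ⟨q4, hq4⟩ := exists_lift kex3 (q3 ∘ₗ e4) (fun y => by
    rw [LinearMap.comp_apply, hq3, LinearMap.comp_apply, h3.apply_apply_eq_zero, map_zero])
  simp only [LinearMap.comp_apply] at hq2 hq3 hq4
  obtain ⟨s1, hs1⟩ := exists_lift kex1 (r • LinearMap.id - q1 ∘ₗ p1) (fun x => by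
    simp only [LinearMap.sub_apply, LinearMap.smul_apply, LinearMap.id_apply,
      LinearMap.comp_apply, map_sub, map_smul, hq1, hp1]
    ext i
    fin_cases i
    simp)
  obtain ⟨s2, hs2⟩ := exists_lift kex2 (r • LinearMap.id - q2 ∘ₗ p2 - s1 ∘ₗ k2 a) (fun x => by
    simp only [LinearMap.sub_apply, LinearMap.smul_apply, LinearMap.id_apply,
      LinearMap.comp_apply, map_sub, map_smul, hq2, hp2, hs1]
    abel)
  obtain ⟨s3, hs3⟩ := exists_lift kex3 (r • LinearMap.id - q3 ∘ₗ p3 - s2 ∘ₗ k3 a) (fun x => by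
    simp only [LinearMap.sub_apply, LinearMap.smul_apply, LinearMap.id_apply,
      LinearMap.comp_apply, map_sub, map_smul, hq3, hp3, hs2, k2_k3, map_zero]
    abel)
  have key : ∀ z, r • z = q4 (p4 z) + s3 (k4 a z) := by
    intro z
    apply kinj
    rw [map_add, hq4, hp4, hs3]
    simp only [LinearMap.sub_apply, LinearMap.smul_apply, LinearMap.id_apply,
      LinearMap.comp_apply, k3_k4, map_zero, map_smul]
    abel
  have h5 := congrFun (key (fun _ => 1)) 0
  have h6 := congrFun (t4_of a (LinearMap.proj 0 ∘ₗ s3)) 0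
  simp only [LinearMap.comp_apply, LinearMap.proj_apply] at h6
  refine ⟨LinearMap.proj 0 ∘ₗ q4, -fun j => s3 (Pi.single j 1) 0, ?_⟩
  rw [map_neg]
  simp only [LinearMap.comp_apply, LinearMap.proj_apply, Pi.neg_apply, sub_neg_eq_add]
  rw [h6]
  simp only [Pi.smul_apply, smul_eq_mul, mul_one, Pi.add_apply] at h5
  exact h5.symm

end LicciCodimFour
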